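import Pool.Agent.H72.RM.RFa
import Pool.Agent.H4.RR.BogKCyc
import Pool.Agent.H4.RR.AbsHeight

/-!
# Module BaseA: uniform height bound on the fields `RF n R`, `R` fixed, `p ∤ n`

`F₀ = RF Ω b 1 R` is a number field (`rf_finite`, finite over `K`). `bogKCyc` (H4 RR BogKCyc) for `F₀`
and `p` gives `κ > 0`. For `n` prime to `p`, `ζ` a primitive `n`-th root of unity in `Ω`, let
`E = IntermediateField.adjoin F₀ {ζ}` (an intermediate field of `Ω / F₀`, number field, `F₀(ζ)`).
`RF Ω b n R` is contained in `E` (as subsets of `Ω`: generators `x^n = 1` are powers of `ζ`, the others lie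
in `F₀`). For `y ∈ RF n R`, `y ≠ 0` not a root of unity, apply `bogKCyc` to `E`, `M = n`, `ζ`, `a = y`,
and `absLogHeight_eq` (`absLogHeight₁ y = logHeight₁ y_E / finrank ℚ E`), as in the proof of
`Pool.Agent.H4.RR.baseK` (file `H4/RR/BaseK.lean`).
-/

set_option autoImplicit false
set_option linter.unusedSectionVars false

open NumberField IntermediateField

namespace Pool.Agent.H72.RM

variable {K Ω : Type} [Field K] [NumberField K] [Field Ω] [CharZero Ω] [IsAlgClosed Ω]
  [Algebra K Ω] [IsGalois K Ω] {r : ℕ}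

theorem base_bog (b : Fin r → K) (R : ℕ) (hR : 1 ≤ R) (p : ℕ) (hp : p.Prime) :
    ∃ κ : ℝ, 0 < κ ∧ ∀ n : ℕ, 1 ≤ n → ¬ p ∣ n → ∀ y ∈ RF Ω b n R, y ≠ 0 →
      (∀ k : ℕ, 1 ≤ k → y ^ k ≠ 1) → κ ≤ absLogHeight₁ y := by
  classical
  let F₀ : IntermediateField K Ω := RF Ω b 1 R
  have hfd : FiniteDimensional K F₀ := rf_finite b 1 R le_rfl hR
  have hfdQ : FiniteDimensional ℚ F₀ := Module.Finite.trans K F₀
  have hnf0 : NumberField F₀ := { to_charZero := inferInstance, to_finiteDimensional := hfdQ }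
  obtain ⟨κ, hκ0, hκ⟩ := Pool.Agent.H4.RR.bogKCyc F₀ p hp
  refine ⟨κ, hκ0, fun n hn hpn y hy hy0 hyk => ?_⟩
  have hne : NeZero n := ⟨by omega⟩
  have hneΩ : NeZero ((n : ℕ) : Ω) := ⟨by exact_mod_cast hne.out⟩
  obtain ⟨ζ, hζ⟩ := HasEnoughRootsOfUnity.exists_primitiveRoot Ω n
  have hint : IsIntegral F₀ ζ :=
    ⟨Polynomial.X ^ n - Polynomial.C 1, Polynomial.monic_X_pow_sub_C _ hne.out,
      by simp [hζ.pow_eq_one]⟩
  let E : IntermediateField F₀ Ω := IntermediateField.adjoin F₀ {ζ}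
  have hfdE : FiniteDimensional F₀ E := adjoin.finiteDimensional hint
  have hfdE' : FiniteDimensional ℚ E := Module.Finite.trans F₀ E
  have hnfE : NumberField E := { to_charZero := inferInstance, to_finiteDimensional := hfdE' }
  have hζE : IsPrimitiveRoot (AdjoinSimple.gen F₀ ζ) n := by
    apply IsPrimitiveRoot.of_map_of_injective (f := algebraMap E Ω)
    · exact hζ
    · exact (algebraMap E Ω).injective
  have htop : IntermediateField.adjoin F₀ {AdjoinSimple.gen F₀ ζ} =
      (⊤ : IntermediateField F₀ E) := by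
    apply IntermediateField.map_injective E.val
    rw [adjoin_map, Set.image_singleton, ← AlgHom.fieldRange_eq_map, fieldRange_val]
    rfl
  have hF₀E : ∀ x : Ω, x ∈ F₀ → x ∈ E := fun x hx => E.algebraMap_mem (⟨x, hx⟩ : F₀)
  have hsub : ∀ x : Ω, x ∈ RF Ω b n R → x ∈ E := by
    intro x hx
    unfold RF at hx
    induction hx using IntermediateField.adjoin_induction with
    | mem z hz =>
      rcases hz with hz | hz | hz
      · obtain ⟨i, _, hi⟩ := hζ.eq_pow_of_pow_eq_one hz
        rw [← hi]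
        exact pow_mem (mem_adjoin_simple_self F₀ ζ) i
      · exact hF₀E z (IntermediateField.subset_adjoin K _ (Or.inr (Or.inl hz)))
      · exact hF₀E z (IntermediateField.subset_adjoin K _ (Or.inr (Or.inr hz)))
    | algebraMap z => exact hF₀E _ (F₀.algebraMap_mem z)
    | add z w _ _ hz hw => exact add_mem hz hw
    | inv z _ hz => exact inv_mem hz
    | mul z w _ _ hz hw => exact mul_mem hz hw
  have hyE := hsub y hy
  have hN : (0 : ℝ) < Module.finrank ℚ E := by exact_mod_cast Module.finrank_pos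
  have h1 : absLogHeight₁ y = Height.logHeight₁ (⟨y, hyE⟩ : E) / Module.finrank ℚ E :=
    Pool.Agent.H4.RR.absLogHeight_eq E Ω (E.val : E →+* Ω) ⟨y, hyE⟩
  rw [h1, le_div_iff₀ hN]
  apply hκ E n (AdjoinSimple.gen F₀ ζ) hn hpn hζE htop
  · intro h
    exact hy0 (congrArg Subtype.val h)
  · intro k hk h
    exact hyk k hk (congrArg Subtype.val h)

end Pool.Agent.H72.RM
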