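import Mathlib

/-!
# Module Dirich: simultaneous Diophantine approximation (qualitative)

Induction on `r`. `r = 0`: `B = 1`, `n = 1`. Step from `r` to `r + 1` for a given `ε`: let `B₁` be the bound
for `r` and `ε / B₂`, where `B₂` is an integer with `1/B₂ ≤ ε` (one-dimensional Dirichlet:
`Real.exists_nat_abs_mul_sub_round_le` or `Real.exists_int_int_abs_mul_sub_le`:
for every real `ξ` there is `1 ≤ n₂ ≤ B₂` with `|n₂ ξ - l| ≤ 1/(B₂ + 1) ≤ ε`). Given `x : Fin (r+1) → ℝ`,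
choose `n₁ ≤ B₁` for `(x 1, .., x r)` with precision `ε / B₂`, then `n₂ ≤ B₂` for `n₁ x 0`, and
`n = n₁ n₂ ≤ B₁ B₂`.
-/

set_option autoImplicit false

namespace Pool.Agent.H72.RM

theorem dirich (r : ℕ) (ε : ℝ) (hε : 0 < ε) : ∃ B : ℕ, 1 ≤ B ∧ ∀ x : Fin r → ℝ,
    ∃ n : ℕ, 1 ≤ n ∧ n ≤ B ∧ ∃ l : Fin r → ℤ, ∀ i, |(n : ℝ) * x i - l i| ≤ ε := by
  induction r generalizing ε with
  | zero => exact ⟨1, le_refl _, fun x => ⟨1, le_refl _, le_refl _, 0, fun i => i.elim0⟩⟩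
  | succ r ih =>
    obtain ⟨B₂, hB₂⟩ := exists_nat_gt (1 / ε)
    have hB₂0 : (0 : ℝ) < B₂ := lt_trans (by positivity) hB₂
    have hB₂1 : 0 < B₂ := by exact_mod_cast hB₂0
    have hB₂ε : 1 / (B₂ : ℝ) ≤ ε := by
      rw [div_le_iff₀ hB₂0]
      rw [div_lt_iff₀ hε] at hB₂
      linarith
    obtain ⟨B₁, hB₁, h₁⟩ := ih (ε / B₂) (by positivity)
    refine ⟨B₁ * B₂, Nat.mul_pos hB₁ hB₂1, fun x => ?_⟩
    obtain ⟨n₁, hn₁, hn₁B, l₁, hl₁⟩ := h₁ (fun i => x i.succ)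
    obtain ⟨n₂, hn₂, hn₂B, hr⟩ := Real.exists_nat_abs_mul_sub_round_le ((n₁ : ℝ) * x 0) hB₂1
    refine ⟨n₁ * n₂, Nat.mul_pos hn₁ hn₂, Nat.mul_le_mul hn₁B hn₂B,
      Fin.cons (round ((n₂ : ℝ) * ((n₁ : ℝ) * x 0))) (fun i => (n₂ : ℤ) * l₁ i), ?_⟩
    intro i
    refine Fin.cases ?_ (fun i => ?_) i
    · simp only [Fin.cons_zero]
      have e : ((n₁ * n₂ : ℕ) : ℝ) * x 0 = (n₂ : ℝ) * ((n₁ : ℝ) * x 0) := by push_cast; ring
      rw [e]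
      refine hr.trans (le_trans ?_ hB₂ε)
      apply one_div_le_one_div_of_le hB₂0
      linarith
    · simp only [Fin.cons_succ]
      have e : ((n₁ * n₂ : ℕ) : ℝ) * x i.succ - (((n₂ : ℤ) * l₁ i : ℤ) : ℝ) =
          (n₂ : ℝ) * ((n₁ : ℝ) * x i.succ - l₁ i) := by push_cast; ring
      rw [e, abs_mul, abs_of_nonneg (Nat.cast_nonneg _)]
      have h2 := hl₁ i
      calc (n₂ : ℝ) * |(n₁ : ℝ) * x i.succ - l₁ i| ≤ B₂ * (ε / B₂) := by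
            apply mul_le_mul _ h2 (abs_nonneg _) hB₂0.le
            exact_mod_cast hn₂B
        _ = ε := by field_simp

end Pool.Agent.H72.RM
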