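import Pool.Agent.H72.RM.Gam
import Pool.Agent.H72.RM.Dirich
import Pool.Agent.H4.RR.AbsHeight

/-!
# Module BaseB: heights on `Γ F` outside the division group

`hinv`: `absLogHeight₁ x⁻¹ = absLogHeight₁ x` (`Height.logHeight₁_inv` and `absLogHeight_eq` in
`ℚ(x)`), hence `absLogHeight₁ (x^m) = |m| absLogHeight₁ x` for `m : ℤ`. All elements of `Ω` are integral
over `ℚ` (`Ω / K` algebraic, `K` a number field).
Let `H = ∑_i absLogHeight₁ (b i)` (as elements of `Ω`), `ε > 0` with `ε H ≤ κ / 2`, `B` from `dirich r ε`,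
`c = κ / (2 B)`. Let `α = γ y`, `γ^N = ∏ (b i)^(m i)`, `N ≥ 1`. Choose `n ≤ B`, `l` with
`|n (m i / N) - l i| ≤ ε`. `x = (∏ (b i)^(l i)) y^n ∈ F`, `x ≠ 0`. `x` is not a root of unity: otherwise
`y^(n k) = ∏ (b i)^(-k l i)` for some `k ≥ 1`, `y ∈ DivG`, `α = γ y ∈ DivG` (`div_mul`), excluded.
So `κ ≤ absLogHeight₁ x`. Now `x = α^n ρ`, `ρ = γ^(-n) ∏ (b i)^(l i)`, `ρ^N = ∏ (b i)^(N l i - n m i)`, so
`N absLogHeight₁ ρ ≤ ∑ |N l i - n m i| absLogHeight₁ (b i) ≤ N ε H`, i.e. `absLogHeight₁ ρ ≤ κ/2`, and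
`κ ≤ n absLogHeight₁ α + κ/2`, `absLogHeight₁ α ≥ κ/(2n) ≥ c`.
-/

set_option autoImplicit false
set_option linter.unusedSectionVars false

open NumberField IntermediateField

namespace Pool.Agent.H72.RM

variable {K Ω : Type} [Field K] [NumberField K] [Field Ω] [CharZero Ω] [IsAlgClosed Ω]
  [Algebra K Ω] [IsGalois K Ω] {r : ℕ}

include K in
private theorem baseB_int (x : Ω) : IsIntegral ℚ x := by
  have h1 : IsIntegral K x := IsGalois.integral K x
  exact isIntegral_trans x h1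

private theorem baseB_rep (x : Ω) (hx : IsIntegral ℚ x) :
    ∃ (E : IntermediateField ℚ Ω) (_ : NumberField E) (a : E), (a : Ω) = x ∧
      ∀ c : E, absLogHeight₁ (c : Ω) = Height.logHeight₁ c / Module.finrank ℚ E := by
  have h1 : FiniteDimensional ℚ (IntermediateField.adjoin ℚ {x}) :=
    IntermediateField.adjoin.finiteDimensional hx
  have h2 : NumberField (IntermediateField.adjoin ℚ {x}) := {}
  refine ⟨IntermediateField.adjoin ℚ {x}, h2, IntermediateField.AdjoinSimple.gen ℚ x, rfl, ?_⟩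
  intro c
  exact Pool.Agent.H4.RR.absLogHeight_eq (IntermediateField.adjoin ℚ {x}) Ω
    (IntermediateField.val (IntermediateField.adjoin ℚ {x})).toRingHom c

private theorem baseB_zpow (x : Ω) (hx : IsIntegral ℚ x) (m : ℤ) :
    absLogHeight₁ (x ^ m) = |(m : ℝ)| * absLogHeight₁ x := by
  obtain ⟨E, _, a, ha, h⟩ := baseB_rep x hx
  have h1 := h a
  have h2 := h (a ^ m)
  have e1 : ((a ^ m : E) : Ω) = x ^ m := by
    rw [← ha]
    exact map_zpow₀ (algebraMap E Ω) a m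
  rw [e1, Height.logHeight₁_zpow] at h2
  rw [ha] at h1
  rw [h1, h2]
  have e2 : ((m.natAbs : ℕ) : ℝ) = |(m : ℝ)| := by
    rw [Nat.cast_natAbs]
    push_cast
    rfl
  rw [e2]
  ring

private theorem baseB_trans (x : Ω) (hx : ¬ IsIntegral ℚ x) : absLogHeight₁ x = 0 := by
  unfold absLogHeight₁ absMulHeight₁
  rw [dif_neg hx, Real.log_one]

theorem absLogHeight_zpow (x : Ω) (m : ℤ) :
    absLogHeight₁ (x ^ m) = |(m : ℝ)| * absLogHeight₁ x := by
  by_cases hx : IsIntegral ℚ x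
  · exact baseB_zpow x hx m
  · rw [baseB_trans x hx, mul_zero]
    by_cases hm : m = 0
    · rw [hm, zpow_zero]
      have h := baseB_zpow (1 : Ω) isIntegral_one 0
      simpa using h
    · apply baseB_trans
      intro h
      apply hx
      rcases lt_or_gt_of_ne hm with h1 | h1
      · obtain ⟨n, hn⟩ := Int.eq_ofNat_of_zero_le (show 0 ≤ -m by omega)
        have h2 : (x ^ m)⁻¹ = x ^ n := by
          rw [← zpow_neg, hn, zpow_natCast]
        have h3 := h.inv
        rw [h2] at h3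
        exact IsIntegral.of_pow (by omega) h3
      · obtain ⟨n, hn⟩ := Int.eq_ofNat_of_zero_le h1.le
        rw [hn, zpow_natCast] at h
        exact IsIntegral.of_pow (by omega) h

include K in
private theorem baseB_nonneg (x : Ω) : 0 ≤ absLogHeight₁ x := by
  obtain ⟨E, _, a, ha, h⟩ := baseB_rep x (baseB_int (K := K) x)
  have h1 := h a
  rw [ha] at h1
  rw [h1]
  exact div_nonneg (Height.zero_le_logHeight₁ a) (Nat.cast_nonneg _)

include K in
private theorem baseB_prod {ι : Type} (s : Finset ι) (f : ι → Ω) :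
    absLogHeight₁ (∏ i ∈ s, f i) ≤ ∑ i ∈ s, absLogHeight₁ (f i) := by
  classical
  induction s using Finset.induction_on with
  | empty =>
    have h := absLogHeight_zpow (1 : Ω) 0
    rw [zpow_zero] at h
    simp only [Int.cast_zero, abs_zero, zero_mul] at h
    simp [h]
  | insert a s ha ih =>
    rw [Finset.prod_insert ha, Finset.sum_insert ha]
    refine (Pool.Agent.H4.RR.absLogHeight_mul_le Ω _ _ (baseB_int (K := K) _)
      (baseB_int (K := K) _)).trans ?_
    linarith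

theorem base_final (b : Fin r → K) (hb : ∀ i, b i ≠ 0) (κ : ℝ) (hκ : 0 < κ) :
    ∃ c : ℝ, 0 < c ∧ ∀ F : IntermediateField K Ω,
      (∀ x ∈ F, x ≠ 0 → (∀ k : ℕ, 1 ≤ k → x ^ k ≠ 1) → κ ≤ absLogHeight₁ x) →
      ∀ γ y : Ω, γ ∈ DivG Ω b → y ∈ F → y ≠ 0 → γ * y ∉ DivG Ω b →
        c ≤ absLogHeight₁ (γ * y) := by
  set β : Fin r → Ω := fun i => algebraMap K Ω (b i) with hβ
  have hβ0 : ∀ i, β i ≠ 0 := by
    intro i
    rw [hβ]
    simp only
    rw [Ne, map_eq_zero]
    exact hb i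
  set H : ℝ := ∑ i, absLogHeight₁ (β i) with hH
  have hH0 : 0 ≤ H := Finset.sum_nonneg fun i _ => baseB_nonneg (K := K) (β i)
  have hε : 0 < κ / (2 * (H + 1)) := by positivity
  obtain ⟨B, hB1, hB⟩ := dirich r (κ / (2 * (H + 1))) hε
  set ε : ℝ := κ / (2 * (H + 1)) with hεdef
  have hεH : ε * H ≤ κ / 2 := by
    rw [hεdef, div_mul_eq_mul_div, div_le_div_iff₀ (by positivity) (by norm_num)]
    nlinarith
  have hB0 : (0 : ℝ) < B := by
    have : 0 < B := hB1
    exact_mod_cast this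
  refine ⟨κ / (2 * B), by positivity, fun F hF γ y hγ hy hy0 hnot => ?_⟩
  have hγ' := hγ
  obtain ⟨N, hN1, m, hm⟩ := hγ'
  have hN0 : (0 : ℝ) < N := by
    have : 0 < N := hN1
    exact_mod_cast this
  have hprod0 : ∀ e : Fin r → ℤ, ∏ i, β i ^ e i ≠ 0 := fun e =>
    Finset.prod_ne_zero_iff.2 fun i _ => zpow_ne_zero _ (hβ0 i)
  have hγ0 : γ ≠ 0 := by
    rintro rfl
    rw [zero_pow (by omega)] at hm
    exact hprod0 m hm.symm
  obtain ⟨n, hn1, hnB, l, hl⟩ := hB (fun i => (m i : ℝ) / N)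
  set x : Ω := (∏ i, β i ^ l i) * y ^ n with hx
  have hxF : x ∈ F := by
    refine mul_mem (prod_mem fun i _ => zpow_mem (F.algebraMap_mem (b i)) _) (pow_mem hy n)
  have hx0 : x ≠ 0 := mul_ne_zero (hprod0 l) (pow_ne_zero _ hy0)
  have hxk : ∀ k : ℕ, 1 ≤ k → x ^ k ≠ 1 := by
    intro k hk hxk
    apply hnot
    refine div_mul hγ ⟨n * k, Nat.mul_pos hn1 hk, fun i => -((k : ℤ) * l i), ?_⟩
    have h1 : (∏ i, β i ^ (l i * (k : ℤ))) * y ^ (n * k) = 1 := by
      rw [hx, mul_pow, ← pow_mul, ← Finset.prod_pow] at hxk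
      rw [← hxk]
      congr 1
      apply Finset.prod_congr rfl
      intro i _
      rw [zpow_mul, zpow_natCast]
    have h2 : (∏ i, β i ^ (-((k : ℤ) * l i))) * (∏ i, β i ^ (l i * (k : ℤ))) = 1 := by
      rw [← Finset.prod_mul_distrib]
      apply Finset.prod_eq_one
      intro i _
      rw [← zpow_add₀ (hβ0 i), mul_comm (l i) (k : ℤ), neg_add_cancel, zpow_zero]
    calc y ^ (n * k) = ((∏ i, β i ^ (-((k : ℤ) * l i))) * (∏ i, β i ^ (l i * (k : ℤ)))) *
          y ^ (n * k) := by rw [h2, one_mul]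
      _ = (∏ i, β i ^ (-((k : ℤ) * l i))) * ((∏ i, β i ^ (l i * (k : ℤ))) * y ^ (n * k)) := by
          ring
      _ = ∏ i, β i ^ (-((k : ℤ) * l i)) := by rw [h1, mul_one]
  have hκx := hF x hxF hx0 hxk
  set ρ : Ω := (∏ i, β i ^ l i) / γ ^ n with hρ
  have hxρ : x = (γ * y) ^ n * ρ := by
    rw [hx, hρ, mul_pow]
    field_simp
  have hρN : ρ ^ N = ∏ i, β i ^ ((N : ℤ) * l i - (n : ℤ) * m i) := by
    have h1 : (γ ^ n) ^ N = ∏ i, β i ^ ((n : ℤ) * m i) := by
      rw [← pow_mul, mul_comm n N, pow_mul, hm, ← Finset.prod_pow]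
      apply Finset.prod_congr rfl
      intro i _
      rw [mul_comm (n : ℤ), zpow_mul, zpow_natCast]
    rw [hρ, div_pow, h1, ← Finset.prod_pow, ← Finset.prod_div_distrib]
    apply Finset.prod_congr rfl
    intro i _
    rw [zpow_sub₀ (hβ0 i), mul_comm (N : ℤ), zpow_mul (β i) (l i) (N : ℤ), zpow_natCast]
  have hρh : absLogHeight₁ ρ ≤ κ / 2 := by
    have h1 : (N : ℝ) * absLogHeight₁ ρ = absLogHeight₁ (ρ ^ N) := by
      rw [Pool.Agent.H4.RR.absLogHeight_pow Ω ρ (baseB_int (K := K) ρ) N]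
    have h2 : absLogHeight₁ (ρ ^ N) ≤ (N : ℝ) * (ε * H) := by
      rw [hρN]
      refine (baseB_prod (K := K) Finset.univ _).trans ?_
      rw [hH, Finset.mul_sum, Finset.mul_sum]
      apply Finset.sum_le_sum
      intro i _
      rw [absLogHeight_zpow]
      rw [← mul_assoc]
      apply mul_le_mul_of_nonneg_right _ (baseB_nonneg (K := K) _)
      have h3 := hl i
      have h4 : (((N : ℤ) * l i - (n : ℤ) * m i : ℤ) : ℝ) =
          -((N : ℝ) * ((n : ℝ) * ((m i : ℝ) / N) - l i)) := by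
        push_cast
        field_simp
        ring
      rw [h4, abs_neg, abs_mul, abs_of_pos hN0]
      exact mul_le_mul_of_nonneg_left h3 hN0.le
    have h5 : (N : ℝ) * absLogHeight₁ ρ ≤ (N : ℝ) * (κ / 2) := by
      rw [h1]
      exact h2.trans (mul_le_mul_of_nonneg_left hεH hN0.le)
    exact le_of_mul_le_mul_left h5 hN0
  have h6 : absLogHeight₁ x ≤ (n : ℝ) * absLogHeight₁ (γ * y) + absLogHeight₁ ρ := by
    rw [hxρ]
    refine (Pool.Agent.H4.RR.absLogHeight_mul_le Ω _ _ (baseB_int (K := K) _)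
      (baseB_int (K := K) _)).trans ?_
    rw [Pool.Agent.H4.RR.absLogHeight_pow Ω _ (baseB_int (K := K) _) n]
  have h7 : (n : ℝ) * absLogHeight₁ (γ * y) ≤ B * absLogHeight₁ (γ * y) :=
    mul_le_mul_of_nonneg_right (by exact_mod_cast hnB) (baseB_nonneg (K := K) _)
  rw [div_le_iff₀ (by positivity)]
  linarith

end Pool.Agent.H72.RM
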