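import Mathlib

/-!
# Module Basis: a basis modulo torsion of a finitely generated commutative group

`A = Additive Λ` is a finitely generated `ℤ`-module; `A / torsion` is finitely generated and torsion
free, hence free of finite rank `r` (`Module.free_of_finite_type_torsion_free'`,
`Submodule.torsion`-quotient: `Submodule.QuotientTorsion.noZeroSMulDivisors`/`Module.Finite`); lift a
basis `b` to `Λ`. For `x ∈ Λ` the class of `x` is `∑ m_i [b_i]`, so `x / ∏ b_i^(m_i)` is torsion; if
`∏ b_i^(m_i)` is torsion then `∑ m_i [b_i] = 0` and all `m_i = 0`. (`IsOfFinOrder` in `G` versus torsion of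
the `ℤ`-module: `n x = 0` with `n ≠ 0` iff `x^|n| = 1`.)
-/

set_option autoImplicit false

namespace Pool.Agent.H72.RM

theorem basis_tors_iff {H : Type} [CommGroup H] (x : H) :
    Additive.ofMul x ∈ Submodule.torsion ℤ (Additive H) ↔ IsOfFinOrder x := by
  rw [Submodule.mem_torsion_iff, isOfFinOrder_iff_zpow_eq_one]
  constructor
  · rintro ⟨a, ha⟩
    refine ⟨(a : ℤ), nonZeroDivisors.coe_ne_zero a, ?_⟩
    have h2 : Additive.ofMul (x ^ (a : ℤ)) = 0 := by
      rw [ofMul_zpow]; exact ha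
    exact h2
  · rintro ⟨n, hn, hx⟩
    refine ⟨⟨n, mem_nonZeroDivisors_of_ne_zero hn⟩, ?_⟩
    have h2 : Additive.ofMul (x ^ n) = 0 := by rw [hx]; rfl
    rw [ofMul_zpow] at h2
    exact h2

theorem sat_basis {G : Type} [CommGroup G] (Λ : Subgroup G) (hΛ : Λ.FG) :
    ∃ (r : ℕ) (b : Fin r → G), (∀ i, b i ∈ Λ) ∧
      (∀ x ∈ Λ, ∃ m : Fin r → ℤ, IsOfFinOrder (x * (∏ i, b i ^ (m i))⁻¹)) ∧
      (∀ m : Fin r → ℤ, IsOfFinOrder (∏ i, b i ^ (m i)) → m = 0) := by
  classical
  haveI hfg : Group.FG Λ := (Group.fg_iff_subgroup_fg Λ).2 hΛ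
  haveI : Module.Finite ℤ (Additive Λ) := Module.Finite.iff_addGroup_fg.2 inferInstance
  let Q := Additive Λ ⧸ Submodule.torsion ℤ (Additive Λ)
  haveI : Module.Finite ℤ Q := inferInstance
  haveI : Module.Free ℤ Q := inferInstance
  let B := Module.finBasis ℤ Q
  have hlift : ∀ i, ∃ a : Λ, Submodule.Quotient.mk (p := Submodule.torsion ℤ (Additive Λ)) (Additive.ofMul a) = B i := by
    intro i
    obtain ⟨a, ha⟩ := Submodule.Quotient.mk_surjective _ (B i)
    exact ⟨Additive.toMul a, ha⟩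
  choose a ha using hlift
  have hmk : ∀ m : Fin (Module.finrank ℤ Q) → ℤ,
      Submodule.Quotient.mk (p := Submodule.torsion ℤ (Additive Λ)) (Additive.ofMul (∏ i, a i ^ (m i)))
        = ∑ i, m i • B i := by
    intro m
    rw [ofMul_prod]
    have : (Submodule.mkQ (Submodule.torsion ℤ (Additive Λ))) (∑ i, Additive.ofMul (a i ^ m i)) = ∑ i, m i • B i := by
      rw [map_sum]
      refine Finset.sum_congr rfl fun i _ => ?_
      rw [ofMul_zpow, map_zsmul]
      congr 1
      exact ha i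
    exact this
  refine ⟨Module.finrank ℤ Q, fun i => (a i : G), fun i => (a i).2, ?_, ?_⟩
  · intro x hx
    let m : Fin (Module.finrank ℤ Q) → ℤ := fun i => B.repr (Submodule.Quotient.mk (Additive.ofMul (⟨x, hx⟩ : Λ))) i
    refine ⟨m, ?_⟩
    have h1 : Submodule.Quotient.mk (p := Submodule.torsion ℤ (Additive Λ)) (Additive.ofMul (⟨x, hx⟩ : Λ)) =
        ∑ i, m i • B i := by
      exact (B.sum_repr _).symm
    rw [← hmk m] at h1
    have h2 := (Submodule.Quotient.eq _).1 h1
    have h3 : Additive.ofMul ((⟨x, hx⟩ : Λ) * (∏ i, a i ^ (m i))⁻¹) ∈ Submodule.torsion ℤ (Additive Λ) := by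
      have : Additive.ofMul ((⟨x, hx⟩ : Λ) * (∏ i, a i ^ (m i))⁻¹) =
        Additive.ofMul (⟨x, hx⟩ : Λ) - Additive.ofMul (∏ i, a i ^ (m i)) := by
        rw [ofMul_mul, ofMul_inv, sub_eq_add_neg]
      rw [this]; exact h2
    rw [basis_tors_iff] at h3
    have h4 := (Subgroup.subtype Λ).isOfFinOrder h3
    simpa using h4
  · intro m hm
    have h1 : IsOfFinOrder (∏ i, a i ^ (m i) : Λ) := by
      have hinj : Function.Injective (Subgroup.subtype Λ) := Subgroup.subtype_injective Λ
      rw [← hinj.isOfFinOrder_iff]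
      simpa using hm
    rw [← basis_tors_iff] at h1
    have h2 : Submodule.Quotient.mk (p := Submodule.torsion ℤ (Additive Λ)) (Additive.ofMul (∏ i, a i ^ (m i))) = 0 :=
      (Submodule.Quotient.mk_eq_zero _).2 h1
    rw [hmk] at h2
    have h3 := Fintype.linearIndependent_iff.1 B.linearIndependent m h2
    funext i
    exact h3 i

end Pool.Agent.H72.RM
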