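import Pool.Agent.H72.RM.Gam
import Pool.Agent.H4.RR.Radical

/-!
# Module Cover: every element of `K(Γ)` lies in some `RF n N`

`IntermediateField.exists_finset_of_mem_adjoin`: `a` lies in `K(y_1, .., y_s)`, `y_j ∈ GammaS`. By
`gam_cover` `y_j ∈ RF b n_j N_j`, `n_j` prime to `S`, `N_j` an `S`-number. `n = ∏ n_j`, `N = ∏ N_j` and
`rf_mono` (induction over the finite set). `q ∣ ∏ n_j` iff `q ∣ n_j` for some `j` (`q` prime).
-/

set_option autoImplicit false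
set_option linter.unusedSectionVars false

open IntermediateField

namespace Pool.Agent.H72.RM

variable {K Ω : Type} [Field K] [Field Ω] [CharZero Ω] [IsAlgClosed Ω] [Algebra K Ω]
  [IsGalois K Ω] {r : ℕ} {b : Fin r → K} {S : Set ℕ}

theorem cover_finset (hb : ∀ i, b i ≠ 0) (s : Finset Ω) (hs : ∀ y ∈ s, y ∈ GammaS Ω b S) :
    ∃ (n N : ℕ), 1 ≤ n ∧ 1 ≤ N ∧ (∀ q ∈ S, q.Prime → ¬ q ∣ n) ∧
      (∀ q : ℕ, q.Prime → q ∣ N → q ∈ S) ∧ ∀ y ∈ s, y ∈ RF Ω b n N := by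
  classical
  induction s using Finset.induction_on with
  | empty =>
    refine ⟨1, 1, le_rfl, le_rfl, ?_, ?_, ?_⟩
    · intro q _ hq h1
      exact hq.one_lt.ne' (Nat.dvd_one.1 h1)
    · intro q hq h1
      exact absurd (Nat.dvd_one.1 h1) hq.one_lt.ne'
    · intro y hy
      exact absurd hy (Finset.notMem_empty y)
  | insert y s hys ih =>
    obtain ⟨n, N, hn, hN, hnS, hNS, hall⟩ := ih (fun z hz => hs z (Finset.mem_insert_of_mem hz))
    obtain ⟨n1, N1, hn1, hN1, hnS1, hNS1, hy1⟩ := gam_cover hb y (hs y (Finset.mem_insert_self _ _))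
    refine ⟨n * n1, N * N1, Nat.mul_pos hn hn1, Nat.mul_pos hN hN1, ?_, ?_, ?_⟩
    · intro q hqS hq h1
      rcases (Nat.Prime.dvd_mul hq).1 h1 with h2 | h2
      · exact hnS q hqS hq h2
      · exact hnS1 q hqS hq h2
    · intro q hq h1
      rcases (Nat.Prime.dvd_mul hq).1 h1 with h2 | h2
      · exact hNS q hq h2
      · exact hNS1 q hq h2
    · intro z hz
      rcases Finset.mem_insert.1 hz with rfl | hz
      · exact rf_mono b n1 N1 _ _ (Dvd.intro_left n rfl) (Dvd.intro_left N rfl)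
          (Nat.mul_pos hn hn1) (Nat.mul_pos hN hN1) hy1
      · exact rf_mono b n N _ _ (Dvd.intro n1 rfl) (Dvd.intro N1 rfl)
          (Nat.mul_pos hn hn1) (Nat.mul_pos hN hN1) (hall z hz)

theorem rad_cover (hb : ∀ i, b i ≠ 0) (T : Set Ω) (hT : T ⊆ GammaS Ω b S) (a : Ω)
    (ha : a ∈ IntermediateField.adjoin K T) :
    ∃ (n N : ℕ), 1 ≤ n ∧ 1 ≤ N ∧ (∀ q ∈ S, q.Prime → ¬ q ∣ n) ∧
      (∀ q : ℕ, q.Prime → q ∣ N → q ∈ S) ∧ a ∈ RF Ω b n N := by
  obtain ⟨t, htT, hat⟩ := IntermediateField.exists_finset_of_mem_adjoin ha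
  obtain ⟨n, N, hn, hN, hnS, hNS, hall⟩ := cover_finset hb t (fun y hy => hT (htT hy))
  refine ⟨n, N, hn, hN, hnS, hNS, ?_⟩
  have h1 : IntermediateField.adjoin K (t : Set Ω) ≤ RF Ω b n N :=
    IntermediateField.adjoin_le_iff.2 (fun y hy => hall y hy)
  exact h1 hat

end Pool.Agent.H72.RM
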