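import Pool.Agent.H72.RM.Cyc

/-!
# Module Res: units of `C` are congruent to roots of unity of order prime to `p`

Let `‖x‖ = 1`. `x` is algebraic over `ℚ_[p]`.
1. There is `N ≥ 1` with `‖x^N - 1‖ < 1`: the finite dimensional algebra `ℚ_[p][x]` is a proper
   space, its unit ball is compact, so two powers of `x` have distance `< 1`.
2. `x^N - 1 = ∏ (x - ζ)` over the `N`-th roots of unity `ζ`, so one factor has norm `< 1`.
3. Write `N = p^e N'`, `p ∤ N'`, and `ζ = ω ξ` with `ω^(N') = 1`, `ξ^(p^e) = 1` (Bezout);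
   `‖ξ - 1‖ < 1` (`norm_pow_sub_one`), so `‖x - ω‖ < 1`.
-/

set_option autoImplicit false
set_option linter.unusedSectionVars false

open IntermediateField Filter Topology

namespace Pool.Agent.H72.RM

variable {p : ℕ} [Fact p.Prime] {C : Type} [NormedField C] [NormedAlgebra ℚ_[p] C]
  [IsUltrametricDist C] [IsAlgClosed C] [Algebra.IsAlgebraic ℚ_[p] C] [IsoEnv p C]

/-- compactness of the unit ball of a finite dimensional subspace -/
theorem res_compact {k V : Type} [NontriviallyNormedField k] [ProperSpace k]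
    [NormedAddCommGroup V] [NormedSpace k V] (E : Submodule k V) [FiniteDimensional k E]
    (s : ℕ → V) (hs : ∀ n, s n ∈ E) (hb : ∀ n, ‖s n‖ ≤ 1) :
    ∃ i j : ℕ, i < j ∧ ‖s j - s i‖ < 1 := by
  have : ProperSpace E := FiniteDimensional.proper k E
  have hball : ∀ n : ℕ, (⟨s n, hs n⟩ : E) ∈ Metric.closedBall (0 : E) 1 := by
    intro n
    rw [mem_closedBall_zero_iff]
    exact hb n
  obtain ⟨a, -, φ, hφ, hlim⟩ := (isCompact_closedBall (0 : E) 1).tendsto_subseq hball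
  have hC := hlim.cauchySeq
  rw [Metric.cauchySeq_iff] at hC
  obtain ⟨M, hM⟩ := hC 1 one_pos
  have h1 := hM (M + 1) (by omega) M le_rfl
  refine ⟨φ M, φ (M + 1), hφ (Nat.lt_succ_self M), ?_⟩
  rw [dist_eq_norm] at h1
  exact h1

include p in
theorem res_pow (x : C) (hx : ‖x‖ = 1) : ∃ N : ℕ, 1 ≤ N ∧ ‖x ^ N - 1‖ < 1 := by
  have hint : IsIntegral ℚ_[p] x := (Algebra.IsAlgebraic.isAlgebraic x).isIntegral
  have hfin : Module.Finite ℚ_[p] (Subalgebra.toSubmodule (Algebra.adjoin ℚ_[p] {x})) :=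
    Module.Finite.iff_fg.mpr hint.fg_adjoin_singleton
  have hmem : ∀ n : ℕ, x ^ n ∈ Subalgebra.toSubmodule (Algebra.adjoin ℚ_[p] {x}) := by
    intro n
    rw [Subalgebra.mem_toSubmodule]
    exact pow_mem (Algebra.self_mem_adjoin_singleton ℚ_[p] x) n
  have hb : ∀ n : ℕ, ‖x ^ n‖ ≤ 1 := fun n => by rw [norm_pow, hx, one_pow]
  obtain ⟨i, j, hij, h2⟩ := res_compact (k := ℚ_[p]) (V := C)
    (Subalgebra.toSubmodule (Algebra.adjoin ℚ_[p] {x})) (fun n => x ^ n) hmem hb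
  refine ⟨j - i, by omega, ?_⟩
  have h3 : x ^ j - x ^ i = x ^ i * (x ^ (j - i) - 1) := by
    rw [mul_sub, ← pow_add, mul_one, Nat.add_sub_cancel' hij.le]
  rw [h3, norm_mul, norm_pow, hx, one_pow, one_mul] at h2
  exact h2

/-- one of the factors is small -/
theorem res_root (x : C) (N : ℕ) (hN : 1 ≤ N) (h : ‖x ^ N - 1‖ < 1) :
    ∃ ζ : C, ζ ^ N = 1 ∧ ‖x - ζ‖ < 1 := by
  by_contra hcon
  push Not at hcon
  set f : Polynomial C := Polynomial.X ^ N - 1 with hf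
  have hmon : f.Monic := Polynomial.monic_X_pow_sub_C (1 : C) (by omega)
  have hs : f.Splits := IsAlgClosed.splits f
  have h1 : f.eval x = x ^ N - 1 := by simp [hf]
  have h2 := hs.eval_eq_prod_roots_of_monic hmon x
  rw [h1] at h2
  have h3 : ∀ s : Multiset C, (∀ ζ ∈ s, 1 ≤ ‖x - ζ‖) → 1 ≤ ‖(s.map (x - ·)).prod‖ := by
    intro s
    induction s using Multiset.induction with
    | empty => intro _; simp
    | cons a s ih =>
      intro hs
      rw [Multiset.map_cons, Multiset.prod_cons, norm_mul]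
      have e1 := hs a (Multiset.mem_cons_self a s)
      have e2 := ih (fun ζ hζ => hs ζ (Multiset.mem_cons_of_mem hζ))
      nlinarith
  have h4 := h3 f.roots (by
    intro ζ hζ
    apply hcon
    have h5 := (Polynomial.mem_roots hmon.ne_zero).mp hζ
    rw [Polynomial.IsRoot, hf] at h5
    simp only [Polynomial.eval_sub, Polynomial.eval_pow, Polynomial.eval_X,
      Polynomial.eval_one] at h5
    exact sub_eq_zero.mp h5)
  rw [h2] at h
  linarith

theorem res_tame (x : C) (hx : ‖x‖ = 1) : ∃ ω ∈ tame p C, ‖x - ω‖ < 1 := by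
  obtain ⟨N, hN, hxN⟩ := res_pow (p := p) x hx
  obtain ⟨ζ, hζ, hxζ⟩ := res_root x N hN hxN
  have hp : p.Prime := Fact.out
  obtain ⟨e, N', hN', hNe⟩ := Nat.exists_eq_pow_mul_and_not_dvd (by omega : N ≠ 0) p hp.ne_one
  have hcop : Nat.Coprime (p ^ e) N' := Nat.Coprime.pow_left e ((Nat.Prime.coprime_iff_not_dvd hp).mpr hN')
  have hζ0 : ζ ≠ 0 := by
    rintro rfl
    rw [zero_pow (by omega)] at hζ
    exact zero_ne_one hζ
  have hbez : ((p ^ e : ℕ) : ℤ) * Nat.gcdA (p ^ e) N' + (N' : ℤ) * Nat.gcdB (p ^ e) N' = 1 := by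
    have := Nat.gcd_eq_gcd_ab (p ^ e) N'
    rw [hcop] at this
    rw [← this]
    rfl
  set u := Nat.gcdA (p ^ e) N'
  set v := Nat.gcdB (p ^ e) N'
  set ω := ζ ^ (((p ^ e : ℕ) : ℤ) * u) with hω
  set ξ := ζ ^ ((N' : ℤ) * v) with hξ
  have hprod : ζ = ω * ξ := by
    rw [hω, hξ, ← zpow_add₀ hζ0, hbez, zpow_one]
  have hzN : ζ ^ ((N : ℕ) : ℤ) = 1 := by rw [zpow_natCast, hζ]
  have hω1 : ω ^ N' = 1 := by
    rw [hω, ← zpow_natCast, ← zpow_mul]
    have : ((p ^ e : ℕ) : ℤ) * u * (N' : ℤ) = ((N : ℕ) : ℤ) * u := by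
      rw [hNe]; push_cast; ring
    rw [this, zpow_mul, hzN, one_zpow]
  have hξ1 : ξ ^ (p ^ e) = 1 := by
    rw [hξ, ← zpow_natCast, ← zpow_mul]
    have : (N' : ℤ) * v * ((p ^ e : ℕ) : ℤ) = ((N : ℕ) : ℤ) * v := by
      rw [hNe]; push_cast; ring
    rw [this, zpow_mul, hzN, one_zpow]
  have hωt : ω ∈ tame p C := ⟨N', hN', hω1⟩
  refine ⟨ω, hωt, ?_⟩
  have h1 : ‖ξ - 1‖ < 1 := norm_pow_sub_one (p := p) e ξ hξ1
  have h2 : ‖ζ - ω‖ < 1 := by
    have : ζ - ω = ω * (ξ - 1) := by rw [mul_sub, mul_one, ← hprod]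
    rw [this, norm_mul, norm_of_mem_tame hωt, one_mul]
    exact h1
  have h3 : x - ω = (x - ζ) + (ζ - ω) := by ring
  rw [h3]
  exact (IsUltrametricDist.norm_add_le_max _ _).trans_lt (max_lt hxζ h2)

end Pool.Agent.H72.RM
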