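import Pool.Agent.H72.RM.Defs

/-!
# Module Um: absolute values of `y - 1`, `y ^ (p^m) = v`, `‖v - 1‖ = 1/p`

Induction on `m` (generalising `y`). `m = 0` is clear. Step: `w = y ^ p`, `w ^ (p^m) = v`, so
`‖w - 1‖ ^ (p^m) = 1/p`; in particular `1/p ≤ ‖w - 1‖ < 1`. `‖v‖ = 1`, so `‖y‖ = 1` and for `t = y - 1`
`‖t‖ ≤ 1`. `w - 1 = (1 + t)^p - 1 = t^p + p t z` with `‖z‖ ≤ 1` (`add_pow`, or `exists_add_pow_prime_eq`).
If `‖t‖^p ≤ ‖t‖/p` then `‖w - 1‖ ≤ ‖t‖/p`; `‖t‖ < 1` would give `‖w - 1‖ < 1/p` (contradiction), and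
`‖t‖ = 1` contradicts `‖t‖^p ≤ ‖t‖/p`. So `‖t‖^p > ‖t‖/p`, hence `‖w - 1‖ = ‖t‖^p`
(ultrametric, strict maximum) and `‖t‖^(p^(m+1)) = ‖w - 1‖^(p^m) = 1/p`.
-/

set_option autoImplicit false
set_option linter.unusedSectionVars false

namespace Pool.Agent.H72.RM

variable {p : ℕ} [Fact p.Prime] {C : Type} [NormedField C] [NormedAlgebra ℚ_[p] C]
  [IsUltrametricDist C] [IsAlgClosed C] [Algebra.IsAlgebraic ℚ_[p] C] [IsoEnv p C]

theorem norm_root_sub_one (v : C) (hv : ‖v - 1‖ = 1 / (p : ℝ)) (m : ℕ) (y : C)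
    (hy : y ^ (p ^ m) = v) : ‖y - 1‖ ^ (p ^ m) = 1 / (p : ℝ) := by
  have hp : p.Prime := Fact.out
  have hpR : (1 : ℝ) < p := by exact_mod_cast hp.one_lt
  have hp0 : (0 : ℝ) < p := by linarith
  have hinv : (1 : ℝ) / p < 1 := by
    rw [div_lt_one hp0]
    exact hpR
  have hv1 : ‖v‖ = 1 := by
    have h1 : ‖v - 1‖ < ‖(1 : C)‖ := by
      rw [hv, norm_one]
      exact hinv
    have h2 : v = (v - 1) + 1 := by ring
    rw [h2, IsUltrametricDist.norm_add_eq_max_of_norm_ne_norm h1.ne, max_eq_right h1.le, norm_one]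
  induction m generalizing y with
  | zero =>
    rw [pow_zero, pow_one] at hy
    rw [hy, pow_zero, pow_one, hv]
  | succ m ih =>
    have hw : (y ^ p) ^ (p ^ m) = v := by
      rw [← pow_mul, ← pow_succ', hy]
    have h1 := ih (y ^ p) hw
    have hpm : p ^ m ≠ 0 := (pow_pos hp.pos m).ne'
    have hwlt : ‖y ^ p - 1‖ < 1 := by
      by_contra h2
      have h3 := one_le_pow₀ (n := p ^ m) (not_lt.1 h2)
      rw [h1] at h3
      linarith
    have hwge : 1 / (p : ℝ) ≤ ‖y ^ p - 1‖ := by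
      calc 1 / (p : ℝ) = ‖y ^ p - 1‖ ^ (p ^ m) := h1.symm
        _ ≤ ‖y ^ p - 1‖ ^ 1 := pow_le_pow_of_le_one (norm_nonneg _) hwlt.le
            (Nat.one_le_iff_ne_zero.2 hpm)
        _ = ‖y ^ p - 1‖ := pow_one _
    have hy1 : ‖y‖ = 1 := by
      have h2 := congrArg norm hy
      rw [norm_pow, hv1] at h2
      exact (pow_eq_one_iff_of_nonneg (norm_nonneg y) (pow_pos hp.pos (m + 1)).ne').1 h2
    have ht1 : ‖y - 1‖ ≤ 1 := by
      have h2 := IsUltrametricDist.norm_add_le_max y (-1 : C)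
      rwa [hy1, norm_neg, norm_one, max_self, ← sub_eq_add_neg] at h2
    -- w - 1 = t ^ p + p t z
    obtain ⟨z, hz1, hz2⟩ : ∃ z : C, ‖z‖ ≤ 1 ∧ y ^ p - 1 = (y - 1) ^ p + (p : C) * (y - 1) * z := by
      refine ⟨∑ k ∈ Finset.Ico 1 p, ((p.choose k / p : ℕ) : C) * (y - 1) ^ (k - 1), ?_, ?_⟩
      · refine IsUltrametricDist.norm_sum_le_of_forall_le_of_nonneg zero_le_one (fun k _ => ?_)
        rw [norm_mul, norm_pow]
        have h2 : ‖((p.choose k / p : ℕ) : C)‖ ≤ 1 := IsUltrametricDist.norm_natCast_le_one C _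
        have h3 : ‖y - 1‖ ^ (k - 1) ≤ 1 := pow_le_one₀ (norm_nonneg _) ht1
        exact mul_le_one₀ h2 (pow_nonneg (norm_nonneg _) _) h3
      · have h2 : y ^ p = ((y - 1) + 1) ^ p := by ring
        rw [h2, add_pow]
        have h3 : Finset.range (p + 1) = insert 0 (insert p (Finset.Ico 1 p)) := by
          ext k
          simp only [Finset.mem_range, Finset.mem_insert, Finset.mem_Ico]
          have := hp.pos
          omega
        rw [h3, Finset.sum_insert, Finset.sum_insert]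
        · rw [Finset.mul_sum]
          have h4 : ∑ k ∈ Finset.Ico 1 p, (y - 1) ^ k * 1 ^ (p - k) * ((p.choose k : ℕ) : C)
              = ∑ k ∈ Finset.Ico 1 p,
                (p : C) * (y - 1) * (((p.choose k / p : ℕ) : C) * (y - 1) ^ (k - 1)) := by
            refine Finset.sum_congr rfl (fun k hk => ?_)
            rw [Finset.mem_Ico] at hk
            have h5 : p ∣ p.choose k := hp.dvd_choose_self (by omega) hk.2
            have h6 : ((p.choose k : ℕ) : C) = (p : C) * ((p.choose k / p : ℕ) : C) := by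
              rw [← Nat.cast_mul, Nat.mul_div_cancel' h5]
            have h7 : (y - 1) ^ k = (y - 1) * (y - 1) ^ (k - 1) := by
              rw [← pow_succ', Nat.sub_add_cancel hk.1]
            rw [h6, h7, one_pow]
            ring
          rw [h4]
          simp
        · simp
        · simp only [Finset.mem_insert, Finset.mem_Ico, not_or]
          exact ⟨hp.pos.ne, by omega⟩
    have hnp : ‖(p : C)‖ = 1 / (p : ℝ) := norm_p
    have hbound : ‖(p : C) * (y - 1) * z‖ ≤ ‖y - 1‖ / p := by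
      rw [norm_mul, norm_mul, hnp]
      calc 1 / (p : ℝ) * ‖y - 1‖ * ‖z‖ ≤ 1 / (p : ℝ) * ‖y - 1‖ * 1 := by
            refine mul_le_mul_of_nonneg_left hz1 ?_
            positivity
        _ = ‖y - 1‖ / p := by ring
    have hlt : ‖y - 1‖ / p < ‖y - 1‖ ^ p := by
      by_contra h2
      rw [not_lt] at h2
      have h3 : ‖y ^ p - 1‖ ≤ ‖y - 1‖ / p := by
        rw [hz2]
        refine (IsUltrametricDist.norm_add_le_max _ _).trans (max_le ?_ hbound)
        rw [norm_pow]
        exact h2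
      rcases ht1.lt_or_eq with h4 | h4
      · have h5 : ‖y - 1‖ / p < 1 / p := by
          exact (div_lt_div_iff_of_pos_right hp0).2 h4
        linarith
      · rw [h4, one_pow] at h2
        linarith
    have heq : ‖y ^ p - 1‖ = ‖y - 1‖ ^ p := by
      rw [hz2, IsUltrametricDist.norm_add_eq_max_of_norm_ne_norm, norm_pow, max_eq_left]
      · linarith
      · rw [norm_pow]
        exact (hbound.trans_lt hlt).ne'
    rw [pow_succ', pow_mul, ← heq, h1]

end Pool.Agent.H72.RM
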