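import Pool.Agent.H72.RM.Unr
import Pool.Agent.H72.RM.Um

/-!
# Module VInd: `v`, `‖v - 1‖ = 1/p`, is not a `p`-th power in `Wnr`; no `p`-power roots of unity in `Wnr`

`v_ind`: let `y ∈ Wnr`, `y^p = v^n`, `p ∤ n`. Bezout `i n + j p = 1`: `v = (y^i v^j)^p =: z^p`,
`z ∈ Wnr`. `norm_root_sub_one` with `m = 1`: `‖z - 1‖^p = 1/p`; `z ≠ 1` and `‖z - 1‖ = p^k`, `k : ℤ`, by
`unr_value`, so `k p = -1`, a contradiction (`p ≥ 2`).
`wnr_p_torsion`: let `ξ ∈ Wnr`, `ξ^(p^j) = 1`, `ξ ≠ 1`; a power `ξ'` of `ξ` is a primitive `p`-th root of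
unity, `‖ξ' - 1‖^(p-1) = 1/p` (`norm_zeta_sub_one`, `j = 1`), and `‖ξ' - 1‖ = p^k`, so `k (p-1) = -1`,
impossible for `p ≥ 3`.
`v_ind_pow`: `y ∈ Wnr`, `y^(p^j) = v^n` implies `p^j ∣ n`: induction on `j`: `y^(p^(j+1)) = v^n`, by
`v_ind` (for `y^(p^j)`) `n = p n'`, `(y^(p^j) / v^(n'))^p = 1` and `y^(p^j) / v^(n') ∈ Wnr`, so it is `1` by
`wnr_p_torsion`, and the induction hypothesis gives `p^j ∣ n'`.
-/

set_option autoImplicit false
set_option linter.unusedSectionVars false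

open IntermediateField

namespace Pool.Agent.H72.RM

variable {p : ℕ} [Fact p.Prime] {C : Type} [NormedField C] [NormedAlgebra ℚ_[p] C]
  [IsUltrametricDist C] [IsAlgClosed C] [Algebra.IsAlgebraic ℚ_[p] C] [IsoEnv p C]

theorem zpow_pow_ne (x : C) (hx : x ∈ Wnr p C) (hx0 : x ≠ 0) (n : ℕ) (hn : 2 ≤ n)
    (h : ‖x‖ ^ n = 1 / (p : ℝ)) : False := by
  have hp : p.Prime := Fact.out
  have hp1 : (1 : ℝ) < p := by exact_mod_cast hp.one_lt
  obtain ⟨k, hk⟩ := unr_value (p := p) x hx hx0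
  have h2 : (p : ℝ) ^ (k * (n : ℤ)) = (p : ℝ) ^ (-1 : ℤ) := by
    rw [zpow_mul, ← hk, zpow_natCast, h, zpow_neg_one, one_div]
  have h3 : k * (n : ℤ) = -1 := zpow_right_injective₀ (by linarith) hp1.ne' h2
  have h4 : (n : ℤ) ∣ -1 := Dvd.intro_left k h3
  have h5 : (n : ℤ) ∣ 1 := by
    rwa [dvd_neg] at h4
  have h6 : n ∣ 1 := by exact_mod_cast h5
  have h7 := Nat.dvd_one.1 h6
  omega

theorem v_ind (v : C) (hv : v ∈ Wnr p C) (hv1 : ‖v - 1‖ = 1 / (p : ℝ)) (n : ℤ) (y : C)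
    (hy : y ∈ Wnr p C) (h : y ^ p = v ^ n) : (p : ℤ) ∣ n := by
  classical
  have hp : p.Prime := Fact.out
  by_contra hn
  have hcop : IsCoprime (p : ℤ) n := by
    rw [Int.isCoprime_iff_gcd_eq_one]
    exact (Nat.Prime.coprime_iff_not_dvd hp).2 (fun h1 => hn (Int.natCast_dvd.2 h1))
  obtain ⟨j, i, hij⟩ := hcop
  have hp0 : (0 : ℝ) < p := by exact_mod_cast hp.pos
  have hp1 : (1 : ℝ) < p := by exact_mod_cast hp.one_lt
  have hinv : (1 : ℝ) / p < 1 := by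
    rw [div_lt_one hp0]
    exact hp1
  have hv0 : v ≠ 0 := by
    rintro rfl
    rw [zero_sub, norm_neg, norm_one] at hv1
    linarith
  have hy0 : y ≠ 0 := by
    rintro rfl
    rw [zero_pow hp.ne_zero] at h
    exact zpow_ne_zero n hv0 h.symm
  have hz : (y ^ i * v ^ j) ^ p = v := by
    rw [mul_pow, ← zpow_natCast (y ^ i), ← zpow_natCast (v ^ j), ← zpow_mul, ← zpow_mul,
      mul_comm i, zpow_mul, zpow_natCast, h, ← zpow_mul, ← zpow_add₀ hv0]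
    have h1 : n * i + j * (p : ℤ) = 1 := by rw [← hij]; ring
    rw [h1, zpow_one]
  have hzW : y ^ i * v ^ j ∈ Wnr p C := mul_mem (zpow_mem hy i) (zpow_mem hv j)
  have h1 := norm_root_sub_one (p := p) v hv1 1 (y ^ i * v ^ j) (by rw [pow_one]; exact hz)
  rw [pow_one] at h1
  refine zpow_pow_ne (p := p) (y ^ i * v ^ j - 1) (sub_mem hzW (one_mem _)) ?_ p hp.two_le h1
  intro h2
  rw [h2, norm_zero, zero_pow hp.ne_zero] at h1
  have : (0 : ℝ) < 1 / p := by positivity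
  linarith

theorem wnr_p_torsion (hp2 : p ≠ 2) (j : ℕ) (ξ : C) (hξ : ξ ∈ Wnr p C) (h : ξ ^ (p ^ j) = 1) :
    ξ = 1 := by
  classical
  have hp : p.Prime := Fact.out
  have hp3 : 3 ≤ p := by
    have := hp.two_le
    omega
  induction j with
  | zero => simpa using h
  | succ j ih =>
    apply ih
    by_contra hne
    have h1 : IsPrimitiveRoot (ξ ^ (p ^ j)) (p ^ 1) := by
      rw [pow_one]
      have h2 : (ξ ^ (p ^ j)) ^ p = 1 := by rw [← pow_mul, ← pow_succ, h]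
      have h3 : orderOf (ξ ^ (p ^ j)) = p := orderOf_eq_prime h2 hne
      have h5 := IsPrimitiveRoot.orderOf (ξ ^ (p ^ j))
      rwa [h3] at h5
    have h4 := norm_zeta_sub_one (p := p) 1 le_rfl _ h1
    rw [Nat.sub_self, pow_zero, one_mul] at h4
    have hW : ξ ^ (p ^ j) - 1 ∈ Wnr p C := sub_mem (pow_mem hξ _) (one_mem _)
    exact zpow_pow_ne (p := p) _ hW (sub_ne_zero.2 hne) (p - 1) (by omega) h4

theorem v_ind_pow (hp2 : p ≠ 2) (v : C) (hv : v ∈ Wnr p C) (hv1 : ‖v - 1‖ = 1 / (p : ℝ)) (j : ℕ)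
    (n : ℤ) (y : C) (hy : y ∈ Wnr p C) (h : y ^ (p ^ j) = v ^ n) : (p : ℤ) ^ j ∣ n := by
  classical
  have hp : p.Prime := Fact.out
  have hp0 : (0 : ℝ) < p := by exact_mod_cast hp.pos
  have hp1 : (1 : ℝ) < p := by exact_mod_cast hp.one_lt
  have hv0 : v ≠ 0 := by
    rintro rfl
    rw [zero_sub, norm_neg, norm_one] at hv1
    have hinv : (1 : ℝ) / p < 1 := by
      rw [div_lt_one hp0]
      exact hp1
    linarith
  induction j generalizing n with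
  | zero => simp
  | succ j ih =>
    have h1 : (y ^ (p ^ j)) ^ p = v ^ n := by rw [← pow_mul, ← pow_succ, h]
    obtain ⟨n', hn'⟩ := v_ind (p := p) v hv hv1 n (y ^ (p ^ j)) (pow_mem hy _) h1
    have h2 : (y ^ (p ^ j) / v ^ n') ^ (p ^ 1) = 1 := by
      rw [pow_one, div_pow, h1, hn', ← zpow_natCast (v ^ n'), ← zpow_mul, mul_comm n']
      exact div_self (zpow_ne_zero _ hv0)
    have h3 := wnr_p_torsion (p := p) hp2 1 _ (div_mem (pow_mem hy _) (zpow_mem hv n')) h2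
    have h4 : y ^ (p ^ j) = v ^ n' := by
      rwa [div_eq_one_iff_eq (zpow_ne_zero _ hv0)] at h3
    obtain ⟨m, hm⟩ := ih n' h4
    refine ⟨m, ?_⟩
    rw [hn', hm, pow_succ']
    ring

end Pool.Agent.H72.RM
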