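import Pool.Agent.H72.RM.QpRoots
import Pool.Agent.H72.RM.VInd
import Pool.Agent.H72.RM.Res

/-!
# Module StarA: units of `Wnr` with a power in `ℚ_p`

`x ∈ Wnr`, `‖x‖ = 1`, `x^n = y ∈ ℚ_[p]`, `n ≥ 1`. Write `n = p^j n'`, `p ∤ n'`. `‖y‖ = 1`, so
`‖y^(p-1) - 1‖ ≤ 1/p` (Fermat in `ℤ_[p]/p`; `PadicInt.toZMod`). `qp_root` with the exponent `n'(p-1)`
gives `s ∈ ℚ_[p]`, `‖s - 1‖ ≤ 1/p`, `s^(n'(p-1)) = y^(p-1)`. So `(x^(p^j) / s)^(n'(p-1)) = 1`:
`x^(p^j) = ω₁ s`, `ω₁ ∈ tame p C`. Choose `ω ∈ tame p C` (a power of `ω₁`) with `ω^(p^j) = ω₁`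
(`tame_root`). By `qp_struct` with exponent `j + k`: `s = u^l t^(p^(j+k))`, `u = 1 + p`. So
`(x / (ω t^(p^k)))^(p^j) = u^l`, where `x/(ω t^(p^k)) ∈ Wnr`, and `‖u - 1‖ = 1/p`, so `l = p^j l'` by
`v_ind_pow`, and `x / (ω t^(p^k) u^(l'))` is a `p^j`-th root of unity in `Wnr`, hence `1`
(`wnr_p_torsion`).
`tame_root`: `ω₁^n = 1`, `p ∤ n`; choose `e` with `e p^j ≡ 1 mod n` and `ω = ω₁^e`.
-/

set_option autoImplicit false
set_option linter.unusedSectionVars false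

open IntermediateField

namespace Pool.Agent.H72.RM

variable {p : ℕ} [Fact p.Prime] {C : Type} [NormedField C] [NormedAlgebra ℚ_[p] C]
  [IsUltrametricDist C] [IsAlgClosed C] [Algebra.IsAlgebraic ℚ_[p] C] [IsoEnv p C]

theorem tame_root (ω₁ : C) (h : ω₁ ∈ tame p C) (j : ℕ) : ∃ ω ∈ tame p C, ω ^ (p ^ j) = ω₁ := by
  have h0 : ω₁ ≠ 0 := ne_zero_of_mem_tame h
  obtain ⟨n, hn, hω⟩ := h
  have hp : p.Prime := Fact.out
  have hcop : Nat.Coprime (p ^ j) n := Nat.Coprime.pow_left j ((Nat.Prime.coprime_iff_not_dvd hp).2 hn)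
  have hc : IsCoprime ((p ^ j : ℕ) : ℤ) (n : ℤ) := Nat.isCoprime_iff_coprime.2 hcop
  obtain ⟨a, b, hab⟩ := hc
  refine ⟨ω₁ ^ a, ⟨n, hn, ?_⟩, ?_⟩
  · rw [← zpow_natCast, ← zpow_mul, mul_comm, zpow_mul, zpow_natCast, hω, one_zpow]
  · rw [← zpow_natCast, ← zpow_mul]
    have : a * ((p ^ j : ℕ) : ℤ) = 1 - (n : ℤ) * b := by linarith
    rw [this, zpow_sub₀ h0, zpow_one, zpow_mul, zpow_natCast, hω, one_zpow, div_one]

/-- Fermat for units of `ℚ_p` -/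
theorem fermat_unit (y : ℚ_[p]) (hy : ‖y‖ = 1) : ‖y ^ (p - 1) - 1‖ ≤ 1 / (p : ℝ) := by
  have hp : p.Prime := Fact.out
  set c : ℤ_[p] := ⟨y, hy.le⟩ with hc
  have h1 : PadicInt.toZMod c ≠ 0 := by
    intro h2
    have h3 : c ∈ RingHom.ker (PadicInt.toZMod (p := p)) := h2
    rw [PadicInt.ker_toZMod, PadicInt.maximalIdeal_eq_span_p, Ideal.mem_span_singleton] at h3
    have h4 := PadicInt.norm_lt_one_iff_dvd c
    have h5 : ‖c‖ < 1 := h4.2 h3
    have h6 : ‖c‖ = 1 := hy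
    linarith
  have h2 : PadicInt.toZMod (c ^ (p - 1) - 1) = 0 := by
    rw [map_sub, map_pow, ZMod.pow_card_sub_one_eq_one h1, map_one, sub_self]
  have h3 : c ^ (p - 1) - 1 ∈ RingHom.ker (PadicInt.toZMod (p := p)) := h2
  rw [PadicInt.ker_toZMod, PadicInt.maximalIdeal_eq_span_p, Ideal.mem_span_singleton] at h3
  obtain ⟨d, hd⟩ := h3
  have h4 : ((c ^ (p - 1) - 1 : ℤ_[p]) : ℚ_[p]) = y ^ (p - 1) - 1 := by
    push_cast
    rfl
  rw [← h4, hd]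
  push_cast
  rw [norm_mul, Padic.norm_p, one_div]
  exact mul_le_of_le_one_right (by positivity) (PadicInt.norm_le_one d)

theorem star_A (hp2 : p ≠ 2) (x : C) (hx : x ∈ Wnr p C) (hx1 : ‖x‖ = 1) (n : ℕ) (hn : 1 ≤ n)
    (y : ℚ_[p]) (hxy : x ^ n = algebraMap ℚ_[p] C y) (k : ℕ) :
    ∃ ω ∈ tame p C, ∃ l : ℤ, ∃ t ∈ Wnr p C, x = ω * (1 + (p : C)) ^ l * t ^ (p ^ k) := by
  have hp : p.Prime := Fact.out
  have hp1 : (1 : ℝ) < p := by exact_mod_cast hp.one_lt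
  obtain ⟨j, n', hn', hnn⟩ := Nat.exists_eq_pow_mul_and_not_dvd (by omega : n ≠ 0) p hp.ne_one
  have hn'0 : n' ≠ 0 := by
    rintro rfl
    exact hn' (dvd_zero p)
  have hy1 : ‖y‖ = 1 := by
    have h1 := congrArg norm hxy
    rw [norm_pow, hx1, one_pow, norm_algebraMap'] at h1
    exact h1.symm
  have hndvd : ¬ p ∣ n' * (p - 1) := by
    intro h1
    rcases hp.dvd_mul.1 h1 with h1 | h1
    · exact hn' h1
    · have := Nat.le_of_dvd (by have := hp.two_le; omega) h1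
      have := hp.two_le
      omega
  obtain ⟨s, hs1, hs⟩ := qp_root (y ^ (p - 1)) (fermat_unit y hy1) (n' * (p - 1)) hndvd
  obtain ⟨l, t, ht1, ht⟩ := qp_struct hp2 (j + k) s hs1
  have hs0 : s ≠ 0 := by
    rintro rfl
    rw [zero_pow (by rintro h; exact hndvd (h ▸ dvd_zero p))] at hs
    have h1 := congrArg norm hs
    rw [norm_zero, norm_pow, hy1, one_pow] at h1
    exact zero_ne_one h1
  have ht0 : t ≠ 0 := by
    rintro rfl
    rw [zero_sub, norm_neg, norm_one] at ht1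
    have : (1 : ℝ) / p < 1 := by
      rw [div_lt_one (by linarith)]
      exact hp1
    linarith
  have hsC : algebraMap ℚ_[p] C s ≠ 0 := by
    rw [Ne, map_eq_zero]
    exact hs0
  have htC : algebraMap ℚ_[p] C t ≠ 0 := by
    rw [Ne, map_eq_zero]
    exact ht0
  -- the tame part
  have hω₁ : x ^ (p ^ j) / algebraMap ℚ_[p] C s ∈ tame p C := by
    refine ⟨n' * (p - 1), hndvd, ?_⟩
    rw [div_pow, ← map_pow, hs, ← pow_mul, ← mul_assoc, ← hnn, pow_mul, hxy, ← map_pow]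
    refine div_self ?_
    rw [Ne, map_eq_zero]
    intro h1
    have h2 := congrArg norm h1
    rw [norm_zero, norm_pow, hy1, one_pow] at h2
    exact one_ne_zero h2
  obtain ⟨ω, hω, hωj⟩ := tame_root _ hω₁ j
  have hω0 : ω ≠ 0 := ne_zero_of_mem_tame hω
  set u : C := 1 + (p : C) with hu
  have hu' : u = algebraMap ℚ_[p] C (1 + (p : ℚ_[p])) := by
    rw [map_add, map_one, map_natCast]
  have huW : u ∈ Wnr p C := by
    rw [hu']
    exact (Wnr p C).algebraMap_mem _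
  have hu1 : ‖u - 1‖ = 1 / (p : ℝ) := by
    rw [hu, add_sub_cancel_left, norm_p]
  have hu0 : u ≠ 0 := by
    intro h1
    rw [h1, zero_sub, norm_neg, norm_one] at hu1
    have : (1 : ℝ) / p < 1 := by
      rw [div_lt_one (by linarith)]
      exact hp1
    linarith
  have htW : algebraMap ℚ_[p] C t ∈ Wnr p C := (Wnr p C).algebraMap_mem _
  have hz : (x / (ω * algebraMap ℚ_[p] C t ^ (p ^ k))) ^ (p ^ j) = u ^ (l : ℤ) := by
    have hsC' : algebraMap ℚ_[p] C s = u ^ l * algebraMap ℚ_[p] C t ^ (p ^ (j + k)) := by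
      rw [ht, map_mul, map_pow, map_pow, hu']
    rw [zpow_natCast, div_pow, mul_pow, hωj, ← pow_mul, ← pow_add, add_comm k j]
    have h2 : u ^ l * algebraMap ℚ_[p] C t ^ (p ^ (j + k)) ≠ 0 := by rw [← hsC']; exact hsC
    have h3 : algebraMap ℚ_[p] C t ^ (p ^ (j + k)) ≠ 0 := pow_ne_zero _ htC
    have hxj : x ^ (p ^ j) ≠ 0 := pow_ne_zero _ (by
      rintro rfl
      rw [norm_zero] at hx1
      exact zero_ne_one hx1)
    rw [hsC']
    field_simp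
  have hzW : x / (ω * algebraMap ℚ_[p] C t ^ (p ^ k)) ∈ Wnr p C :=
    div_mem hx (mul_mem (tame_le_Wnr hω) (pow_mem htW _))
  obtain ⟨l', hl'⟩ := v_ind_pow (p := p) hp2 u huW hu1 j (l : ℤ) _ hzW hz
  have hz2 : (x / (ω * algebraMap ℚ_[p] C t ^ (p ^ k)) / u ^ l') ^ (p ^ j) = 1 := by
    rw [div_pow, hz, ← zpow_natCast (u ^ l'), ← zpow_mul, hl']
    push_cast
    rw [mul_comm l']
    exact div_self (zpow_ne_zero _ hu0)
  have hz3 := wnr_p_torsion (p := p) hp2 j _ (div_mem hzW (zpow_mem huW l')) hz2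
  refine ⟨ω, hω, l', algebraMap ℚ_[p] C t, htW, ?_⟩
  rw [div_eq_one_iff_eq (zpow_ne_zero _ hu0), div_eq_iff (mul_ne_zero hω0 (pow_ne_zero _ htC))] at hz3
  rw [hz3]
  ring

end Pool.Agent.H72.RM
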