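import Pool.Agent.H72.RM.VInd
import Pool.Agent.H72.RM.Res

/-!
# Module StarB: units of `Wnr` are `ω v^(p^j)`

`w_proot`: `y ∈ Wnr`, `‖y - 1‖ < 1/p` (so `≤ 1/p^2` by `unr_value`). Let `ξ` be a primitive `p`-th root
of unity, `v₀^p = y`, `v_i = v₀ ξ^i` (`i < p`): `∏ (1 - v_i) = 1 - y`. If all
`‖1 - v_i‖ ≥ ‖1 - ξ‖` then `‖1 - y‖ ≥ ‖1 - ξ‖^p = p^(-p/(p-1)) > p^(-2)`, because `p ≥ 3` (use
`norm_zeta_sub_one` with `j = 1`, take `(p-1)`-th powers), contradiction. So some root `v` of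
`X^p - y` has `‖1 - v‖ < ‖1 - ξ‖`. For the other roots `v ξ^i`: `‖1 - v ξ^i‖ = ‖1 - ξ^i‖ = ‖1 - ξ‖`
(`1 - v ξ^i = (1 - ξ^i) + ξ^i (1 - v)`), so `‖1 - v‖ ‖1 - ξ‖^(p-1) = ‖1 - y‖`, i.e.
`‖v - 1‖ = p ‖y - 1‖`. `v ∈ Wnr` by `mem_adjoin_of_fixed`: if `σ` fixes `tame p C` then `σ v` is a root
of `X^p - y` with `‖1 - σ v‖ = ‖1 - v‖ < ‖1 - ξ‖`, so `σ v = v`.
`star_B`: by `res_tame` `‖x - ω‖ < 1` for some `ω ∈ tame p C`; `y = x/ω ∈ Wnr`, `‖y - 1‖ < 1`,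
`y ≠ 1` (`x` is not a root of unity), so `‖y - 1‖ = p^(-(j+1))`, `j ≥ 0` (`unr_value`). Iterate
`w_proot` `j` times (induction on `j`): `y = v^(p^j)`, `v ∈ Wnr`, `‖v - 1‖ = 1/p`.
-/

set_option autoImplicit false
set_option linter.unusedSectionVars false

open IntermediateField

namespace Pool.Agent.H72.RM

variable {p : ℕ} [Fact p.Prime] {C : Type} [NormedField C] [NormedAlgebra ℚ_[p] C]
  [IsUltrametricDist C] [IsAlgClosed C] [Algebra.IsAlgebraic ℚ_[p] C] [IsoEnv p C]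

theorem w_proot (hp2 : p ≠ 2) (y : C) (hy : y ∈ Wnr p C) (h1 : ‖y - 1‖ < 1 / (p : ℝ)) :
    ∃ v ∈ Wnr p C, v ^ p = y ∧ ‖v - 1‖ = (p : ℝ) * ‖y - 1‖ := by
  classical
  have hp : p.Prime := Fact.out
  have hp3 : 3 ≤ p := by
    rcases hp.two_le.lt_or_eq with h | h
    · omega
    · exact absurd h.symm hp2
  have hpR : (1 : ℝ) < p := by exact_mod_cast hp.one_lt
  have hp0 : (0 : ℝ) < p := by linarith
  have hchar : CharZero C := charZero_C p C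
  by_cases hy1 : y = 1
  · refine ⟨1, one_mem _, ?_, ?_⟩
    · rw [one_pow, hy1]
    · rw [hy1, sub_self, norm_zero, mul_zero]
  -- the value of `y - 1`
  have hym : y - 1 ∈ Wnr p C := sub_mem hy (one_mem _)
  obtain ⟨k, hk⟩ := unr_value (y - 1) hym (sub_ne_zero.2 hy1)
  have hk2 : ‖y - 1‖ ≤ 1 / (p : ℝ) ^ 2 := by
    have h2 : (p : ℝ) ^ k < (p : ℝ) ^ (-1 : ℤ) := by
      rw [← hk, zpow_neg_one, ← one_div]
      exact h1
    have h3 : k < -1 := (zpow_lt_zpow_iff_right₀ hpR).1 h2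
    have h4 : (p : ℝ) ^ k ≤ (p : ℝ) ^ (-2 : ℤ) := zpow_le_zpow_right₀ hpR.le (by omega)
    rw [hk]
    refine h4.trans_eq ?_
    rw [zpow_neg, one_div]
    norm_cast
  obtain ⟨v₀, hv₀⟩ := IsAlgClosed.exists_pow_nat_eq y hp.pos
  have hpC : (p : C) ≠ 0 := Nat.cast_ne_zero.2 hp.ne_zero
  obtain ⟨ξ, hξ⟩ : ∃ ξ : C, IsPrimitiveRoot ξ p := by
    have : NeZero ((p : ℕ) : C) := ⟨hpC⟩
    exact HasEnoughRootsOfUnity.exists_primitiveRoot C p
  have hnz : ∀ ζ : C, ζ ^ p = 1 → ζ ≠ 1 → ‖1 - ζ‖ ^ (p - 1) = 1 / (p : ℝ) := by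
    intro ζ h2 h3
    have h4 : IsPrimitiveRoot ζ p := by
      have h5 := IsPrimitiveRoot.orderOf ζ
      have h6 : orderOf ζ = p := orderOf_eq_prime h2 h3
      rwa [h6] at h5
    have h5 := norm_zeta_sub_one (p := p) 1 le_rfl ζ (by rwa [pow_one])
    rw [norm_sub_rev]
    simpa using h5
  have hξ1 : ξ ≠ 1 := hξ.ne_one hp.one_lt
  set r : ℝ := ‖1 - ξ‖ with hr
  have hrp : r ^ (p - 1) = 1 / (p : ℝ) := hnz ξ hξ.pow_eq_one hξ1
  have hr0 : 0 ≤ r := norm_nonneg _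
  have hrz : ∀ ζ : C, ζ ^ p = 1 → ζ ≠ 1 → ‖1 - ζ‖ = r := by
    intro ζ h2 h3
    have h4 := hnz ζ h2 h3
    rw [← hrp] at h4
    exact (pow_left_inj₀ (norm_nonneg _) hr0 (by omega)).1 h4
  have hprod : ∀ u : C, u ^ p = y → 1 - y = ∏ ζ ∈ Polynomial.nthRootsFinset p (1 : C), (1 - ζ * u) := by
    intro u hu
    have h2 := hξ.pow_sub_pow_eq_prod_sub_mul (1 : C) u hp.pos
    rw [one_pow, hu] at h2
    exact h2
  have hcard : (Polynomial.nthRootsFinset p (1 : C)).card = p := hξ.card_nthRootsFinset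
  have hmemf : ∀ ζ : C, ζ ∈ Polynomial.nthRootsFinset p (1 : C) ↔ ζ ^ p = 1 := by
    intro ζ
    exact Polynomial.mem_nthRootsFinset hp.pos _
  have hn1 : ∀ ζ : C, ζ ^ p = 1 → ‖ζ‖ = 1 := by
    intro ζ h2
    have h3 := congrArg norm h2
    rw [norm_pow, norm_one] at h3
    exact (pow_eq_one_iff_of_nonneg (norm_nonneg ζ) hp.ne_zero).1 h3
  -- a root near `1`
  obtain ⟨v, hvp, hv1⟩ : ∃ v : C, v ^ p = y ∧ ‖1 - v‖ < r := by
    by_contra hcon
    push Not at hcon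
    have h2 : r ^ p ≤ ‖1 - y‖ := by
      rw [hprod v₀ hv₀, norm_prod]
      have h3 : r ^ p = ∏ ζ ∈ Polynomial.nthRootsFinset p (1 : C), r := by
        rw [Finset.prod_const, hcard]
      rw [h3]
      refine Finset.prod_le_prod (fun _ _ => hr0) fun ζ hζ => ?_
      apply hcon
      rw [mul_pow, (hmemf ζ).1 hζ, one_mul, hv₀]
    have h3 : r ^ p = r * (1 / (p : ℝ)) := by
      rw [← hrp, ← pow_succ']
      congr 1
      omega
    rw [h3, norm_sub_rev] at h2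
    have h4 : r * (1 / (p : ℝ)) ≤ (1 / (p : ℝ)) * (1 / (p : ℝ)) := by
      refine h2.trans (hk2.trans_eq ?_)
      rw [pow_two, one_div_mul_one_div]
    have hpinv : (0 : ℝ) < 1 / (p : ℝ) := by positivity
    have h5 : r ≤ 1 / (p : ℝ) := le_of_mul_le_mul_right h4 hpinv
    have h6 : r ^ (p - 1) ≤ (1 / (p : ℝ)) ^ (p - 1) := pow_le_pow_left₀ hr0 h5 _
    have h7 : (1 / (p : ℝ)) ^ (p - 1) ≤ (1 / (p : ℝ)) ^ 2 := by
      refine pow_le_pow_of_le_one hpinv.le ?_ (by omega)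
      rw [div_le_one hp0]
      exact hpR.le
    have h8 : (1 / (p : ℝ)) ^ 2 < 1 / (p : ℝ) := by
      rw [pow_two]
      have h9 : 1 / (p : ℝ) < 1 := by
        rw [div_lt_one hp0]
        exact hpR
      nlinarith
    rw [hrp] at h6
    linarith
  have hoth : ∀ ζ : C, ζ ^ p = 1 → ζ ≠ 1 → ‖1 - ζ * v‖ = r := by
    intro ζ h2 h3
    have e : 1 - ζ * v = (1 - ζ) + ζ * (1 - v) := by ring
    have h4 : ‖ζ * (1 - v)‖ < ‖1 - ζ‖ := by
      rw [norm_mul, hn1 ζ h2, one_mul, hrz ζ h2 h3]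
      exact hv1
    rw [e, IsUltrametricDist.norm_add_eq_max_of_norm_ne_norm h4.ne', max_eq_left h4.le,
      hrz ζ h2 h3]
  have hval : ‖1 - y‖ = ‖1 - v‖ * (1 / (p : ℝ)) := by
    rw [hprod v hvp, norm_prod]
    have h1m : (1 : C) ∈ Polynomial.nthRootsFinset p (1 : C) := (hmemf 1).2 (one_pow p)
    rw [← Finset.mul_prod_erase _ _ h1m, one_mul]
    congr 1
    rw [Finset.prod_congr rfl (g := fun _ => r), Finset.prod_const, Finset.card_erase_of_mem h1m,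
      hcard, hrp]
    intro ζ hζ
    rw [Finset.mem_erase] at hζ
    exact hoth ζ ((hmemf ζ).1 hζ.2) hζ.1
  refine ⟨v, ?_, hvp, ?_⟩
  · refine mem_adjoin_of_fixed _ v fun σ hσ => ?_
    have h2 : σ y = y := fixed_of_mem_adjoin (tame p C) (σ : C →ₐ[ℚ_[p]] C) hσ y hy
    have hv0 : v ≠ 0 := by
      rintro rfl
      rw [zero_pow hp.ne_zero] at hvp
      rw [← hvp, zero_sub, norm_neg, norm_one] at h1
      have h9 : 1 / (p : ℝ) < 1 := by
        rw [div_lt_one hp0]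
        exact hpR
      linarith
    have h3 : (σ v) ^ p = y := by rw [← map_pow, hvp, h2]
    have h4 : (σ v / v) ^ p = 1 := by
      rw [div_pow, h3, hvp]
      exact div_self (by rw [← hvp]; exact pow_ne_zero _ hv0)
    by_contra hne
    have h5 : σ v / v ≠ 1 := by
      intro h
      rw [div_eq_one_iff_eq hv0] at h
      exact hne h
    have h6 := hoth _ h4 h5
    rw [div_mul_cancel₀ _ hv0] at h6
    have h7 : ‖1 - σ v‖ = ‖1 - v‖ := by
      have h8 := IsoEnv.iso σ (1 - v)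
      rw [map_sub, map_one] at h8
      exact h8
    rw [h7] at h6
    exact absurd h6 hv1.ne
  · rw [norm_sub_rev v 1, norm_sub_rev y 1, hval]
    field_simp

theorem star_B (hp2 : p ≠ 2) (x : C) (hx : x ∈ Wnr p C) (hx1 : ‖x‖ = 1)
    (htor : ∀ n : ℕ, 1 ≤ n → x ^ n ≠ 1) :
    ∃ v ∈ Wnr p C, ‖v - 1‖ = 1 / (p : ℝ) ∧ ∃ ω ∈ tame p C, ∃ j : ℕ, x = ω * v ^ (p ^ j) := by
  have hp : p.Prime := Fact.out
  have hpR : (1 : ℝ) < p := by exact_mod_cast hp.one_lt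
  have hp0 : (0 : ℝ) < p := by linarith
  obtain ⟨ω, hω, hxω⟩ := res_tame (p := p) x hx1
  have hω0 : ω ≠ 0 := ne_zero_of_mem_tame hω
  have hω1 : ‖ω‖ = 1 := norm_of_mem_tame hω
  have hyW : x / ω ∈ Wnr p C := div_mem hx (tame_le_Wnr hω)
  have hxe : x = ω * (x / ω) := by
    field_simp
  have hy1 : ‖x / ω - 1‖ < 1 := by
    have e : x / ω - 1 = (x - ω) / ω := by
      field_simp
    rw [e, norm_div, hω1, div_one]
    exact hxω
  have hyne : x / ω ≠ 1 := by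
    intro h
    rw [h, mul_one] at hxe
    obtain ⟨n, hn, hn1⟩ := hω
    have hn0 : 1 ≤ n := by
      rcases Nat.eq_zero_or_pos n with h0 | h0
      · rw [h0] at hn
        exact absurd (dvd_zero p) hn
      · exact h0
    exact htor n hn0 (by rw [hxe]; exact hn1)
  obtain ⟨k, hk⟩ := unr_value (x / ω - 1) (sub_mem hyW (one_mem _)) (sub_ne_zero.2 hyne)
  have hk0 : k < 0 := by
    rw [hk] at hy1
    by_contra hcon
    push Not at hcon
    exact absurd hy1 (not_lt.2 (one_le_zpow₀ hpR.le hcon))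
  obtain ⟨j, hj⟩ : ∃ j : ℕ, k = -((j : ℤ) + 1) := ⟨(-k - 1).toNat, by omega⟩
  have key : ∀ (j : ℕ) (y : C), y ∈ Wnr p C → ‖y - 1‖ = (p : ℝ) ^ (-((j : ℤ) + 1)) →
      ∃ v ∈ Wnr p C, ‖v - 1‖ = 1 / (p : ℝ) ∧ y = v ^ (p ^ j) := by
    intro j
    induction j with
    | zero =>
      intro y hy h
      refine ⟨y, hy, ?_, ?_⟩
      · rw [h, Nat.cast_zero, zero_add, zpow_neg_one, one_div]
      · rw [pow_zero, pow_one]
    | succ j ih =>
      intro y hy h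
      have h1 : ‖y - 1‖ < 1 / (p : ℝ) := by
        rw [h, one_div, ← zpow_neg_one]
        refine zpow_lt_zpow_right₀ hpR ?_
        push_cast
        omega
      obtain ⟨w, hw, hwy, hwn⟩ := w_proot hp2 y hy h1
      have h2 : ‖w - 1‖ = (p : ℝ) ^ (-((j : ℤ) + 1)) := by
        rw [hwn, h, ← zpow_one_add₀ hp0.ne']
        congr 1
      obtain ⟨v, hv, hv1, hvw⟩ := ih w hw h2
      refine ⟨v, hv, hv1, ?_⟩
      rw [← hwy, hvw, ← pow_mul, pow_succ]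
  rw [hj] at hk
  obtain ⟨v, hv, hv1, hvy⟩ := key j _ hyW hk
  refine ⟨v, hv, hv1, ω, hω, j, ?_⟩
  rw [← hvy]
  exact hxe

end Pool.Agent.H72.RM
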