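import Pool.Agent.H72.RM.PData
import Pool.Agent.H72.RM.StarA
import Pool.Agent.H72.RM.StarB

/-!
# Module PD: the data at a prime `p` for the basis of the saturated group

`φ : K → PadicAlgCl p` extends to `ι : Ω → PadicAlgCl p` with `ι (algebraMap x) = φ x` (make `PadicAlgCl p`
a `K`-algebra by `φ.toAlgebra`, `IsAlgClosed.lift`; `Ω / K` is algebraic because `IsGalois K Ω`).
* `base` = `hφ`. `b_ne`: units. `b_unit`: `b i ^ N ∈ Λ` for some `N ≥ 1` (`hΛ'`, `hb`), so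
  `‖φ (b i)‖^N = 1`.
* `ind`: let `y^p = ∏ (b i)^(n i)`, `y : K`; `y ≠ 0`, so `y = (y' : Kˣ)`, `y'^p = ∏ (b i)^(n i) ∈ Λ'`, hence
  `y' ∈ Λ'` (`hΛ'`: `x ∈ Λ'` iff some power is in `Λ`). By `hgen` `y' = t ∏ (b i)^(m i)`, `t` of finite
  order, so `∏ (b i)^(n i - p m i)` has finite order and `n i = p m i` by `hind`.
* `v`, `star`: by hypothesis `hcase`.
  Case 1: every `x ∈ Λ` has a power `φ(x)^n`, `n ≥ 1`, in `ℚ_[p]`; then so does every `b i`. Take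
  `v = 1 + p` (`‖v - 1‖ = ‖p‖ = 1/p`, `norm_p`; `v ∈ Wnr` as `v ∈ ℚ_[p]`) and `star_A`.
  Case 2: there is `g ∈ Λ` such that every `x ∈ Λ` satisfies `x^n = g^k` with `n ≥ 1`. If `r = 0` take
  `v = 1 + p`, `star` is empty. Otherwise all `b i` satisfy `(b i)^(N i) = g^(k i)`, `N i ≥ 1`. `k i ≠ 0`
  since `b i` has infinite order (`hind`). If `i ≠ j`, then `(b i)^(N i k j) = (b j)^(N j k i)`
  contradicts `hind`; so `r = 1`. `φ (b 0)` is not a root of unity (`φ` injective), so `star_B` gives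
  `φ (b 0) = ω v^(p^j)`, and `star` holds with `l = p^j`, `t = 1`.
-/

set_option autoImplicit false
set_option linter.unusedSectionVars false

open IntermediateField

namespace Pool.Agent.H72.RM

theorem pd_lift {K Ω C : Type} [Field K] [Field Ω] [Algebra K Ω] [Algebra.IsAlgebraic K Ω]
    [Field C] [IsAlgClosed C] (φ : K →+* C) :
    ∃ ι : Ω →+* C, ∀ x, ι (algebraMap K Ω x) = φ x := by
  let _ := φ.toAlgebra
  let f : Ω →ₐ[K] C := IsAlgClosed.lift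
  exact ⟨f.toRingHom, fun x => f.commutes x⟩

theorem pd_single {G : Type} [CommGroup G] {r : ℕ} (b : Fin r → G) (i : Fin r) (c : ℤ) :
    ∏ j, b j ^ ((Pi.single i c : Fin r → ℤ) j) = b i ^ c := by
  rw [Fintype.prod_eq_single i]
  · rw [Pi.single_eq_same]
  · intro j hj
    rw [Pi.single_eq_of_ne hj, zpow_zero]

theorem pd_ind {K : Type} [Field K] (p : ℕ) [Fact p.Prime] (Λ Λ' : Subgroup Kˣ)
    (hΛ' : ∀ x : Kˣ, x ∈ Λ' ↔ ∃ N : ℕ, 1 ≤ N ∧ x ^ N ∈ Λ) {r : ℕ} (b : Fin r → Kˣ)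
    (hb : ∀ i, b i ∈ Λ')
    (hgen : ∀ x ∈ Λ', ∃ m : Fin r → ℤ, IsOfFinOrder (x * (∏ i, b i ^ (m i))⁻¹))
    (hind : ∀ m : Fin r → ℤ, IsOfFinOrder (∏ i, b i ^ (m i)) → m = 0)
    (n : Fin r → ℤ) (y : K) (h : y ^ p = ∏ i, ((b i : Kˣ) : K) ^ (n i)) (i : Fin r) :
    (p : ℤ) ∣ n i := by
  have hp : p.Prime := Fact.out
  have hy : y ≠ 0 := by
    rintro rfl
    rw [zero_pow hp.ne_zero] at h
    have h1 : ∏ i, ((b i : Kˣ) : K) ^ (n i) ≠ 0 :=
      Finset.prod_ne_zero_iff.2 fun i _ => zpow_ne_zero _ (b i).ne_zero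
    exact h1 h.symm
  have hy' : (Units.mk0 y hy) ^ p = ∏ i, b i ^ (n i) := by
    apply Units.ext
    rw [Units.val_pow_eq_pow_val, Units.val_mk0, h, Units.coe_prod]
    exact Finset.prod_congr rfl fun i _ => (Units.val_zpow_eq_zpow_val _ _).symm
  have hprod : ∏ i, b i ^ (n i) ∈ Λ' := Subgroup.prod_mem _ fun i _ => Subgroup.zpow_mem _ (hb i) _
  have hyΛ : Units.mk0 y hy ∈ Λ' := by
    rw [← hy', hΛ'] at hprod
    obtain ⟨N, hN, hN2⟩ := hprod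
    rw [hΛ']
    exact ⟨p * N, Nat.mul_pos hp.pos hN, by rwa [pow_mul]⟩
  obtain ⟨m, hm⟩ := hgen _ hyΛ
  have h1 : (Units.mk0 y hy * (∏ i, b i ^ (m i))⁻¹) ^ p =
      ∏ i, b i ^ ((n - (p : ℤ) • m) i) := by
    rw [mul_pow, hy', inv_pow, ← Finset.prod_pow, ← Finset.prod_inv_distrib,
      ← Finset.prod_mul_distrib]
    refine Finset.prod_congr rfl fun i _ => ?_
    rw [Pi.sub_apply, Pi.smul_apply, smul_eq_mul, zpow_sub, mul_comm (p : ℤ) (m i), zpow_mul,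
      zpow_natCast]
  have h2 := hind _ (h1 ▸ hm.pow)
  have h3 := congrFun h2 i
  rw [Pi.sub_apply, Pi.smul_apply, smul_eq_mul, Pi.zero_apply, sub_eq_zero] at h3
  exact ⟨m i, h3⟩

theorem pdata_of {K Ω : Type} [Field K] [Field Ω] [CharZero Ω] [Algebra K Ω] [IsGalois K Ω]
    (p : ℕ) [Fact p.Prime] (hp2 : p ≠ 2) (Λ Λ' : Subgroup Kˣ)
    (hΛ' : ∀ x : Kˣ, x ∈ Λ' ↔ ∃ N : ℕ, 1 ≤ N ∧ x ^ N ∈ Λ) {r : ℕ} (b : Fin r → Kˣ)
    (hb : ∀ i, b i ∈ Λ')
    (hgen : ∀ x ∈ Λ', ∃ m : Fin r → ℤ, IsOfFinOrder (x * (∏ i, b i ^ (m i))⁻¹))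
    (hind : ∀ m : Fin r → ℤ, IsOfFinOrder (∏ i, b i ^ (m i)) → m = 0)
    (φ : K →+* PadicAlgCl p) (hφ : ∀ x : K, φ x ∈ Wnr p (PadicAlgCl p))
    (hunit : ∀ x ∈ Λ, ‖φ (x : K)‖ = 1)
    (hcase : (∀ x ∈ Λ, ∃ n : ℕ, 1 ≤ n ∧ ∃ y : ℚ_[p],
        φ (x : K) ^ n = algebraMap ℚ_[p] (PadicAlgCl p) y) ∨
      ∃ g ∈ Λ, ∀ x ∈ Λ, ∃ n : ℕ, 1 ≤ n ∧ ∃ k : ℤ, x ^ n = g ^ k) :
    ∃ (ι : Ω →+* PadicAlgCl p) (v : PadicAlgCl p),
      PData K Ω p (PadicAlgCl p) (fun i => ((b i : Kˣ) : K)) ι v := by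
  obtain ⟨ι, hι⟩ := pd_lift (Ω := Ω) φ
  have hbu : ∀ i, ‖φ ((b i : Kˣ) : K)‖ = 1 := by
    intro i
    obtain ⟨N, hN, hN2⟩ := (hΛ' (b i)).1 (hb i)
    have h1 := hunit _ hN2
    rw [Units.val_pow_eq_pow_val, map_pow, norm_pow] at h1
    exact (pow_eq_one_iff_of_nonneg (norm_nonneg _) (by omega)).1 h1
  have hvm : 1 + (p : PadicAlgCl p) ∈ Wnr p (PadicAlgCl p) :=
    add_mem (one_mem _) (_root_.natCast_mem _ p)
  have hvn : ‖1 + (p : PadicAlgCl p) - 1‖ = 1 / (p : ℝ) := by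
    rw [add_sub_cancel_left, norm_p]
  have key : ∀ v : PadicAlgCl p, v ∈ Wnr p (PadicAlgCl p) → ‖v - 1‖ = 1 / (p : ℝ) →
      (∀ (i : Fin r) (k : ℕ), ∃ ω ∈ tame p (PadicAlgCl p), ∃ l : ℤ, ∃ t ∈ Wnr p (PadicAlgCl p),
        φ ((b i : Kˣ) : K) = ω * v ^ l * t ^ (p ^ k)) →
      ∃ (ι : Ω →+* PadicAlgCl p) (v : PadicAlgCl p),
        PData K Ω p (PadicAlgCl p) (fun i => ((b i : Kˣ) : K)) ι v := by
    intro v h1 h2 h3
    refine ⟨ι, v, hp2, fun x => by rw [hι]; exact hφ x, fun i => (b i).ne_zero,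
      fun i => by rw [hι]; exact hbu i,
      fun n y h i => pd_ind p Λ Λ' hΛ' b hb hgen hind n y h i, h1, h2, fun i k => ?_⟩
    rw [hι]
    exact h3 i k
  rcases hcase with hc | ⟨g, hg, hc⟩
  · refine key _ hvm hvn fun i k => ?_
    obtain ⟨N, hN, hN2⟩ := (hΛ' (b i)).1 (hb i)
    obtain ⟨n, hn, y, hy⟩ := hc _ hN2
    rw [Units.val_pow_eq_pow_val, map_pow, ← pow_mul] at hy
    exact star_A hp2 _ (hφ _) (hbu i) (N * n) (Nat.mul_pos hN hn) y hy k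
  · rcases Nat.eq_zero_or_pos r with rfl | hr
    · exact key _ hvm hvn fun i => i.elim0
    · have h1 : ∀ i, ∃ N : ℕ, 1 ≤ N ∧ ∃ k : ℤ, b i ^ N = g ^ k := by
        intro i
        obtain ⟨N, hN, hN2⟩ := (hΛ' (b i)).1 (hb i)
        obtain ⟨n, hn, k, hk⟩ := hc _ hN2
        exact ⟨N * n, Nat.mul_pos hN hn, k, by rw [pow_mul, hk]⟩
      choose N hN k hk using h1
      have htor : ∀ (i : Fin r) (n : ℕ), 1 ≤ n → b i ^ n ≠ 1 := by
        intro i n hn h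
        have h2 := hind (Pi.single i (n : ℤ)) (by
          rw [pd_single, zpow_natCast, h]
          exact IsOfFinOrder.one)
        have h3 := congrFun h2 i
        rw [Pi.single_eq_same, Pi.zero_apply] at h3
        omega
      have hk0 : ∀ i, k i ≠ 0 := by
        intro i h
        have h2 := hk i
        rw [h, zpow_zero] at h2
        exact htor i _ (hN i) h2
      have hsub : ∀ i j : Fin r, i = j := by
        intro i j
        by_contra hij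
        have h2 := hind (Pi.single i ((N i : ℤ) * k j) + Pi.single j (-((N j : ℤ) * k i))) (by
          have e : ∏ l, b l ^ ((Pi.single i ((N i : ℤ) * k j) +
              Pi.single j (-((N j : ℤ) * k i)) : Fin r → ℤ) l) = 1 := by
            simp only [Pi.add_apply, zpow_add]
            rw [Finset.prod_mul_distrib, pd_single, pd_single, zpow_neg, zpow_mul, zpow_mul,
              zpow_natCast, zpow_natCast, hk, hk, ← zpow_mul, ← zpow_mul, mul_comm (k j),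
              mul_inv_cancel]
          rw [e]
          exact IsOfFinOrder.one)
        have h3 := congrFun h2 i
        rw [Pi.add_apply, Pi.single_eq_same, Pi.single_eq_of_ne hij, add_zero, Pi.zero_apply] at h3
        rcases mul_eq_zero.1 h3 with h4 | h4
        · have := hN i
          omega
        · exact hk0 j h4
      obtain ⟨v, hv, hv1, ω, hω, j, hj⟩ := star_B hp2 (φ ((b ⟨0, hr⟩ : Kˣ) : K)) (hφ _)
        (hbu _) (by
          intro n hn h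
          rw [← map_pow, ← Units.val_pow_eq_pow_val] at h
          have h2 : ((b ⟨0, hr⟩ ^ n : Kˣ) : K) = 1 := φ.injective (by rw [h, map_one])
          exact htor _ n hn (Units.ext h2))
      refine key v hv hv1 fun i k => ⟨ω, hω, ((p ^ j : ℕ) : ℤ), 1, one_mem _, ?_⟩
      rw [hsub i ⟨0, hr⟩, one_pow, mul_one, zpow_natCast]
      exact hj

end Pool.Agent.H72.RM
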