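import Mathlib

/-!
# Module Sat: the division closure of a finitely generated group of numbers is finitely generated

`Λ = <b_1, .., b_s>` (a finite set of generators), `C = ∑ logHeight₁ (b_i)`.
The set `T = {x : K | logHeight₁ x ≤ C}` is finite (`NumberField.finite_setOfPred_logHeight₁_le`).
Let `Λ'` be the set of `x : Kˣ` with `x^N ∈ Λ` for some `N ≥ 1` (a subgroup, `Kˣ` is commutative).
Claim: `Λ'` is generated by the `b_i` and the finite set of the units in `T ∩ Λ'`. Let `x ∈ Λ'`,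
`x^N = ∏ b_i^(m_i)`, `m_i = N q_i + r_i`, `0 ≤ r_i < N` (`Int.emod`). `x' = x ∏ b_i^(-q_i)`,
`x'^N = ∏ b_i^(r_i)`, so `N logHeight₁ x' = logHeight₁ (x'^N) ≤ ∑ r_i logHeight₁ b_i ≤ N C`
(`Height.logHeight₁_pow`, `Height.logHeight₁_mul_le`), `x' ∈ T ∩ Λ'`.
-/

set_option autoImplicit false

open NumberField

namespace Pool.Agent.H72.RM

/-- the division closure as a subgroup -/
def satSub {G : Type} [CommGroup G] (Λ : Subgroup G) : Subgroup G where
  carrier := {x | ∃ N : ℕ, 1 ≤ N ∧ x ^ N ∈ Λ}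
  one_mem' := ⟨1, le_refl _, by simpa using Λ.one_mem⟩
  mul_mem' := by
    rintro x y ⟨N, hN, hx⟩ ⟨M, hM, hy⟩
    refine ⟨N * M, Nat.mul_pos hN hM, ?_⟩
    have : (x * y) ^ (N * M) = (x ^ N) ^ M * (y ^ M) ^ N := by
      rw [mul_pow, ← pow_mul, ← pow_mul, Nat.mul_comm M N]
    rw [this]
    exact Λ.mul_mem (Λ.pow_mem hx _) (Λ.pow_mem hy _)
  inv_mem' := by
    rintro x ⟨N, hN, hx⟩
    refine ⟨N, hN, ?_⟩
    rw [inv_pow]
    exact Λ.inv_mem hx

theorem sat_fg (K : Type) [Field K] [NumberField K] (Λ : Subgroup Kˣ) (hΛ : Λ.FG) :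
    ∃ Λ' : Subgroup Kˣ, Λ'.FG ∧ ∀ x : Kˣ, x ∈ Λ' ↔ ∃ N : ℕ, 1 ≤ N ∧ x ^ N ∈ Λ := by
  classical
  refine ⟨satSub Λ, ?_, fun x => Iff.rfl⟩
  obtain ⟨S, hS⟩ := hΛ
  set C : ℝ := ∑ b : S, Height.logHeight₁ ((b : Kˣ) : K) with hC
  have hT : {x : K | Height.logHeight₁ x ≤ C}.Finite := NumberField.finite_setOfPred_logHeight₁_le K C
  have hT2 : {x : Kˣ | Height.logHeight₁ (x : K) ≤ C ∧ x ∈ satSub Λ}.Finite := by
    have h1 : (Units.val ⁻¹' {x : K | Height.logHeight₁ x ≤ C} : Set Kˣ).Finite :=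
      hT.preimage (Units.val_injective.injOn)
    exact h1.subset (fun x hx => hx.1)
  refine ⟨S ∪ hT2.toFinset, ?_⟩
  apply le_antisymm
  · rw [Subgroup.closure_le]
    intro x hx
    simp only [Finset.coe_union, Set.Finite.coe_toFinset, Set.mem_union, Finset.mem_coe] at hx
    rcases hx with hx | hx
    · refine ⟨1, le_refl _, ?_⟩
      rw [pow_one, ← hS]
      exact Subgroup.subset_closure hx
    · exact hx.2
  · intro x hx
    obtain ⟨N, hN, hxN⟩ := hx
    rw [← hS] at hxN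
    have hxN' := hxN
    rw [Subgroup.mem_closure_iff_of_fintype] at hxN'
    obtain ⟨m, hm⟩ := hxN'
    have hN0 : (0 : ℤ) < N := by exact_mod_cast hN
    set x' : Kˣ := x * ∏ b : (S : Set Kˣ), ((b : Kˣ) ^ (m b / (N : ℤ)))⁻¹ with hx'
    have hpow : x' ^ N = ∏ b : (S : Set Kˣ), (b : Kˣ) ^ (m b % (N : ℤ)) := by
      rw [hx', mul_pow, hm, ← Finset.prod_pow, ← Finset.prod_mul_distrib]
      refine Finset.prod_congr rfl fun b _ => ?_
      rw [inv_pow, ← zpow_natCast, ← zpow_mul, ← zpow_neg, ← zpow_add]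
      congr 1
      have := Int.emod_add_mul_ediv (m b) N
      linarith
    have hprodmem : ∏ b : (S : Set Kˣ), ((b : Kˣ) ^ (m b / (N : ℤ))) ∈
        Subgroup.closure (S : Set Kˣ) := by
      refine Subgroup.prod_mem _ fun b _ => Subgroup.zpow_mem _ (Subgroup.subset_closure b.2) _
    have hx'sat : x' ∈ satSub Λ := by
      refine ⟨N, hN, ?_⟩
      rw [hpow, ← hS]
      exact Subgroup.prod_mem _ fun b _ => Subgroup.zpow_mem _ (Subgroup.subset_closure b.2) _
    have hx'h : Height.logHeight₁ (x' : K) ≤ C := by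
      have h1 : (N : ℝ) * Height.logHeight₁ (x' : K) ≤ N * C := by
        rw [← Height.logHeight₁_pow]
        have h2 : ((x' : K)) ^ N = ∏ b : (S : Set Kˣ), (((b : Kˣ) : K)) ^ (m b % (N : ℤ)) := by
          have := congrArg Units.val hpow
          push_cast at this
          simpa using this
        rw [h2]
        refine (Height.logHeight₁_prod_le _ _).trans ?_
        rw [hC, Finset.mul_sum]
        refine Finset.sum_le_sum fun b _ => ?_
        rw [Height.logHeight₁_zpow]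
        have h3 : ((m b % (N : ℤ)).natAbs : ℝ) ≤ N := by
          have h4 := Int.emod_nonneg (m b) hN0.ne'
          have h5 := Int.emod_lt_of_pos (m b) hN0
          have h6 : (m b % (N : ℤ)).natAbs ≤ N := by omega
          exact_mod_cast h6
        exact mul_le_mul_of_nonneg_right h3 (Height.zero_le_logHeight₁ _)
      have hN' : (0 : ℝ) < N := by exact_mod_cast hN
      exact le_of_mul_le_mul_left h1 hN'
    have hxx : x = x' * ∏ b : (S : Set Kˣ), ((b : Kˣ) ^ (m b / (N : ℤ))) := by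
      rw [hx', Finset.prod_inv_distrib, inv_mul_cancel_right]
    rw [hxx]
    refine Subgroup.mul_mem _ ?_ ?_
    · apply Subgroup.subset_closure
      simp only [Finset.coe_union, Set.Finite.coe_toFinset, Set.mem_union, Finset.mem_coe]
      exact Or.inr ⟨hx'h, hx'sat⟩
    · exact Subgroup.closure_mono (by simp) hprodmem

end Pool.Agent.H72.RM
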