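import Pool.Agent.H72.RM.Defs

/-!
# Module Conj: the conjugates of `θ` cover the conjugacy class of the local automorphism

Write `q = p^(k-1)`, so `ζ^q` is a primitive `p`-th root of unity and `2(k-1) ≥ k`, i.e. `p^k ∣ q^2`.
`σ` maps `ζ` to `ζ^h` (`h` prime to `p`) and `σ⁻¹ (β i) = ζ^(a_i) β i` (both are `p^k`-th roots of
`b i`). Computation: `(σ θ σ⁻¹) (ζ) = ζ^(1+q)` (all automorphisms commute on roots of unity:
`σ⁻¹ ζ = ζ^(h')`, `θ (ζ^(h')) = ζ^(h'(1+q))`, `σ (ζ^(h'(1+q))) = ζ^(1+q)`) and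
`(σ θ σ⁻¹) (β i) = ζ^(q e_i) β i` with `e_i = h (a_i + y_i)`:
`θ (ζ^(a_i) β i) = ζ^(a_i (1+q) + q y_i) β i`, `σ (β i) = ζ^(-h a_i) β i`, so we get
`ζ^(h a_i (1+q) + h q y_i - h a_i) β i = ζ^(q h (a_i + y_i)) β i`.
Take `c i = e_i mod p`. With `ρ = ρ c` (`ρ ζ = ζ`, `ρ (β i) = ζ^(c i) β i`, `ρ⁻¹ (β i) = ζ^(-c_i) β i`):
`(ρ σ θ σ⁻¹ ρ⁻¹)(β i) = ρ (ζ^(-c_i (1+q)) ζ^(q e_i) β i) = ζ^(q (e_i - c_i)) β i = β i`,
`(ρ σ θ σ⁻¹ ρ⁻¹)(ζ) = ζ^(1+q)`, and for `x ∈ F`: `σ⁻¹ ρ⁻¹ x ∈ F` is fixed by `θ`, so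
`(ρ σ θ σ⁻¹ ρ⁻¹)(x) = x`.
The two ring homomorphisms `x ↦ ι (ρ σ θ σ⁻¹ ρ⁻¹ x)` and `x ↦ τ (ι x)` agree on `F ⊇ K`, `ζ` and the
`β i`, hence on the field they generate (`IntermediateField.adjoin_induction`).
-/

set_option autoImplicit false
set_option linter.unusedSectionVars false

open IntermediateField

namespace Pool.Agent.H72.RM

theorem conj_good {K Ω C : Type} [Field K] [Field Ω] [Field C] [Algebra K Ω] (p : ℕ)
    [Fact p.Prime] {r : ℕ} (F : IntermediateField K Ω) (hF : ∀ σ : Ω ≃ₐ[K] Ω, ∀ x ∈ F, σ x ∈ F)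
    (k : ℕ) (hk : 2 ≤ k) (ζ : Ω) (hζ : IsPrimitiveRoot ζ (p ^ k)) (b : Fin r → K)
    (hb : ∀ i, b i ≠ 0) (β : Fin r → Ω) (hβ : ∀ i, β i ^ (p ^ k) = algebraMap K Ω (b i))
    (θ : Ω ≃ₐ[K] Ω) (hθF : ∀ x ∈ F, θ x = x) (hθζ : θ ζ = ζ ^ (1 + p ^ (k - 1)))
    (y : Fin r → ℕ) (hθβ : ∀ i, θ (β i) = ζ ^ (p ^ (k - 1) * y i) * β i)
    (ι : Ω →+* C) (τ : C →+* C) (hτF : ∀ x ∈ F, τ (ι x) = ι x)
    (hτζ : τ (ι ζ) = (ι ζ) ^ (1 + p ^ (k - 1))) (hτβ : ∀ i, τ (ι (β i)) = ι (β i))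
    (ρ : (Fin r → Fin p) → (Ω ≃ₐ[K] Ω)) (hρF : ∀ c, ∀ x ∈ F, ρ c x = x) (hρζ : ∀ c, ρ c ζ = ζ)
    (hρβ : ∀ c i, ρ c (β i) = ζ ^ ((c i : Fin p) : ℕ) * β i) (σ : Ω ≃ₐ[K] Ω) :
    ∃ c, ∀ x ∈ IntermediateField.adjoin K ((F : Set Ω) ∪ ({ζ} ∪ Set.range β)),
      ι ((ρ c * σ) (θ ((ρ c * σ).symm x))) = τ (ι x) := by
  have hpp : p.Prime := Fact.out
  have hk0 : k ≠ 0 := by omega
  have hqk : p ^ (k - 1) * p = p ^ k := by
    rw [← pow_succ]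
    congr 1
    omega
  -- the action of `σ⁻¹`
  have hprim : IsPrimitiveRoot (σ.symm ζ) (p ^ k) := hζ.map_of_injective σ.symm.injective
  have hNZ : NeZero (p ^ k) := ⟨pow_ne_zero _ hpp.ne_zero⟩
  obtain ⟨h', _, hcop, hh'⟩ := hζ.isPrimitiveRoot_iff.mp hprim
  have hh'0 : ((h' : ℕ) : ZMod p) ≠ 0 := by
    intro h0
    rw [ZMod.natCast_eq_zero_iff] at h0
    have h1 : p ∣ Nat.gcd h' (p ^ k) := Nat.dvd_gcd h0 (dvd_pow_self p hk0)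
    rw [hcop] at h1
    exact hpp.one_lt.ne' (Nat.dvd_one.mp h1)
  have hβ0 : ∀ i, β i ≠ 0 := by
    intro i h0
    have h1 := hβ i
    rw [h0, zero_pow (pow_ne_zero _ hpp.ne_zero)] at h1
    exact hb i ((map_eq_zero (algebraMap K Ω)).mp h1.symm)
  have ha : ∀ i, ∃ a : ℕ, σ.symm (β i) = ζ ^ a * β i := by
    intro i
    have h1 : (σ.symm (β i) / β i) ^ (p ^ k) = 1 := by
      rw [div_pow, ← map_pow, hβ i, σ.symm.commutes]
      apply div_self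
      intro h0
      exact hb i ((map_eq_zero (algebraMap K Ω)).mp h0)
    obtain ⟨a, _, ha2⟩ := hζ.eq_pow_of_pow_eq_one h1
    refine ⟨a, ?_⟩
    rw [ha2, div_mul_cancel₀ _ (hβ0 i)]
  choose a ha using ha
  let c : Fin r → Fin p := fun i =>
    ⟨((((h' : ℕ) : ZMod p))⁻¹ * (((a i : ℕ) : ZMod p) + ((y i : ℕ) : ZMod p))).val, ZMod.val_lt _⟩
  have hc : ∀ i, ((h' : ℕ) : ZMod p) * (((c i : Fin p) : ℕ) : ZMod p) =
      ((a i : ℕ) : ZMod p) + ((y i : ℕ) : ZMod p) := by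
    intro i
    show ((h' : ℕ) : ZMod p) * ((((((h' : ℕ) : ZMod p))⁻¹ *
      (((a i : ℕ) : ZMod p) + ((y i : ℕ) : ZMod p))).val : ℕ) : ZMod p) = _
    rw [ZMod.natCast_zmod_val, ← mul_assoc, mul_inv_cancel₀ hh'0, one_mul]
  refine ⟨c, ?_⟩
  set ω : Ω ≃ₐ[K] Ω := ρ c * σ with hω
  have hωsymm : ∀ x, ω.symm x = σ.symm ((ρ c).symm x) := by
    intro x
    rw [AlgEquiv.symm_apply_eq, hω, AlgEquiv.mul_apply, AlgEquiv.apply_symm_apply,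
      AlgEquiv.apply_symm_apply]
  have hρsymmζ : (ρ c).symm ζ = ζ := by
    rw [AlgEquiv.symm_apply_eq, hρζ]
  have hωζ : ω.symm ζ = ζ ^ h' := by
    rw [hωsymm, hρsymmζ, hh']
  have hcle : ∀ i, ((c i : Fin p) : ℕ) ≤ p ^ k := by
    intro i
    have h1 : ((c i : Fin p) : ℕ) < p := (c i).2
    have h2 : p ≤ p ^ k := by
      calc p = p ^ 1 := (pow_one p).symm
        _ ≤ p ^ k := Nat.pow_le_pow_right hpp.pos (by omega)
    omega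
  have hωβ : ∀ i, ω.symm (β i) = ζ ^ (h' * (p ^ k - ((c i : Fin p) : ℕ)) + a i) * β i := by
    intro i
    have h1 : (ρ c).symm (β i) = ζ ^ (p ^ k - ((c i : Fin p) : ℕ)) * β i := by
      rw [AlgEquiv.symm_apply_eq, map_mul, map_pow, hρζ, hρβ, ← mul_assoc, ← pow_add,
        Nat.sub_add_cancel (hcle i), hζ.pow_eq_one, one_mul]
    rw [hωsymm, h1, map_mul, map_pow, ← hh', ha i, ← pow_mul, ← mul_assoc, ← pow_add]
  have hdvd : ∀ i, p ∣ (h' * (p ^ k - ((c i : Fin p) : ℕ)) + a i) + y i := by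
    intro i
    rw [← ZMod.natCast_eq_zero_iff]
    push_cast [hcle i]
    rw [ZMod.natCast_self, zero_pow hk0]
    have h1 := hc i
    linear_combination -h1
  have hθω : ∀ i, θ (ω.symm (β i)) = ω.symm (β i) := by
    intro i
    obtain ⟨d, hd⟩ := hdvd i
    rw [hωβ, map_mul, map_pow, hθζ, hθβ, ← pow_mul, ← mul_assoc, ← pow_add]
    congr 1
    have h1 : (1 + p ^ (k - 1)) * (h' * (p ^ k - ((c i : Fin p) : ℕ)) + a i) +
        p ^ (k - 1) * y i = (h' * (p ^ k - ((c i : Fin p) : ℕ)) + a i) + p ^ k * d := by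
      calc (1 + p ^ (k - 1)) * (h' * (p ^ k - ((c i : Fin p) : ℕ)) + a i) +
          p ^ (k - 1) * y i = (h' * (p ^ k - ((c i : Fin p) : ℕ)) + a i) +
            p ^ (k - 1) * ((h' * (p ^ k - ((c i : Fin p) : ℕ)) + a i) + y i) := by ring
        _ = (h' * (p ^ k - ((c i : Fin p) : ℕ)) + a i) + p ^ (k - 1) * (p * d) := by rw [hd]
        _ = _ := by
          rw [← mul_assoc, hqk]
    rw [h1, pow_add, pow_mul, hζ.pow_eq_one, one_pow, mul_one]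
  intro x hx
  induction hx using IntermediateField.adjoin_induction with
  | mem x hx =>
    rcases hx with hx | hx | hx
    · have h1 : ω.symm x ∈ F := hF _ x hx
      rw [hθF _ h1, AlgEquiv.apply_symm_apply, hτF x hx]
    · rw [Set.mem_singleton_iff] at hx
      rw [hx, hωζ, map_pow, hθζ, ← pow_mul, mul_comm, pow_mul, ← hωζ, map_pow,
        AlgEquiv.apply_symm_apply, map_pow, hτζ]
    · obtain ⟨i, rfl⟩ := hx
      rw [hθω, AlgEquiv.apply_symm_apply, hτβ]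
  | algebraMap x =>
    rw [AlgEquiv.commutes, AlgEquiv.commutes, AlgEquiv.commutes]
    exact (hτF _ (F.algebraMap_mem x)).symm
  | add x y _ _ hx hy =>
    simp only [map_add]
    rw [hx, hy]
  | inv x _ hx =>
    simp only [map_inv₀]
    rw [hx]
  | mul x y _ _ hx hy =>
    simp only [map_mul]
    rw [hx, hy]

end Pool.Agent.H72.RM
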