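import Pool.Agent.H72.RM.Defs

/-!
# Module Desc: descent from level `k` to level `k - 1`

`L = K(F, ζ, β)`, `q = p^(k-1)`, `ξ = ζ^q` (primitive `p`-th root of unity), `ζ` and `g0 ζ = ζ ξ`.
Let `P` be the set of roots of unity of `p`-power order in `Ω`.
0. `P ∩ L = {ζ^i}`: if `L` contained an element of `P` of order `p^j`, `j > k`, it would contain
   `ζ'^i` for a primitive `p^(k+1)`-th root of unity, i.e. `ζ' ∈ L` (a power of that element is a
   primitive `p^(k+1)`-th root of unity, and `ζ'` is a power of it); but `θ` fixes `F`, `ζ` and all `β i`,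
   hence `L` pointwise, and `θ ζ' = ζ'^(1+p^k) ≠ ζ'`.
1. `A = {σ : Ω ≃ₐ[K] Ω | σ y / y ∈ P}` is closed under products and inverses when restricted to
   automorphisms fixing `F` (they map `L` to `L`). From `hg`, `hz`: `g0 ∈ A`, `z j ∈ A`. Hence
   `s_j := z j * g0⁻¹ ∈ A`: `s_j` fixes `F`, `ζ`, and `s_j (β i) = ξ^(δ_ij) β i`.
   (`g0⁻¹ y = ε y`, `ε ∈ P`, `s_j y = z j (ε) z j (y)`.)
2. `s_j y = ε_j y`, `ε_j ∈ P ∩ L` is a power of `ζ` so `s_j ε_j = ε_j`, and `s_j^p = 1` on `L`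
   (check on `F`, `ζ`, `β i`), so `ε_j^p = 1`, `ε_j = ξ^(n_j)`. Put `y' = y ∏ (β i)^(-n_i)`: `s_j y' = y'`
   for all `j`.
3. `g0 y' = ε y'` with `ε ∈ P ∩ L` (`g0 (β i) = β i`), `ε = ζ^c`, `g0 ε = ε^(1+q)`. `g0^p = 1` on `L`
   (`(1+q)^p ≡ 1 mod p^k`), and `g0^p y' = ε^(1 + (1+q) + .. + (1+q)^(p-1)) y' = ε^p y'`, because
   `∑_{i<p} (1+q)^i ≡ ∑ (1 + i q) = p + q p(p-1)/2 ≡ p mod p^k` (`p` odd, `p^k ∣ q^2`). So `ε^p = 1`,
   `ε = ξ^e`. Put `y'' = y' ζ^(-e)`: `g0 y'' = ξ^e y' (ζ ξ)^(-e) = y''`, and `s_j y'' = y''`.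
4. `y'' ∈ K(F, ζ^p, β^p)` by `mem_adjoin_of_fixed`: let `σ` fix `F`, `ζ^p`, `(β i)^p`. Then
   `σ ζ = ξ^c ζ`, `σ (β i) = ξ^(b_i) β i` with naturals `c, b_i` (`p`-th roots of unity are powers of
   `ξ`), so `σ` and `g0^c ∏ s_i^(b_i)` agree on `F`, `ζ`, `β i` (`g0^c ζ = ξ^c ζ` since `g0 ξ = ξ`), hence on
   `L ∋ y''`; the latter fixes `y''`.
The conclusion is with `n_i ↦ -n_i`, `e ↦ -e`.

In the proof below `s_j = z j * g0 ^ (p - 1)` is used instead of `z j * g0⁻¹` (they agree on `L`).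
-/

set_option autoImplicit false
set_option linter.unusedSectionVars false

open IntermediateField

namespace Pool.Agent.H72.RM

section DescAux

variable {K Ω : Type} [Field K] [Field Ω] [Algebra K Ω]

theorem desc_maps (S : Set Ω) (σ : Ω ≃ₐ[K] Ω) (h : ∀ x ∈ S, σ x ∈ IntermediateField.adjoin K S)
    (x : Ω) (hx : x ∈ IntermediateField.adjoin K S) : σ x ∈ IntermediateField.adjoin K S := by
  induction hx using IntermediateField.adjoin_induction with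
  | mem y hy => exact h y hy
  | algebraMap y =>
    rw [σ.commutes]
    exact (IntermediateField.adjoin K S).algebraMap_mem y
  | add y z _ _ hy hz =>
    rw [map_add]
    exact add_mem hy hz
  | inv y _ hy =>
    rw [map_inv₀]
    exact inv_mem hy
  | mul y z _ _ hy hz =>
    rw [map_mul]
    exact mul_mem hy hz

theorem desc_agree (S : Set Ω) (σ ρ : Ω ≃ₐ[K] Ω) (h : ∀ x ∈ S, σ x = ρ x)
    (x : Ω) (hx : x ∈ IntermediateField.adjoin K S) : σ x = ρ x := by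
  induction hx using IntermediateField.adjoin_induction with
  | mem y hy => exact h y hy
  | algebraMap y => rw [σ.commutes, ρ.commutes]
  | add y z _ _ hy hz => rw [map_add, map_add, hy, hz]
  | inv y _ hy => rw [map_inv₀, map_inv₀, hy]
  | mul y z _ _ hy hz => rw [map_mul, map_mul, hy, hz]

/-- powers of an automorphism on an eigenvector with a fixed eigenvalue -/
theorem desc_pow_fixed (σ : Ω ≃ₐ[K] Ω) (y c : Ω) (hc : σ c = c) (hy : σ y = c * y) (m : ℕ) :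
    (σ ^ m) y = c ^ m * y := by
  induction m with
  | zero => simp
  | succ m ih =>
    rw [pow_succ', AlgEquiv.mul_apply, ih, map_mul, map_pow, hc, hy, pow_succ]
    ring

theorem desc_pow_id (σ : Ω ≃ₐ[K] Ω) (y : Ω) (hy : σ y = y) (m : ℕ) : (σ ^ m) y = y := by
  have h := desc_pow_fixed σ y 1 (map_one σ) (by rw [one_mul]; exact hy) m
  rw [h, one_pow, one_mul]

/-- `g ζ = ζ^u`: `g^m ζ = ζ^(u^m)` -/
theorem desc_pow_zeta (g : Ω ≃ₐ[K] Ω) (ζ : Ω) (u : ℕ) (h : g ζ = ζ ^ u) (m : ℕ) :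
    (g ^ m) ζ = ζ ^ (u ^ m) := by
  induction m with
  | zero => simp
  | succ m ih =>
    rw [pow_succ', AlgEquiv.mul_apply, ih, map_pow, h, ← pow_mul, pow_succ']

/-- `g ζ = ζ^u`, `g y = ζ^a y`: `g^m y = ζ^(a (1 + u + ... + u^(m-1))) y` -/
theorem desc_pow_eig (g : Ω ≃ₐ[K] Ω) (ζ y : Ω) (u a : ℕ) (h : g ζ = ζ ^ u)
    (hy : g y = ζ ^ a * y) (m : ℕ) :
    (g ^ m) y = ζ ^ (a * ∑ i ∈ Finset.range m, u ^ i) * y := by
  induction m with
  | zero => simp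
  | succ m ih =>
    rw [pow_succ, AlgEquiv.mul_apply, hy, map_mul, map_pow, desc_pow_zeta g ζ u h m, ih,
      Finset.sum_range_succ, mul_add, pow_add, ← pow_mul]
    ring

end DescAux

theorem desc_binom (q i : ℕ) : ∃ u : ℕ, (1 + q) ^ i = 1 + i * q + q ^ 2 * u := by
  induction i with
  | zero => exact ⟨0, by simp⟩
  | succ i ih =>
    obtain ⟨u, hu⟩ := ih
    refine ⟨i + u + u * q, ?_⟩
    rw [pow_succ, hu]
    ring

theorem desc_sum (p q : ℕ) (hp : p.Prime) (hp2 : p ≠ 2) (hq : p ∣ q) :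
    ∃ t : ℕ, ∑ i ∈ Finset.range p, (1 + q) ^ i = p * (1 + p * t) := by
  obtain ⟨q', rfl⟩ := hq
  choose u hu using desc_binom (p * q')
  obtain ⟨m, hm⟩ := hp.even_sub_one hp2
  have h1 : ∑ i ∈ Finset.range p, i = p * m := by
    have h2 := Finset.sum_range_id_mul_two p
    rw [hm] at h2
    have h3 : (∑ i ∈ Finset.range p, i) * 2 = (p * m) * 2 := by
      rw [h2]; ring
    exact Nat.eq_of_mul_eq_mul_right (by norm_num) h3
  refine ⟨q' * m + q' ^ 2 * ∑ i ∈ Finset.range p, u i, ?_⟩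
  have h4 : ∑ i ∈ Finset.range p, (1 + p * q') ^ i
      = ∑ i ∈ Finset.range p, (1 + i * (p * q') + (p * q') ^ 2 * u i) :=
    Finset.sum_congr rfl fun i _ => hu i
  rw [h4, Finset.sum_add_distrib, Finset.sum_add_distrib, ← Finset.mul_sum, ← Finset.sum_mul, h1]
  simp only [Finset.sum_const, Finset.card_range, smul_eq_mul, mul_one]
  ring

theorem desc {K Ω : Type} [Field K] [Field Ω] [CharZero Ω] [Algebra K Ω] [IsGalois K Ω] (p : ℕ)
    [Fact p.Prime] (hp2 : p ≠ 2) {r : ℕ} (F : IntermediateField K Ω) (k : ℕ) (hk : 2 ≤ k)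
    (ζ ζ' : Ω) (hζ : IsPrimitiveRoot ζ (p ^ k)) (hζ' : IsPrimitiveRoot ζ' (p ^ (k + 1)))
    (hζζ : ζ' ^ p = ζ) (β : Fin r → Ω) (hβ0 : ∀ i, β i ≠ 0)
    (g0 : Ω ≃ₐ[K] Ω) (hgF : ∀ x ∈ F, g0 x = x) (hgζ : g0 ζ = ζ ^ (1 + p ^ (k - 1)))
    (hgβ : ∀ i, g0 (β i) = β i)
    (z : Fin r → (Ω ≃ₐ[K] Ω)) (hzF : ∀ j, ∀ x ∈ F, z j x = x)
    (hzζ : ∀ j, z j ζ = ζ ^ (1 + p ^ (k - 1)))
    (hzβ : ∀ j i, z j (β i) = (if i = j then ζ ^ (p ^ (k - 1)) else 1) * β i)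
    (θ : Ω ≃ₐ[K] Ω) (hθF : ∀ x ∈ F, θ x = x) (hθζ : θ ζ' = ζ' ^ (1 + p ^ k))
    (hθβ : ∀ i, θ (β i) = β i)
    (y : Ω) (hy : y ∈ IntermediateField.adjoin K ((F : Set Ω) ∪ ({ζ} ∪ Set.range β)))
    (hy0 : y ≠ 0) (s : ℕ) (hg : (g0 y) ^ (p ^ s) = y ^ (p ^ s))
    (hz : ∀ j, (z j y) ^ (p ^ s) = y ^ (p ^ s)) :
    ∃ (n : Fin r → ℤ) (e : ℤ), y * (∏ i, (β i) ^ (n i)) * ζ ^ e ∈
      IntermediateField.adjoin K ((F : Set Ω) ∪ ({ζ ^ p} ∪ Set.range fun i => β i ^ p)) := by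
  have hp : p.Prime := Fact.out
  have hp0 : 0 < p := hp.pos
  set S : Set Ω := (F : Set Ω) ∪ ({ζ} ∪ Set.range β) with hS
  set L := IntermediateField.adjoin K S with hL
  obtain ⟨q, hq⟩ : ∃ q, q = p ^ (k - 1) := ⟨_, rfl⟩
  rw [← hq] at hgζ
  simp only [← hq] at hzζ hzβ
  have hqp : q * p = p ^ k := by
    rw [hq, ← pow_succ]
    congr 1
    omega
  have hpq : p ∣ q := by
    rw [hq]
    exact dvd_pow_self p (by omega)
  have hq0 : 0 < q := by rw [hq]; exact pow_pos hp0 _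
  have hζ1 : ζ ^ (q * p) = 1 := by rw [hqp]; exact hζ.pow_eq_one
  have hζq2 : ζ ^ (q ^ 2) = 1 := by
    obtain ⟨q', hq'⟩ := hpq
    rw [pow_two]
    nth_rw 2 [hq']
    rw [← mul_assoc, pow_mul, hζ1, one_pow]
  have hζ0 : ζ ≠ 0 := hζ.ne_zero (pow_pos hp0 k).ne'
  have hζL : ζ ∈ L := IntermediateField.subset_adjoin K S (Or.inr (Or.inl rfl))
  have hβL : ∀ i, β i ∈ L := fun i => IntermediateField.subset_adjoin K S (Or.inr (Or.inr ⟨i, rfl⟩))
  -- the primitive p-th root of unity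
  obtain ⟨ξ, hξ⟩ : ∃ ξ, ξ = ζ ^ q := ⟨_, rfl⟩
  have hξp : ξ ^ p = 1 := by rw [hξ, ← pow_mul, hζ1]
  have hξprim : IsPrimitiveRoot ξ p := by
    rw [hξ]
    exact hζ.pow (pow_pos hp0 k) (by rw [hqp])
  have hξq : ξ ^ q = 1 := by
    rw [hξ, ← pow_mul, ← pow_two, hζq2]
  -- step 0
  have h0 : ∀ ε ∈ L, ∀ m : ℕ, ε ^ (p ^ m) = 1 → ∃ i : ℕ, ε = ζ ^ i := by
    intro ε hε m hm
    obtain ⟨j, -, hj⟩ := (Nat.dvd_prime_pow hp).1 (orderOf_dvd_of_pow_eq_one hm)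
    have hpr : IsPrimitiveRoot ε (p ^ j) := by
      rw [← hj]
      exact IsPrimitiveRoot.orderOf ε
    by_cases hjk : j ≤ k
    · have h1 : ε ^ (p ^ k) = 1 := by
        obtain ⟨c, hc⟩ := pow_dvd_pow p hjk
        rw [hc, pow_mul, hpr.pow_eq_one, one_pow]
      have : NeZero (p ^ k) := ⟨(pow_pos hp0 k).ne'⟩
      obtain ⟨i, -, hi⟩ := hζ.eq_pow_of_pow_eq_one h1
      exact ⟨i, hi.symm⟩
    · exfalso
      push Not at hjk
      have h2 : IsPrimitiveRoot (ε ^ (p ^ (j - (k + 1)))) (p ^ (k + 1)) := by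
        refine hpr.pow (pow_pos hp0 j) ?_
        rw [← pow_add]
        congr 1
        omega
      have : NeZero (p ^ (k + 1)) := ⟨(pow_pos hp0 (k + 1)).ne'⟩
      obtain ⟨i, -, hi⟩ := h2.eq_pow_of_pow_eq_one hζ'.pow_eq_one
      have h3 : ζ' ∈ L := by
        rw [← hi]
        exact pow_mem (pow_mem hε _) _
      have h4 : θ ζ' = ζ' := by
        have h5 : ∀ x ∈ S, θ x = (1 : Ω ≃ₐ[K] Ω) x := by
          intro x hx
          rcases hx with hx | hx | ⟨i, rfl⟩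
          · exact hθF x hx
          · rw [Set.mem_singleton_iff] at hx
            rw [hx, ← hζζ, map_pow, hθζ, AlgEquiv.one_apply, ← pow_mul, add_mul, one_mul, pow_add,
              ← pow_succ, hζ'.pow_eq_one, mul_one]
          · exact hθβ i
        exact desc_agree S θ 1 h5 ζ' h3
      rw [hθζ, pow_add, pow_one] at h4
      have hζ'0 : ζ' ≠ 0 := hζ'.ne_zero (pow_pos hp0 (k + 1)).ne'
      have h6 : ζ' ^ (p ^ k) = 1 := mul_left_cancel₀ hζ'0 (by rw [h4, mul_one])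
      have h7 := hζ'.dvd_of_pow_eq_one _ h6
      have h8 := (Nat.pow_dvd_pow_iff_le_right hp.one_lt).1 h7
      omega
  -- the automorphisms map L to L
  have hgmaps : ∀ x ∈ L, g0 x ∈ L := by
    apply desc_maps
    intro x hx
    rcases hx with hx | hx | ⟨i, rfl⟩
    · rw [hgF x hx]
      exact IntermediateField.subset_adjoin K S (Or.inl hx)
    · rw [Set.mem_singleton_iff] at hx
      rw [hx, hgζ]
      exact pow_mem hζL _
    · rw [hgβ]
      exact hβL i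
  have hzmaps : ∀ j, ∀ x ∈ L, z j x ∈ L := by
    intro j
    apply desc_maps
    intro x hx
    rcases hx with hx | hx | ⟨i, rfl⟩
    · rw [hzF j x hx]
      exact IntermediateField.subset_adjoin K S (Or.inl hx)
    · rw [Set.mem_singleton_iff] at hx
      rw [hx, hzζ]
      exact pow_mem hζL _
    · rw [hzβ]
      refine mul_mem ?_ (hβL i)
      split_ifs
      · exact pow_mem hζL _
      · exact one_mem _
  have heig : ∀ σ : Ω ≃ₐ[K] Ω, (∀ x ∈ L, σ x ∈ L) → (σ y) ^ (p ^ s) = y ^ (p ^ s) →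
      ∃ a : ℕ, σ y = ζ ^ a * y := by
    intro σ hσ hσy
    have h1 : σ y / y ∈ L := div_mem (hσ y hy) hy
    have h2 : (σ y / y) ^ (p ^ s) = 1 := by
      rw [div_pow, hσy, div_self (pow_ne_zero _ hy0)]
    obtain ⟨i, hi⟩ := h0 _ h1 s h2
    exact ⟨i, by rw [← hi, div_mul_cancel₀ _ hy0]⟩
  obtain ⟨a, ha⟩ := heig g0 hgmaps hg
  have hb : ∀ j, ∃ b : ℕ, z j y = ζ ^ b * y := fun j => heig (z j) (hzmaps j) (hz j)
  choose b hb using hb
  obtain ⟨t, ht⟩ := desc_sum p q hp hp2 hpq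
  have hpowp : (1 + q) ^ p = 1 + q * p * (1 + p * t) := by
    have h1 := geom_sum_mul_add q p
    have h2 : ∑ i ∈ Finset.range p, (q + 1) ^ i = p * (1 + p * t) := by
      rw [← ht]
      exact Finset.sum_congr rfl fun i _ => by rw [add_comm]
    rw [h2] at h1
    rw [add_comm 1 q, ← h1]
    ring
  have hζpowp : ζ ^ ((1 + q) ^ p) = ζ := by
    rw [hpowp, pow_add, pow_one, pow_mul, hζ1, one_pow, mul_one]
  -- the automorphisms s j
  obtain ⟨sg, hsg⟩ : ∃ sg : Fin r → (Ω ≃ₐ[K] Ω), ∀ j, sg j = z j * g0 ^ (p - 1) := ⟨_, fun _ => rfl⟩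
  have hsF : ∀ j, ∀ x ∈ F, sg j x = x := by
    intro j x hx
    rw [hsg, AlgEquiv.mul_apply, desc_pow_id g0 x (hgF x hx), hzF j x hx]
  have hsζ : ∀ j, sg j ζ = ζ := by
    intro j
    rw [hsg, AlgEquiv.mul_apply, desc_pow_zeta g0 ζ (1 + q) hgζ, map_pow, hzζ, ← pow_mul,
      ← pow_succ', show p - 1 + 1 = p by omega, hζpowp]
  have hsξ : ∀ j, sg j ξ = ξ := by
    intro j
    rw [hξ, map_pow, hsζ]
  have hsβ : ∀ j i, sg j (β i) = (if i = j then ξ else 1) * β i := by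
    intro j i
    rw [hsg, AlgEquiv.mul_apply, desc_pow_id g0 (β i) (hgβ i), hzβ, hξ]
  have hsy : ∀ j, ∃ m : ℕ, sg j y = ζ ^ m * y := by
    intro j
    refine ⟨(1 + q) * (a * ∑ i ∈ Finset.range (p - 1), (1 + q) ^ i) + b j, ?_⟩
    rw [hsg, AlgEquiv.mul_apply, desc_pow_eig g0 ζ y (1 + q) a hgζ ha, map_mul, map_pow, hzζ, hb,
      ← pow_mul, pow_add, mul_assoc]
  choose m hm using hsy
  have hspow : ∀ j, ∀ x ∈ L, (sg j ^ p) x = x := by
    intro j x hx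
    have h5 : ∀ x ∈ S, (sg j ^ p) x = (1 : Ω ≃ₐ[K] Ω) x := by
      intro x hx
      rw [AlgEquiv.one_apply]
      rcases hx with hx | hx | ⟨i, rfl⟩
      · exact desc_pow_id _ _ (hsF j x hx) p
      · rw [Set.mem_singleton_iff] at hx
        rw [hx]
        exact desc_pow_id _ _ (hsζ j) p
      · rw [desc_pow_fixed (sg j) (β i) (if i = j then ξ else 1) ?_ (hsβ j i) p]
        · split_ifs
          · rw [hξp, one_mul]
          · rw [one_pow, one_mul]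
        · split_ifs
          · exact hsξ j
          · exact map_one _
    exact desc_agree S (sg j ^ p) 1 h5 x hx
  have hn : ∀ j, ∃ n : ℕ, sg j y = ξ ^ n * y := by
    intro j
    have h1 : (sg j ^ p) y = (ζ ^ m j) ^ p * y :=
      desc_pow_fixed (sg j) y (ζ ^ m j) (by rw [map_pow, hsζ]) (hm j) p
    rw [hspow j y hy] at h1
    have h2 : (ζ ^ m j) ^ p = 1 := mul_right_cancel₀ hy0 (by rw [← h1, one_mul])
    rw [← pow_mul] at h2
    have h3 := hζ.dvd_of_pow_eq_one _ h2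
    rw [← hqp] at h3
    obtain ⟨n, hn⟩ := Nat.dvd_of_mul_dvd_mul_right hp0 h3
    exact ⟨n, by rw [hm, hn, pow_mul, ← hξ]⟩
  choose n hn using hn
  -- y'
  obtain ⟨y', hy'⟩ : ∃ y', y' = y * ∏ i, (β i) ^ (-(n i : ℤ)) := ⟨_, rfl⟩
  have hprod0 : (∏ i, (β i) ^ (-(n i : ℤ))) ≠ 0 :=
    Finset.prod_ne_zero_iff.2 fun i _ => zpow_ne_zero _ (hβ0 i)
  have hy'0 : y' ≠ 0 := by rw [hy']; exact mul_ne_zero hy0 hprod0
  have hy'L : y' ∈ L := by
    rw [hy']
    exact mul_mem hy (prod_mem fun i _ => zpow_mem (hβL i) _)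
  have hsy' : ∀ j, sg j y' = y' := by
    intro j
    rw [hy', map_mul, hn, map_prod]
    have h1 : ∀ i, sg j ((β i) ^ (-(n i : ℤ))) = (if i = j then ξ ^ (-(n j : ℤ)) else 1) *
        (β i) ^ (-(n i : ℤ)) := by
      intro i
      rw [map_zpow₀, hsβ, mul_zpow]
      split_ifs with h
      · rw [h]
      · rw [one_zpow]
    rw [Finset.prod_congr rfl fun i _ => h1 i, Finset.prod_mul_distrib, Finset.prod_ite_eq']
    simp only [Finset.mem_univ, if_true]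
    have h2 : ξ ^ n j * ξ ^ (-(n j : ℤ)) = 1 := by
      rw [zpow_neg, zpow_natCast]
      exact mul_inv_cancel₀ (pow_ne_zero _ (hξprim.ne_zero hp.ne_zero))
    calc ξ ^ n j * y * (ξ ^ (-(n j : ℤ)) * ∏ i, (β i) ^ (-(n i : ℤ)))
        = (ξ ^ n j * ξ ^ (-(n j : ℤ))) * (y * ∏ i, (β i) ^ (-(n i : ℤ))) := by ring
      _ = _ := by rw [h2, one_mul]
  have hgy' : g0 y' = ζ ^ a * y' := by
    rw [hy', map_mul, ha, map_prod]
    have h1 : ∀ i, g0 ((β i) ^ (-(n i : ℤ))) = (β i) ^ (-(n i : ℤ)) := by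
      intro i
      rw [map_zpow₀, hgβ]
    rw [Finset.prod_congr rfl fun i _ => h1 i, mul_assoc]
  have hgpow : ∀ x ∈ L, (g0 ^ p) x = x := by
    intro x hx
    have h5 : ∀ x ∈ S, (g0 ^ p) x = (1 : Ω ≃ₐ[K] Ω) x := by
      intro x hx
      rw [AlgEquiv.one_apply]
      rcases hx with hx | hx | ⟨i, rfl⟩
      · exact desc_pow_id _ _ (hgF x hx) p
      · rw [Set.mem_singleton_iff] at hx
        rw [hx, desc_pow_zeta g0 ζ (1 + q) hgζ, hζpowp]
      · exact desc_pow_id _ _ (hgβ i) p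
    exact desc_agree S (g0 ^ p) 1 h5 x hx
  have hae : ∃ e : ℕ, a = q * e := by
    have h1 := desc_pow_eig g0 ζ y' (1 + q) a hgζ hgy' p
    rw [hgpow y' hy'L, ht] at h1
    have h2 : ζ ^ (a * (p * (1 + p * t))) = 1 := mul_right_cancel₀ hy'0 (by rw [← h1, one_mul])
    have h3 := hζ.dvd_of_pow_eq_one _ h2
    rw [← hqp] at h3
    have h4 : q * p ∣ (a * (1 + p * t)) * p := by
      refine h3.trans (dvd_of_eq ?_)
      ring
    have h5 := Nat.dvd_of_mul_dvd_mul_right hp0 h4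
    have h6 : Nat.Coprime q (1 + p * t) := by
      rw [hq]
      apply Nat.Coprime.pow_left
      rw [hp.coprime_iff_not_dvd]
      intro h
      have h7 : p ∣ 1 := (Nat.dvd_add_iff_left (dvd_mul_right p t)).2 h
      exact hp.one_lt.ne' (Nat.dvd_one.1 h7)
    obtain ⟨e, he⟩ := h6.dvd_of_dvd_mul_right h5
    exact ⟨e, he⟩
  obtain ⟨e, he⟩ := hae
  obtain ⟨y2, hy2⟩ : ∃ y2, y2 = y' * ζ ^ (-(e : ℤ)) := ⟨_, rfl⟩
  have hy2L : y2 ∈ L := by
    rw [hy2]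
    exact mul_mem hy'L (zpow_mem hζL _)
  have hgy2 : g0 y2 = y2 := by
    rw [hy2, map_mul, map_zpow₀, hgζ, hgy', he]
    have h1 : ζ ^ (q * e) * (ζ ^ (1 + q)) ^ (-(e : ℤ)) = ζ ^ (-(e : ℤ)) := by
      rw [← zpow_natCast ζ (q * e), ← zpow_natCast ζ (1 + q), ← zpow_mul, ← zpow_add₀ hζ0]
      congr 1
      push_cast
      ring
    calc ζ ^ (q * e) * y' * (ζ ^ (1 + q)) ^ (-(e : ℤ))
        = y' * (ζ ^ (q * e) * (ζ ^ (1 + q)) ^ (-(e : ℤ))) := by ring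
      _ = _ := by rw [h1]
  have hsy2 : ∀ j, sg j y2 = y2 := by
    intro j
    rw [hy2, map_mul, map_zpow₀, hsζ, hsy']
  refine ⟨fun i => -(n i : ℤ), -(e : ℤ), ?_⟩
  rw [← hy', ← hy2]
  apply mem_adjoin_of_fixed
  intro σ hσ
  have hσF : ∀ x ∈ F, σ x = x := fun x hx => hσ x (Or.inl hx)
  have : NeZero p := ⟨hp.ne_zero⟩
  have hroot : ∀ x : Ω, x ≠ 0 → σ (x ^ p) = x ^ p → ∃ c : ℕ, σ x = ξ ^ c * x := by
    intro x hx hx2
    have h1 : (σ x / x) ^ p = 1 := by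
      rw [div_pow, ← map_pow, hx2, div_self (pow_ne_zero _ hx)]
    obtain ⟨c, -, hc⟩ := hξprim.eq_pow_of_pow_eq_one h1
    exact ⟨c, by rw [hc, div_mul_cancel₀ _ hx]⟩
  obtain ⟨c, hc⟩ := hroot ζ hζ0 (hσ _ (Or.inr (Or.inl rfl)))
  have hd : ∀ i, ∃ d : ℕ, σ (β i) = ξ ^ d * β i := fun i =>
    hroot (β i) (hβ0 i) (hσ _ (Or.inr (Or.inr ⟨i, rfl⟩)))
  choose d hd using hd
  -- the automorphism with the same action on the β i
  have hT : ∀ T : Finset (Fin r), ∃ ρ : Ω ≃ₐ[K] Ω, (∀ x ∈ F, ρ x = x) ∧ ρ ζ = ζ ∧ ρ y2 = y2 ∧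
      ∀ i, ρ (β i) = (if i ∈ T then ξ ^ d i else 1) * β i := by
    intro T
    induction T using Finset.induction_on with
    | empty => exact ⟨1, fun x _ => rfl, rfl, rfl, fun i => by simp⟩
    | insert j T hj ih =>
      obtain ⟨ρ, h1, h2, h3, h4⟩ := ih
      have h5 : ρ ξ = ξ := by rw [hξ, map_pow, h2]
      refine ⟨ρ * sg j ^ d j, ?_, ?_, ?_, ?_⟩
      · intro x hx
        rw [AlgEquiv.mul_apply, desc_pow_id _ _ (hsF j x hx), h1 x hx]
      · rw [AlgEquiv.mul_apply, desc_pow_id _ _ (hsζ j), h2]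
      · rw [AlgEquiv.mul_apply, desc_pow_id _ _ (hsy2 j), h3]
      · intro i
        have h6 : (sg j ^ d j) (β i) = (if i = j then ξ else 1) ^ d j * β i := by
          apply desc_pow_fixed _ _ _ _ (hsβ j i)
          split_ifs
          · exact hsξ j
          · exact map_one _
        rw [AlgEquiv.mul_apply, h6, map_mul, h4]
        by_cases hij : i = j
        · subst hij
          rw [if_pos rfl, if_neg hj, if_pos (Finset.mem_insert_self _ _), map_pow, h5, one_mul]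
        · rw [if_neg hij, one_pow, map_one, one_mul]
          simp only [Finset.mem_insert, hij, false_or]
  obtain ⟨ρ, h1, h2, h3, h4⟩ := hT Finset.univ
  have hgξ : g0 ξ = ξ := by
    rw [hξ, map_pow, hgζ, ← hξ, ← pow_mul, mul_comm, pow_mul, ← hξ, pow_add, pow_one, hξq, mul_one]
  have hgc : (g0 ^ c) ζ = ξ ^ c * ζ := by
    apply desc_pow_fixed g0 ζ ξ hgξ
    rw [hgζ, hξ, pow_add, pow_one, mul_comm]
  have h5 : ∀ x ∈ S, σ x = (g0 ^ c * ρ) x := by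
    intro x hx
    rw [AlgEquiv.mul_apply]
    rcases hx with hx | hx | ⟨i, rfl⟩
    · rw [hσF x hx, h1 x hx, desc_pow_id _ _ (hgF x hx)]
    · rw [Set.mem_singleton_iff] at hx
      rw [hx, h2, hgc, hc]
    · rw [h4 i, if_pos (Finset.mem_univ i), map_mul, map_pow, desc_pow_id _ _ hgξ,
        desc_pow_id _ _ (hgβ i), hd]
  rw [desc_agree S σ (g0 ^ c * ρ) h5 y2 hy2L, AlgEquiv.mul_apply, h3, desc_pow_id _ _ hgy2]

end Pool.Agent.H72.RM
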