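import Pool.Agent.H72.RM.Unr

/-!
# Module CycW: the cyclotomic character over `Wnr` is surjective

`cyc_deg`: Let `P` be the minimal polynomial of `ζ` over `W = Wnr p C` (`minpoly W ζ`), `m ≥ 1`. It divides
the cyclotomic polynomial `Φ` of `p^m` (degree `e = p^(m-1)(p-1)`), so its roots in `C` are primitive
`p^m`-th roots of unity, distinct, `d = deg P ≤ e` in number. `P(1) = ∏ (1 - μ) ∈ W`, nonzero, has norm
`‖ζ - 1‖^d` (all `‖μ - 1‖` are equal: their `e`-th powers are `1/p` by `norm_zeta_sub_one`), and is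
`p^(-k)`, `k ∈ ℤ`, by `unr_value`. As `‖ζ - 1‖^e = 1/p`, `p^(-k e) = p^(-d)`, so `e ∣ d`, `d = e` and
`P = Φ`.
`cyc_W`: `ζ^h` is a root of `Φ = P`, so there is `σ : C ≃ₐ[W] C` with `σ ζ = ζ^h`
(`IsAlgClosed`/`Normal`: `minpoly.algEquiv`, `Normal.exists_algEquiv...`, `isConjRoot` lemmas such as
`IsConjRoot.exists_algEquiv`), restrict scalars to `ℚ_[p]`. The case `m = 0` is trivial
(`σ = 1`, `ζ = 1`).
-/

set_option autoImplicit false
set_option linter.unusedSectionVars false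

open IntermediateField

namespace Pool.Agent.H72.RM

variable {p : ℕ} [Fact p.Prime] {C : Type} [NormedField C] [NormedAlgebra ℚ_[p] C]
  [IsUltrametricDist C] [IsAlgClosed C] [Algebra.IsAlgebraic ℚ_[p] C] [IsoEnv p C]

theorem cyc_deg (m : ℕ) (hm : 1 ≤ m) (ζ : C) (hζ : IsPrimitiveRoot ζ (p ^ m)) :
    minpoly (Wnr p C) ζ = Polynomial.cyclotomic (p ^ m) (Wnr p C) := by
  have : CharZero C := charZero_C p C
  have hp : p.Prime := Fact.out
  have hpm : 0 < p ^ m := pow_pos hp.pos m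
  have hpR : (1 : ℝ) < p := by exact_mod_cast hp.one_lt
  have hint : IsIntegral (Wnr p C) ζ := (Algebra.IsAlgebraic.isAlgebraic ζ).isIntegral
  have hmonic : (minpoly (Wnr p C) ζ).Monic := minpoly.monic hint
  have hdvd : minpoly (Wnr p C) ζ ∣ Polynomial.cyclotomic (p ^ m) (Wnr p C) := by
    refine minpoly.dvd _ _ ?_
    rw [Polynomial.aeval_def, ← Polynomial.eval_map, Polynomial.map_cyclotomic]
    exact (Polynomial.isRoot_cyclotomic_iff_charZero hpm).2 hζ
  have hsplit : ((minpoly (Wnr p C) ζ).map (algebraMap (Wnr p C) C)).Splits :=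
    IsAlgClosed.splits _
  set e : ℕ := p ^ (m - 1) * (p - 1) with he
  have he0 : e ≠ 0 := by
    have h1 : 0 < p ^ (m - 1) := pow_pos hp.pos _
    have h2 : 0 < p - 1 := Nat.sub_pos_of_lt hp.one_lt
    exact (Nat.mul_pos h1 h2).ne'
  -- all the roots are primitive roots of unity
  have hroots : ∀ μ ∈ (minpoly (Wnr p C) ζ).aroots C, ‖(1 : C) - μ‖ ^ e = 1 / (p : ℝ) := by
    intro μ hμ
    have h1 : Polynomial.aeval μ (minpoly (Wnr p C) ζ) = 0 :=
      (Polynomial.mem_aroots.1 hμ).2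
    have h2 : Polynomial.aeval μ (Polynomial.cyclotomic (p ^ m) (Wnr p C)) = 0 := by
      obtain ⟨q, hq⟩ := hdvd
      rw [hq, map_mul, h1, zero_mul]
    rw [Polynomial.aeval_def, ← Polynomial.eval_map, Polynomial.map_cyclotomic] at h2
    have h3 : IsPrimitiveRoot μ (p ^ m) := (Polynomial.isRoot_cyclotomic_iff_charZero hpm).1 h2
    rw [norm_sub_rev]
    exact norm_zeta_sub_one m hm μ h3
  have hcard : ((minpoly (Wnr p C) ζ).aroots C).card = (minpoly (Wnr p C) ζ).natDegree := by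
    have h1 := hsplit.natDegree_eq_card_roots
    rw [Polynomial.natDegree_map] at h1
    exact h1.symm
  -- the value at 1
  have hval : ‖((Polynomial.eval 1 (minpoly (Wnr p C) ζ) : Wnr p C) : C)‖ ^ e
      = (1 / (p : ℝ)) ^ (minpoly (Wnr p C) ζ).natDegree := by
    have h1 : ((Polynomial.eval 1 (minpoly (Wnr p C) ζ) : Wnr p C) : C)
        = Polynomial.aeval (1 : C) (minpoly (Wnr p C) ζ) := by
      have h2 := Polynomial.aeval_algebraMap_apply (A := Wnr p C) C 1 (minpoly (Wnr p C) ζ)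
      rw [map_one] at h2
      rw [h2, Polynomial.coe_aeval_eq_eval]
      rfl
    rw [h1, hsplit.aeval_eq_prod_aroots_of_monic hmonic, ← hcard]
    revert hroots
    generalize (minpoly (Wnr p C) ζ).aroots C = s
    intro hs
    induction s using Multiset.induction_on with
    | empty => simp
    | cons a s ih =>
      rw [Multiset.map_cons, Multiset.prod_cons, norm_mul, mul_pow, Multiset.card_cons, pow_succ,
        ih (fun μ hμ => hs μ (Multiset.mem_cons_of_mem hμ)), hs a (Multiset.mem_cons_self a s),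
        mul_comm]
  have hne : ((Polynomial.eval 1 (minpoly (Wnr p C) ζ) : Wnr p C) : C) ≠ 0 := by
    intro h0
    rw [h0, norm_zero, zero_pow he0] at hval
    have h3 : (0 : ℝ) < (1 / (p : ℝ)) ^ (minpoly (Wnr p C) ζ).natDegree := by positivity
    exact h3.ne hval
  obtain ⟨k, hk⟩ := unr_value _ (Polynomial.eval 1 (minpoly (Wnr p C) ζ) : Wnr p C).2 hne
  rw [hk] at hval
  have hke : k * (e : ℤ) = -((minpoly (Wnr p C) ζ).natDegree : ℤ) := by
    have h1 : ((p : ℝ) ^ k) ^ e = (p : ℝ) ^ (k * (e : ℤ)) := by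
      rw [zpow_mul, zpow_natCast]
    have h2 : (1 / (p : ℝ)) ^ (minpoly (Wnr p C) ζ).natDegree
        = (p : ℝ) ^ (-((minpoly (Wnr p C) ζ).natDegree : ℤ)) := by
      rw [one_div, inv_pow, zpow_neg, zpow_natCast]
    rw [h1, h2] at hval
    exact zpow_right_injective₀ (by linarith) (by linarith) hval
  have hdvde : e ∣ (minpoly (Wnr p C) ζ).natDegree := by
    have h1 : (e : ℤ) ∣ ((minpoly (Wnr p C) ζ).natDegree : ℤ) := by
      refine ⟨-k, ?_⟩
      linarith
    exact_mod_cast h1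
  have hΦ : (Polynomial.cyclotomic (p ^ m) (Wnr p C)).natDegree = e := by
    rw [Polynomial.natDegree_cyclotomic, Nat.totient_prime_pow hp (by omega)]
  have hpos : 0 < (minpoly (Wnr p C) ζ).natDegree := minpoly.natDegree_pos hint
  have hle : e ≤ (minpoly (Wnr p C) ζ).natDegree := Nat.le_of_dvd hpos hdvde
  refine (Polynomial.eq_of_monic_of_dvd_of_natDegree_le hmonic
    (Polynomial.cyclotomic.monic _ _) hdvd ?_).symm
  rw [hΦ]
  exact hle

theorem cyc_W (m : ℕ) (ζ : C) (hζ : IsPrimitiveRoot ζ (p ^ m)) (h : ℕ) (hh : Nat.Coprime h p) :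
    ∃ σ : C ≃ₐ[ℚ_[p]] C, (∀ ω ∈ tame p C, σ ω = ω) ∧ σ ζ = ζ ^ h := by
  have : CharZero C := charZero_C p C
  have hp : p.Prime := Fact.out
  have hpm : 0 < p ^ m := pow_pos hp.pos m
  rcases Nat.eq_zero_or_pos m with hm | hm
  · subst hm
    have h1 : ζ = 1 := by
      have h2 := hζ.pow_eq_one
      rwa [pow_zero, pow_one] at h2
    exact ⟨AlgEquiv.refl, fun ω _ => rfl, by rw [h1, one_pow]; rfl⟩
  · have hint : IsIntegral (Wnr p C) ζ := (Algebra.IsAlgebraic.isAlgebraic ζ).isIntegral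
    have hint' : IsIntegral (Wnr p C) (ζ ^ h) := hint.pow h
    have h1 : IsPrimitiveRoot (ζ ^ h) (p ^ m) :=
      hζ.pow_of_coprime h (Nat.Coprime.pow_right m hh)
    have h2 : IsConjRoot (Wnr p C) (ζ ^ h) ζ := by
      rw [isConjRoot_def, cyc_deg m hm _ h1, cyc_deg m hm _ hζ]
    obtain ⟨σ, hσ⟩ := h2.exists_algEquiv
    refine ⟨σ.restrictScalars ℚ_[p], fun ω hω => ?_, hσ⟩
    exact σ.commutes ⟨ω, tame_le_Wnr hω⟩

end Pool.Agent.H72.RM
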