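import Mathlib

/-!
# Module KumChar: proper subgroups of `(ℤ/p^m)^r` are killed by a character modulo `p`

If `m = 0` the group is trivial and `A = ⊤`. Let `m ≥ 1`. Suggested proof: `R = ZMod (p^m)` is a local
ring with maximal ideal `(p)`, `A` is a submodule `N` of `R^r` (`AddSubgroup.toZModSubmodule` or
direct). By Nakayama (`Submodule.le_of_le_smul_of_le_jacobson_bot`, or elementary: if
`N + p R^r = R^r` then `N + p^j R^r = R^r` for all `j`, so `N = R^r` as `p^m = 0`) the subgroup
`N + p R^r` is proper. Its image `Nbar` in `(ZMod p)^r` is a proper subspace (the preimage of `Nbar` is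
`N + p R^r`), so there is a nonzero linear form `n : (ZMod p)^r → ZMod p` vanishing on `Nbar`
(`Submodule.exists_le_ker_of_lt_top` / `Submodule.exists_dual_map_eq_bot_of_lt_top`); lift its
coefficients to integers `n i`.
-/

set_option autoImplicit false

namespace Pool.Agent.H72.RM

private theorem dvd_of_cast (p m : ℕ) [Fact p.Prime] (hm : 0 < m) (x : ZMod (p ^ m))
    (hx : ZMod.castHom (dvd_pow_self p hm.ne') (ZMod p) x = 0) :
    ∃ c : ZMod (p ^ m), x = (p : ZMod (p ^ m)) * c := by
  haveI : NeZero (p ^ m) := ⟨pow_ne_zero _ (Fact.out : p.Prime).ne_zero⟩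
  have h1 : x = ((x.val : ℕ) : ZMod (p ^ m)) := (ZMod.natCast_zmod_val x).symm
  rw [h1, map_natCast, ZMod.natCast_eq_zero_iff] at hx
  obtain ⟨c, hc⟩ := hx
  refine ⟨(c : ZMod (p ^ m)), ?_⟩
  rw [h1, hc]
  push_cast
  rfl

theorem char_exists (p m r : ℕ) [Fact p.Prime] (A : AddSubgroup (Fin r → ZMod (p ^ m)))
    (hA : A ≠ ⊤) : ∃ n : Fin r → ℤ, (∃ i, ¬ (p : ℤ) ∣ n i) ∧
      ∀ a ∈ A, ∃ c : ZMod (p ^ m), ∑ i, (n i : ZMod (p ^ m)) * a i = (p : ZMod (p ^ m)) * c := by
  classical
  have hp : p.Prime := Fact.out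
  rcases Nat.eq_zero_or_pos m with hm | hm
  · exfalso
    subst hm
    apply hA
    rw [eq_top_iff]
    intro x _
    have : x = 0 := by
      funext i
      exact Subsingleton.elim (α := ZMod 1) _ _
    rw [this]
    exact A.zero_mem
  set π := ZMod.castHom (dvd_pow_self p hm.ne') (ZMod p) with hπ
  -- the reduction map
  let φ : (Fin r → ZMod (p ^ m)) →+ (Fin r → ZMod p) :=
    { toFun := fun x i => π (x i)
      map_zero' := by funext i; simp
      map_add' := fun x y => by funext i; simp }
  have hφ : ∀ x i, φ x i = π (x i) := fun x i => rfl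
  -- the image of `A`
  let N : Submodule (ZMod p) (Fin r → ZMod p) := AddSubgroup.toZModSubmodule p (A.map φ)
  have hNmem : ∀ y, y ∈ N ↔ ∃ a ∈ A, φ a = y := by
    intro y
    exact AddSubgroup.mem_map
  have hN : N ≠ ⊤ := by
    intro hN
    apply hA
    -- every `x` is congruent to an element of `A` modulo `p ^ j`
    have key : ∀ j : ℕ, ∀ x : Fin r → ZMod (p ^ m), ∃ a ∈ A, ∃ y : Fin r → ZMod (p ^ m),
        x = a + fun i => (p : ZMod (p ^ m)) ^ j * y i := by
      intro j
      induction j with
      | zero => intro x; exact ⟨0, A.zero_mem, x, by funext i; simp⟩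
      | succ j ih =>
        intro x
        obtain ⟨a, ha, y, hy⟩ := ih x
        have hy1 : φ y ∈ N := by rw [hN]; exact Submodule.mem_top
        obtain ⟨b, hb, hby⟩ := (hNmem _).1 hy1
        have h2 : ∀ i, ∃ c : ZMod (p ^ m), y i - b i = (p : ZMod (p ^ m)) * c := by
          intro i
          apply dvd_of_cast p m hm
          rw [map_sub]
          have := congrFun hby i
          rw [hφ, hφ] at this
          rw [sub_eq_zero]
          exact this.symm
        choose c hc using h2
        refine ⟨a + p ^ j • b, A.add_mem ha (A.nsmul_mem hb _), c, ?_⟩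
        funext i
        have h3 : x i = a i + (p : ZMod (p ^ m)) ^ j * y i := congrFun hy i
        have h5 : (p ^ j • b) i = (p : ZMod (p ^ m)) ^ j * b i := by
          rw [Pi.smul_apply, nsmul_eq_mul]; push_cast; rfl
        have h4 : y i = b i + (p : ZMod (p ^ m)) * c i := by rw [← hc i]; ring
        rw [Pi.add_apply, Pi.add_apply, h5, h3, h4]
        ring
    rw [eq_top_iff]
    intro x _
    obtain ⟨a, ha, y, hy⟩ := key m x
    have h0 : (p : ZMod (p ^ m)) ^ m = 0 := by
      rw [← Nat.cast_pow, ZMod.natCast_self]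
    have : x = a := by
      rw [hy]; funext i; simp [h0]
    rw [this]; exact ha
  obtain ⟨f, hf0, hf⟩ := Submodule.exists_le_ker_of_lt_top N (lt_top_iff_ne_top.2 hN)
  have hfx : ∀ x : Fin r → ZMod p, f x = ∑ i, f (Pi.single i 1) * x i := by
    intro x
    conv_lhs => rw [← Finset.univ_sum_single x]
    rw [map_sum]
    apply Finset.sum_congr rfl
    intro i _
    have : (Pi.single i (x i) : Fin r → ZMod p) = x i • Pi.single i 1 := by
      rw [← Pi.single_smul, smul_eq_mul, mul_one]
    rw [this, map_smul, smul_eq_mul, mul_comm]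
  refine ⟨fun i => ((f (Pi.single i 1)).val : ℤ), ?_, ?_⟩
  · by_contra h
    push Not at h
    apply hf0
    apply LinearMap.ext
    intro x
    rw [hfx, LinearMap.zero_apply]
    apply Finset.sum_eq_zero
    intro i _
    have h1 : p ∣ (f (Pi.single i 1)).val := by exact_mod_cast h i
    have h2 : f (Pi.single i 1) = 0 := by
      rw [← ZMod.natCast_zmod_val (f (Pi.single i 1)), ZMod.natCast_eq_zero_iff]
      exact h1
    rw [h2, zero_mul]
  · intro a ha
    apply dvd_of_cast p m hm
    rw [map_sum]
    have h1 : f (φ a) = 0 := by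
      have : φ a ∈ N := (hNmem _).2 ⟨a, ha, rfl⟩
      exact LinearMap.mem_ker.1 (hf this)
    rw [hfx] at h1
    rw [← h1]
    apply Finset.sum_congr rfl
    intro i _
    rw [map_mul, hφ]
    congr 1
    rw [Int.cast_natCast, map_natCast, ZMod.natCast_zmod_val]

end Pool.Agent.H72.RM
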