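import Pool.Agent.H72.RM.Defs
import Pool.Agent.H72.RM.KumChar

/-!
# Module KumSurj: Kummer automorphisms exist

For `m = 0` take `σ = 1` (`ζ = 1`). Let `m ≥ 1`. For `σ : Ω ≃ₐ[k] Ω` fixing `F'` pointwise,
`(σ (β i))^(p^m) = (β i)^(p^m)`, so `σ (β i) = ζ^(a_i) β i` with a unique `a_i ∈ ZMod (p^m)`
(`IsPrimitiveRoot.zmodEquivZPowers` or `eq_pow_of_pow_eq_one`). Because `σ ζ = ζ`, the set `A` of all the
vectors `(a_i)` is a subgroup of `Fin r → ZMod (p^m)`. If `A = ⊤` we are done. Otherwise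
`char_exists` gives `n : Fin r → ℤ`, not all divisible by `p`, with `∑ n_i a_i ∈ p ZMod (p^m)` for all
`a ∈ A`. Put `x = ∏ (β i)^(p^(m-1) n_i)`. Then `σ x = ζ^(p^(m-1) ∑ n_i a_i) x = x` for all `σ` fixing
`F'`, so `x ∈ F'` (`mem_of_fixed`), and `x^p = ∏ (b i)^(n_i)`; by `ind` all `n_i` are divisible by `p`,
a contradiction.
-/

set_option autoImplicit false
set_option linter.unusedSectionVars false

open IntermediateField

namespace Pool.Agent.H72.RM

theorem kum_surj {k Ω : Type} [Field k] [Field Ω] [Algebra k Ω] [IsGalois k Ω] (p : ℕ)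
    [Fact p.Prime] {r : ℕ} (b : Fin r → k) (hb : ∀ i, b i ≠ 0) (F' : IntermediateField k Ω)
    (ind : ∀ n : Fin r → ℤ, ∀ x ∈ F', x ^ p = ∏ i, (algebraMap k Ω (b i)) ^ (n i) →
      ∀ i, (p : ℤ) ∣ n i)
    (m : ℕ) (ζ : Ω) (hζ : IsPrimitiveRoot ζ (p ^ m)) (hζF : ζ ∈ F') (β : Fin r → Ω)
    (hβ : ∀ i, β i ^ (p ^ m) = algebraMap k Ω (b i)) (a : Fin r → ℕ) :
    ∃ σ : Ω ≃ₐ[k] Ω, (∀ x ∈ F', σ x = x) ∧ ∀ i, σ (β i) = ζ ^ (a i) * β i := by
  have hp : p.Prime := Fact.out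
  rcases Nat.eq_zero_or_pos m with hm | hm
  · subst hm
    have h1 : ζ = 1 := by
      have h2 := hζ.pow_eq_one
      rwa [pow_zero, pow_one] at h2
    refine ⟨AlgEquiv.refl, fun x _ => rfl, fun i => ?_⟩
    rw [h1, one_pow, one_mul]
    rfl
  have hN0 : 0 < p ^ m := pow_pos hp.pos m
  have : NeZero (p ^ m) := ⟨hN0.ne'⟩
  have hζ0 : ζ ≠ 0 := hζ.ne_zero hN0.ne'
  have hβ0 : ∀ i, β i ≠ 0 := by
    intro i h0
    have h1 := hβ i
    rw [h0, zero_pow hN0.ne'] at h1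
    exact hb i ((map_eq_zero (algebraMap k Ω)).1 h1.symm)
  have hmod : ∀ x : ℕ, ζ ^ (x % p ^ m) = ζ ^ x := by
    intro x
    conv_rhs => rw [← Nat.mod_add_div x (p ^ m), pow_add, pow_mul, hζ.pow_eq_one, one_pow,
      mul_one]
  have hadd : ∀ x y : ZMod (p ^ m), ζ ^ (x + y).val = ζ ^ x.val * ζ ^ y.val := by
    intro x y
    rw [ZMod.val_add, hmod, pow_add]
  have hneg : ∀ x : ZMod (p ^ m), ζ ^ (-x).val * ζ ^ x.val = 1 := by
    intro x
    rw [← hadd, neg_add_cancel, ZMod.val_zero, pow_zero]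
  -- the subgroup of realized vectors
  let A : AddSubgroup (Fin r → ZMod (p ^ m)) :=
    { carrier := {v | ∃ σ : Ω ≃ₐ[k] Ω, (∀ x ∈ F', σ x = x) ∧
        ∀ i, σ (β i) = ζ ^ (v i).val * β i}
      zero_mem' := by
        refine ⟨AlgEquiv.refl, fun x _ => rfl, fun i => ?_⟩
        rw [Pi.zero_apply, ZMod.val_zero, pow_zero, one_mul]
        rfl
      add_mem' := by
        rintro u v ⟨σ, hσ1, hσ2⟩ ⟨τ, hτ1, hτ2⟩
        refine ⟨τ.trans σ, fun x hx => ?_, fun i => ?_⟩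
        · rw [AlgEquiv.trans_apply, hτ1 x hx, hσ1 x hx]
        · rw [AlgEquiv.trans_apply, hτ2 i, map_mul, map_pow, hσ1 ζ hζF, hσ2 i, Pi.add_apply,
            hadd]
          ring
      neg_mem' := by
        rintro u ⟨σ, hσ1, hσ2⟩
        have h1 : ∀ x ∈ F', σ.symm x = x := by
          intro x hx
          rw [AlgEquiv.symm_apply_eq, hσ1 x hx]
        refine ⟨σ.symm, h1, fun i => ?_⟩
        have h2 := congrArg σ.symm (hσ2 i)
        rw [AlgEquiv.symm_apply_apply, map_mul, map_pow, h1 ζ hζF] at h2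
        rw [Pi.neg_apply]
        conv_rhs => rw [h2]
        rw [← mul_assoc, hneg, one_mul] }
  have hAmem : ∀ v : Fin r → ZMod (p ^ m), v ∈ A ↔ ∃ σ : Ω ≃ₐ[k] Ω, (∀ x ∈ F', σ x = x) ∧
        ∀ i, σ (β i) = ζ ^ (v i).val * β i := fun v => Iff.rfl
  by_cases hA : A = ⊤
  · have h1 : (fun i => ((a i : ℕ) : ZMod (p ^ m))) ∈ A := by
      rw [hA]
      trivial
    obtain ⟨σ, hσ1, hσ2⟩ := (hAmem _).1 h1
    refine ⟨σ, hσ1, fun i => ?_⟩
    rw [hσ2 i, ZMod.val_natCast, hmod]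
  · exfalso
    obtain ⟨n, ⟨i0, hi0⟩, hn⟩ := char_exists p m r A hA
    have hvec : ∀ σ : Ω ≃ₐ[k] Ω, (∀ x ∈ F', σ x = x) → ∃ v : Fin r → ZMod (p ^ m), v ∈ A ∧
        ∀ i, σ (β i) = ζ ^ (v i).val * β i := by
      intro σ hσ
      have h1 : ∀ i, ∃ j : ℕ, j < p ^ m ∧ σ (β i) = ζ ^ j * β i := by
        intro i
        have h2 : (σ (β i) / β i) ^ (p ^ m) = 1 := by
          rw [div_pow, ← map_pow, hβ i, AlgEquiv.commutes, ← hβ i]
          exact div_self (pow_ne_zero _ (hβ0 i))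
        obtain ⟨j, hj, hj2⟩ := hζ.eq_pow_of_pow_eq_one h2
        refine ⟨j, hj, ?_⟩
        rw [hj2, div_mul_cancel₀ _ (hβ0 i)]
      choose j hj1 hj2 using h1
      refine ⟨fun i => (j i : ZMod (p ^ m)), ?_, fun i => ?_⟩
      · rw [hAmem]
        refine ⟨σ, hσ, fun i => ?_⟩
        rw [ZMod.val_natCast, hmod, hj2 i]
      · rw [ZMod.val_natCast, hmod, hj2 i]
    set x : Ω := ∏ i, β i ^ ((p : ℤ) ^ (m - 1) * n i) with hx
    have hxF : x ∈ F' := by
      refine mem_of_fixed F' x (fun σ hσ => ?_)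
      obtain ⟨v, hvA, hv⟩ := hvec σ hσ
      obtain ⟨c, hc⟩ := hn v hvA
      have h3 : σ x = (∏ i, ζ ^ (((v i).val : ℤ) * ((p : ℤ) ^ (m - 1) * n i))) * x := by
        rw [hx, map_prod, ← Finset.prod_mul_distrib]
        refine Finset.prod_congr rfl (fun i _ => ?_)
        rw [map_zpow₀, hv i, mul_zpow, ← zpow_natCast, ← zpow_mul]
      have h4 : (∏ i, ζ ^ (((v i).val : ℤ) * ((p : ℤ) ^ (m - 1) * n i)))
          = ζ ^ (∑ i, ((v i).val : ℤ) * ((p : ℤ) ^ (m - 1) * n i)) := by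
        have h5 : ∀ s : Finset (Fin r),
            (∏ i ∈ s, ζ ^ (((v i).val : ℤ) * ((p : ℤ) ^ (m - 1) * n i)))
            = ζ ^ (∑ i ∈ s, ((v i).val : ℤ) * ((p : ℤ) ^ (m - 1) * n i)) := by
          intro s
          induction s using Finset.induction_on with
          | empty => simp
          | insert i s hi ih =>
            rw [Finset.prod_insert hi, Finset.sum_insert hi, ih, zpow_add₀ hζ0]
        exact h5 Finset.univ
      have h6 : (p : ℤ) ∣ ∑ i, n i * ((v i).val : ℤ) := by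
        have h7 : (((∑ i, n i * ((v i).val : ℤ)) - (p : ℤ) * (c.val : ℤ) : ℤ) :
            ZMod (p ^ m)) = 0 := by
          push_cast
          simp only [ZMod.natCast_val, ZMod.cast_id', id_eq]
          rw [sub_eq_zero]
          exact hc
        rw [ZMod.intCast_zmod_eq_zero_iff_dvd] at h7
        have h8 : (p : ℤ) ∣ ((p ^ m : ℕ) : ℤ) := by
          rw [Nat.cast_pow]
          exact dvd_pow_self _ hm.ne'
        have h9 := h8.trans h7
        exact (dvd_sub_left (Dvd.intro _ rfl)).1 h9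
      obtain ⟨t, ht⟩ := h6
      have h10 : (∑ i, ((v i).val : ℤ) * ((p : ℤ) ^ (m - 1) * n i))
          = ((p ^ m : ℕ) : ℤ) * t := by
        have h11 : (∑ i, ((v i).val : ℤ) * ((p : ℤ) ^ (m - 1) * n i))
            = (p : ℤ) ^ (m - 1) * ∑ i, n i * ((v i).val : ℤ) := by
          rw [Finset.mul_sum]
          exact Finset.sum_congr rfl (fun i _ => by ring)
        rw [h11, ht, ← mul_assoc, ← pow_succ, Nat.sub_add_cancel hm, Nat.cast_pow]
      rw [h3, h4, h10, zpow_mul, zpow_natCast, hζ.pow_eq_one, one_zpow, one_mul]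
    have hxp : x ^ p = ∏ i, (algebraMap k Ω (b i)) ^ (n i) := by
      rw [hx, ← Finset.prod_pow]
      refine Finset.prod_congr rfl (fun i _ => ?_)
      rw [← hβ i, ← zpow_natCast (β i ^ ((p : ℤ) ^ (m - 1) * n i)) p, ← zpow_mul,
        ← zpow_natCast (β i) (p ^ m), ← zpow_mul]
      congr 1
      rw [Nat.cast_pow]
      have h12 : (p : ℤ) ^ m = (p : ℤ) ^ (m - 1) * p := by
        rw [← pow_succ, Nat.sub_add_cancel hm]
      rw [h12]
      ring
    exact hi0 (ind n x hxF hxp i0)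

end Pool.Agent.H72.RM
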