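import Pool.Agent.H72.RM.Kum
import Pool.Agent.H72.RM.KumSurj

/-!
# Module Full: the Galois group of radical extensions is as large as possible

`p` odd, `F` a subfield of `Ω` stable under all automorphisms (normal over `k`), `cyc`: all characters
of `μ_(p^m)` are realised over `F`.
1. Let `F' = F(ζ)` (`F ⊔ k⟮ζ⟯` or `adjoin k (F ∪ {ζ})`). `ind'` for `F'`: let `x ∈ F'`,
   `x^p = ∏ b_i^(n_i) =: algebraMap b`. Let `m ≥ 1` (if `m = 0`, `ζ = 1`; use a primitive `p`-th root of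
   unity `ξ` and `F(ξ)` instead, or treat this case with `F' = F`, it is included below if one adjoins
   both). Let `ξ` be a primitive `p`-th root of unity in `Ω` (a power of a primitive `p^(m+1)`-th root of
   unity `ζ'` with `ζ'^p = ζ`). By `cyc` (with `h = 2`, prime to the odd prime `p`, for `ζ'`) there is
   `σ` fixing `F` with `σ ζ' = ζ'^2`, so `σ ξ = ξ^2 ≠ ξ` and `σ ζ = ζ^2`. For every `ρ : Ω ≃ₐ[k] Ω` and
   `x ∈ F'`: `σ (ρ x) = ρ (σ x)`: both sides are ring homomorphisms in `x`; on `F` both are `ρ x` (`F` is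
   stable under `ρ`), on `ζ` both are `(ρ ζ)^2` (`ρ ζ = ζ^h`). So `kum_descend` gives `y : k` with
   `y^p = b` and `ind` gives `p ∣ n_i`.
2. `cyc` gives `σ₁` fixing `F` with `σ₁ ζ = ζ^h`; `σ₁ (β i) = ζ^(c_i) (β i)` (`p^m`-th roots of `b i`).
   `kum_surj` for `F'` gives `σ₂` fixing `F` and `ζ` with `σ₂ (β i) = ζ^(a_i - c_i mod p^m) (β i)`.
   `σ = σ₂ * σ₁` works: `σ₂ (σ₁ (β i)) = ζ^(c_i) ζ^(a_i - c_i) β i`.
-/

set_option autoImplicit false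
set_option linter.unusedSectionVars false

open IntermediateField

namespace Pool.Agent.H72.RM

theorem full {k Ω : Type} [Field k] [Field Ω] [CharZero Ω] [IsAlgClosed Ω] [Algebra k Ω]
    [IsGalois k Ω] (p : ℕ)
    [Fact p.Prime] (hp2 : p ≠ 2) {r : ℕ} (b : Fin r → k) (hb : ∀ i, b i ≠ 0)
    (ind : ∀ (n : Fin r → ℤ) (y : k), y ^ p = ∏ i, (b i) ^ (n i) → ∀ i, (p : ℤ) ∣ n i)
    (F : IntermediateField k Ω) (hF : ∀ σ : Ω ≃ₐ[k] Ω, ∀ x ∈ F, σ x ∈ F)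
    (cyc : ∀ (m : ℕ) (ζ : Ω), IsPrimitiveRoot ζ (p ^ m) → ∀ h : ℕ, Nat.Coprime h p →
      ∃ σ : Ω ≃ₐ[k] Ω, (∀ x ∈ F, σ x = x) ∧ σ ζ = ζ ^ h)
    (m : ℕ) (ζ : Ω) (hζ : IsPrimitiveRoot ζ (p ^ m)) (β : Fin r → Ω)
    (hβ : ∀ i, β i ^ (p ^ m) = algebraMap k Ω (b i)) (h : ℕ) (hh : Nat.Coprime h p)
    (a : Fin r → ℕ) :
    ∃ σ : Ω ≃ₐ[k] Ω, (∀ x ∈ F, σ x = x) ∧ σ ζ = ζ ^ h ∧ ∀ i, σ (β i) = ζ ^ (a i) * β i := by
  have hp : p.Prime := Fact.out
  have hp0 : p ≠ 0 := hp.ne_zero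
  haveI : NeZero p := ⟨hp0⟩
  -- a primitive `p^(m+1)`-th root of unity
  haveI : NeZero ((p ^ (m + 1) : ℕ) : Ω) := ⟨by exact_mod_cast (pow_ne_zero (m + 1) hp0)⟩
  obtain ⟨η, hη⟩ : ∃ η : Ω, IsPrimitiveRoot η (p ^ (m + 1)) :=
    HasEnoughRootsOfUnity.exists_primitiveRoot Ω (p ^ (m + 1))
  have hξ : IsPrimitiveRoot (η ^ p ^ m) p :=
    hη.pow (pow_pos hp.pos _) (by rw [pow_succ])
  have hζη : ∃ j : ℕ, η ^ j = ζ := by
    obtain ⟨j, -, hj⟩ := hη.eq_pow_of_pow_eq_one (ξ := ζ)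
      (by rw [pow_succ, pow_mul, hζ.pow_eq_one, one_pow])
    exact ⟨j, hj⟩
  obtain ⟨F', hF'⟩ : ∃ F' : IntermediateField k Ω,
      F' = IntermediateField.adjoin k ((F : Set Ω) ∪ {η}) := ⟨_, rfl⟩
  have hηF' : η ∈ F' := by
    rw [hF']
    exact IntermediateField.subset_adjoin k _ (Set.mem_union_right _ rfl)
  have hFF' : ∀ x ∈ F, x ∈ F' := by
    intro x hx
    rw [hF']
    exact IntermediateField.subset_adjoin k _ (Set.mem_union_left _ hx)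
  have h2p : Nat.Coprime 2 p := (Nat.coprime_primes Nat.prime_two hp).2 (Ne.symm hp2)
  obtain ⟨σ, hσF, hση⟩ := cyc (m + 1) η hη 2 h2p
  have hσξ : σ (η ^ p ^ m) ≠ η ^ p ^ m := by
    rw [map_pow, hση, ← pow_mul, mul_comm, pow_mul]
    intro e
    have hξ0 : (η ^ p ^ m) ≠ 0 := hξ.ne_zero hp0
    have e1 : η ^ p ^ m = 1 := by
      have : (η ^ p ^ m) * (η ^ p ^ m) = (η ^ p ^ m) * 1 := by rw [← pow_two, e, mul_one]
      exact mul_left_cancel₀ hξ0 this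
    exact hξ.ne_one hp.one_lt e1
  have hcomm : ∀ ρ : Ω ≃ₐ[k] Ω, ∀ x ∈ F', σ (ρ x) = ρ (σ x) := by
    intro ρ x hx
    rw [hF'] at hx
    induction hx using IntermediateField.adjoin_induction with
    | mem x hx =>
      rcases hx with hx | hx
      · rw [hσF x hx, hσF _ (hF ρ x hx)]
      · rw [Set.mem_singleton_iff] at hx
        subst hx
        obtain ⟨j, -, hj⟩ := hη.eq_pow_of_pow_eq_one (ξ := ρ x)
          (by rw [← map_pow, hη.pow_eq_one, map_one])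
        rw [hση, map_pow, ← hj, map_pow, hση, ← pow_mul, ← pow_mul, mul_comm]
    | algebraMap c => rw [AlgEquiv.commutes, AlgEquiv.commutes, AlgEquiv.commutes]
    | add x y _ _ hx hy => rw [map_add, map_add, hx, hy, map_add, map_add]
    | inv x _ hx => rw [map_inv₀, map_inv₀, hx, map_inv₀, map_inv₀]
    | mul x y _ _ hx hy => rw [map_mul, map_mul, hx, hy, map_mul, map_mul]
  have ind' : ∀ n : Fin r → ℤ, ∀ x ∈ F', x ^ p = ∏ i, (algebraMap k Ω (b i)) ^ (n i) →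
      ∀ i, (p : ℤ) ∣ n i := by
    intro n x hx hxp
    have e : x ^ p = algebraMap k Ω (∏ i, (b i) ^ (n i)) := by
      rw [hxp, map_prod]
      exact Finset.prod_congr rfl fun i _ => (map_zpow₀ _ _ _).symm
    obtain ⟨y, hy⟩ := kum_descend p F' (η ^ p ^ m) hξ σ hσξ hcomm x hx _ e
    exact ind n y hy
  obtain ⟨j, hj⟩ := hζη
  have hζF' : ζ ∈ F' := hj ▸ pow_mem hηF' j
  obtain ⟨σ₁, h1F, h1ζ⟩ := cyc m ζ hζ h hh
  have hb' : ∀ i, algebraMap k Ω (b i) ≠ 0 := fun i =>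
    (map_ne_zero (algebraMap k Ω)).2 (hb i)
  have hpm : 0 < p ^ m := pow_pos hp.pos m
  have hβ0 : ∀ i, β i ≠ 0 := by
    intro i hi
    have := hβ i
    rw [hi, zero_pow hpm.ne'] at this
    exact hb' i this.symm
  have hc : ∀ i, ∃ c : ℕ, σ₁ (β i) = ζ ^ c * β i := by
    intro i
    haveI : NeZero (p ^ m) := ⟨hpm.ne'⟩
    obtain ⟨c, -, hc⟩ := hζ.eq_pow_of_pow_eq_one (ξ := σ₁ (β i) / β i)
      (by
        rw [div_pow, ← map_pow, hβ i, AlgEquiv.commutes]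
        exact div_self (hb' i))
    refine ⟨c, ?_⟩
    rw [hc, div_mul_cancel₀ _ (hβ0 i)]
  choose c hc using hc
  obtain ⟨σ₂, h2F, h2β⟩ := kum_surj p b hb F' ind' m ζ hζ hζF' β hβ
    (fun i => a i + (p ^ m * c i - c i))
  have h2ζ : σ₂ ζ = ζ := h2F ζ hζF'
  refine ⟨σ₁.trans σ₂, ?_, ?_, ?_⟩
  · intro x hx
    rw [AlgEquiv.trans_apply, h1F x hx, h2F x (hFF' x hx)]
  · rw [AlgEquiv.trans_apply, h1ζ, map_pow, h2ζ]
  · intro i
    rw [AlgEquiv.trans_apply, hc i, map_mul, map_pow, h2ζ, h2β i, ← mul_assoc, ← pow_add]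
    congr 1
    have e : c i + (a i + (p ^ m * c i - c i)) = a i + p ^ m * c i := by
      have : c i ≤ p ^ m * c i := Nat.le_mul_of_pos_left _ hpm
      omega
    rw [e, pow_add, pow_mul, hζ.pow_eq_one, one_pow, mul_one]

end Pool.Agent.H72.RM
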