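import Mathlib

/-!
# Module Transport: restriction of automorphisms along an embedding

`Ω / K` normal (algebraic), `ι : Ω → C`, `τ : C ≃+* C` fixing `ι(K)` pointwise. For `x : Ω` let `f` be
the minimal polynomial of `x` over `K`; it splits in `Ω`, so the roots of its image in `C[X]` are the
`ι(x')`, `x'` root of `f` in `Ω`. As `τ` fixes the coefficients, `τ (ι x)` is a root of the image of
`f`, so `τ (ι x) ∈ ι(Ω)`. The same for `τ⁻¹`. So there is a unique map `σ : Ω → Ω` with `ι (σ x) =
τ (ι x)`, and it is an automorphism of `Ω` over `K`. (Alternatively: make `C` a `K`-algebra via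
`ι ∘ algebraMap`, `ι` and `τ ∘ ι` become `K`-algebra homs `Ω → C`; use `AlgHom.fieldRange_of_normal`,
`AlgHom.restrictNormal`, `AlgEquiv.restrictNormal` or `Normal` API.)
-/

set_option autoImplicit false

namespace Pool.Agent.H72.RM

theorem transport {K Ω C : Type} [Field K] [Field Ω] [Field C] [Algebra K Ω] [Normal K Ω]
    (ι : Ω →+* C) (τ : C ≃+* C)
    (hτ : ∀ x : K, τ (ι (algebraMap K Ω x)) = ι (algebraMap K Ω x)) :
    ∃ σ : Ω ≃ₐ[K] Ω, ∀ x : Ω, ι (σ x) = τ (ι x) := by
  letI : Algebra Ω C := ι.toAlgebra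
  letI : Algebra K C := (ι.comp (algebraMap K Ω)).toAlgebra
  haveI : IsScalarTower K Ω C := IsScalarTower.of_algebraMap_eq (fun x => rfl)
  let τ' : C ≃ₐ[K] C := AlgEquiv.ofRingEquiv (f := τ) hτ
  exact ⟨τ'.restrictNormal Ω, fun x => τ'.restrictNormal_commutes Ω x⟩

end Pool.Agent.H72.RM
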