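import Pool.Agent.H72.RM.PData
import Pool.Agent.H72.RM.Transport
import Pool.Agent.H72.RM.Full
import Pool.Agent.H72.RM.CycW

/-!
# Module FullG: the global Galois groups are full

`cyc_G`: `ι ζ` is a primitive `p^m`-th root of unity; `cyc_W` gives `τ : C ≃ₐ[ℚ_[p]] C` fixing `tame p C`,
hence `Wnr p C` (`fixed_of_mem_adjoin`), with `τ (ι ζ) = (ι ζ)^h`. By `D.base` `τ` fixes `ι(K)`;
`transport` gives `σ` with `ι (σ x) = τ (ι x)`. For `x ∈ F`: `ι x ∈ Wnr p C`, so `ι (σ x) = ι x`.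
`full_G`: `full` for `k = K`, with `cyc` from `cyc_G` and `ind` from `D.ind`. (`IsGalois K Ω` from
`Normal` and characteristic zero.)
-/

set_option autoImplicit false
set_option linter.unusedSectionVars false

open IntermediateField

namespace Pool.Agent.H72.RM

variable {p : ℕ} [Fact p.Prime] {C : Type} [NormedField C] [NormedAlgebra ℚ_[p] C]
  [IsUltrametricDist C] [IsAlgClosed C] [Algebra.IsAlgebraic ℚ_[p] C] [IsoEnv p C]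
  {K Ω : Type} [Field K] [Field Ω] [CharZero Ω] [IsAlgClosed Ω] [Algebra K Ω] [IsGalois K Ω]
  {r : ℕ} {b : Fin r → K} {ι : Ω →+* C} {v : C}

theorem cyc_G (D : PData K Ω p C b ι v) (F : IntermediateField K Ω)
    (hFW : ∀ x ∈ F, ι x ∈ Wnr p C) (m : ℕ) (ζ : Ω) (hζ : IsPrimitiveRoot ζ (p ^ m)) (h : ℕ)
    (hh : Nat.Coprime h p) : ∃ σ : Ω ≃ₐ[K] Ω, (∀ x ∈ F, σ x = x) ∧ σ ζ = ζ ^ h := by
  have hιζ : IsPrimitiveRoot (ι ζ) (p ^ m) := hζ.map_of_injective ι.injective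
  obtain ⟨τ, hτ1, hτ2⟩ := cyc_W m (ι ζ) hιζ h hh
  have hW : ∀ x ∈ Wnr p C, τ x = x := fun x hx =>
    fixed_of_mem_adjoin (tame p C) (τ : C →ₐ[ℚ_[p]] C) (fun y hy => hτ1 y hy) x hx
  obtain ⟨σ, hσ⟩ := transport (K := K) (Ω := Ω) ι τ.toRingEquiv (fun x => hW _ (D.base x))
  have hσ' : ∀ x : Ω, ι (σ x) = τ (ι x) := hσ
  refine ⟨σ, fun x hx => ι.injective ?_, ι.injective ?_⟩
  · rw [hσ' x, hW _ (hFW x hx)]
  · rw [hσ' ζ, hτ2, map_pow]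

theorem full_G (D : PData K Ω p C b ι v) (F : IntermediateField K Ω)
    (hF : ∀ σ : Ω ≃ₐ[K] Ω, ∀ x ∈ F, σ x ∈ F) (hFW : ∀ x ∈ F, ι x ∈ Wnr p C) (m : ℕ) (ζ : Ω)
    (hζ : IsPrimitiveRoot ζ (p ^ m)) (β : Fin r → Ω)
    (hβ : ∀ i, β i ^ (p ^ m) = algebraMap K Ω (b i)) (h : ℕ) (hh : Nat.Coprime h p)
    (a : Fin r → ℕ) :
    ∃ σ : Ω ≃ₐ[K] Ω, (∀ x ∈ F, σ x = x) ∧ σ ζ = ζ ^ h ∧ ∀ i, σ (β i) = ζ ^ (a i) * β i :=
  full p D.p_odd b D.b_ne D.ind F hF (fun m' ζ' hζ' h' hh' => cyc_G D F hFW m' ζ' hζ' h' hh')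
    m ζ hζ β hβ h hh a

end Pool.Agent.H72.RM
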