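import Pool.Agent.H72.RM.Comb2

/-!
# Module Comb1: from the group `(ℤ/p^m)^* ⋉ ℤ/p^m` to the recursion

`R = ZMod (p^m)`, pairs `(h, a)`, `h : Rˣ`, `a : R`, multiplication `(h,a)(h',a') = (h h', a + h a')`.
`ν h a` is the ramification number; the value at `(1, 0)` is irrelevant and never used.
Put `J s = ν (1 + p^s) 0` (`s ≥ 1`, `1 + p^s` is a unit), `K t = ν 1 (p^t)`. Here v(x) = t means
`p^t ∣ x` and not `p^(t+1) ∣ x` (`t < m`); then `x = p^t k`, `k` a unit.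
1. `v(a) = t < m`: `ν 1 a = K t` (`hconj2`).
2. `v(h - 1) = s`, `1 ≤ s < m`: `ν h 0 = J s`: `h` and `1 + p^s` are powers of each other (the subgroup
   `1 + p^s R` of `Rˣ` is cyclic, generated by any element of valuation exactly `s`; `p` odd), and
   `ν (h^j) 0 ≥ ν h 0` whenever `h^j ≠ 1` (induction with `hmul`: if some partial power is `1` reduce the
   exponent modulo the order).
   [An elementary way to see that `h` and `u = 1 + p^s` generate the same subgroup: the powers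
   `u^j`, `j < p^(m-s)`, are distinct elements of `1 + p^s R`, which has `p^(m-s)` elements; the order of
   `1 + p^s k` is `p^(m-s)`, Mathlib: `ZMod.orderOf_one_add_mul_prime` or similar.]
3. `J s ≤ J (s+1)` (`1 ≤ s`, `s + 1 < m`): `(1 + p^s)^p` has valuation `s + 1`; use 2 and the power
   inequality.
4. `v(h - 1) = s < m`, `p^s ∣ a`: `ν h a = ν h 0` (`hconj1` with `(1 - h) c = -a`).
   For `s ≥ 1` it is `J s`. For `s = 0`: `ν h a = ν h 0` for all `a`, and `hA` gives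
   `p^m ≤ p^m ν h 0`, so `ν h a ≥ 1`.
5. `v(h - 1) = s`, `1 ≤ s < m`, `v(a) = t < s`: `ν h a ≤ min (J s) (K t)`:
   `(h, 2a)(h, a)⁻¹ = (1, a)`, so `K t = ν 1 a ≥ min (ν h (2a)) (ν h a) = ν h a` (`hmul`, `hinv`,
   `hconj2` with the unit `2`, `p` odd); `(1, -a)(h, a) = (h, 0)`, so
   `J s = ν h 0 ≥ min (ν 1 (-a)) (ν h a) = min (K t) (ν h a) = ν h a`. And
   `(1, a)(h, 0) = (h, a)`: `ν h a ≥ min (K t) (J s)`.
6. Counting: for `t < m` the number of `a : R` with `v(a) = t` is `(p-1) p^(m-t-1)`, the number with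
   `p^s ∣ a` is `p^(m-s)`; the number of `h : Rˣ` with `v(h - 1) = s`, `1 ≤ s < m`, is
   `(p-1) p^(m-s-1)`, with `v(h-1) = 0` it is `(p-2) p^(m-1)`.
7. (A) `hA` for `h = 1 + p^s`, `1 ≤ s < m`, with 4, 5, 6 is `hA` of `comb2`.
   (B) `hB` for `a = p^t` (`t + 1 < m`), with `ν h a ≥ 1` if `v(h-1) = 0`, `ν h a = J s` if
   `1 ≤ v(h-1) = s ≤ t`, `ν h a ≥ min (J s) (K t)` if `s > t`, `ν 1 a = K t`, is `hB` of `comb2`.
8. Conclude with `comb2` for `s = m - 1`.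
-/

set_option autoImplicit false

open Finset

namespace Pool.Agent.H72.RM

/-- in a finite cyclic group, divisibility of orders gives powers -/
theorem comb1_mem_powers {G : Type*} [CommGroup G] [Fintype G] [DecidableEq G] [IsCyclic G]
    (x y : G) (h : orderOf x ∣ orderOf y) : ∃ j : ℕ, y ^ j = x := by
  classical
  have hy : 0 < orderOf y := orderOf_pos y
  have h1 : (univ.filter (fun a : G => a ^ orderOf y = 1)).card ≤ orderOf y :=
    IsCyclic.card_pow_eq_one_le hy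
  have h2 : (range (orderOf y)).image (fun j => y ^ j) ⊆
      univ.filter (fun a : G => a ^ orderOf y = 1) := by
    intro a ha
    rw [mem_image] at ha
    obtain ⟨j, _, rfl⟩ := ha
    rw [mem_filter]
    refine ⟨mem_univ _, ?_⟩
    rw [← pow_mul, mul_comm, pow_mul, pow_orderOf_eq_one, one_pow]
  have h3 : ((range (orderOf y)).image (fun j => y ^ j)).card = orderOf y := by
    rw [card_image_of_injOn, card_range]
    intro a ha b hb hab
    simp only [coe_range, Set.mem_Iio] at ha hb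
    exact pow_injOn_Iio_orderOf ha hb hab
  have h4 := Finset.eq_of_subset_of_card_le h2 (by rw [h3]; exact h1)
  have h5 : x ∈ univ.filter (fun a : G => a ^ orderOf y = 1) := by
    rw [mem_filter]
    refine ⟨mem_univ _, ?_⟩
    obtain ⟨k, hk⟩ := h
    rw [hk, pow_mul, pow_orderOf_eq_one, one_pow]
  rw [← h4, mem_image] at h5
  obtain ⟨j, _, hj⟩ := h5
  exact ⟨j, hj⟩

/-- the order of a unit of exact level `s` -/
theorem comb1_order (p m s : ℕ) (hp : p.Prime) (hp2 : p ≠ 2) (hs : 1 ≤ s) (hsm : s < m)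
    (h : (ZMod (p ^ m))ˣ) (h1 : (p : ZMod (p ^ m)) ^ s ∣ (h : ZMod (p ^ m)) - 1)
    (h2 : ¬ (p : ZMod (p ^ m)) ^ (s + 1) ∣ (h : ZMod (p ^ m)) - 1) :
    orderOf h = p ^ (m - s) := by
  obtain ⟨n, rfl⟩ := Nat.exists_eq_add_of_le' hsm.le
  obtain ⟨k, hk⟩ := h1
  obtain ⟨a, rfl⟩ := ZMod.intCast_surjective k
  have ha : ¬ (p : ℤ) ∣ a := by
    rintro ⟨b, rfl⟩
    apply h2
    refine ⟨(b : ZMod (p ^ (n + s))), ?_⟩
    rw [hk]
    push_cast
    ring
  have hp3 : 3 ≤ p := by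
    have := hp.two_le
    omega
  have hpm : s + 2 ≤ p * s := by nlinarith
  have h5 := ZMod.orderOf_one_add_mul_prime_pow hp s (by omega) hpm a ha n
  have h6 : (h : ZMod (p ^ (n + s))) = 1 + (p : ZMod (p ^ (n + s))) ^ s * (a : ZMod (p ^ (n + s))) := by
    rw [← hk]; ring
  rw [← orderOf_units, h6, h5]
  congr 1
  omega

theorem comb1_pow_zero (p m : ℕ) : (p : ZMod (p ^ m)) ^ m = 0 := by
  rw [← Nat.cast_pow, ZMod.natCast_self]

/-- exact level: unit times power -/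
theorem comb1_unit (p m t : ℕ) (hp : p.Prime) (hm : 1 ≤ m) (a : ZMod (p ^ m))
    (h1 : (p : ZMod (p ^ m)) ^ t ∣ a)
    (h2 : ¬ (p : ZMod (p ^ m)) ^ (t + 1) ∣ a) :
    ∃ k : (ZMod (p ^ m))ˣ, a = (k : ZMod (p ^ m)) * (p : ZMod (p ^ m)) ^ t := by
  obtain ⟨k, hk⟩ := h1
  obtain ⟨a', rfl⟩ := ZMod.intCast_surjective k
  have ha : ¬ (p : ℤ) ∣ a' := by
    rintro ⟨b, rfl⟩
    apply h2
    refine ⟨(b : ZMod (p ^ m)), ?_⟩
    rw [hk]
    push_cast
    ring
  have hcop : IsCoprime a' ((p ^ m : ℕ) : ℤ) := by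
    push_cast
    apply IsCoprime.pow_right
    rw [isCoprime_comm]
    exact (Prime.coprime_iff_not_dvd (Nat.prime_iff_prime_int.mp hp)).mpr ha
  have hu : IsUnit (a' : ZMod (p ^ m)) := by
    obtain ⟨x, y, hxy⟩ := hcop
    have h3 : ((x * a' + y * ((p ^ m : ℕ) : ℤ) : ℤ) : ZMod (p ^ m)) = ((1 : ℤ) : ZMod (p ^ m)) := by
      rw [hxy]
    rw [Int.cast_add, Int.cast_mul, Int.cast_mul, Int.cast_natCast, ZMod.natCast_self, mul_zero,
      add_zero, Int.cast_one] at h3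
    exact IsUnit.of_mul_eq_one_right _ h3
  refine ⟨hu.unit, ?_⟩
  rw [hk, IsUnit.unit_spec, mul_comm]

/-- multiples of `p^t` -/
noncomputable def comb1D (p m : ℕ) [NeZero (p ^ m)] (t : ℕ) : Finset (ZMod (p ^ m)) :=
  haveI := Classical.decPred fun a : ZMod (p ^ m) => (p : ZMod (p ^ m)) ^ t ∣ a
  univ.filter (fun a => (p : ZMod (p ^ m)) ^ t ∣ a)

theorem comb1D_mem (p m : ℕ) [NeZero (p ^ m)] (t : ℕ) (a : ZMod (p ^ m)) :
    a ∈ comb1D p m t ↔ (p : ZMod (p ^ m)) ^ t ∣ a := by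
  unfold comb1D
  simp

theorem comb1D_card (p m : ℕ) (hp : p.Prime) [NeZero (p ^ m)] (t : ℕ) (ht : t ≤ m) :
    (comb1D p m t).card = p ^ (m - t) := by
  classical
  have hpt : 0 < p ^ t := Nat.pow_pos hp.pos
  have h1 : comb1D p m t = (range (p ^ (m - t))).image
      (fun i : ℕ => ((p ^ t * i : ℕ) : ZMod (p ^ m))) := by
    ext a
    rw [comb1D_mem, mem_image]
    constructor
    · rintro ⟨b, rfl⟩
      refine ⟨b.val % p ^ (m - t), ?_, ?_⟩
      · rw [mem_range]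
        exact Nat.mod_lt _ (Nat.pow_pos hp.pos)
      · have h2 : p ^ t * (b.val % p ^ (m - t)) = (p ^ t * b.val) % (p ^ m) := by
          rw [← Nat.mul_mod_mul_left, ← pow_add, Nat.add_sub_cancel' ht]
        rw [h2, ZMod.natCast_mod, Nat.cast_mul, Nat.cast_pow, ZMod.natCast_zmod_val]
    · rintro ⟨i, _, rfl⟩
      exact ⟨(i : ZMod (p ^ m)), by push_cast; ring⟩
  rw [h1, card_image_of_injOn, card_range]
  intro i hi j hj hij
  simp only [coe_range, Set.mem_Iio] at hi hj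
  simp only at hij
  have hlt : ∀ i, i < p ^ (m - t) → p ^ t * i < p ^ m := by
    intro i hi
    calc p ^ t * i < p ^ t * p ^ (m - t) := Nat.mul_lt_mul_of_pos_left hi hpt
      _ = p ^ m := by rw [← pow_add, Nat.add_sub_cancel' ht]
  have h3 := congrArg ZMod.val hij
  rw [ZMod.val_natCast_of_lt (hlt i hi), ZMod.val_natCast_of_lt (hlt j hj)] at h3
  exact Nat.eq_of_mul_eq_mul_left hpt h3

/-- units congruent to `1` -/
noncomputable def comb1E (p m : ℕ) [NeZero (p ^ m)] (t : ℕ) : Finset (ZMod (p ^ m))ˣ :=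
  haveI := Classical.decPred fun h : (ZMod (p ^ m))ˣ => (p : ZMod (p ^ m)) ^ t ∣ (h : ZMod (p ^ m)) - 1
  univ.filter (fun h => (p : ZMod (p ^ m)) ^ t ∣ (h : ZMod (p ^ m)) - 1)

theorem comb1E_mem (p m : ℕ) [NeZero (p ^ m)] (t : ℕ) (h : (ZMod (p ^ m))ˣ) :
    h ∈ comb1E p m t ↔ (p : ZMod (p ^ m)) ^ t ∣ (h : ZMod (p ^ m)) - 1 := by
  unfold comb1E
  simp

theorem comb1_isUnit (p m s : ℕ) (hs : 1 ≤ s) (a : ZMod (p ^ m))
    (ha : (p : ZMod (p ^ m)) ^ s ∣ a) : IsUnit (1 + a) := by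
  apply IsNilpotent.isUnit_one_add
  obtain ⟨k, rfl⟩ := ha
  refine ⟨m, ?_⟩
  rw [mul_pow, ← pow_mul]
  obtain ⟨r, hr⟩ := Nat.exists_eq_add_of_le (Nat.le_mul_of_pos_left m (by omega : 0 < s))
  rw [hr, pow_add, comb1_pow_zero]
  ring

theorem comb1E_card (p m : ℕ) (hp : p.Prime) [NeZero (p ^ m)] (t : ℕ) (h1 : 1 ≤ t) (ht : t ≤ m) :
    (comb1E p m t).card = p ^ (m - t) := by
  rw [← comb1D_card p m hp t ht]
  refine Finset.card_bij (fun h _ => (h : ZMod (p ^ m)) - 1) ?_ ?_ ?_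
  · intro h hh
    rw [comb1D_mem]
    rwa [comb1E_mem] at hh
  · intro h _ h' _ hhh
    apply Units.ext
    have := sub_left_injective (G := ZMod (p ^ m)) (b := 1)
    exact this hhh
  · intro a ha
    rw [comb1D_mem] at ha
    have hu := comb1_isUnit p m t h1 a ha
    refine ⟨hu.unit, ?_, ?_⟩
    · rw [comb1E_mem, IsUnit.unit_spec]
      simpa using ha
    · rw [IsUnit.unit_spec]
      ring

theorem comb1E_card_zero (p m : ℕ) (hp : p.Prime) [NeZero (p ^ m)] (hm : 1 ≤ m) :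
    (comb1E p m 0).card = p ^ (m - 1) * (p - 1) := by
  have : comb1E p m 0 = univ := by
    ext h
    rw [comb1E_mem]
    simp
  rw [this, card_univ, ZMod.card_units_eq_totient, Nat.totient_prime_pow hp (by omega)]

/-- telescoping decomposition -/
theorem comb1_tele {α : Type*} [DecidableEq α] (S : ℕ → Finset α) (hS : ∀ t, S (t + 1) ⊆ S t)
    (f : α → ℝ) (a b : ℕ) (hab : a ≤ b) :
    ∑ x ∈ S a, f x = ∑ t ∈ Ico a b, ∑ x ∈ S t \ S (t + 1), f x + ∑ x ∈ S b, f x := by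
  induction b, hab using Nat.le_induction with
  | base => simp
  | succ b hb ih =>
    rw [ih, Finset.sum_Ico_succ_top hb, ← Finset.sum_sdiff (hS b)]
    ring

theorem comb1 (p m : ℕ) [Fact p.Prime] (hp : p ≠ 2) (hm : 2 ≤ m)
    (ν : (ZMod (p ^ m))ˣ → ZMod (p ^ m) → ℝ)
    (hconj1 : ∀ (h : (ZMod (p ^ m))ˣ) (a c : ZMod (p ^ m)), (h ≠ 1 ∨ a ≠ 0) →
      ν h (a + (1 - (h : ZMod (p ^ m))) * c) = ν h a)
    (hconj2 : ∀ (h k : (ZMod (p ^ m))ˣ) (a : ZMod (p ^ m)), (h ≠ 1 ∨ a ≠ 0) →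
      ν h ((k : ZMod (p ^ m)) * a) = ν h a)
    (hmul : ∀ (h h' : (ZMod (p ^ m))ˣ) (a a' : ZMod (p ^ m)), (h ≠ 1 ∨ a ≠ 0) →
      (h' ≠ 1 ∨ a' ≠ 0) → (h * h' ≠ 1 ∨ a + (h : ZMod (p ^ m)) * a' ≠ 0) →
      min (ν h a) (ν h' a') ≤ ν (h * h') (a + (h : ZMod (p ^ m)) * a'))
    (hinv : ∀ (h : (ZMod (p ^ m))ˣ) (a : ZMod (p ^ m)), (h ≠ 1 ∨ a ≠ 0) →
      ν h⁻¹ (-((h⁻¹ : (ZMod (p ^ m))ˣ) : ZMod (p ^ m)) * a) = ν h a)
    (hA : ∀ (h : (ZMod (p ^ m))ˣ) (s : ℕ), s < m →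
      (p : ZMod (p ^ m)) ^ s ∣ (h : ZMod (p ^ m)) - 1 →
      ¬ (p : ZMod (p ^ m)) ^ (s + 1) ∣ (h : ZMod (p ^ m)) - 1 →
      (p : ℝ) ^ (m + s) ≤ ∑ a : ZMod (p ^ m), ν h a)
    (hB : ∀ (a : ZMod (p ^ m)) (t : ℕ), t < m → (p : ZMod (p ^ m)) ^ t ∣ a →
      ¬ (p : ZMod (p ^ m)) ^ (t + 1) ∣ a →
      ∑ h : (ZMod (p ^ m))ˣ, ν h a ≤ (p : ℝ) ^ (m + t))
    (u : (ZMod (p ^ m))ˣ) (hu : (u : ZMod (p ^ m)) = 1 + (p : ZMod (p ^ m)) ^ (m - 1)) :
    (((p : ℝ) - 1) * (p : ℝ) ^ (2 * (m - 1)) + 2) / ((p : ℝ) + 1) ≤ ν u 0 := by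
  classical
  have hpp : p.Prime := Fact.out
  have hp3 : 3 ≤ p := by
    have := hpp.two_le
    omega
  haveI : NeZero (p ^ m) := ⟨(Nat.pow_pos hpp.pos).ne'⟩
  haveI : IsCyclic (ZMod (p ^ m))ˣ := ZMod.isCyclic_units_of_prime_pow p hpp hp m
  -- powers of `p` are not zero below `m`, not divisible by higher ones
  have hpne : ∀ t, t < m → ¬ (p : ZMod (p ^ m)) ^ (t + 1) ∣ (p : ZMod (p ^ m)) ^ t := by
    intro t ht hdiv
    -- `p^m = p^(m-t-1) p^(t+1)` divides `p^(m-1)`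
    have h1 : (p : ZMod (p ^ m)) ^ m ∣ (p : ZMod (p ^ m)) ^ (m - 1) := by
      have h2 := mul_dvd_mul_left ((p : ZMod (p ^ m)) ^ (m - 1 - t)) hdiv
      rw [← pow_add, ← pow_add] at h2
      have e1 : m - 1 - t + (t + 1) = m := by omega
      have e2 : m - 1 - t + t = m - 1 := by omega
      rwa [e1, e2] at h2
    rw [comb1_pow_zero, zero_dvd_iff, ← Nat.cast_pow, ZMod.natCast_eq_zero_iff] at h1
    have h3 := Nat.le_of_dvd (Nat.pow_pos hpp.pos) h1
    have h4 : p ^ (m - 1) < p ^ m := Nat.pow_lt_pow_right hpp.one_lt (by omega)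
    omega
  have hne0 : ∀ (t : ℕ) (a : ZMod (p ^ m)), ¬ (p : ZMod (p ^ m)) ^ (t + 1) ∣ a → a ≠ 0 := by
    intro t a h ha
    apply h
    rw [ha]
    exact dvd_zero _
  have hne1 : ∀ (t : ℕ) (h : (ZMod (p ^ m))ˣ),
      ¬ (p : ZMod (p ^ m)) ^ (t + 1) ∣ (h : ZMod (p ^ m)) - 1 → h ≠ 1 := by
    intro t h hh h1
    apply hh
    rw [h1]
    simp
  -- the special units
  have hUex : ∀ s : ℕ, ∃ v : (ZMod (p ^ m))ˣ, 1 ≤ s → (v : ZMod (p ^ m)) = 1 + (p : ZMod (p ^ m)) ^ s := by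
    intro s
    by_cases hs : 1 ≤ s
    · have := comb1_isUnit p m s hs ((p : ZMod (p ^ m)) ^ s) (dvd_refl _)
      exact ⟨this.unit, fun _ => this.unit_spec⟩
    · exact ⟨1, fun h => absurd h hs⟩
  choose U hU using hUex
  have hUv1 : ∀ s, 1 ≤ s → (p : ZMod (p ^ m)) ^ s ∣ (U s : ZMod (p ^ m)) - 1 := by
    intro s hs
    rw [hU s hs]
    simp
  have hUv2 : ∀ s, 1 ≤ s → s < m → ¬ (p : ZMod (p ^ m)) ^ (s + 1) ∣ (U s : ZMod (p ^ m)) - 1 := by
    intro s hs hsm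
    rw [hU s hs]
    have := hpne s hsm
    simpa using this
  -- general power lemma
  have hpow : ∀ (h : (ZMod (p ^ m))ˣ) (j : ℕ), h ^ j ≠ 1 → ν h 0 ≤ ν (h ^ j) 0 := by
    intro h j
    induction j with
    | zero => intro h0; exact absurd (pow_zero h) h0
    | succ j ih =>
      intro hj
      by_cases h1 : h ^ j = 1
      · rw [pow_succ, h1, one_mul]
      · have hh : h ≠ 1 := by
          rintro rfl
          exact hj (one_pow _)
        have h2 := hmul (h ^ j) h 0 0 (Or.inl h1) (Or.inl hh) (Or.inl (by rwa [← pow_succ]))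
        rw [mul_zero, add_zero, ← pow_succ] at h2
        have h3 := ih h1
        exact le_trans (le_min h3 le_rfl) h2
  have hord : ∀ (h h' : (ZMod (p ^ m))ˣ), h' ≠ 1 → orderOf h' ∣ orderOf h → ν h 0 ≤ ν h' 0 := by
    intro h h' h1 h2
    obtain ⟨j, rfl⟩ := comb1_mem_powers h' h h2
    exact hpow h j h1
  set J : ℕ → ℝ := fun s => ν (U s) 0 with hJdef
  set K : ℕ → ℝ := fun t => ν 1 ((p : ZMod (p ^ m)) ^ t) with hKdef
  -- 1
  have hK : ∀ (t : ℕ) (a : ZMod (p ^ m)), t < m → (p : ZMod (p ^ m)) ^ t ∣ a →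
      ¬ (p : ZMod (p ^ m)) ^ (t + 1) ∣ a → ν 1 a = K t := by
    intro t a ht h1 h2
    obtain ⟨k, rfl⟩ := comb1_unit p m t hpp (by omega) a h1 h2
    exact hconj2 1 k _ (Or.inr (hne0 t _ (hpne t ht)))
  -- 2
  have hJ2 : ∀ (s : ℕ) (h : (ZMod (p ^ m))ˣ), 1 ≤ s → s < m →
      (p : ZMod (p ^ m)) ^ s ∣ (h : ZMod (p ^ m)) - 1 →
      ¬ (p : ZMod (p ^ m)) ^ (s + 1) ∣ (h : ZMod (p ^ m)) - 1 → ν h 0 = J s := by
    intro s h hs hsm h1 h2
    have o1 := comb1_order p m s hpp hp hs hsm h h1 h2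
    have o2 := comb1_order p m s hpp hp hs hsm (U s) (hUv1 s hs) (hUv2 s hs hsm)
    apply le_antisymm
    · exact hord h (U s) (hne1 s _ (hUv2 s hs hsm)) (by rw [o1, o2])
    · exact hord (U s) h (hne1 s _ h2) (by rw [o1, o2])
  -- 3
  have hJmono : ∀ s, 1 ≤ s → s + 1 < m → J s ≤ J (s + 1) := by
    intro s hs hsm
    have o1 := comb1_order p m s hpp hp hs (by omega) (U s) (hUv1 s hs) (hUv2 s hs (by omega))
    have o2 := comb1_order p m (s + 1) hpp hp (by omega) hsm (U (s + 1)) (hUv1 (s + 1) (by omega))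
      (hUv2 (s + 1) (by omega) hsm)
    refine hord (U s) (U (s + 1)) (hne1 (s + 1) _ (hUv2 (s + 1) (by omega) hsm)) ?_
    rw [o1, o2]
    exact pow_dvd_pow p (by omega)
  -- 4
  have h4 : ∀ (s : ℕ) (h : (ZMod (p ^ m))ˣ) (a : ZMod (p ^ m)), s < m →
      (p : ZMod (p ^ m)) ^ s ∣ (h : ZMod (p ^ m)) - 1 →
      ¬ (p : ZMod (p ^ m)) ^ (s + 1) ∣ (h : ZMod (p ^ m)) - 1 →
      (p : ZMod (p ^ m)) ^ s ∣ a → ν h a = ν h 0 := by
    intro s h a hsm h1 h2 ha
    obtain ⟨k, hk⟩ := comb1_unit p m s hpp (by omega) _ h1 h2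
    obtain ⟨b, rfl⟩ := ha
    have h3 := hconj1 h ((p : ZMod (p ^ m)) ^ s * b) (((k⁻¹ : (ZMod (p ^ m))ˣ) : ZMod (p ^ m)) * b)
      (Or.inl (hne1 s h h2))
    have h5 : (p : ZMod (p ^ m)) ^ s * b + (1 - (h : ZMod (p ^ m))) *
        (((k⁻¹ : (ZMod (p ^ m))ˣ) : ZMod (p ^ m)) * b) = 0 := by
      have h6 : (1 - (h : ZMod (p ^ m))) = -((k : ZMod (p ^ m)) * (p : ZMod (p ^ m)) ^ s) := by
        rw [← hk]; ring
      rw [h6]
      have h7 : (k : ZMod (p ^ m)) * ((k⁻¹ : (ZMod (p ^ m))ˣ) : ZMod (p ^ m)) = 1 := Units.mul_inv k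
      linear_combination (-((p : ZMod (p ^ m)) ^ s * b)) * h7
    rw [h5] at h3
    exact h3.symm
  -- level zero
  have h40 : ∀ (h : (ZMod (p ^ m))ˣ) (a : ZMod (p ^ m)),
      ¬ (p : ZMod (p ^ m)) ^ (0 + 1) ∣ (h : ZMod (p ^ m)) - 1 → 1 ≤ ν h a := by
    intro h a h2
    have h1 : (p : ZMod (p ^ m)) ^ 0 ∣ (h : ZMod (p ^ m)) - 1 := by simp
    have h3 : ∀ b, ν h b = ν h 0 := fun b => h4 0 h b (by omega) h1 h2 (by simp)
    have h5 := hA h 0 (by omega) h1 h2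
    simp only [h3] at h5
    rw [Finset.sum_const, card_univ, ZMod.card, nsmul_eq_mul, add_zero] at h5
    push_cast at h5
    have hpm : (0 : ℝ) < (p : ℝ) ^ m := pow_pos (by exact_mod_cast hpp.pos) m
    rw [h3]
    by_contra hlt
    push Not at hlt
    nlinarith
  -- 5
  have h5i : ∀ (s t : ℕ) (h : (ZMod (p ^ m))ˣ) (a : ZMod (p ^ m)), 1 ≤ s → s < m →
      (p : ZMod (p ^ m)) ^ s ∣ (h : ZMod (p ^ m)) - 1 →
      ¬ (p : ZMod (p ^ m)) ^ (s + 1) ∣ (h : ZMod (p ^ m)) - 1 → t < m →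
      (p : ZMod (p ^ m)) ^ t ∣ a → ¬ (p : ZMod (p ^ m)) ^ (t + 1) ∣ a →
      ν h a ≤ min (J s) (K t) := by
    intro s t h a hs hsm h1 h2 ht ha1 ha2
    have hh1 : h ≠ 1 := hne1 s h h2
    have hh2 : h⁻¹ ≠ 1 := by
      intro h0
      exact hh1 (inv_eq_one.mp h0)
    have ha0 : a ≠ 0 := hne0 t a ha2
    have hKa : ν 1 a = K t := hK t a ht ha1 ha2
    have h2u : IsUnit ((2 : ℕ) : ZMod (p ^ m)) := by
      rw [ZMod.isUnit_iff_coprime]
      apply Nat.Coprime.pow_right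
      rw [Nat.coprime_comm]
      exact (Nat.coprime_primes hpp Nat.prime_two).mpr hp
    have e1 : ν h (((2 : ℕ) : ZMod (p ^ m)) * a) = ν h a := by
      have := hconj2 h h2u.unit a (Or.inl hh1)
      rwa [IsUnit.unit_spec] at this
    have e2 := hinv h a (Or.inl hh1)
    have e3 := hmul h h⁻¹ (((2 : ℕ) : ZMod (p ^ m)) * a)
      (-((h⁻¹ : (ZMod (p ^ m))ˣ) : ZMod (p ^ m)) * a) (Or.inl hh1) (Or.inl hh2)
    have e4 : ((2 : ℕ) : ZMod (p ^ m)) * a + (h : ZMod (p ^ m)) *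
        (-((h⁻¹ : (ZMod (p ^ m))ˣ) : ZMod (p ^ m)) * a) = a := by
      have h7 : (h : ZMod (p ^ m)) * ((h⁻¹ : (ZMod (p ^ m))ˣ) : ZMod (p ^ m)) = 1 := Units.mul_inv h
      push_cast
      linear_combination (-a) * h7
    rw [e4] at e3
    have e5 := e3 (Or.inr ha0)
    rw [e1, e2, min_self, mul_inv_cancel, hKa] at e5
    have e6 := hmul 1 h (-a) a (Or.inr (neg_ne_zero.mpr ha0)) (Or.inl hh1)
      (Or.inl (by rwa [one_mul]))
    have e7 : -a + ((1 : (ZMod (p ^ m))ˣ) : ZMod (p ^ m)) * a = 0 := by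
      rw [Units.val_one]; ring
    have e8 : ν 1 (-a) = K t := hK t (-a) ht (by rwa [dvd_neg]) (by rwa [dvd_neg])
    rw [e7, one_mul, e8, min_eq_right e5] at e6
    rw [hJ2 s h hs hsm h1 h2] at e6
    exact le_min e6 e5
  have h5ii : ∀ (s t : ℕ) (h : (ZMod (p ^ m))ˣ) (a : ZMod (p ^ m)), 1 ≤ s → s < m →
      (p : ZMod (p ^ m)) ^ s ∣ (h : ZMod (p ^ m)) - 1 →
      ¬ (p : ZMod (p ^ m)) ^ (s + 1) ∣ (h : ZMod (p ^ m)) - 1 → t < m →
      (p : ZMod (p ^ m)) ^ t ∣ a → ¬ (p : ZMod (p ^ m)) ^ (t + 1) ∣ a →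
      min (J s) (K t) ≤ ν h a := by
    intro s t h a hs hsm h1 h2 ht ha1 ha2
    have hh1 : h ≠ 1 := hne1 s h h2
    have ha0 : a ≠ 0 := hne0 t a ha2
    have hKa : ν 1 a = K t := hK t a ht ha1 ha2
    have e6 := hmul 1 h a 0 (Or.inr ha0) (Or.inl hh1) (Or.inl (by rwa [one_mul]))
    rw [one_mul, mul_zero, add_zero, hKa, hJ2 s h hs hsm h1 h2, min_comm] at e6
    exact e6
  -- counting
  have hDsub : ∀ t, comb1D p m (t + 1) ⊆ comb1D p m t := by
    intro t a ha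
    rw [comb1D_mem] at ha ⊢
    exact dvd_trans (pow_dvd_pow _ (Nat.le_succ t)) ha
  have hEsub : ∀ t, comb1E p m (t + 1) ⊆ comb1E p m t := by
    intro t a ha
    rw [comb1E_mem] at ha ⊢
    exact dvd_trans (pow_dvd_pow _ (Nat.le_succ t)) ha
  have hDcard : ∀ t, t < m → ((comb1D p m t \ comb1D p m (t + 1)).card : ℝ) =
      ((p : ℝ) - 1) * (p : ℝ) ^ (m - t - 1) := by
    intro t ht
    rw [Finset.cast_card_sdiff (hDsub t), comb1D_card p m hpp t ht.le,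
      comb1D_card p m hpp (t + 1) ht]
    have e1 : m - t = (m - t - 1) + 1 := by omega
    have e2 : m - (t + 1) = m - t - 1 := by omega
    rw [e2]
    push_cast
    conv_lhs => rw [e1, pow_succ]
    have e3 : m - t - 1 + 1 - 1 = m - t - 1 := by omega
    rw [e3]
    ring
  have hEcard : ∀ t, 1 ≤ t → t < m → ((comb1E p m t \ comb1E p m (t + 1)).card : ℝ) =
      ((p : ℝ) - 1) * (p : ℝ) ^ (m - t - 1) := by
    intro t h1 ht
    rw [Finset.cast_card_sdiff (hEsub t), comb1E_card p m hpp t h1 ht.le,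
      comb1E_card p m hpp (t + 1) (by omega) ht]
    have e1 : m - t = (m - t - 1) + 1 := by omega
    have e2 : m - (t + 1) = m - t - 1 := by omega
    rw [e2]
    push_cast
    conv_lhs => rw [e1, pow_succ]
    have e3 : m - t - 1 + 1 - 1 = m - t - 1 := by omega
    rw [e3]
    ring
  have hEcard0 : ((comb1E p m 0 \ comb1E p m (0 + 1)).card : ℝ) =
      (p : ℝ) ^ (m - 1) * ((p : ℝ) - 2) := by
    rw [Finset.cast_card_sdiff (hEsub 0), comb1E_card_zero p m hpp (by omega),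
      comb1E_card p m hpp (0 + 1) (by omega) (by omega), Nat.cast_mul, Nat.cast_sub hpp.one_lt.le]
    push_cast
    ring
  have hpR : (0 : ℝ) < p := by exact_mod_cast hpp.pos
  have hp1R : (0 : ℝ) ≤ (p : ℝ) - 1 := by
    have : (1 : ℝ) ≤ p := by exact_mod_cast hpp.one_lt.le
    linarith
  -- (A)
  have hA' : ∀ s, 1 ≤ s → s < m → (p : ℝ) ^ (m + s) ≤
      ∑ t ∈ range s, ((p : ℝ) - 1) * (p : ℝ) ^ (m - t - 1) * min (J s) (K t) +
        (p : ℝ) ^ (m - s) * J s := by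
    intro s hs hsm
    have h1 := hA (U s) s hsm (hUv1 s hs) (hUv2 s hs hsm)
    have hun : (univ : Finset (ZMod (p ^ m))) = comb1D p m 0 := by
      ext a
      rw [comb1D_mem]
      simp
    rw [hun, comb1_tele (comb1D p m) hDsub (fun a => ν (U s) a) 0 s (by omega),
      ← Finset.range_eq_Ico] at h1
    refine le_trans h1 (add_le_add ?_ ?_)
    · refine Finset.sum_le_sum fun t ht => ?_
      rw [mem_range] at ht
      rw [← hDcard t (by omega), ← nsmul_eq_mul, ← Finset.sum_const]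
      refine Finset.sum_le_sum fun a ha => ?_
      rw [mem_sdiff, comb1D_mem, comb1D_mem] at ha
      exact h5i s t (U s) a hs hsm (hUv1 s hs) (hUv2 s hs hsm) (by omega) ha.1 ha.2
    · have h2 : ∀ a ∈ comb1D p m s, ν (U s) a = J s := by
        intro a ha
        rw [comb1D_mem] at ha
        exact h4 s (U s) a hsm (hUv1 s hs) (hUv2 s hs hsm) ha
      rw [Finset.sum_congr rfl h2, Finset.sum_const, comb1D_card p m hpp s hsm.le, nsmul_eq_mul]
      push_cast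
      exact le_rfl
  -- (B)
  have hB' : ∀ t, t + 1 < m → (p : ℝ) ^ (m - 1) * ((p : ℝ) - 2) +
      ∑ s ∈ Ico 1 (t + 1), ((p : ℝ) - 1) * (p : ℝ) ^ (m - s - 1) * J s +
      ∑ s ∈ Ico (t + 1) m, ((p : ℝ) - 1) * (p : ℝ) ^ (m - s - 1) * min (J s) (K t) + K t ≤
        (p : ℝ) ^ (m + t) := by
    intro t ht
    have h1 := hB ((p : ZMod (p ^ m)) ^ t) t (by omega) (dvd_refl _) (hpne t (by omega))
    refine le_trans ?_ h1
    have hun : (univ : Finset (ZMod (p ^ m))ˣ) = comb1E p m 0 := by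
      ext a
      rw [comb1E_mem]
      simp
    have hlast : comb1E p m m = {1} := by
      ext a
      rw [comb1E_mem, comb1_pow_zero, zero_dvd_iff, sub_eq_zero, mem_singleton, Units.ext_iff,
        Units.val_one]
    rw [hun, comb1_tele (comb1E p m) hEsub (fun h => ν h ((p : ZMod (p ^ m)) ^ t)) 0 m (by omega),
      hlast, sum_singleton, Finset.sum_eq_sum_Ico_succ_bot (by omega : 0 < m),
      ← Finset.sum_Ico_consecutive _ (by omega : 0 + 1 ≤ t + 1) (by omega : t + 1 ≤ m), ← add_assoc]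
    refine add_le_add (add_le_add (add_le_add ?_ ?_) ?_) le_rfl
    · rw [← hEcard0]
      have : ∀ h ∈ comb1E p m 0 \ comb1E p m (0 + 1), (1 : ℝ) ≤ ν h ((p : ZMod (p ^ m)) ^ t) := by
        intro h hh
        rw [mem_sdiff, comb1E_mem, comb1E_mem] at hh
        exact h40 h _ hh.2
      calc ((comb1E p m 0 \ comb1E p m (0 + 1)).card : ℝ)
          = ∑ h ∈ comb1E p m 0 \ comb1E p m (0 + 1), (1 : ℝ) := by simp
        _ ≤ _ := Finset.sum_le_sum this
    · refine Finset.sum_le_sum fun s hs => ?_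
      rw [mem_Ico] at hs
      rw [← hEcard s (by omega) (by omega), ← nsmul_eq_mul, ← Finset.sum_const]
      refine Finset.sum_le_sum fun h hh => ?_
      rw [mem_sdiff, comb1E_mem, comb1E_mem] at hh
      rw [h4 s h _ (by omega) hh.1 hh.2 (pow_dvd_pow _ (by omega)),
        hJ2 s h (by omega) (by omega) hh.1 hh.2]
    · refine Finset.sum_le_sum fun s hs => ?_
      rw [mem_Ico] at hs
      rw [← hEcard s (by omega) (by omega), ← nsmul_eq_mul, ← Finset.sum_const]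
      refine Finset.sum_le_sum fun h hh => ?_
      rw [mem_sdiff, comb1E_mem, comb1E_mem] at hh
      exact h5ii s t h _ (by omega) (by omega) hh.1 hh.2 (by omega) (dvd_refl _)
        (hpne t (by omega))
  have hfin := comb2 p m hp3 J K hJmono hA' hB' (m - 1) (by omega) (by omega)
  have huU : u = U (m - 1) := by
    apply Units.ext
    rw [hu, hU (m - 1) (by omega)]
  rw [huU]
  exact hfin

end Pool.Agent.H72.RM
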