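import Pool.Agent.H72.RM.Ram
import Pool.Agent.H72.RM.Comb1

/-!
# Module LocalAbs: the abstract part of the local lemma

From a family `e h a` of elements of `G` with the multiplication of `R^* ⋉ R` and the two product
inequalities to the estimate for `e u 0`.
-/

set_option autoImplicit false

open Finset

namespace Pool.Agent.H72.RM

theorem local_abs (p m : ℕ) [Fact p.Prime] (hp : p ≠ 2) (hm : 2 ≤ m) {M G : Type} [NormedField M]
    [Group G] [MulSemiringAction G M] {π : M} (D : RamData M G π)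
    (e : (ZMod (p ^ m))ˣ → ZMod (p ^ m) → G)
    (emul : ∀ (h h' : (ZMod (p ^ m))ˣ) (a a' : ZMod (p ^ m)),
      e h a * e h' a' = e (h * h') (a + (h : ZMod (p ^ m)) * a'))
    (einj : ∀ (h : (ZMod (p ^ m))ˣ) (a : ZMod (p ^ m)), e h a = 1 → h = 1 ∧ a = 0)
    (hA : ∀ (h : (ZMod (p ^ m))ˣ) (s : ℕ), s < m →
      (p : ZMod (p ^ m)) ^ s ∣ (h : ZMod (p ^ m)) - 1 →
      ¬ (p : ZMod (p ^ m)) ^ (s + 1) ∣ (h : ZMod (p ^ m)) - 1 →
      (∏ a : ZMod (p ^ m), ‖e h a • π - π‖) ^ (p ^ (m - s - 1) * (p - 1)) ≤ 1 / (p : ℝ))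
    (hB : ∀ (a : ZMod (p ^ m)) (t : ℕ), t < m → (p : ZMod (p ^ m)) ^ t ∣ a →
      ¬ (p : ZMod (p ^ m)) ^ (t + 1) ∣ a →
      1 / (p : ℝ) ≤ (∏ h : (ZMod (p ^ m))ˣ, ‖e h a • π - π‖) ^ (p ^ (m - t - 1) * (p - 1)))
    (u : (ZMod (p ^ m))ˣ) (hu : (u : ZMod (p ^ m)) = 1 + (p : ZMod (p ^ m)) ^ (m - 1)) :
    ‖e u 0 • π - π‖ ^ (p * (p + 1)) ≤ 1 / (p : ℝ) := by
  have hpp : p.Prime := Fact.out
  have hp1 : (1 : ℝ) < p := by exact_mod_cast hpp.one_lt
  have hp0 : (0 : ℝ) < p := by linarith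
  have hlog : 0 < Real.log p := Real.log_pos hp1
  set E : ℝ := (p : ℝ) ^ (2 * m - 1) * ((p : ℝ) - 1) with hE
  have hE0 : 0 < E := by
    rw [hE]
    apply mul_pos (by positivity)
    linarith
  set κ : ℝ := E / Real.log p with hκ
  have hκ0 : 0 < κ := div_pos hE0 hlog
  set N : (ZMod (p ^ m))ˣ → ZMod (p ^ m) → ℝ := fun h a => ‖e h a • π - π‖ with hN
  have hNpos : ∀ h a, (h ≠ 1 ∨ a ≠ 0) → 0 < N h a := by
    intro h a hha
    rcases (norm_nonneg (e h a • π - π)).lt_or_eq with h1 | h1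
    · exact h1
    · exfalso
      have h2 : e h a • π - π = 0 := norm_eq_zero.mp h1.symm
      have h3 := D.ram_eq_zero _ (sub_eq_zero.mp h2)
      obtain ⟨h4, h5⟩ := einj h a h3
      rcases hha with h6 | h6
      · exact h6 h4
      · exact h6 h5
  have e10 : e 1 0 = 1 := by
    have h1 := emul 1 1 0 0
    simp only [mul_zero, add_zero, mul_one] at h1
    exact mul_eq_left.mp h1
  set ν : (ZMod (p ^ m))ˣ → ZMod (p ^ m) → ℝ := fun h a => -(κ * Real.log (N h a)) with hν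
  have hconj1 : ∀ (h : (ZMod (p ^ m))ˣ) (a c : ZMod (p ^ m)), (h ≠ 1 ∨ a ≠ 0) →
      ν h (a + (1 - (h : ZMod (p ^ m))) * c) = ν h a := by
    intro h a c _
    have h1 : e h (a + (1 - (h : ZMod (p ^ m))) * c) = e 1 c * e h a * (e 1 c)⁻¹ := by
      rw [eq_mul_inv_iff_mul_eq, emul, emul]
      congr 1
      · rw [mul_one, one_mul]
      · rw [Units.val_one]
        ring
    have h2 : N h (a + (1 - (h : ZMod (p ^ m))) * c) = N h a := by
      show ‖e h (a + (1 - (h : ZMod (p ^ m))) * c) • π - π‖ = ‖e h a • π - π‖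
      rw [h1, D.ram_conj]
    show -(κ * Real.log (N h (a + (1 - (h : ZMod (p ^ m))) * c))) = -(κ * Real.log (N h a))
    rw [h2]
  have hconj2 : ∀ (h k : (ZMod (p ^ m))ˣ) (a : ZMod (p ^ m)), (h ≠ 1 ∨ a ≠ 0) →
      ν h ((k : ZMod (p ^ m)) * a) = ν h a := by
    intro h k a _
    have h1 : e h ((k : ZMod (p ^ m)) * a) = e k 0 * e h a * (e k 0)⁻¹ := by
      rw [eq_mul_inv_iff_mul_eq, emul, emul]
      congr 1
      · rw [mul_comm]
      · ring
    have h2 : N h ((k : ZMod (p ^ m)) * a) = N h a := by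
      show ‖e h ((k : ZMod (p ^ m)) * a) • π - π‖ = ‖e h a • π - π‖
      rw [h1, D.ram_conj]
    show -(κ * Real.log (N h ((k : ZMod (p ^ m)) * a))) = -(κ * Real.log (N h a))
    rw [h2]
  have hmul : ∀ (h h' : (ZMod (p ^ m))ˣ) (a a' : ZMod (p ^ m)), (h ≠ 1 ∨ a ≠ 0) →
      (h' ≠ 1 ∨ a' ≠ 0) → (h * h' ≠ 1 ∨ a + (h : ZMod (p ^ m)) * a' ≠ 0) →
      min (ν h a) (ν h' a') ≤ ν (h * h') (a + (h : ZMod (p ^ m)) * a') := by
    intro h h' a a' h1 h2 h3
    have h4 : N (h * h') (a + (h : ZMod (p ^ m)) * a') ≤ max (N h a) (N h' a') := by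
      show ‖e (h * h') (a + (h : ZMod (p ^ m)) * a') • π - π‖ ≤ _
      rw [← emul]
      exact D.ram_mul _ _
    have hp1' := hNpos h a h1
    have hp2' := hNpos h' a' h2
    have hp3' := hNpos _ _ h3
    show min (-(κ * Real.log (N h a))) (-(κ * Real.log (N h' a'))) ≤
      -(κ * Real.log (N (h * h') (a + (h : ZMod (p ^ m)) * a')))
    rcases le_max_iff.mp h4 with h5 | h5
    · refine (min_le_left _ _).trans ?_
      have h6 := Real.log_le_log hp3' h5
      have h7 := mul_le_mul_of_nonneg_left h6 hκ0.le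
      linarith
    · refine (min_le_right _ _).trans ?_
      have h6 := Real.log_le_log hp3' h5
      have h7 := mul_le_mul_of_nonneg_left h6 hκ0.le
      linarith
  have hinv : ∀ (h : (ZMod (p ^ m))ˣ) (a : ZMod (p ^ m)), (h ≠ 1 ∨ a ≠ 0) →
      ν h⁻¹ (-((h⁻¹ : (ZMod (p ^ m))ˣ) : ZMod (p ^ m)) * a) = ν h a := by
    intro h a _
    have h1 : e h⁻¹ (-((h⁻¹ : (ZMod (p ^ m))ˣ) : ZMod (p ^ m)) * a) = (e h a)⁻¹ := by
      rw [eq_inv_iff_mul_eq_one, emul, ← e10]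
      congr 1
      · rw [inv_mul_cancel]
      · ring
    have h2 : N h⁻¹ (-((h⁻¹ : (ZMod (p ^ m))ˣ) : ZMod (p ^ m)) * a) = N h a := by
      show ‖e h⁻¹ (-((h⁻¹ : (ZMod (p ^ m))ˣ) : ZMod (p ^ m)) * a) • π - π‖ = ‖e h a • π - π‖
      rw [h1, D.ram_inv]
    show -(κ * Real.log (N h⁻¹ (-((h⁻¹ : (ZMod (p ^ m))ˣ) : ZMod (p ^ m)) * a))) =
      -(κ * Real.log (N h a))
    rw [h2]
  -- the exponents
  have hexp : ∀ s, s < m → (p : ℝ) ^ (m + s) * ((p : ℝ) ^ (m - s - 1) * ((p : ℝ) - 1)) = E := by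
    intro s hs
    rw [hE, ← mul_assoc, ← pow_add]
    congr 2
    omega
  have hcast : ∀ s, s < m → ((p ^ (m - s - 1) * (p - 1) : ℕ) : ℝ) =
      (p : ℝ) ^ (m - s - 1) * ((p : ℝ) - 1) := by
    intro s _
    push_cast [hpp.one_le]
    ring
  have hqpos : ∀ s, s < m → 0 < (p : ℝ) ^ (m - s - 1) * ((p : ℝ) - 1) := by
    intro s _
    apply mul_pos (by positivity)
    linarith
  have hlogp : Real.log (1 / (p : ℝ)) = -Real.log p := by
    rw [one_div, Real.log_inv]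
  have hA' : ∀ (h : (ZMod (p ^ m))ˣ) (s : ℕ), s < m →
      (p : ZMod (p ^ m)) ^ s ∣ (h : ZMod (p ^ m)) - 1 →
      ¬ (p : ZMod (p ^ m)) ^ (s + 1) ∣ (h : ZMod (p ^ m)) - 1 →
      (p : ℝ) ^ (m + s) ≤ ∑ a : ZMod (p ^ m), ν h a := by
    intro h s hs h1 h2
    have hne : h ≠ 1 := by
      rintro rfl
      apply h2
      simp
    have hpos : 0 < ∏ a : ZMod (p ^ m), N h a :=
      Finset.prod_pos fun a _ => hNpos h a (Or.inl hne)
    have h3 := hA h s hs h1 h2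
    have h4 := Real.log_le_log (pow_pos hpos _) h3
    rw [Real.log_pow, hlogp, hcast s hs] at h4
    have h5 : ∑ a : ZMod (p ^ m), ν h a = -(κ * Real.log (∏ a : ZMod (p ^ m), N h a)) := by
      rw [Real.log_prod (fun a _ => (hNpos h a (Or.inl hne)).ne'), Finset.mul_sum,
        ← Finset.sum_neg_distrib]
    rw [h5]
    set q := (p : ℝ) ^ (m - s - 1) * ((p : ℝ) - 1) with hq
    have hq0 : 0 < q := hqpos s hs
    have h6 : Real.log p / q ≤ -Real.log (∏ a : ZMod (p ^ m), N h a) := by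
      rw [div_le_iff₀ hq0]
      have h7 : q * Real.log (∏ a : ZMod (p ^ m), N h a) ≤ -Real.log p := h4
      linarith
    have h8 := mul_le_mul_of_nonneg_left h6 hκ0.le
    have h9 : κ * (Real.log p / q) = (p : ℝ) ^ (m + s) := by
      rw [hκ, ← hexp s hs, ← hq]
      field_simp
    rw [h9] at h8
    linarith
  have hB' : ∀ (a : ZMod (p ^ m)) (t : ℕ), t < m → (p : ZMod (p ^ m)) ^ t ∣ a →
      ¬ (p : ZMod (p ^ m)) ^ (t + 1) ∣ a →
      ∑ h : (ZMod (p ^ m))ˣ, ν h a ≤ (p : ℝ) ^ (m + t) := by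
    intro a t ht h1 h2
    have hne : a ≠ 0 := by
      rintro rfl
      apply h2
      simp
    have hpos : 0 < ∏ h : (ZMod (p ^ m))ˣ, N h a :=
      Finset.prod_pos fun h _ => hNpos h a (Or.inr hne)
    have h3 := hB a t ht h1 h2
    have h4 := Real.log_le_log (by positivity) h3
    rw [Real.log_pow, hlogp, hcast t ht] at h4
    have h5 : ∑ h : (ZMod (p ^ m))ˣ, ν h a =
        -(κ * Real.log (∏ h : (ZMod (p ^ m))ˣ, N h a)) := by
      rw [Real.log_prod (fun h _ => (hNpos h a (Or.inr hne)).ne'), Finset.mul_sum,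
        ← Finset.sum_neg_distrib]
    rw [h5]
    set q := (p : ℝ) ^ (m - t - 1) * ((p : ℝ) - 1) with hq
    have hq0 : 0 < q := hqpos t ht
    have h6 : -Real.log (∏ h : (ZMod (p ^ m))ˣ, N h a) ≤ Real.log p / q := by
      rw [le_div_iff₀ hq0]
      have h7 : -Real.log p ≤ q * Real.log (∏ h : (ZMod (p ^ m))ˣ, N h a) := h4
      linarith
    have h8 := mul_le_mul_of_nonneg_left h6 hκ0.le
    have h9 : κ * (Real.log p / q) = (p : ℝ) ^ (m + t) := by
      rw [hκ, ← hexp t ht, ← hq]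
      field_simp
    rw [h9] at h8
    linarith
  have hfin := comb1 p m hp hm ν hconj1 hconj2 hmul hinv hA' hB' u hu
  have hune : u ≠ 1 := by
    intro h0
    rw [h0, Units.val_one] at hu
    have h1 : ((p ^ (m - 1) : ℕ) : ZMod (p ^ m)) = 0 := by
      push_cast
      exact (left_eq_add.mp hu)
    rw [ZMod.natCast_eq_zero_iff] at h1
    have h2 := (Nat.pow_dvd_pow_iff_le_right hpp.one_lt).mp h1
    omega
  have hNu := hNpos u 0 (Or.inl hune)
  have h1 : (((p : ℝ) - 1) * (p : ℝ) ^ (2 * (m - 1)) + 2) / ((p : ℝ) + 1) ≤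
      -(κ * Real.log (N u 0)) := hfin
  have h2 : E / ((p : ℝ) * ((p : ℝ) + 1)) ≤
      (((p : ℝ) - 1) * (p : ℝ) ^ (2 * (m - 1)) + 2) / ((p : ℝ) + 1) := by
    have h3 : E = (p : ℝ) * (((p : ℝ) - 1) * (p : ℝ) ^ (2 * (m - 1))) := by
      rw [hE]
      have h4 : 2 * m - 1 = 2 * (m - 1) + 1 := by omega
      rw [h4, pow_succ]
      ring
    rw [h3, mul_div_mul_left _ _ hp0.ne']
    apply div_le_div_of_nonneg_right _ (by linarith)
    linarith
  have h3 : E / ((p : ℝ) * ((p : ℝ) + 1)) ≤ E / Real.log p * -Real.log (N u 0) := by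
    have h4 := h2.trans h1
    rw [hκ] at h4
    linarith
  have h4 : Real.log p ≤ ((p : ℝ) * ((p : ℝ) + 1)) * -Real.log (N u 0) := by
    have h5 : (0 : ℝ) < (p : ℝ) * ((p : ℝ) + 1) := by positivity
    rw [div_mul_eq_mul_div, div_le_div_iff₀ h5 hlog] at h3
    have h6 : E * Real.log p ≤ E * (((p : ℝ) * ((p : ℝ) + 1)) * -Real.log (N u 0)) := by
      linarith
    exact le_of_mul_le_mul_left h6 hE0
  show N u 0 ^ (p * (p + 1)) ≤ 1 / (p : ℝ)
  rw [← Real.log_le_log_iff (pow_pos hNu _) (by positivity), Real.log_pow, hlogp]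
  push_cast
  linarith

end Pool.Agent.H72.RM
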