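import Pool.Agent.H72.RM.Cyc

/-!
# Module Unr: the value group of `Wnr` is `p^ℤ`

1. `x ∈ ℚ_p(ω)` for one `ω ∈ tame`: `IntermediateField.exists_finset_of_mem_adjoin` gives finitely many
   `ω_i`, `ω_i ^ (n_i) = 1`, `p ∤ n_i`; let `n = ∏ n_i` and `ω` a primitive `n`-th root of unity in `C`
   (`HasEnoughRootsOfUnity.exists_primitiveRoot`, see `charZero_C p C` for `CharZero C`).
2. Let `E = ℚ_[p]⟮ω⟯`, `x ∈ E`, `‖x‖ < 1`. Claim: `‖x‖ ≤ 1/p`. For `j < n` put
   `t_j = Algebra.trace ℚ_[p] E (x ω^(-j)) = ∑_σ σ(x) σ(ω)^(-j)` (`trace_eq_sum_embeddings`, the sum over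
   `σ : E →ₐ[ℚ_[p]] C`). Every `σ` extends to an automorphism of `C` (`IsAlgClosed.lift`,
   `Algebra.IsAlgebraic`; or `AlgHom.restrictNormal`-free: `IntermediateField.exists_algHom...`),
   so `‖σ x‖ = ‖x‖` by `IsoEnv.iso` and `‖t_j‖ ≤ ‖x‖ < 1`; as `t_j ∈ ℚ_[p]`, `‖t_j‖ ≤ 1/p`.
   Moreover `∑_{j<n} t_j ω^j = ∑_σ σ(x) ∑_{j<n} (ω/σ(ω))^j = n x`, since `ω/σ(ω)` is an `n`-th root of
   unity, equal to `1` only if `σ` is the inclusion. As `‖n‖ = 1` (`norm_natCast_of_not_dvd`),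
   `‖x‖ ≤ 1/p`.
3. In general choose `k : ℤ` with `1/p < ‖p^k x‖ ≤ 1`; by 2 `‖p^k x‖ = 1`, so `‖x‖ = p^k`.
-/

set_option autoImplicit false
set_option linter.unusedSectionVars false

open IntermediateField

namespace Pool.Agent.H72.RM

variable {p : ℕ} [Fact p.Prime] {C : Type} [NormedField C] [NormedAlgebra ℚ_[p] C]
  [IsUltrametricDist C] [IsAlgClosed C] [Algebra.IsAlgebraic ℚ_[p] C] [IsoEnv p C]

theorem unr_emb_norm (F : IntermediateField ℚ_[p] C) (σ : F →ₐ[ℚ_[p]] C) (y : F) :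
    ‖σ y‖ = ‖(y : C)‖ := by
  have h1 : Normal ℚ_[p] C := (galC p C).to_normal
  let τ : C →ₐ[ℚ_[p]] C := σ.liftNormal C
  have hτ : ∀ z : F, τ (z : C) = σ z := by
    intro z
    have h2 := AlgHom.liftNormal_commutes σ C z
    simpa using h2
  have hb : Function.Bijective τ := Algebra.IsAlgebraic.algHom_bijective τ
  let τ' : C ≃ₐ[ℚ_[p]] C := AlgEquiv.ofBijective τ hb
  have h3 : τ' (y : C) = σ y := hτ y
  rw [← h3]
  exact IsoEnv.iso τ' (y : C)

theorem unr_small (n : ℕ) (hn : ¬ p ∣ n) (ω : C) (hω : IsPrimitiveRoot ω n) (x : C)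
    (hx : x ∈ IntermediateField.adjoin ℚ_[p] {ω}) (h1 : ‖x‖ < 1) : ‖x‖ ≤ 1 / (p : ℝ) := by
  classical
  have hp : p.Prime := Fact.out
  have hn0 : n ≠ 0 := by
    rintro rfl
    exact hn (dvd_zero p)
  have hω0 : ω ≠ 0 := hω.ne_zero hn0
  have hω1 : ‖ω‖ = 1 := norm_of_mem_tame ⟨n, hn, hω.pow_eq_one⟩
  have hωm : ω ∈ IntermediateField.adjoin ℚ_[p] {ω} :=
    IntermediateField.mem_adjoin_simple_self ℚ_[p] ω
  have hint : IsIntegral ℚ_[p] ω := Algebra.IsIntegral.isIntegral ω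
  have : FiniteDimensional ℚ_[p] (IntermediateField.adjoin ℚ_[p] {ω}) :=
    IntermediateField.adjoin.finiteDimensional hint
  let E := IntermediateField.adjoin ℚ_[p] {ω}
  let xE : E := ⟨x, hx⟩
  let wE : E := ⟨ω, hωm⟩
  let t : ℕ → ℚ_[p] := fun j => Algebra.trace ℚ_[p] E (xE * (wE⁻¹) ^ j)
  have htr : ∀ j, algebraMap ℚ_[p] C (t j) = ∑ σ : E →ₐ[ℚ_[p]] C, σ xE * ((σ wE)⁻¹) ^ j := by
    intro j
    have h2 := trace_eq_sum_embeddings (K := ℚ_[p]) (L := E) C (x := xE * (wE⁻¹) ^ j)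
    rw [show algebraMap ℚ_[p] C (t j) = _ from h2]
    refine Finset.sum_congr rfl fun σ _ => ?_
    rw [map_mul, map_pow, map_inv₀]
  have hσw : ∀ σ : E →ₐ[ℚ_[p]] C, (σ wE) ^ n = 1 := by
    intro σ
    rw [← map_pow]
    have h2 : wE ^ n = 1 := Subtype.ext (by simpa using hω.pow_eq_one)
    rw [h2, map_one]
  have hσw1 : ∀ σ : E →ₐ[ℚ_[p]] C, ‖σ wE‖ = 1 := fun σ => norm_of_mem_tame ⟨n, hn, hσw σ⟩
  have ht : ∀ j, ‖t j‖ ≤ 1 / (p : ℝ) := by
    intro j
    have h2 : ‖t j‖ < 1 := by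
      rw [← norm_algebraMap' C (t j), htr j]
      refine lt_of_le_of_lt ?_ h1
      refine IsUltrametricDist.norm_sum_le_of_forall_le_of_nonneg (norm_nonneg x) fun σ _ => ?_
      rw [norm_mul, norm_pow, norm_inv, hσw1 σ, inv_one, one_pow, mul_one]
      exact (unr_emb_norm _ σ xE).le
    have h3 := (Padic.norm_le_pow_iff_norm_lt_pow_add_one (t j) (-1)).2 (by simpa using h2)
    simpa using h3
  have hsum : ∑ j ∈ Finset.range n, algebraMap ℚ_[p] C (t j) * ω ^ j = (n : C) * x := by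
    have h2 : ∑ j ∈ Finset.range n, algebraMap ℚ_[p] C (t j) * ω ^ j
        = ∑ σ : E →ₐ[ℚ_[p]] C, σ xE * ∑ j ∈ Finset.range n, ((σ wE)⁻¹ * ω) ^ j := by
      simp_rw [htr, Finset.sum_mul, Finset.mul_sum]
      rw [Finset.sum_comm]
      refine Finset.sum_congr rfl fun σ _ => Finset.sum_congr rfl fun j _ => ?_
      rw [mul_pow]
      ring
    rw [h2, Finset.sum_eq_single E.val]
    · have h3 : E.val wE = ω := rfl
      have h4 : E.val xE = x := rfl
      rw [h3, h4, inv_mul_cancel₀ hω0]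
      simp [mul_comm]
    · intro σ _ hσ
      have h3 : (σ wE)⁻¹ * ω ≠ 1 := by
        intro h4
        apply hσ
        have h5 : σ wE ≠ 0 := by
          intro h6
          have h7 := hσw1 σ
          rw [h6, norm_zero] at h7
          exact zero_ne_one h7
        have h6 : σ wE = ω := by
          have h7 := congrArg (fun z => σ wE * z) h4
          simp only [mul_one] at h7
          rw [mul_inv_cancel_left₀ h5] at h7
          exact h7.symm
        refine IntermediateField.algHom_ext_of_eq_adjoin ℚ_[p] (s := ({ω} : Set C)) rfl ?_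
        intro z hz
        have hz' : z = ω := hz
        subst hz'
        exact h6
      have h4 : ((σ wE)⁻¹ * ω) ^ n = 1 := by
        rw [mul_pow, inv_pow, hσw σ, hω.pow_eq_one, inv_one, one_mul]
      have h5 := mul_geom_sum ((σ wE)⁻¹ * ω) n
      rw [h4, sub_self] at h5
      rcases mul_eq_zero.1 h5 with h6 | h6
      · exact absurd (sub_eq_zero.1 h6) h3
      · rw [h6, mul_zero]
    · intro h3
      exact absurd (Finset.mem_univ _) h3
  have h2 : ‖(n : C) * x‖ ≤ 1 / (p : ℝ) := by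
    rw [← hsum]
    have hp0 : (0 : ℝ) ≤ 1 / (p : ℝ) := by positivity
    refine IsUltrametricDist.norm_sum_le_of_forall_le_of_nonneg hp0 fun j _ => ?_
    rw [norm_mul, norm_pow, hω1, one_pow, mul_one, norm_algebraMap']
    exact ht j
  rwa [norm_mul, norm_natCast_of_not_dvd (p := p) n hn, one_mul] at h2

theorem unr_value (x : C) (hx : x ∈ Wnr p C) (hx0 : x ≠ 0) : ∃ k : ℤ, ‖x‖ = (p : ℝ) ^ k := by
  classical
  have hp : p.Prime := Fact.out
  have : CharZero C := charZero_C p C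
  obtain ⟨T, hT, hxT⟩ := IntermediateField.exists_finset_of_mem_adjoin hx
  -- common order
  have hN : ∃ N : ℕ, ¬ p ∣ N ∧ ∀ y ∈ T, y ^ N = 1 := by
    clear hxT
    induction T using Finset.induction_on with
    | empty => exact ⟨1, fun h => hp.one_lt.ne' (Nat.dvd_one.1 h), by simp⟩
    | insert a s ha ih =>
      rw [Finset.coe_insert, Set.insert_subset_iff] at hT
      obtain ⟨N, hN, hNs⟩ := ih hT.2
      obtain ⟨m, hm, ham⟩ := hT.1
      refine ⟨m * N, ?_, ?_⟩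
      · intro h
        rcases (hp.dvd_mul).1 h with h | h
        · exact hm h
        · exact hN h
      · intro y hy
        rcases Finset.mem_insert.1 hy with rfl | hy
        · rw [pow_mul, ham, one_pow]
        · rw [mul_comm, pow_mul, hNs y hy, one_pow]
  obtain ⟨N, hN, hNT⟩ := hN
  have hN0 : N ≠ 0 := by
    rintro rfl
    exact hN (dvd_zero p)
  have : NeZero N := ⟨hN0⟩
  have : NeZero (N : C) := ⟨by exact_mod_cast hN0⟩
  obtain ⟨ω, hω⟩ := HasEnoughRootsOfUnity.exists_primitiveRoot C N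
  have hxω : x ∈ IntermediateField.adjoin ℚ_[p] {ω} := by
    have h1 : IntermediateField.adjoin ℚ_[p] (T : Set C) ≤ IntermediateField.adjoin ℚ_[p] {ω} := by
      rw [IntermediateField.adjoin_le_iff]
      intro y hy
      have hy' := hNT y (by simpa using hy)
      obtain ⟨i, _, hi⟩ := hω.eq_pow_of_pow_eq_one hy'
      rw [← hi]
      exact pow_mem (IntermediateField.mem_adjoin_simple_self ℚ_[p] ω) i
    exact h1 hxT
  have hx1 : 0 < ‖x‖ := norm_pos_iff.2 hx0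
  have hp1 : (1 : ℝ) < p := by exact_mod_cast hp.one_lt
  have hp0 : (0 : ℝ) < p := by linarith
  obtain ⟨m, hm1, hm2⟩ := exists_mem_Ioc_zpow hx1 hp1
  refine ⟨m + 1, ?_⟩
  let z : C := ((p : C) ^ (m + 1)) * x
  have hz : z ∈ IntermediateField.adjoin ℚ_[p] {ω} :=
    mul_mem (zpow_mem (_root_.natCast_mem _ p) _) hxω
  have hzn : ‖z‖ = ((p : ℝ) ^ (m + 1))⁻¹ * ‖x‖ := by
    show ‖((p : C) ^ (m + 1)) * x‖ = _
    rw [norm_mul, norm_zpow, norm_p (p := p), one_div, inv_zpow]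
  have hpm : (0 : ℝ) < (p : ℝ) ^ (m + 1) := by positivity
  have hz1 : ‖z‖ ≤ 1 := by
    rw [hzn, inv_mul_le_iff₀ hpm, mul_one]
    exact hm2
  have hz2 : ¬ ‖z‖ < 1 := by
    intro h
    have h2 := unr_small N hN ω hω z hz h
    rw [hzn, inv_mul_le_iff₀ hpm] at h2
    have h3 : (p : ℝ) ^ (m + 1) * (1 / (p : ℝ)) = (p : ℝ) ^ m := by
      rw [zpow_add_one₀ hp0.ne']
      field_simp
    rw [h3] at h2
    exact absurd hm1 (not_lt.2 h2)
  have hz3 : ‖z‖ = 1 := le_antisymm hz1 (not_lt.1 hz2)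
  rw [hzn] at hz3
  have h4 := congrArg (fun r => (p : ℝ) ^ (m + 1) * r) hz3
  simp only [mul_one] at h4
  rw [mul_inv_cancel_left₀ hpm.ne'] at h4
  exact h4

end Pool.Agent.H72.RM
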