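import Pool.Agent.H72.RM.Ram
import Pool.Agent.H72.RM.Unr
import Pool.Agent.H72.RM.Res

/-!
# Module LocalB: a uniformizer of `M = W(ζ, vm)` and the ramification data

`W = Wnr p C`, `M = Mf p ζ vm` (an intermediate field of `C / W`), `G = M ≃ₐ[W] M` (a finite group: `M / W`
is generated by two integral elements). `M / W` is Galois: it is normal because every automorphism of
`C` over `W` maps `ζ` to a power of `ζ` and `vm` to `ζ^a vm` (`vm^(p^m) = v ∈ W`).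
* `nonarch`: from `C` (`IsUltrametricDist.norm_add_le_max`). The norm of `M` is the norm of `C`.
* `iso`: `g : M ≃ₐ[W] M` extends to `σ : C ≃ₐ[W] C` (`AlgEquiv.liftNormal`, `Normal W C`), and
  `‖σ x‖ = ‖x‖` (`IsoEnv.iso` for `σ.restrictScalars ℚ_[p]`).
* `faithful`: clear (`AlgEquiv.ext`).
* `res`: if `‖x‖ < 1` take `w = 0`; if `‖x‖ = 1` take `ω ∈ tame p C` from `res_tame`; `ω ∈ W`, so it is
  fixed by `G`.
* uniformizer: for `x : M`, `x ≠ 0`, the product `∏_{g ∈ G} g x` is fixed by `G`, so lies in `W`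
  (`IsGalois`), and has norm `‖x‖^|G|`; by `unr_value` `‖x‖^|G| = p^k`, `k : ℤ`. The set of `j : ℕ` such
  that some `x : M` has `‖x‖^|G| = p^(-j)`, `j ≥ 1`, contains `|G|` (`x = p`); let `j` be its least element
  and `π` a corresponding element. If `‖x‖ < 1`, `x ≠ 0`, then `‖x‖^|G| = p^(-j')`, `j' ≥ 1`, so `j' ≥ j`
  and `‖x‖ ≤ ‖π‖`.
-/

set_option autoImplicit false
set_option linter.unusedSectionVars false

open IntermediateField

namespace Pool.Agent.H72.RM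

variable {p : ℕ} [Fact p.Prime] {C : Type} [NormedField C] [NormedAlgebra ℚ_[p] C]
  [IsUltrametricDist C] [IsAlgClosed C] [Algebra.IsAlgebraic ℚ_[p] C] [IsoEnv p C]

variable (p) in
/-- the field `W(ζ, vm)` -/
noncomputable def Mf (ζ vm : C) : IntermediateField (Wnr p C) C :=
  IntermediateField.adjoin (Wnr p C) {ζ, vm}

theorem mf_mem_iff (ζ vm x : C) :
    x ∈ Mf p ζ vm ↔ x ∈ IntermediateField.adjoin ℚ_[p] (tame p C ∪ {ζ, vm}) := by
  have h := IntermediateField.adjoin_adjoin_left ℚ_[p] (tame p C) ({ζ, vm} : Set C)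
  rw [← h, IntermediateField.mem_restrictScalars]
  exact Iff.rfl

private theorem lb_zeta_mem (ζ vm : C) : ζ ∈ Mf p ζ vm :=
  IntermediateField.subset_adjoin _ _ (Set.mem_insert _ _)

private theorem lb_vm_mem (ζ vm : C) : vm ∈ Mf p ζ vm :=
  IntermediateField.subset_adjoin _ _ (Set.mem_insert_of_mem _ rfl)

theorem mf_finite (m : ℕ) (ζ vm : C) (hζ : IsPrimitiveRoot ζ (p ^ m)) (hvm : vm ^ (p ^ m) ∈ Wnr p C) :
    FiniteDimensional (Wnr p C) (Mf p ζ vm) := by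
  unfold Mf
  apply IntermediateField.finiteDimensional_adjoin
  intro x _
  exact (Algebra.IsAlgebraic.isAlgebraic (R := Wnr p C) x).isIntegral

theorem mf_galois (m : ℕ) (ζ vm : C) (hζ : IsPrimitiveRoot ζ (p ^ m)) (hvm : vm ^ (p ^ m) ∈ Wnr p C) :
    IsGalois (Wnr p C) (Mf p ζ vm) := by
  have hp0 : p ^ m ≠ 0 := pow_ne_zero m (Fact.out : p.Prime).ne_zero
  have : NeZero (p ^ m) := ⟨hp0⟩
  have : IsGalois (Wnr p C) C := galW p C _
  have : CharZero C := charZero_C p C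
  have hn : Normal (Wnr p C) (Mf p ζ vm) := by
    rw [IntermediateField.normal_iff_forall_map_le]
    intro σ
    have hσζ : σ ζ ∈ Mf p ζ vm := by
      have h1 : (σ ζ) ^ (p ^ m) = 1 := by rw [← map_pow, hζ.pow_eq_one, map_one]
      obtain ⟨i, _, hi⟩ := hζ.eq_pow_of_pow_eq_one h1
      rw [← hi]
      exact pow_mem (lb_zeta_mem ζ vm) i
    have hσv : σ vm ∈ Mf p ζ vm := by
      by_cases hv0 : vm = 0
      · rw [hv0, map_zero]
        exact zero_mem _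
      have h2 : (σ vm) ^ (p ^ m) = vm ^ (p ^ m) := by
        rw [← map_pow]
        exact σ.commutes (⟨_, hvm⟩ : Wnr p C)
      have h1 : (σ vm / vm) ^ (p ^ m) = 1 := by
        rw [div_pow, h2, div_self (pow_ne_zero _ hv0)]
      obtain ⟨i, _, hi⟩ := hζ.eq_pow_of_pow_eq_one h1
      have h3 : σ vm = ζ ^ i * vm := by
        rw [hi, div_mul_cancel₀ _ hv0]
      rw [h3]
      exact mul_mem (pow_mem (lb_zeta_mem ζ vm) i) (lb_vm_mem ζ vm)
    have h4 : IntermediateField.map σ (Mf p ζ vm) ≤ Mf p ζ vm := by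
      conv_lhs => unfold Mf
      rw [IntermediateField.adjoin_map, IntermediateField.adjoin_le_iff]
      rintro _ ⟨y, hy, rfl⟩
      rcases hy with hy | hy
      · rw [hy]; exact hσζ
      · rw [Set.mem_singleton_iff] at hy
        rw [hy]; exact hσv
    exact h4
  exact ⟨⟩

/-- every automorphism of `M` over `W` extends to `C` -/
theorem mf_lift (ζ vm : C) (g : Mf p ζ vm ≃ₐ[Wnr p C] Mf p ζ vm) :
    ∃ σ : C ≃ₐ[ℚ_[p]] C, (∀ ω ∈ tame p C, σ ω = ω) ∧ ∀ x : Mf p ζ vm, σ (x : C) = (g x : C) := by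
  have : IsGalois (Wnr p C) C := galW p C _
  have : Normal (Wnr p C) C := inferInstance
  refine ⟨(g.liftNormal C).restrictScalars ℚ_[p], fun ω hω => ?_, fun x => ?_⟩
  · exact (g.liftNormal C).commutes (⟨ω, tame_le_Wnr hω⟩ : Wnr p C)
  · exact g.liftNormal_commutes C x

/-- every automorphism of `C` over `W` restricts to `M` -/
theorem mf_restrict (m : ℕ) (ζ vm : C) (hζ : IsPrimitiveRoot ζ (p ^ m))
    (hvm : vm ^ (p ^ m) ∈ Wnr p C) (σ : C ≃ₐ[ℚ_[p]] C) (hσ : ∀ ω ∈ tame p C, σ ω = ω) :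
    ∃ g : Mf p ζ vm ≃ₐ[Wnr p C] Mf p ζ vm, ∀ x : Mf p ζ vm, σ (x : C) = (g x : C) := by
  have := mf_galois m ζ vm hζ hvm
  have : Normal (Wnr p C) (Mf p ζ vm) := inferInstance
  have hfix : ∀ r : Wnr p C, σ.toRingEquiv (algebraMap (Wnr p C) C r) = algebraMap (Wnr p C) C r :=
    fun r => fixed_of_mem_adjoin (tame p C) (σ : C →ₐ[ℚ_[p]] C) hσ (r : C) r.2
  let σ' : C ≃ₐ[Wnr p C] C := AlgEquiv.ofRingEquiv (f := σ.toRingEquiv) hfix
  refine ⟨σ'.restrictNormal (Mf p ζ vm), fun x => ?_⟩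
  exact (σ'.restrictNormal_commutes (Mf p ζ vm) x).symm

theorem mf_ram (m : ℕ) (ζ vm : C) (hζ : IsPrimitiveRoot ζ (p ^ m)) (hvm : vm ^ (p ^ m) ∈ Wnr p C) :
    ∃ π : Mf p ζ vm, RamData (Mf p ζ vm) (Mf p ζ vm ≃ₐ[Wnr p C] Mf p ζ vm) π := by
  have hgal := mf_galois m ζ vm hζ hvm
  have hfin := mf_finite m ζ vm hζ hvm
  have hpp : (1 : ℝ) < p := by exact_mod_cast (Fact.out : p.Prime).one_lt
  have hp0 : (0 : ℝ) < p := by linarith
  have hiso : ∀ (g : Mf p ζ vm ≃ₐ[Wnr p C] Mf p ζ vm) (x : Mf p ζ vm), ‖g x‖ = ‖x‖ := by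
    intro g x
    obtain ⟨σ, _, hσ⟩ := mf_lift ζ vm g
    have h1 : ‖(g x : C)‖ = ‖(x : C)‖ := by rw [← hσ x, IsoEnv.iso]
    exact h1
  set N : ℕ := Fintype.card (Mf p ζ vm ≃ₐ[Wnr p C] Mf p ζ vm) with hN
  have hN1 : 0 < N := Fintype.card_pos
  have hval : ∀ x : Mf p ζ vm, x ≠ 0 → ∃ k : ℤ, ‖x‖ ^ N = (p : ℝ) ^ k := by
    intro x hx
    have h1 := Algebra.norm_eq_prod_automorphisms (Wnr p C) x
    have h2 : ((Algebra.norm (Wnr p C) x : Wnr p C) : C) ≠ 0 := by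
      intro h
      have h3 : Algebra.norm (Wnr p C) x = 0 := by exact_mod_cast h
      exact hx (Algebra.norm_eq_zero_iff.1 h3)
    obtain ⟨k, hk⟩ := unr_value ((Algebra.norm (Wnr p C) x : Wnr p C) : C)
      (Algebra.norm (Wnr p C) x).2 h2
    refine ⟨k, ?_⟩
    rw [← hk]
    have h4 : ‖(algebraMap (Wnr p C) (Mf p ζ vm)) (Algebra.norm (Wnr p C) x)‖ = ‖x‖ ^ N := by
      rw [h1, norm_prod]
      simp only [hiso]
      rw [Finset.prod_const, Finset.card_univ]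
    rw [← h4]
    rfl
  -- the possible exponents
  have hex : ∃ j : ℕ, 1 ≤ j ∧ ∃ x : Mf p ζ vm, ‖x‖ ^ N = (p : ℝ) ^ (-(j : ℤ)) := by
    refine ⟨N, hN1, (p : Mf p ζ vm), ?_⟩
    have h1 : ‖(p : Mf p ζ vm)‖ = 1 / (p : ℝ) := by
      have h2 : ‖(((p : Mf p ζ vm)) : C)‖ = 1 / (p : ℝ) := by
        push_cast
        exact norm_p
      exact h2
    rw [h1, one_div, inv_pow, zpow_neg, zpow_natCast]
  classical
  obtain ⟨hj1, π, hπ⟩ := Nat.find_spec hex
  set j : ℕ := Nat.find hex with hj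
  have hpos : 0 < ‖π‖ := by
    by_contra h
    have h0 : ‖π‖ = 0 := le_antisymm (not_lt.1 h) (norm_nonneg π)
    rw [h0, zero_pow hN1.ne'] at hπ
    exact (zpow_pos hp0 _).ne hπ
  refine ⟨π, ?_, ?_, ?_, ?_, hpos, ?_, ?_⟩
  · intro x y
    exact IsUltrametricDist.norm_add_le_max (x : C) (y : C)
  · intro g x
    exact hiso g x
  · intro g h
    exact AlgEquiv.ext h
  · intro x hx
    rcases lt_or_eq_of_le hx with hlt | heq
    · exact ⟨0, by rw [norm_zero]; exact zero_le_one, fun g => smul_zero g, by rwa [sub_zero]⟩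
    · obtain ⟨ω, hω, hωx⟩ := res_tame (p := p) (x : C) heq
      refine ⟨algebraMap (Wnr p C) (Mf p ζ vm) ⟨ω, tame_le_Wnr hω⟩, ?_, fun g => g.commutes _, hωx⟩
      exact (norm_of_mem_tame hω).le
  · by_contra h
    have h1 : 1 ≤ ‖π‖ ^ N := one_le_pow₀ (not_lt.1 h)
    rw [hπ] at h1
    have h2 : (p : ℝ) ^ (-(j : ℤ)) < 1 := zpow_lt_one_of_neg₀ hpp (by omega)
    linarith
  · intro x hx
    by_cases hx0 : x = 0
    · rw [hx0, norm_zero]
      exact norm_nonneg _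
    obtain ⟨k, hk⟩ := hval x hx0
    have h1 : ‖x‖ ^ N < 1 := pow_lt_one₀ (norm_nonneg x) hx hN1.ne'
    rw [hk] at h1
    have hk0 : k < 0 := by
      by_contra h
      have := one_le_zpow₀ hpp.le (not_lt.1 h)
      linarith
    obtain ⟨j', hj'⟩ : ∃ j' : ℕ, k = -(j' : ℤ) := ⟨k.natAbs, by omega⟩
    have hjj : j ≤ j' := by
      apply Nat.find_min'
      refine ⟨by omega, x, ?_⟩
      rw [hk, hj']
    have h2 : ‖x‖ ^ N ≤ ‖π‖ ^ N := by
      rw [hk, hπ, hj']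
      exact zpow_le_zpow_right₀ hpp.le (by omega)
    exact (pow_le_pow_iff_left₀ (norm_nonneg x) (norm_nonneg π) hN1.ne').1 h2

end Pool.Agent.H72.RM
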