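import Pool.Agent.H72.RM.Unr

/-!
# Module Mono: the ring of integers of `W(ζ)` is generated by `ζ`

`W = Wnr p C`, `m ≥ 1`, `e = p^(m-1)(p-1)`, `l = ζ - 1`. Every `x ∈ ℚ_p(tame, ζ) = W(ζ)` is
`∑_{i<e} c_i l^i` with `c_i ∈ W` (`ζ` is a root of the monic polynomial `cyclotomic (p^m)` of degree `e`
over `W`; `W(l) = W[l]` since `l` is algebraic; take the remainder modulo a monic polynomial of degree
`e` killing `l`). By `unr_value` and `‖l‖^e = 1/p` (`norm_zeta_sub_one`) the nonzero terms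
`c_i l^i` have distinct norms (`‖c_i l^i‖^e = p^(e k_i - i)`), so `‖x‖ = max ‖c_i l^i‖`
(ultrametric sum with distinct norms), and `‖x‖ ≤ 1` gives `‖c_i‖ ≤ ‖l‖^(-i) < p`, so
`‖c_i‖ ≤ 1`. `σ` fixes `W` pointwise, so `σ x - x = ∑ c_i ((σ l)^i - l^i)`, and
`‖(σ l)^i - l^i‖ ≤ ‖σ l - l‖ = ‖σ ζ - ζ‖` because `‖σ l‖ = ‖l‖ ≤ 1`.
-/

set_option autoImplicit false
set_option linter.unusedSectionVars false

open IntermediateField

namespace Pool.Agent.H72.RM

variable {p : ℕ} [Fact p.Prime] {C : Type} [NormedField C] [NormedAlgebra ℚ_[p] C]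
  [IsUltrametricDist C] [IsAlgClosed C] [Algebra.IsAlgebraic ℚ_[p] C] [IsoEnv p C]

/-- every element of `W(ζ)` is a polynomial of degree `< e` in `ζ - 1` -/
theorem mono_expand (m : ℕ) (ζ : C) (hζ : IsPrimitiveRoot ζ (p ^ m)) (x : C)
    (hx : x ∈ IntermediateField.adjoin ℚ_[p] (tame p C ∪ {ζ})) :
    ∃ r : Polynomial (Wnr p C), r.degree < ((p ^ m).totient : ℕ) ∧
      Polynomial.aeval (ζ - 1) r = x := by
  have h1 : x ∈ IntermediateField.adjoin (Wnr p C) ({ζ} : Set C) := by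
    have h2 := IntermediateField.adjoin_adjoin_left ℚ_[p] (tame p C) ({ζ} : Set C)
    rw [← h2] at hx
    exact hx
  have h3 : x ∈ IntermediateField.adjoin (Wnr p C) ({ζ - 1} : Set C) := by
    have h4 : IntermediateField.adjoin (Wnr p C) ({ζ} : Set C) ≤
        IntermediateField.adjoin (Wnr p C) ({ζ - 1} : Set C) := by
      rw [IntermediateField.adjoin_simple_le_iff]
      have h5 : (ζ - 1) + 1 ∈ IntermediateField.adjoin (Wnr p C) ({ζ - 1} : Set C) :=
        add_mem (IntermediateField.mem_adjoin_simple_self _ _) (one_mem _)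
      rwa [sub_add_cancel] at h5
    exact h4 h1
  have h6 : IsAlgebraic (Wnr p C) (ζ - 1) := Algebra.IsAlgebraic.isAlgebraic _
  have h7 : x ∈ (IntermediateField.adjoin (Wnr p C) ({ζ - 1} : Set C)).toSubalgebra := h3
  rw [IntermediateField.adjoin_simple_toSubalgebra_of_isAlgebraic h6,
    Algebra.adjoin_singleton_eq_range_aeval] at h7
  obtain ⟨f, hf⟩ := h7
  set P : Polynomial (Wnr p C) :=
    (Polynomial.cyclotomic (p ^ m) (Wnr p C)).comp (Polynomial.X + Polynomial.C 1) with hP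
  have hPm : P.Monic := (Polynomial.cyclotomic.monic _ _).comp_X_add_C 1
  have hroot : Polynomial.aeval (ζ - 1) P = 0 := by
    rw [hP, Polynomial.aeval_comp]
    simp only [map_add, Polynomial.aeval_X, map_one, sub_add_cancel]
    have hpos : 0 < p ^ m := pow_pos (Fact.out : p.Prime).pos m
    have := hζ.isRoot_cyclotomic hpos
    rw [Polynomial.IsRoot.def] at this
    rw [Polynomial.aeval_def, Polynomial.eval₂_eq_eval_map, Polynomial.map_cyclotomic]
    exact this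
  refine ⟨f %ₘ P, ?_, ?_⟩
  · refine lt_of_lt_of_eq (Polynomial.degree_modByMonic_lt f hPm) ?_
    rw [Polynomial.degree_eq_natDegree hPm.ne_zero, hP, Polynomial.natDegree_comp,
      Polynomial.natDegree_X_add_C, mul_one, Polynomial.natDegree_cyclotomic]
  · rw [Polynomial.aeval_modByMonic_eq_self_of_root hroot]
    exact hf

theorem mono_pow_sub {a b : C} (ha : ‖a‖ ≤ 1) (hb : ‖b‖ ≤ 1) (i : ℕ) :
    ‖a ^ i - b ^ i‖ ≤ ‖a - b‖ := by
  have h := (Commute.all a b).mul_geom_sum₂ i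
  rw [← h, norm_mul]
  refine mul_le_of_le_one_right (norm_nonneg _) ?_
  refine IsUltrametricDist.norm_sum_le_of_forall_le_of_nonneg zero_le_one (fun j _ => ?_)
  rw [norm_mul, norm_pow, norm_pow]
  exact mul_le_one₀ (pow_le_one₀ (norm_nonneg _) ha) (by positivity)
    (pow_le_one₀ (norm_nonneg _) hb)

theorem mono (m : ℕ) (hm : 1 ≤ m) (ζ : C) (hζ : IsPrimitiveRoot ζ (p ^ m)) (x : C)
    (hx : x ∈ IntermediateField.adjoin ℚ_[p] (tame p C ∪ {ζ})) (hx1 : ‖x‖ ≤ 1)
    (σ : C ≃ₐ[ℚ_[p]] C) (hσ : ∀ ω ∈ tame p C, σ ω = ω) : ‖σ x - x‖ ≤ ‖σ ζ - ζ‖ := by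
  obtain ⟨r, hr, rfl⟩ := mono_expand m ζ hζ x hx
  have hp1 : (1 : ℝ) < p := by exact_mod_cast (Fact.out : p.Prime).one_lt
  have hp0 : (0 : ℝ) < p := by linarith
  have he : (p ^ m).totient = p ^ (m - 1) * (p - 1) :=
    Nat.totient_prime_pow (Fact.out : p.Prime) (by omega)
  have hle : ‖ζ - 1‖ ^ (p ^ (m - 1) * (p - 1)) = 1 / (p : ℝ) := norm_zeta_sub_one m hm ζ hζ
  obtain ⟨e, hedef⟩ : ∃ e, e = p ^ (m - 1) * (p - 1) := ⟨_, rfl⟩
  rw [← hedef] at he hle
  set l := ζ - 1 with hl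
  have hl1 : ‖l‖ < 1 := norm_pow_sub_one m ζ hζ.pow_eq_one
  have hl0 : 0 < ‖l‖ := by
    rcases (norm_nonneg l).lt_or_eq with h | h
    · exact h
    · exfalso
      rw [← h] at hle
      have : (0 : ℝ) < 1 / p := by positivity
      rw [← hle] at this
      have he0 : e ≠ 0 := by
        rw [hedef]
        have := (Fact.out : p.Prime).two_le
        have h2 : 0 < p ^ (m - 1) := pow_pos (by omega) _
        exact (Nat.mul_pos h2 (by omega)).ne'
      rw [zero_pow he0] at this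
      exact lt_irrefl _ this
  have hσW : ∀ c : Wnr p C, σ (c : C) = c := fun c =>
    fixed_of_mem_adjoin (tame p C) (σ : C →ₐ[ℚ_[p]] C) hσ c c.2
  have hsum : ∀ y : C, Polynomial.aeval y r = ∑ i ∈ r.support, (r.coeff i : C) * y ^ i := by
    intro y
    rw [Polynomial.aeval_def, Polynomial.eval₂_eq_sum, Polynomial.sum_def]
    rfl
  have hdeg : ∀ i ∈ r.support, i < e := by
    intro i hi
    have h1 := Polynomial.le_degree_of_mem_supp i hi
    have h2 := lt_of_le_of_lt h1 hr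
    rw [he] at h2
    exact_mod_cast h2
  have hval : ∀ i ∈ r.support, ∃ k : ℤ, ‖(r.coeff i : C)‖ = (p : ℝ) ^ k := by
    intro i hi
    refine unr_value _ (r.coeff i).2 ?_
    rw [Polynomial.mem_support_iff] at hi
    intro h
    exact hi (by exact_mod_cast h)
  -- the norms of the terms are distinct
  have hne : ∀ i ∈ r.support, ∀ j ∈ r.support, i < j →
      ‖(r.coeff i : C) * l ^ i‖ ≠ ‖(r.coeff j : C) * l ^ j‖ := by
    intro i hi j hj hij h
    obtain ⟨k, hk⟩ := hval i hi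
    obtain ⟨k', hk'⟩ := hval j hj
    have h1 := congrArg (fun t : ℝ => t ^ e) h
    have h10 : ∀ n : ℕ, (‖l‖ ^ n) ^ e = (1 / (p : ℝ)) ^ n := by
      intro n
      rw [← pow_mul, mul_comm, pow_mul, hle]
    simp only [norm_mul, norm_pow, hk, hk', mul_pow, h10] at h1
    have h2 : ∀ (a : ℤ) (n : ℕ), ((p : ℝ) ^ a) ^ e * (1 / (p : ℝ)) ^ n =
        (p : ℝ) ^ (a * e - n) := by
      intro a n
      rw [one_div, inv_pow, zpow_sub₀ hp0.ne', zpow_mul, zpow_natCast, zpow_natCast]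
      rfl
    rw [h2, h2] at h1
    have h3 := zpow_right_injective₀ hp0 hp1.ne' h1
    have h4 := hdeg j hj
    have h5 : (j : ℤ) - i = (k' - k) * e := by linarith
    have h6 : 0 < (j : ℤ) - i := by omega
    have h7 : (j : ℤ) - i < e := by omega
    rw [h5] at h6 h7
    have h8 : 0 < k' - k := by
      by_contra hcon
      push Not at hcon
      have : (k' - k) * (e : ℤ) ≤ 0 := mul_nonpos_of_nonpos_of_nonneg hcon (by positivity)
      omega
    have h9 : (1 : ℤ) * e ≤ (k' - k) * e := mul_le_mul_of_nonneg_right (by omega) (by positivity)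
    omega
  have hpair : Set.Pairwise (r.support : Set ℕ)
      (fun i j => ‖(r.coeff i : C) * l ^ i‖₊ ≠ ‖(r.coeff j : C) * l ^ j‖₊) := by
    intro i hi j hj hij h
    have h' : ‖(r.coeff i : C) * l ^ i‖ = ‖(r.coeff j : C) * l ^ j‖ := congrArg NNReal.toReal h
    rcases lt_or_gt_of_ne hij with h1 | h1
    · exact hne i hi j hj h1 h'
    · exact hne j hj i hi h1 h'.symm
  have hmax := IsUltrametricDist.nnnorm_sum_eq_sup_of_pairwise_ne hpair
  rw [← hsum] at hmax
  -- the coefficients are integral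
  have hc : ∀ i ∈ r.support, ‖(r.coeff i : C)‖ ≤ 1 := by
    intro i hi
    have h1 : ‖(r.coeff i : C) * l ^ i‖₊ ≤ ‖Polynomial.aeval l r‖₊ := by
      rw [hmax]
      exact Finset.le_sup (f := fun i => ‖(r.coeff i : C) * l ^ i‖₊) hi
    have h2 : ‖(r.coeff i : C) * l ^ i‖ ≤ 1 := le_trans (by exact_mod_cast h1) hx1
    obtain ⟨k, hk⟩ := hval i hi
    rw [hk]
    by_contra hcon
    push Not at hcon
    have hk1 : 1 ≤ k := by
      by_contra hk0
      push Not at hk0
      have : (p : ℝ) ^ k ≤ (p : ℝ) ^ (0 : ℤ) := zpow_le_zpow_right₀ hp1.le (by omega)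
      rw [zpow_zero] at this
      linarith
    have h3 : (p : ℝ) ≤ ‖(r.coeff i : C)‖ := by
      rw [hk]
      calc (p : ℝ) = (p : ℝ) ^ (1 : ℤ) := (zpow_one _).symm
        _ ≤ (p : ℝ) ^ k := zpow_le_zpow_right₀ hp1.le hk1
    have h4 : 1 / (p : ℝ) < ‖l‖ ^ i := by
      rw [← hle]
      exact pow_lt_pow_right_of_lt_one₀ hl0 hl1 (hdeg i hi)
    have h5 : 1 < ‖(r.coeff i : C)‖ * ‖l‖ ^ i := by
      calc (1 : ℝ) = p * (1 / p) := by field_simp
        _ < p * ‖l‖ ^ i := mul_lt_mul_of_pos_left h4 hp0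
        _ ≤ ‖(r.coeff i : C)‖ * ‖l‖ ^ i := mul_le_mul_of_nonneg_right h3 (by positivity)
    rw [norm_mul, norm_pow] at h2
    linarith
  have hσl : σ l - l = σ ζ - ζ := by
    rw [hl, map_sub, map_one]
    ring
  have hσn : ‖σ l‖ = ‖l‖ := IsoEnv.iso σ l
  have hσx : σ (Polynomial.aeval l r) = Polynomial.aeval (σ l) r := by
    rw [hsum, hsum, map_sum]
    refine Finset.sum_congr rfl fun i _ => ?_
    rw [map_mul, map_pow, hσW]
  rw [hσx, hsum, hsum, ← Finset.sum_sub_distrib, ← hσl]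
  refine IsUltrametricDist.norm_sum_le_of_forall_le_of_nonneg (norm_nonneg _) (fun i hi => ?_)
  rw [← mul_sub, norm_mul]
  calc ‖(r.coeff i : C)‖ * ‖σ l ^ i - l ^ i‖ ≤ 1 * ‖σ l - l‖ :=
        mul_le_mul (hc i hi) (mono_pow_sub (by rw [hσn]; exact hl1.le) hl1.le i)
          (norm_nonneg _) zero_le_one
    _ = ‖σ l - l‖ := one_mul _

end Pool.Agent.H72.RM
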