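import Pool.Agent.H72.RM.Ram

/-!
# Module RamDown: upper bound for the product of ramification numbers over a coset

`f(X) = ∏_{h ∈ H} (X - h • π)`; its coefficients `c_i` are fixed by `H` (left multiplication by an
element of `H` permutes the factors) and have norm `≤ 1` (`‖h • π‖ ≤ 1`). `f(π) = 0` (factor `h = 1`).
`∏_{h ∈ H} (π - (g h) • π) = ∑ (g • c_i) π^i` (apply `g` to the coefficients of `f`:
`∏ (X - g • h • π)`), and subtracting `f(π) = ∑ c_i π^i = 0`:
`∏_{h ∈ H} (π - (g h) • π) = ∑ (g • c_i - c_i) π^i`, all terms of norm `≤ B`.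
-/

set_option autoImplicit false

open Polynomial

namespace Pool.Agent.H72.RM

variable {M G : Type} [NormedField M] [Group G] [MulSemiringAction G M] {π : M}

private theorem rd_norm_sum (D : RamData M G π) {ι : Type} (s : Finset ι) (f : ι → M) (B : ℝ)
    (hB : 0 ≤ B) (h : ∀ i ∈ s, ‖f i‖ ≤ B) : ‖∑ i ∈ s, f i‖ ≤ B := by
  classical
  induction s using Finset.induction_on with
  | empty => simpa using hB
  | insert a s ha ih =>
    rw [Finset.sum_insert ha]
    refine (D.nonarch _ _).trans (max_le (h a (Finset.mem_insert_self a s)) (ih ?_))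
    intro i hi
    exact h i (Finset.mem_insert_of_mem hi)

private theorem rd_norm_sub (D : RamData M G π) (x y : M) : ‖x - y‖ ≤ max ‖x‖ ‖y‖ := by
  have h := D.nonarch x (-y)
  rw [norm_neg, ← sub_eq_add_neg] at h
  exact h

/-- coefficients of a product of `X - a`, `‖a‖ ≤ 1` -/
private theorem rd_coeff (D : RamData M G π) {ι : Type} (s : Finset ι) (a : ι → M)
    (ha : ∀ i ∈ s, ‖a i‖ ≤ 1) (j : ℕ) : ‖(∏ i ∈ s, (X - C (a i))).coeff j‖ ≤ 1 := by
  classical
  induction s using Finset.induction_on generalizing j with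
  | empty =>
    rw [Finset.prod_empty, coeff_one]
    split_ifs <;> simp
  | insert b s hb ih =>
    rw [Finset.prod_insert hb, mul_comm]
    have h1 : ∀ j, ‖(∏ i ∈ s, (X - C (a i))).coeff j‖ ≤ 1 := fun j =>
      ih (fun i hi => ha i (Finset.mem_insert_of_mem hi)) j
    have h2 : ‖a b‖ ≤ 1 := ha b (Finset.mem_insert_self b s)
    have h3 : ∀ j, ‖(∏ i ∈ s, (X - C (a i))).coeff j * a b‖ ≤ 1 := by
      intro j
      rw [norm_mul]
      exact mul_le_one₀ (h1 j) (norm_nonneg _) h2
    cases j with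
    | zero =>
      rw [mul_coeff_zero, coeff_sub, coeff_X_zero, coeff_C_zero, zero_sub, mul_neg, norm_neg]
      exact h3 0
    | succ j =>
      rw [coeff_mul_X_sub_C]
      exact (rd_norm_sub D _ _).trans (max_le (h1 j) (h3 (j + 1)))

private theorem rd_map {H : Subgroup G} [Fintype H] (k : G) :
    (∏ h : H, (X - C ((h : G) • π))).map (MulSemiringAction.toRingHom G M k)
      = ∏ h : H, (X - C ((k * (h : G)) • π)) := by
  rw [Polynomial.map_prod]
  apply Finset.prod_congr rfl
  intro h _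
  rw [Polynomial.map_sub, map_X, map_C, MulSemiringAction.toRingHom_apply, mul_smul]

private theorem rd_coeff_map (k : G) (f : M[X]) (i : ℕ) :
    (f.map (MulSemiringAction.toRingHom G M k)).coeff i = k • f.coeff i := by
  rw [coeff_map, MulSemiringAction.toRingHom_apply]

theorem RamData.ram_down (D : RamData M G π) (H : Subgroup G) [Fintype H] (g : G) (B : ℝ)
    (hB : 0 ≤ B)
    (h : ∀ x : M, ‖x‖ ≤ 1 → (∀ h ∈ H, h • x = x) → ‖g • x - x‖ ≤ B) :
    ∏ h : H, ‖(g * (h : G)) • π - π‖ ≤ B := by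
  classical
  set f : M[X] := ∏ h : H, (X - C ((h : G) • π)) with hf
  have hnorm : ∀ j, ‖f.coeff j‖ ≤ 1 := by
    intro j
    rw [hf]
    apply rd_coeff D
    intro i _
    rw [D.iso]
    exact D.lt_one.le
  have hfix : ∀ k ∈ H, ∀ j, k • f.coeff j = f.coeff j := by
    intro k hk j
    rw [← rd_coeff_map, hf, rd_map]
    have h1 : ∏ h : H, (X - C ((k * (h : G)) • π)) = ∏ h : H, (X - C ((h : G) • π)) := by
      apply Fintype.prod_equiv (Equiv.mulLeft (⟨k, hk⟩ : H))
      intro x
      rfl
    rw [h1]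
  have hzero : f.eval π = 0 := by
    rw [hf, eval_prod]
    apply Finset.prod_eq_zero (Finset.mem_univ (1 : H))
    rw [eval_sub, eval_X, eval_C, OneMemClass.coe_one, one_smul, sub_self]
  set fg : M[X] := f.map (MulSemiringAction.toRingHom G M g) with hfg
  have hval : fg.eval π = ∏ h : H, (π - (g * (h : G)) • π) := by
    rw [hfg, hf, rd_map, eval_prod]
    apply Finset.prod_congr rfl
    intro x _
    rw [eval_sub, eval_X, eval_C]
  have hdeg : fg.natDegree < f.natDegree + 1 := Nat.lt_succ_of_le natDegree_map_le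
  have hsum : fg.eval π - f.eval π
      = ∑ i ∈ Finset.range (f.natDegree + 1), (g • f.coeff i - f.coeff i) * π ^ i := by
    rw [eval_eq_sum_range' hdeg, eval_eq_sum_range (p := f), ← Finset.sum_sub_distrib]
    apply Finset.sum_congr rfl
    intro i _
    rw [hfg, rd_coeff_map]
    ring
  have hle : ‖fg.eval π - f.eval π‖ ≤ B := by
    rw [hsum]
    apply rd_norm_sum D _ _ _ hB
    intro i _
    rw [norm_mul, norm_pow]
    have h1 : ‖π‖ ^ i ≤ 1 := pow_le_one₀ (norm_nonneg _) D.lt_one.le
    have h2 := h (f.coeff i) (hnorm i) (fun k hk => hfix k hk i)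
    calc ‖g • f.coeff i - f.coeff i‖ * ‖π‖ ^ i ≤ ‖g • f.coeff i - f.coeff i‖ * 1 :=
          mul_le_mul_of_nonneg_left h1 (norm_nonneg _)
      _ = ‖g • f.coeff i - f.coeff i‖ := mul_one _
      _ ≤ B := h2
  rw [hzero, sub_zero, hval, norm_prod] at hle
  calc ∏ h : H, ‖(g * (h : G)) • π - π‖ = ∏ h : H, ‖π - (g * (h : G)) • π‖ := by
        apply Finset.prod_congr rfl
        intro x _
        rw [norm_sub_rev]
    _ ≤ B := hle

end Pool.Agent.H72.RM
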