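import Pool.Agent.H72.RM.Ram

/-!
# Module RamUp: lower bound for the product of ramification numbers over a coset

`y` is fixed by `H`, `‖y‖ ≤ 1`; claim `‖g • y - y‖ ≤ ∏_{h ∈ H} ‖(g h) • π - π‖ =: R`.
Let `O^H` be the subring of `M` of the elements of norm `≤ 1` fixed by `H` and
`f(X) = ∏_{h ∈ H} (X - h • π)`, monic with coefficients in `O^H`. Let `n ≥ 1` and `P` from
`D.ram_approx n y`: `‖y - P(π)‖ ≤ ‖π‖^n =: ε`, coefficients of `P` fixed by `G`, of norm `≤ 1`.
1. `P - C y = f q + s`, `q`, `s` polynomials with coefficients in `O^H`, `deg s < |H|` (division by the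
   monic polynomial `f` over the subring `O^H`: `Polynomial.modByMonic`, `lifts`, or division over
   `O^H` and map). `s(π) = P(π) - y`, `‖s(π)‖ ≤ ε`, and for `h ∈ H`: `s(h • π) = h • s(π)`
   (coefficients fixed by `H`), so `‖s(h • π)‖ ≤ ε`.
2. The elements `h • π` (`h ∈ H`) are distinct (`D.ram_eq_zero`), so Lagrange interpolation
   (`Lagrange.eq_interpolate`, `Lagrange.interpolate_apply`) on these `|H|` points gives for every `z`
   with `‖z‖ ≤ 1`: `‖s(z)‖ ≤ ε K`, where `K` depends only on `H`, `π` (not on `n`), e.g.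
   `K = max_h ∏_{h' ≠ h} ‖h • π - h' • π‖⁻¹` or the sum of these numbers over `h ∈ H`.
3. Apply `g` to the coefficients: `P - C (g • y) = f^g q^g + s^g`, `f^g(X) = ∏ (X - (g h) • π)`,
   `s^g(π) = g • s(g⁻¹ • π)`. Evaluate at `π`: `P(π) - g • y = f^g(π) q^g(π) + g • s(g⁻¹ • π)`, so
   `‖P(π) - g • y‖ ≤ max R (ε K)` and `‖y - g • y‖ ≤ max (max R (ε K)) ε`.
4. Let `n → ∞`.
-/

set_option autoImplicit false

open Polynomial

namespace Pool.Agent.H72.RM

variable {M G : Type} [NormedField M] [Group G] [MulSemiringAction G M] {π : M}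

/-- the subring of the elements of the unit ball fixed by `H` -/
def RamData.fixBall (D : RamData M G π) (H : Subgroup G) : Subring M where
  carrier := {x | ‖x‖ ≤ 1 ∧ ∀ h ∈ H, h • x = x}
  mul_mem' := by
    rintro a b ⟨ha, ha'⟩ ⟨hb, hb'⟩
    refine ⟨?_, ?_⟩
    · rw [norm_mul]; exact mul_le_one₀ ha (norm_nonneg _) hb
    · intro h hh
      rw [smul_mul', ha' h hh, hb' h hh]
  one_mem' := ⟨by simp, by intro h _; exact smul_one h⟩
  add_mem' := by
    rintro a b ⟨ha, ha'⟩ ⟨hb, hb'⟩
    exact ⟨(D.nonarch a b).trans (max_le ha hb), fun h hh => by rw [smul_add, ha' h hh, hb' h hh]⟩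
  zero_mem' := ⟨by simp, fun h _ => smul_zero h⟩
  neg_mem' := by
    rintro a ⟨ha, ha'⟩
    exact ⟨by rwa [norm_neg], fun h hh => by rw [smul_neg, ha' h hh]⟩

theorem RamData.mem_fixBall (D : RamData M G π) (H : Subgroup G) (x : M) :
    x ∈ D.fixBall H ↔ ‖x‖ ≤ 1 ∧ ∀ h ∈ H, h • x = x := Iff.rfl

/-- the polynomial `∏ (X - h • π)` lifts to the subring of fixed elements of the unit ball -/
theorem RamData.prod_coeff (D : RamData M G π) (H : Subgroup G) [Fintype H] (i : ℕ) :
    (∏ h : H, (X - C ((h : G) • π))).coeff i ∈ D.fixBall H := by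
  rw [D.mem_fixBall]
  constructor
  · have hmem : ∀ h : H, (h : G) • π ∈ D.fixBall ⊥ := by
      intro h
      rw [D.mem_fixBall]
      refine ⟨by rw [D.iso]; exact D.lt_one.le, ?_⟩
      intro k hk
      rw [Subgroup.mem_bot] at hk
      rw [hk, one_smul]
    have hmap : (∏ h : H, (X - C (⟨(h : G) • π, hmem h⟩ : D.fixBall ⊥))).map
        (D.fixBall ⊥).subtype = ∏ h : H, (X - C ((h : G) • π)) := by
      rw [Polynomial.map_prod]
      refine Finset.prod_congr rfl fun h _ => ?_
      simp
    rw [← hmap, coeff_map]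
    exact ((∏ h : H, (X - C (⟨(h : G) • π, hmem h⟩ : D.fixBall ⊥))).coeff i).2.1
  · intro h hh
    have hmap : (∏ k : H, (X - C ((k : G) • π))).map (MulSemiringAction.toRingHom G M h) =
        ∏ k : H, (X - C ((k : G) • π)) := by
      rw [Polynomial.map_prod]
      refine Fintype.prod_equiv (Equiv.mulLeft (⟨h, hh⟩ : H)) _ _ fun k => ?_
      simp [smul_smul]
    have := congrArg (fun p : M[X] => p.coeff i) hmap
    simp only [coeff_map] at this
    exact this

theorem RamData.ram_up (D : RamData M G π) (H : Subgroup G) [Fintype H] (g : G) (y : M)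
    (hy : ‖y‖ ≤ 1) (hyH : ∀ h ∈ H, h • y = y) :
    ‖g • y - y‖ ≤ ∏ h : H, ‖(g * (h : G)) • π - π‖ := by
  classical
  set f : M[X] := ∏ h : H, (X - C ((h : G) • π)) with hf
  have hfmon : f.Monic := monic_prod_of_monic _ _ fun h _ => monic_X_sub_C _
  have hfdeg : f.degree = (Fintype.card H : ℕ) := by
    rw [hf, degree_prod]
    simp
  have hflift : f ∈ lifts (D.fixBall H).subtype := by
    rw [lifts_iff_coeff_lifts]
    intro n
    exact ⟨⟨f.coeff n, D.prod_coeff H n⟩, rfl⟩
  obtain ⟨f', hf', hdeg', hmon'⟩ := lifts_and_degree_eq_and_monic hflift hfmon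
  set v : H → M := fun h => (h : G) • π with hv
  have hinj : Function.Injective v := by
    intro a b hab
    have h1 : ((b : G)⁻¹ * (a : G)) • π = π := by
      rw [mul_smul]
      have : (a : G) • π = (b : G) • π := hab
      rw [this, inv_smul_smul]
    have h2 := D.ram_eq_zero _ h1
    have h3 : (a : G) = b := by
      rw [inv_mul_eq_one] at h2
      exact h2.symm
    exact Subtype.ext h3
  set K : ℝ := ∑ h : H, ‖(Lagrange.basis Finset.univ v h).eval (g⁻¹ • π)‖ with hK
  have hK0 : 0 ≤ K := Finset.sum_nonneg fun _ _ => norm_nonneg _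
  -- the action of an element on values of a polynomial
  have heval : ∀ (k : G) (p : M[X]) (z : M),
      (p.map (MulSemiringAction.toRingHom G M k)).eval (k • z) = k • p.eval z := by
    intro k p z
    have h1 : k • z = (MulSemiringAction.toRingHom G M k) z := rfl
    rw [h1, eval_map, eval₂_at_apply]
    rfl
  have key : ∀ n : ℕ, ‖g • y - y‖ ≤
      (∏ h : H, ‖(g * (h : G)) • π - π‖) + ‖π‖ ^ n * (K + 1) := by
    intro n
    obtain ⟨P, hP1, hP2, hP3⟩ := D.ram_approx n y hy
    have hPlift : P - C y ∈ lifts (D.fixBall H).subtype := by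
      rw [lifts_iff_coeff_lifts]
      intro i
      have hc : (P - C y).coeff i ∈ D.fixBall H := by
        rw [coeff_sub]
        refine (D.fixBall H).sub_mem ⟨hP1 i, fun h _ => hP2 h i⟩ ?_
        rw [coeff_C]
        split_ifs
        · exact ⟨hy, hyH⟩
        · exact (D.fixBall H).zero_mem
      exact ⟨⟨_, hc⟩, rfl⟩
    obtain ⟨p', hp'⟩ := hPlift
    have hp'' : p'.map (D.fixBall H).subtype = P - C y := hp'
    set q' := p' /ₘ f' with hq'
    set s' := p' %ₘ f' with hs'
    set q := q'.map (D.fixBall H).subtype with hq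
    set s := s'.map (D.fixBall H).subtype with hs
    have hdiv : s + f * q = P - C y := by
      rw [← hp'', hs, hq, ← hf', ← Polynomial.map_mul, ← Polynomial.map_add, hs', hq',
        modByMonic_add_div]
    have hsdeg : s.degree < (Fintype.card H : ℕ) := by
      have h1 : s'.degree < f'.degree := degree_modByMonic_lt _ hmon'
      rw [hdeg', hfdeg] at h1
      exact lt_of_le_of_lt degree_map_le h1
    have hscoeff : ∀ i, s.coeff i ∈ D.fixBall H := by
      intro i
      rw [hs, coeff_map]
      exact (s'.coeff i).2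
    have hqcoeff : ∀ i, q.coeff i ∈ D.fixBall H := by
      intro i
      rw [hq, coeff_map]
      exact (q'.coeff i).2
    -- value of s at π
    have hfπ : f.eval π = 0 := by
      rw [hf, eval_prod]
      refine Finset.prod_eq_zero (Finset.mem_univ (1 : H)) ?_
      simp
    have hsπ : s.eval π = P.eval π - y := by
      have h1 := congrArg (fun p : M[X] => p.eval π) hdiv
      simp only [eval_add, eval_mul, hfπ, zero_mul, add_zero, eval_sub, eval_C] at h1
      exact h1
    have hsπn : ‖s.eval π‖ ≤ ‖π‖ ^ n := by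
      rw [hsπ, norm_sub_rev]; exact hP3
    have hsh : ∀ h : H, ‖s.eval (v h)‖ ≤ ‖π‖ ^ n := by
      intro h
      have h1 : s.map (MulSemiringAction.toRingHom G M (h : G)) = s := by
        ext i
        rw [coeff_map]
        exact (hscoeff i).2 h h.2
      have h2 := heval (h : G) s π
      rw [h1] at h2
      show ‖s.eval ((h : G) • π)‖ ≤ _
      rw [h2, D.iso]
      exact hsπn
    -- Lagrange bound
    have hsz : ‖s.eval (g⁻¹ • π)‖ ≤ ‖π‖ ^ n * K := by
      have h1 : s = Lagrange.interpolate Finset.univ v fun i => s.eval (v i) := by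
        refine Lagrange.eq_interpolate (hinj.injOn) ?_
        rw [Finset.card_univ]
        exact hsdeg
      have h2 : s.eval (g⁻¹ • π) = ∑ h : H, s.eval (v h) *
          (Lagrange.basis Finset.univ v h).eval (g⁻¹ • π) := by
        conv_lhs => rw [h1]
        rw [Lagrange.interpolate_apply, eval_finsetSum]
        refine Finset.sum_congr rfl fun h _ => ?_
        rw [eval_mul, eval_C]
      rw [h2, hK, Finset.mul_sum]
      refine (norm_sum_le _ _).trans (Finset.sum_le_sum fun h _ => ?_)
      rw [norm_mul]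
      exact mul_le_mul_of_nonneg_right (hsh h) (norm_nonneg _)
    -- apply g
    have hmapg : s.map (MulSemiringAction.toRingHom G M g) +
        f.map (MulSemiringAction.toRingHom G M g) * q.map (MulSemiringAction.toRingHom G M g) =
        P - C (g • y) := by
      rw [← Polynomial.map_mul, ← Polynomial.map_add, hdiv]
      ext i
      rw [coeff_map, coeff_sub, coeff_sub, map_sub]
      congr 1
      · exact hP2 g i
      · rw [coeff_C, coeff_C]
        split_ifs
        · rfl
        · exact smul_zero g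
    have hval := congrArg (fun p : M[X] => p.eval π) hmapg
    simp only [eval_add, eval_mul, eval_sub, eval_C] at hval
    have hs1 : ‖(s.map (MulSemiringAction.toRingHom G M g)).eval π‖ ≤ ‖π‖ ^ n * K := by
      have h1 := heval g s (g⁻¹ • π)
      rw [smul_inv_smul] at h1
      rw [h1, D.iso]
      exact hsz
    have hf1 : ‖(f.map (MulSemiringAction.toRingHom G M g)).eval π‖ =
        ∏ h : H, ‖(g * (h : G)) • π - π‖ := by
      rw [hf, Polynomial.map_prod, eval_prod, norm_prod]
      refine Finset.prod_congr rfl fun h _ => ?_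
      rw [norm_sub_rev]
      simp [smul_smul]
    have hq1 : ‖(q.map (MulSemiringAction.toRingHom G M g)).eval π‖ ≤ 1 := by
      have hπS : π ∈ D.fixBall ⊥ := ⟨D.lt_one.le, by
        intro k hk
        rw [Subgroup.mem_bot] at hk
        rw [hk, one_smul]⟩
      have h1 : (q.map (MulSemiringAction.toRingHom G M g)).eval π ∈ D.fixBall ⊥ := by
        rw [eval_eq_sum_range]
        refine (D.fixBall ⊥).sum_mem fun i _ => ?_
        refine (D.fixBall ⊥).mul_mem ?_ ((D.fixBall ⊥).pow_mem hπS i)
        rw [coeff_map]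
        refine ⟨?_, ?_⟩
        · show ‖g • q.coeff i‖ ≤ 1
          rw [D.iso]
          exact (hqcoeff i).1
        · intro k hk
          rw [Subgroup.mem_bot] at hk
          rw [hk, one_smul]
      exact h1.1
    have hR0 : 0 ≤ ∏ h : H, ‖(g * (h : G)) • π - π‖ :=
      Finset.prod_nonneg fun _ _ => norm_nonneg _
    have h3 : ‖P.eval π - g • y‖ ≤ ‖π‖ ^ n * K + ∏ h : H, ‖(g * (h : G)) • π - π‖ := by
      rw [← hval]
      refine (norm_add_le _ _).trans (add_le_add hs1 ?_)
      rw [norm_mul, hf1]
      exact mul_le_of_le_one_right hR0 hq1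
    have h4 : g • y - y = (P.eval π - y) - (P.eval π - g • y) := by ring
    rw [h4]
    refine (norm_sub_le _ _).trans ?_
    have h5 : ‖P.eval π - y‖ ≤ ‖π‖ ^ n := by rw [norm_sub_rev]; exact hP3
    nlinarith [h3, h5]
  have hlim : Filter.Tendsto (fun n : ℕ => (∏ h : H, ‖(g * (h : G)) • π - π‖) +
      ‖π‖ ^ n * (K + 1)) Filter.atTop (nhds ((∏ h : H, ‖(g * (h : G)) • π - π‖) + 0 * (K + 1))) :=
    tendsto_const_nhds.add
      ((tendsto_pow_atTop_nhds_zero_of_lt_one (norm_nonneg _) D.lt_one).mul_const _)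
  rw [zero_mul, add_zero] at hlim
  exact ge_of_tendsto' hlim key

end Pool.Agent.H72.RM
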