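import Pool.Agent.H72.RM.FullW
import Pool.Agent.H72.RM.LocalB
import Pool.Agent.H72.RM.RamDown
import Pool.Agent.H72.RM.RamUp
import Pool.Agent.H72.RM.Comb1
import Pool.Agent.H72.RM.Mono
import Pool.Agent.H72.RM.LocalAbs

/-!
# Module Local: the local lemma

`R = ZMod (p^m)`, `M = Mf p ζ vm`, `G = M ≃ₐ[W] M`, `W = Wnr p C`, `π` from `mf_ram`.
1. For `(h, a)`, `h : Rˣ`, `a : R`, there is a unique `e(h,a) ∈ G` with `e(h,a) ζ = ζ^(h.val)`,
   `e(h,a) vm = ζ^(a.val) vm` (existence: `full_W` and `mf_restrict`; uniqueness: `ζ`, `vm` generate `M`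
   over `W`). Every `g ∈ G` is of this form (`g ζ` is a primitive `p^m`-th root of unity,
   `(g vm)^(p^m) = v`). `e(h,a) e(h',a') = e(h h', a + h a')`.
2. `N(h,a) = ‖e(h,a) • π - π‖`, in `(0, 1]` for `(h,a) ≠ (1,0)` (`ram_eq_zero`, `ram_le_one`). Put
   `ν h a = - E log N(h,a) / log p`, `E = p^(2m-1) (p-1)`. Hypotheses of `comb1`:
   `hconj1`: `e(1,c) e(h,a) e(1,c)⁻¹ = e(h, a + (1-h) c)` and `ram_conj`;
   `hconj2`: `e(k,0) e(h,a) e(k,0)⁻¹ = e(h, k a)`; `hmul`: `ram_mul`; `hinv`: `ram_inv`.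
   `hA`: let `p^s` exactly divide `h - 1`, `s < m`. `ram_down` with `H = {e(1,a)}`, `g = e(h,0)`,
   `B = ‖ζ^(h.val) - ζ‖`: if `x ∈ M`, `‖x‖ ≤ 1`, is fixed by `H` then `x ∈ ℚ_p(tame, ζ)`
   (`mem_adjoin_of_fixed`: an automorphism of `C` fixing `tame` and `ζ` restricts to an element of
   `H`), so `mono` applies. So `∏_a ‖e(h,0) e(1,a) π - π‖ ≤ B`; `e(h,0) e(1,a) = e(h, h a)`, so the
   product is `∏_a N(h,a)`. `B = ‖ζ^(h.val - 1) - 1‖`-type: `ζ^(h.val) / ζ` is a primitive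
   `p^(m-s)`-th root of unity, so `B^(p^(m-s-1)(p-1)) = 1/p` (`norm_zeta_sub_one`) and
   `- log B / log p = 1/(p^(m-s-1)(p-1))`; hence `∑_a ν h a ≥ E/(p^(m-s-1)(p-1)) = p^(m+s)`.
   `hB`: let `p^t` exactly divide `a`, `t < m`. `ram_up` with `H = {e(h,0)}`, `g = e(1,a)`, `y = vm`
   (`‖vm‖ = 1`): `‖ζ^(a.val) vm - vm‖ ≤ ∏_h N(h,a)`, as `e(1,a) e(h,0) = e(h,a)`, and
   `‖ζ^(a.val) - 1‖^(p^(m-t-1)(p-1)) = 1/p`, so `∑_h ν h a ≤ p^(m+t)`.
3. `comb1` for `u = 1 + p^(m-1)`: `ν u 0 ≥ ((p-1) p^(2(m-1)) + 2)/(p+1) ≥ E/(p (p+1))`, i.e.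
   `N(u,0)^(p(p+1)) ≤ 1/p`.
4. `τ` restricts to `e(u,0)` on `M`, so `‖τ x - x‖ ≤ N(u,0)` by `ram_le` (`mf_mem_iff` for `x ∈ M`).
-/

set_option autoImplicit false
set_option linter.unusedSectionVars false

open IntermediateField

namespace Pool.Agent.H72.RM

variable {p : ℕ} [Fact p.Prime] {C : Type} [NormedField C] [NormedAlgebra ℚ_[p] C]
  [IsUltrametricDist C] [IsAlgClosed C] [Algebra.IsAlgebraic ℚ_[p] C] [IsoEnv p C]

/-- divisibility by a power of `p` in `ZMod (p^m)` -/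
private theorem loc_dvd (m t : ℕ) (ht : t ≤ m) (a : ZMod (p ^ m)) :
    (p : ZMod (p ^ m)) ^ t ∣ a ↔ p ^ t ∣ a.val := by
  have : NeZero (p ^ m) := ⟨pow_ne_zero _ (Fact.out : p.Prime).ne_zero⟩
  constructor
  · rintro ⟨b, hb⟩
    have h1 : ((a.val : ℕ) : ZMod (p ^ m)) = ((p ^ t * b.val : ℕ) : ZMod (p ^ m)) := by
      push_cast
      rw [ZMod.natCast_zmod_val, ZMod.natCast_zmod_val, hb]
    rw [ZMod.natCast_eq_natCast_iff] at h1
    have h2 : a.val ≡ p ^ t * b.val [MOD p ^ t] := h1.of_dvd (pow_dvd_pow p ht)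
    have h3 : p ^ t * b.val ≡ 0 [MOD p ^ t] := by
      rw [Nat.modEq_zero_iff_dvd]
      exact dvd_mul_right _ _
    exact (Nat.modEq_zero_iff_dvd).mp (h2.trans h3)
  · rintro ⟨k, hk⟩
    refine ⟨(k : ZMod (p ^ m)), ?_⟩
    have h1 : ((a.val : ℕ) : ZMod (p ^ m)) = ((p ^ t * k : ℕ) : ZMod (p ^ m)) := by rw [hk]
    rw [ZMod.natCast_zmod_val] at h1
    rw [h1]
    push_cast
    rfl

private theorem loc_norm_one (m : ℕ) (ζ : C) (hζ : IsPrimitiveRoot ζ (p ^ m)) : ‖ζ‖ = 1 := by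
  have h1 := congrArg norm hζ.pow_eq_one
  rw [norm_pow, norm_one] at h1
  exact (pow_eq_one_iff_of_nonneg (norm_nonneg ζ)
    (pow_ne_zero _ (Fact.out : p.Prime).ne_zero)).1 h1

/-- the norm of `ζ^a - 1` for `a` of valuation `t` -/
private theorem loc_norm (m t : ℕ) (ht : t < m) (ζ : C) (hζ : IsPrimitiveRoot ζ (p ^ m))
    (a : ZMod (p ^ m)) (h1 : (p : ZMod (p ^ m)) ^ t ∣ a)
    (h2 : ¬ (p : ZMod (p ^ m)) ^ (t + 1) ∣ a) :
    ‖ζ ^ a.val - 1‖ ^ (p ^ (m - t - 1) * (p - 1)) = 1 / (p : ℝ) := by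
  have hpp : p.Prime := Fact.out
  rw [loc_dvd m t ht.le] at h1
  rw [loc_dvd m (t + 1) ht] at h2
  obtain ⟨k, hk⟩ := h1
  have hpk : ¬ p ∣ k := by
    rintro ⟨l, rfl⟩
    apply h2
    rw [hk]
    exact ⟨l, by ring⟩
  have h3 : IsPrimitiveRoot (ζ ^ p ^ t) (p ^ (m - t)) := by
    apply hζ.pow (pow_pos hpp.pos m)
    rw [← pow_add]
    congr 1
    omega
  have h4 : IsPrimitiveRoot ((ζ ^ p ^ t) ^ k) (p ^ (m - t)) := by
    apply h3.pow_of_coprime
    exact (Nat.Coprime.pow_right _ ((Nat.Prime.coprime_iff_not_dvd hpp).mpr hpk).symm)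
  rw [← pow_mul, ← hk] at h4
  exact norm_zeta_sub_one (m - t) (by omega) _ h4

private theorem loc_zmem (ζ vm : C) : ζ ∈ Mf p ζ vm :=
  IntermediateField.subset_adjoin _ _ (by simp)

private theorem loc_vmem (ζ vm : C) : vm ∈ Mf p ζ vm :=
  IntermediateField.subset_adjoin _ _ (by simp)

private theorem loc_unique (ζ vm : C) (g g' : Mf p ζ vm ≃ₐ[Wnr p C] Mf p ζ vm)
    (h1 : g ⟨ζ, loc_zmem ζ vm⟩ = g' ⟨ζ, loc_zmem ζ vm⟩)
    (h2 : g ⟨vm, loc_vmem ζ vm⟩ = g' ⟨vm, loc_vmem ζ vm⟩) : g = g' := by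
  obtain ⟨σ, hσ1, hσ2⟩ := mf_lift ζ vm g
  obtain ⟨σ', hσ'1, hσ'2⟩ := mf_lift ζ vm g'
  apply AlgEquiv.ext
  intro x
  apply Subtype.ext
  rw [← hσ2, ← hσ'2]
  let τ : C →ₐ[ℚ_[p]] C := (σ'.symm : C →ₐ[ℚ_[p]] C).comp (σ : C →ₐ[ℚ_[p]] C)
  have hτ : ∀ y, τ y = σ'.symm (σ y) := fun y => rfl
  have key := fixed_of_mem_adjoin (tame p C ∪ {ζ, vm}) τ (by
    intro y hy
    rw [hτ, AlgEquiv.symm_apply_eq]
    rcases hy with hy | hy
    · rw [hσ1 y hy, hσ'1 y hy]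
    · rcases hy with hy | hy
      · rw [hy]
        have h3 := hσ2 ⟨ζ, loc_zmem ζ vm⟩
        have h4 := hσ'2 ⟨ζ, loc_zmem ζ vm⟩
        rw [h1, ← h4] at h3
        exact h3
      · rw [Set.mem_singleton_iff] at hy
        rw [hy]
        have h3 := hσ2 ⟨vm, loc_vmem ζ vm⟩
        have h4 := hσ'2 ⟨vm, loc_vmem ζ vm⟩
        rw [h2, ← h4] at h3
        exact h3) (x : C) ((mf_mem_iff ζ vm x).1 x.2)
  rw [hτ, AlgEquiv.symm_apply_eq] at key
  exact key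

theorem local_lemma (hp2 : p ≠ 2) (m : ℕ) (hm : 2 ≤ m) (ζ v vm : C)
    (hζ : IsPrimitiveRoot ζ (p ^ m)) (hv : v ∈ Wnr p C) (hv1 : ‖v - 1‖ = 1 / (p : ℝ))
    (hvm : vm ^ (p ^ m) = v) (τ : C ≃ₐ[ℚ_[p]] C) (hτ : ∀ ω ∈ tame p C, τ ω = ω)
    (hτζ : τ ζ = ζ ^ (1 + p ^ (m - 1))) (hτv : τ vm = vm) (x : C)
    (hx : x ∈ IntermediateField.adjoin ℚ_[p] (tame p C ∪ {ζ, vm})) (hx1 : ‖x‖ ≤ 1) :
    ‖τ x - x‖ ^ (p * (p + 1)) ≤ 1 / (p : ℝ) := by
  have hpp : p.Prime := Fact.out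
  have : NeZero (p ^ m) := ⟨pow_ne_zero _ hpp.ne_zero⟩
  have hm0 : m ≠ 0 := by omega
  have hvm' : vm ^ (p ^ m) ∈ Wnr p C := by
    rw [hvm]
    exact hv
  obtain ⟨π, D⟩ := mf_ram m ζ vm hζ hvm'
  set ζM : Mf p ζ vm := ⟨ζ, loc_zmem ζ vm⟩ with hζMdef
  set vM : Mf p ζ vm := ⟨vm, loc_vmem ζ vm⟩ with hvMdef
  have hζM : IsPrimitiveRoot ζM (p ^ m) := by
    apply IsPrimitiveRoot.of_map_of_injective (f := (Mf p ζ vm).val) _ Subtype.val_injective
    exact hζ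
  have hζnorm : ‖ζ‖ = 1 := loc_norm_one m ζ hζ
  have hp1 : (1 : ℝ) < p := by exact_mod_cast hpp.one_lt
  have hv0 : v ≠ 0 := by
    rintro rfl
    rw [zero_sub, norm_neg, norm_one, eq_div_iff (by linarith)] at hv1
    linarith
  have hvm0 : vm ≠ 0 := by
    rintro rfl
    apply hv0
    rw [← hvm, zero_pow (pow_ne_zero _ hpp.ne_zero)]
  have hvM0 : vM ≠ 0 := by
    intro h0
    apply hvm0
    exact congrArg Subtype.val h0
  have hvnorm : ‖v‖ = 1 := by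
    have h1 : ‖v - 1‖ < ‖(1 : C)‖ := by
      rw [hv1, norm_one, div_lt_one (by linarith)]
      exact hp1
    have h2 : v = (v - 1) + 1 := by ring
    rw [h2, IsUltrametricDist.norm_add_eq_max_of_norm_ne_norm h1.ne, max_eq_right h1.le, norm_one]
  have hvmnorm : ‖vm‖ = 1 := by
    have h1 := congrArg norm hvm
    rw [norm_pow, hvnorm] at h1
    exact (pow_eq_one_iff_of_nonneg (norm_nonneg vm) (pow_ne_zero _ hpp.ne_zero)).1 h1
  -- powers of zeta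
  have hpoweq : ∀ i j : ℕ, ((i : ℕ) : ZMod (p ^ m)) = ((j : ℕ) : ZMod (p ^ m)) → ζM ^ i = ζM ^ j := by
    intro i j hij
    rw [ZMod.natCast_eq_natCast_iff] at hij
    exact pow_eq_pow_of_modEq hij hζM.pow_eq_one
  have hpowinj : ∀ i j : ℕ, ζM ^ i = ζM ^ j → ((i : ℕ) : ZMod (p ^ m)) = ((j : ℕ) : ZMod (p ^ m)) := by
    intro i j hij
    have hmod : ∀ i : ℕ, ζM ^ (i % p ^ m) = ζM ^ i := fun i => hpoweq _ _ (ZMod.natCast_mod i _)
    have h1 := hζM.pow_inj (Nat.mod_lt i (pow_pos hpp.pos m)) (Nat.mod_lt j (pow_pos hpp.pos m))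
      (by rw [hmod, hmod, hij])
    rw [← ZMod.natCast_mod i, h1, ZMod.natCast_mod]
  have hex : ∀ (h : (ZMod (p ^ m))ˣ) (a : ZMod (p ^ m)),
      ∃ g : Mf p ζ vm ≃ₐ[Wnr p C] Mf p ζ vm,
        g ζM = ζM ^ (h : ZMod (p ^ m)).val ∧ g vM = ζM ^ a.val * vM := by
    intro h a
    have hc : Nat.Coprime (h : ZMod (p ^ m)).val p :=
      Nat.Coprime.coprime_dvd_right (dvd_pow_self p hm0) (ZMod.val_coe_unit_coprime h)
    obtain ⟨σ, h1, h2, h3⟩ := full_W hp2 m ζ hζ v vm hv hv1 hvm (h : ZMod (p ^ m)).val hc a.val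
    obtain ⟨g, hg⟩ := mf_restrict m ζ vm hζ hvm' σ h1
    refine ⟨g, Subtype.ext ?_, Subtype.ext ?_⟩
    · rw [← hg ζM]
      exact h2
    · rw [← hg vM]
      exact h3
  choose e he1 he2 using hex
  have hact : ∀ (g : Mf p ζ vm ≃ₐ[Wnr p C] Mf p ζ vm) (y : Mf p ζ vm), g • y = g y :=
    fun g y => rfl
  have emul : ∀ (h h' : (ZMod (p ^ m))ˣ) (a a' : ZMod (p ^ m)),
      e h a * e h' a' = e (h * h') (a + (h : ZMod (p ^ m)) * a') := by
    intro h h' a a'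
    apply loc_unique
    · show (e h a * e h' a') ζM = e (h * h') (a + (h : ZMod (p ^ m)) * a') ζM
      rw [AlgEquiv.mul_apply, he1, he1, map_pow, he1, ← pow_mul]
      apply hpoweq
      push_cast
      rw [ZMod.natCast_zmod_val, ZMod.natCast_zmod_val, ZMod.natCast_zmod_val]
    · show (e h a * e h' a') vM = e (h * h') (a + (h : ZMod (p ^ m)) * a') vM
      rw [AlgEquiv.mul_apply, he2, he2, map_mul, map_pow, he1, he2, ← pow_mul, ← mul_assoc,
        ← pow_add]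
      congr 1
      apply hpoweq
      push_cast
      rw [ZMod.natCast_zmod_val, ZMod.natCast_zmod_val, ZMod.natCast_zmod_val,
        ZMod.natCast_zmod_val]
      ring
  have einj' : ∀ (h h' : (ZMod (p ^ m))ˣ) (a a' : ZMod (p ^ m)), e h a = e h' a' →
      h = h' ∧ a = a' := by
    intro h h' a a' heq
    constructor
    · have h1 : e h a ζM = e h' a' ζM := by rw [heq]
      rw [he1, he1] at h1
      have h2 := hpowinj _ _ h1
      rw [ZMod.natCast_zmod_val, ZMod.natCast_zmod_val] at h2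
      exact Units.ext h2
    · have h1 : e h a vM = e h' a' vM := by rw [heq]
      rw [he2, he2] at h1
      have h2 := hpowinj _ _ (mul_right_cancel₀ hvM0 h1)
      rw [ZMod.natCast_zmod_val, ZMod.natCast_zmod_val] at h2
      exact h2
  have e10 : e 1 0 = 1 := by
    have h1 := emul 1 1 0 0
    simp only [mul_zero, add_zero, mul_one] at h1
    exact mul_eq_left.mp h1
  have einj : ∀ (h : (ZMod (p ^ m))ˣ) (a : ZMod (p ^ m)), e h a = 1 → h = 1 ∧ a = 0 := by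
    intro h a h1
    apply einj'
    rw [h1, e10]
  -- the algebraic values
  have hvMpow : ∀ g : Mf p ζ vm ≃ₐ[Wnr p C] Mf p ζ vm, (g vM) ^ (p ^ m) = vM ^ (p ^ m) := by
    intro g
    rw [← map_pow]
    have h1 : vM ^ (p ^ m) = algebraMap (Wnr p C) (Mf p ζ vm) ⟨vm ^ (p ^ m), hvm'⟩ := rfl
    rw [h1, g.commutes]
  -- surjectivity on the first stabiliser
  have hsurj1 : ∀ g : Mf p ζ vm ≃ₐ[Wnr p C] Mf p ζ vm, g ζM = ζM → ∃ a, e 1 a = g := by
    intro g hg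
    have h1 : (g vM / vM) ^ (p ^ m) = 1 := by
      rw [div_pow, hvMpow, div_self (pow_ne_zero _ hvM0)]
    obtain ⟨i, hi, hi2⟩ := hζM.eq_pow_of_pow_eq_one h1
    refine ⟨(i : ZMod (p ^ m)), ?_⟩
    apply loc_unique
    · show e 1 (i : ZMod (p ^ m)) ζM = g ζM
      rw [he1, hg]
      conv_rhs => rw [← pow_one ζM]
      apply hpoweq
      rw [ZMod.natCast_zmod_val, Units.val_one, Nat.cast_one]
    · show e 1 (i : ZMod (p ^ m)) vM = g vM
      rw [he2]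
      have h2 : ζM ^ (i : ZMod (p ^ m)).val = ζM ^ i := by
        apply hpoweq
        rw [ZMod.natCast_zmod_val]
      rw [h2, hi2, div_mul_cancel₀ _ hvM0]
  have hsurj2 : ∀ g : Mf p ζ vm ≃ₐ[Wnr p C] Mf p ζ vm, g vM = vM →
      ∃ h : (ZMod (p ^ m))ˣ, e h 0 = g := by
    intro g hg
    have h1 : IsPrimitiveRoot (g ζM) (p ^ m) := hζM.map_of_injective g.injective
    obtain ⟨i, hi, hic, hi2⟩ := hζM.isPrimitiveRoot_iff.mp h1
    refine ⟨ZMod.unitOfCoprime i hic, ?_⟩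
    apply loc_unique
    · show e (ZMod.unitOfCoprime i hic) 0 ζM = g ζM
      rw [he1, ← hi2]
      apply hpoweq
      rw [ZMod.natCast_zmod_val, ZMod.coe_unitOfCoprime]
    · show e (ZMod.unitOfCoprime i hic) 0 vM = g vM
      rw [he2, hg, ZMod.val_zero, pow_zero, one_mul]
  have hA : ∀ (h : (ZMod (p ^ m))ˣ) (s : ℕ), s < m →
      (p : ZMod (p ^ m)) ^ s ∣ (h : ZMod (p ^ m)) - 1 →
      ¬ (p : ZMod (p ^ m)) ^ (s + 1) ∣ (h : ZMod (p ^ m)) - 1 →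
      (∏ a : ZMod (p ^ m), ‖e h a • π - π‖) ^ (p ^ (m - s - 1) * (p - 1)) ≤ 1 / (p : ℝ) := by
    intro h s hs hd1 hd2
    have hmem : ∀ a, e 1 a ∈ MulAction.stabilizer (Mf p ζ vm ≃ₐ[Wnr p C] Mf p ζ vm) ζM := by
      intro a
      rw [MulAction.mem_stabilizer_iff, hact, he1]
      conv_rhs => rw [← pow_one ζM]
      apply hpoweq
      rw [ZMod.natCast_zmod_val, Units.val_one, Nat.cast_one]
    let φ : ZMod (p ^ m) ≃ MulAction.stabilizer (Mf p ζ vm ≃ₐ[Wnr p C] Mf p ζ vm) ζM :=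
      Equiv.ofBijective (fun a => ⟨e 1 a, hmem a⟩) (by
        constructor
        · intro a b hab
          exact (einj' 1 1 a b (congrArg Subtype.val hab)).2
        · rintro ⟨g, hg⟩
          rw [MulAction.mem_stabilizer_iff, hact] at hg
          obtain ⟨a, ha⟩ := hsurj1 g hg
          exact ⟨a, Subtype.ext ha⟩)
    haveI : Fintype (MulAction.stabilizer (Mf p ζ vm ≃ₐ[Wnr p C] Mf p ζ vm) ζM) :=
      Fintype.ofEquiv _ φ
    set B : ℝ := ‖ζ ^ ((h : ZMod (p ^ m)) - 1).val - 1‖ with hBdef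
    have hzeta : ∀ σ : C ≃ₐ[ℚ_[p]] C, σ ζ = ζ ^ (h : ZMod (p ^ m)).val → ‖σ ζ - ζ‖ = B := by
      intro σ hσ
      have h1 : ζM ^ (h : ZMod (p ^ m)).val = ζM ^ (((h : ZMod (p ^ m)) - 1).val + 1) := by
        apply hpoweq
        push_cast
        rw [ZMod.natCast_zmod_val, ZMod.natCast_zmod_val]
        ring
      have h2 : ζ ^ (h : ZMod (p ^ m)).val = ζ ^ (((h : ZMod (p ^ m)) - 1).val + 1) :=
        congrArg Subtype.val h1
      rw [hσ, h2, pow_succ]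
      have h3 : ζ ^ ((h : ZMod (p ^ m)) - 1).val * ζ - ζ =
          (ζ ^ ((h : ZMod (p ^ m)) - 1).val - 1) * ζ := by ring
      rw [h3, norm_mul, hζnorm, mul_one]
    have hdown := D.ram_down (MulAction.stabilizer (Mf p ζ vm ≃ₐ[Wnr p C] Mf p ζ vm) ζM) (e h 0) B
      (norm_nonneg _) (by
        intro y hy1 hy2
        obtain ⟨σ, hσ1, hσ2⟩ := mf_lift ζ vm (e h 0)
        have hymem : (y : C) ∈ IntermediateField.adjoin ℚ_[p] (tame p C ∪ {ζ}) := by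
          apply mem_adjoin_of_fixed
          intro ρ hρ
          have hρ1 : ∀ ω ∈ tame p C, ρ ω = ω := fun ω hω => hρ ω (Or.inl hω)
          obtain ⟨g, hg⟩ := mf_restrict m ζ vm hζ hvm' ρ hρ1
          have hgζ : g ζM = ζM := by
            apply Subtype.ext
            rw [← hg ζM]
            exact hρ ζ (Or.inr rfl)
          have h5 := hy2 g (by rw [MulAction.mem_stabilizer_iff, hact, hgζ])
          rw [hact] at h5
          rw [hg y, h5]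
        have h6 := mono m (by omega) ζ hζ (y : C) hymem hy1 σ hσ1
        have h7 : σ ζ = ζ ^ (h : ZMod (p ^ m)).val := by
          have h8 := hσ2 ζM
          rw [he1] at h8
          exact h8
        rw [hzeta σ h7] at h6
        have h9 : ‖(e h 0) • y - y‖ = ‖σ (y : C) - (y : C)‖ := by
          rw [hσ2 y]
          rfl
        rw [h9]
        exact h6)
    rw [← Equiv.prod_comp φ] at hdown
    have h10 : ∀ a, ‖(e h 0 * ((φ a : MulAction.stabilizer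
        (Mf p ζ vm ≃ₐ[Wnr p C] Mf p ζ vm) ζM) : Mf p ζ vm ≃ₐ[Wnr p C] Mf p ζ vm)) • π - π‖ =
        ‖e h ((h : ZMod (p ^ m)) * a) • π - π‖ := by
      intro a
      have h11 : ((φ a : MulAction.stabilizer (Mf p ζ vm ≃ₐ[Wnr p C] Mf p ζ vm) ζM) :
          Mf p ζ vm ≃ₐ[Wnr p C] Mf p ζ vm) = e 1 a := rfl
      rw [h11, emul, mul_one, zero_add]
    rw [Finset.prod_congr rfl (fun a _ => h10 a)] at hdown
    have h12 : ∏ a : ZMod (p ^ m), ‖e h ((h : ZMod (p ^ m)) * a) • π - π‖ =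
        ∏ a : ZMod (p ^ m), ‖e h a • π - π‖ :=
      Equiv.prod_comp (Units.mulLeft h) (fun a => ‖e h a • π - π‖)
    rw [h12] at hdown
    refine (pow_le_pow_left₀ (Finset.prod_nonneg fun a _ => norm_nonneg _) hdown _).trans ?_
    rw [hBdef, loc_norm m s hs ζ hζ _ hd1 hd2]
  have hB : ∀ (a : ZMod (p ^ m)) (t : ℕ), t < m → (p : ZMod (p ^ m)) ^ t ∣ a →
      ¬ (p : ZMod (p ^ m)) ^ (t + 1) ∣ a →
      1 / (p : ℝ) ≤ (∏ h : (ZMod (p ^ m))ˣ, ‖e h a • π - π‖) ^ (p ^ (m - t - 1) * (p - 1)) := by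
    intro a t ht hd1 hd2
    have hmem : ∀ h, e h 0 ∈ MulAction.stabilizer (Mf p ζ vm ≃ₐ[Wnr p C] Mf p ζ vm) vM := by
      intro h
      rw [MulAction.mem_stabilizer_iff, hact, he2, ZMod.val_zero, pow_zero, one_mul]
    let φ : (ZMod (p ^ m))ˣ ≃ MulAction.stabilizer (Mf p ζ vm ≃ₐ[Wnr p C] Mf p ζ vm) vM :=
      Equiv.ofBijective (fun h => ⟨e h 0, hmem h⟩) (by
        constructor
        · intro h h' hab
          exact (einj' h h' 0 0 (congrArg Subtype.val hab)).1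
        · rintro ⟨g, hg⟩
          rw [MulAction.mem_stabilizer_iff, hact] at hg
          obtain ⟨h, hh⟩ := hsurj2 g hg
          exact ⟨h, Subtype.ext hh⟩)
    haveI : Fintype (MulAction.stabilizer (Mf p ζ vm ≃ₐ[Wnr p C] Mf p ζ vm) vM) :=
      Fintype.ofEquiv _ φ
    have hup := D.ram_up (MulAction.stabilizer (Mf p ζ vm ≃ₐ[Wnr p C] Mf p ζ vm) vM) (e 1 a) vM
      (by
        show ‖vm‖ ≤ 1
        rw [hvmnorm])
      (by
        intro g hg
        rw [MulAction.mem_stabilizer_iff] at hg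
        exact hg)
    rw [← Equiv.prod_comp φ] at hup
    have h10 : ∀ h, ‖(e 1 a * ((φ h : MulAction.stabilizer
        (Mf p ζ vm ≃ₐ[Wnr p C] Mf p ζ vm) vM) : Mf p ζ vm ≃ₐ[Wnr p C] Mf p ζ vm)) • π - π‖ =
        ‖e h a • π - π‖ := by
      intro h
      have h11 : ((φ h : MulAction.stabilizer (Mf p ζ vm ≃ₐ[Wnr p C] Mf p ζ vm) vM) :
          Mf p ζ vm ≃ₐ[Wnr p C] Mf p ζ vm) = e h 0 := rfl
      rw [h11, emul, one_mul, mul_zero, add_zero]
    rw [Finset.prod_congr rfl (fun h _ => h10 h)] at hup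
    have h13 : ‖(e 1 a) • vM - vM‖ = ‖ζ ^ a.val - 1‖ := by
      rw [hact, he2]
      have h14 : ζM ^ a.val * vM - vM = (ζM ^ a.val - 1) * vM := by ring
      rw [h14]
      show ‖(ζ ^ a.val - 1) * vm‖ = _
      rw [norm_mul, hvmnorm, mul_one]
    rw [h13] at hup
    have h15 := pow_le_pow_left₀ (norm_nonneg _) hup (p ^ (m - t - 1) * (p - 1))
    rw [loc_norm m t ht ζ hζ a hd1 hd2] at h15
    exact h15
  -- the unit u
  have hcop : Nat.Coprime (1 + p ^ (m - 1)) (p ^ m) := by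
    apply Nat.Coprime.pow_right
    rw [Nat.coprime_comm, Nat.Prime.coprime_iff_not_dvd hpp]
    intro hd
    have h1 : p ∣ p ^ (m - 1) := dvd_pow_self p (by omega)
    have h2 : p ∣ 1 := (Nat.dvd_add_left h1).mp hd
    exact hpp.one_lt.ne' (Nat.dvd_one.mp h2)
  have hfin := local_abs p m hp2 hm D e emul einj hA hB
    (ZMod.unitOfCoprime (1 + p ^ (m - 1)) hcop) (by
      rw [ZMod.coe_unitOfCoprime]
      push_cast
      rfl)
  obtain ⟨g, hg⟩ := mf_restrict m ζ vm hζ hvm' τ hτ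
  have hge : g = e (ZMod.unitOfCoprime (1 + p ^ (m - 1)) hcop) 0 := by
    apply loc_unique
    · show g ζM = e (ZMod.unitOfCoprime (1 + p ^ (m - 1)) hcop) 0 ζM
      rw [he1]
      have h1 : g ζM = ζM ^ (1 + p ^ (m - 1)) := by
        apply Subtype.ext
        rw [← hg ζM]
        exact hτζ
      rw [h1]
      apply hpoweq
      rw [ZMod.natCast_zmod_val, ZMod.coe_unitOfCoprime]
    · show g vM = e (ZMod.unitOfCoprime (1 + p ^ (m - 1)) hcop) 0 vM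
      rw [he2, ZMod.val_zero, pow_zero, one_mul]
      apply Subtype.ext
      rw [← hg vM]
      exact hτv
  have hxM : x ∈ Mf p ζ vm := (mf_mem_iff ζ vm x).2 hx
  have hle := D.ram_le g ⟨x, hxM⟩ hx1
  have hnorm : ‖g • (⟨x, hxM⟩ : Mf p ζ vm) - ⟨x, hxM⟩‖ = ‖τ x - x‖ := by
    have h1 := hg ⟨x, hxM⟩
    have h2 : τ x = (g ⟨x, hxM⟩ : C) := h1
    rw [h2]
    rfl
  rw [hnorm, hge] at hle
  exact (pow_le_pow_left₀ (norm_nonneg _) hle _).trans hfin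

end Pool.Agent.H72.RM
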