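import Pool.Agent.H72.RM.StarA

/-!
# Module PRoot: a good `p^k`-th root of `ω v^l t^(p^k)`

Choose `ω' ∈ tame p C` with `ω'^(p^k) = ω` (`tame_root`, module StarA); `β = ω' vk^l t`. It lies in
`ℚ_p(tame, vk)` (`t ∈ Wnr = ℚ_p(tame)`, `IntermediateField.adjoin.mono`), and `τ` fixes `ω'`, `vk` and `t`
(`fixed_of_mem_adjoin`).
-/

set_option autoImplicit false
set_option linter.unusedSectionVars false

open IntermediateField

namespace Pool.Agent.H72.RM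

variable {p : ℕ} [Fact p.Prime] {C : Type} [NormedField C] [NormedAlgebra ℚ_[p] C]
  [IsUltrametricDist C] [IsAlgClosed C] [Algebra.IsAlgebraic ℚ_[p] C] [IsoEnv p C]

theorem p_root (v vk : C) (k : ℕ) (hvk : vk ^ (p ^ k) = v) (x ω t : C) (l : ℤ)
    (hω : ω ∈ tame p C) (ht : t ∈ Wnr p C) (hx : x = ω * v ^ l * t ^ (p ^ k)) :
    ∃ β : C, β ^ (p ^ k) = x ∧ β ∈ IntermediateField.adjoin ℚ_[p] (tame p C ∪ {vk}) ∧
      ∀ τ : C ≃ₐ[ℚ_[p]] C, (∀ ω ∈ tame p C, τ ω = ω) → τ vk = vk → τ β = β := by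
  obtain ⟨ω', hω', hpow⟩ := tame_root ω hω k
  have ht' : t ∈ IntermediateField.adjoin ℚ_[p] (tame p C ∪ {vk}) :=
    IntermediateField.adjoin.mono ℚ_[p] _ _ (Set.subset_union_left) ht
  have hω'' : ω' ∈ IntermediateField.adjoin ℚ_[p] (tame p C ∪ {vk}) :=
    IntermediateField.subset_adjoin _ _ (Or.inl hω')
  have hvk' : vk ∈ IntermediateField.adjoin ℚ_[p] (tame p C ∪ {vk}) :=
    IntermediateField.subset_adjoin _ _ (Or.inr rfl)
  refine ⟨ω' * vk ^ l * t, ?_, mul_mem (mul_mem hω'' (zpow_mem hvk' l)) ht', ?_⟩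
  · rw [mul_pow, mul_pow, hpow, hx, ← zpow_natCast (vk ^ l), ← zpow_mul, mul_comm l, zpow_mul,
      zpow_natCast, hvk]
  · intro τ h1 h2
    have h3 : τ t = t := fixed_of_mem_adjoin (tame p C) (τ : C →ₐ[ℚ_[p]] C) h1 t ht
    rw [map_mul, map_mul, map_zpow₀, h1 ω' hω', h2, h3]

end Pool.Agent.H72.RM
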