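import Pool.Agent.H72.RM.Res

/-!
# Module NrRoot: `N`-th roots, `p ∤ N`, of units of `Wnr` are in `Wnr`

`‖x‖ = 1`, so `‖x - ω‖ < 1` for some `ω ∈ tame` (`res_tame`). By `mem_adjoin_of_fixed` (module Defs,
`S = tame p C`) it suffices that `σ x = x` for all `σ : C ≃ₐ[ℚ_[p]] C` with `σ ω' = ω'` for all
`ω' ∈ tame`. Such `σ` fixes `Wnr` (`fixed_of_mem_adjoin`), so `(σ x)^N = σ y = y = x^N` and
`ξ = σ x / x` satisfies `ξ^N = 1`, `ξ ∈ tame`. `‖σ x - ω‖ = ‖σ (x - ω)‖ < 1`, so `‖σ x - x‖ < 1`,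
`‖ξ - 1‖ < 1` and `ξ = 1` by `tame_dist`.
-/

set_option autoImplicit false
set_option linter.unusedSectionVars false

open IntermediateField

namespace Pool.Agent.H72.RM

variable {p : ℕ} [Fact p.Prime] {C : Type} [NormedField C] [NormedAlgebra ℚ_[p] C]
  [IsUltrametricDist C] [IsAlgClosed C] [Algebra.IsAlgebraic ℚ_[p] C] [IsoEnv p C]

theorem nr_root (y : C) (hy : y ∈ Wnr p C) (hy1 : ‖y‖ = 1) (N : ℕ) (hN : ¬ p ∣ N) (x : C)
    (hx : x ^ N = y) : x ∈ Wnr p C := by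
  have hN0 : N ≠ 0 := by
    rintro rfl
    exact hN (dvd_zero p)
  have hx1 : ‖x‖ = 1 := by
    rw [← hx, norm_pow] at hy1
    exact (pow_eq_one_iff_of_nonneg (norm_nonneg x) hN0).1 hy1
  have hx0 : x ≠ 0 := by
    rintro rfl
    rw [norm_zero] at hx1
    exact zero_ne_one hx1
  obtain ⟨ω, hω, hω1⟩ := res_tame (p := p) x hx1
  apply mem_adjoin_of_fixed
  intro σ hσ
  have h1 : σ y = y := fixed_of_mem_adjoin (tame p C) (σ : C →ₐ[ℚ_[p]] C) hσ y hy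
  have h2 : (σ x) ^ N = x ^ N := by rw [← map_pow, hx, h1]
  have h3 : σ x / x ∈ tame p C := ⟨N, hN, by rw [div_pow, h2, div_self (pow_ne_zero _ hx0)]⟩
  have h4 : ‖σ x - ω‖ < 1 := by
    rw [← hσ ω hω, ← map_sub, IsoEnv.iso (p := p)]
    exact hω1
  have h5 : ‖σ x - x‖ < 1 := by
    have h6 : σ x - x = (σ x - ω) + -(x - ω) := by ring
    rw [h6]
    refine lt_of_le_of_lt (IsUltrametricDist.norm_add_le_max _ _) (max_lt h4 ?_)
    rw [norm_neg]
    exact hω1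
  have h6 : ‖σ x / x - 1‖ < 1 := by
    rw [div_sub_one hx0, norm_div, hx1, div_one]
    exact h5
  have h7 := tame_dist (p := p) _ h3 h6
  rwa [div_eq_one_iff_eq hx0] at h7

end Pool.Agent.H72.RM
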