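import Pool.Agent.H72.RM.PData
import Pool.Agent.H72.RM.NrRoot

/-!
# Module RFa: elementary facts on the radical fields

`rf_stable`, `lf_stable`: automorphisms permute the generators. `rf_finite`: generated by finitely many
integral elements (the set of generators is finite: roots of `X^n - 1`, `X^N - 1`, `X^N - b_i`;
`IntermediateField.finiteDimensional_adjoin`, or adjoin of a finite set of integral elements).
`rf_mono`: if `x^n = 1` then `x^(n') = 1`; if `x^N = b_i`, choose `y` with `y^(N'/N) = x`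
(algebraically closed), `y^(N') = b_i`, `x` is a power of `y`.
`rf_W`: the generators are mapped into `Wnr p C`: roots of unity of order prime to `p` are in `tame`, and
for `x^N = b_i` use `nr_root` (`D.base`, `D.b_unit`). The whole field: `D.base` and
`IntermediateField.adjoin_induction`.
`rf_le_lf`: `N = p^k N₀`, `p ∤ N₀`, Bezout `i p^k + j N₀ = 1`: if `x^N = b_l` then
`x = (x^(p^k))^i (x^(N₀))^j`, `(x^(p^k))^(N₀) = b_l`, `(x^(N₀))^(p^k) = b_l`. The same for `x^N = 1`.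
`lf_le_rf`: generators of `RF n N₀` are in `RF n (p^j N₀)` (`rf_mono`), and so are `x` with
`x^(p^j) = 1` or `b_i`.
-/

set_option autoImplicit false
set_option linter.unusedSectionVars false

open IntermediateField

namespace Pool.Agent.H72.RM

variable {K Ω : Type} [Field K] [Field Ω] [CharZero Ω] [IsAlgClosed Ω] [Algebra K Ω]
  [IsGalois K Ω] {r : ℕ}

omit [CharZero Ω] [IsAlgClosed Ω] [IsGalois K Ω] in
/-- a field generated by a set is stable if the generators are mapped into it -/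
theorem adjoin_stable_aux (S : Set Ω) (σ : Ω ≃ₐ[K] Ω)
    (h : ∀ y ∈ S, σ y ∈ IntermediateField.adjoin K S) (x : Ω)
    (hx : x ∈ IntermediateField.adjoin K S) : σ x ∈ IntermediateField.adjoin K S := by
  induction hx using IntermediateField.adjoin_induction with
  | mem y hy => exact h y hy
  | algebraMap y => rw [AlgEquiv.commutes]; exact IntermediateField.algebraMap_mem _ y
  | add y z _ _ hy hz => rw [map_add]; exact add_mem hy hz
  | inv y _ hy => rw [map_inv₀]; exact inv_mem hy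
  | mul y z _ _ hy hz => rw [map_mul]; exact mul_mem hy hz

theorem rf_stable (b : Fin r → K) (n N : ℕ) (σ : Ω ≃ₐ[K] Ω) (x : Ω) (hx : x ∈ RF Ω b n N) :
    σ x ∈ RF Ω b n N := by
  refine adjoin_stable_aux _ σ (fun y hy => IntermediateField.subset_adjoin K _ ?_) x hx
  rcases hy with h | h | ⟨i, h⟩
  · exact Or.inl (by rw [← map_pow, h, map_one])
  · exact Or.inr (Or.inl (by rw [← map_pow, h, map_one]))
  · exact Or.inr (Or.inr ⟨i, by rw [← map_pow, h, AlgEquiv.commutes]⟩)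

theorem lf_stable (b : Fin r → K) (F : IntermediateField K Ω)
    (hF : ∀ σ : Ω ≃ₐ[K] Ω, ∀ x ∈ F, σ x ∈ F) (N : ℕ) (σ : Ω ≃ₐ[K] Ω) (x : Ω)
    (hx : x ∈ LF b F N) : σ x ∈ LF b F N := by
  refine adjoin_stable_aux _ σ (fun y hy => IntermediateField.subset_adjoin K _ ?_) x hx
  rcases hy with h | h | ⟨i, h⟩
  · exact Or.inl (hF σ y h)
  · exact Or.inr (Or.inl (by rw [← map_pow, h, map_one]))
  · exact Or.inr (Or.inr ⟨i, by rw [← map_pow, h, AlgEquiv.commutes]⟩)

omit [CharZero Ω] [IsAlgClosed Ω] in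
theorem finite_pow_eq_aux (n : ℕ) (hn : 1 ≤ n) (a : Ω) : {x : Ω | x ^ n = a}.Finite := by
  classical
  refine Set.Finite.subset (Polynomial.nthRoots n a).toFinset.finite_toSet fun x hx => ?_
  rw [Finset.mem_coe, Multiset.mem_toFinset, Polynomial.mem_nthRoots (by omega)]
  exact hx

theorem rf_finite (b : Fin r → K) (n N : ℕ) (hn : 1 ≤ n) (hN : 1 ≤ N) :
    FiniteDimensional K (RF Ω b n N) := by
  have h1 : {x : Ω | x ^ n = 1 ∨ x ^ N = 1 ∨ ∃ i, x ^ N = algebraMap K Ω (b i)}.Finite := by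
    have h2 : {x : Ω | x ^ n = 1 ∨ x ^ N = 1 ∨ ∃ i, x ^ N = algebraMap K Ω (b i)} ⊆
        {x : Ω | x ^ n = 1} ∪ ({x : Ω | x ^ N = 1} ∪
          ⋃ i, {x : Ω | x ^ N = algebraMap K Ω (b i)}) := by
      rintro x (h | h | ⟨i, h⟩)
      · exact Or.inl h
      · exact Or.inr (Or.inl h)
      · exact Or.inr (Or.inr (Set.mem_iUnion.2 ⟨i, h⟩))
    exact Set.Finite.subset ((finite_pow_eq_aux n hn 1).union
      ((finite_pow_eq_aux N hN 1).union
        (Set.finite_iUnion fun i => finite_pow_eq_aux N hN _))) h2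
  have := h1.to_subtype
  exact IntermediateField.finiteDimensional_adjoin fun x _ =>
    Algebra.IsIntegral.isIntegral x

theorem rf_mono (b : Fin r → K) (n N n' N' : ℕ) (hn : n ∣ n') (hN : N ∣ N') (hn' : 1 ≤ n')
    (hN' : 1 ≤ N') : RF Ω b n N ≤ RF Ω b n' N' := by
  obtain ⟨c, rfl⟩ := hn
  obtain ⟨e, rfl⟩ := hN
  rw [RF, IntermediateField.adjoin_le_iff]
  rintro x (h | h | ⟨i, h⟩)
  · refine IntermediateField.subset_adjoin K _ (Or.inl ?_)
    rw [pow_mul, h, one_pow]
  · refine IntermediateField.subset_adjoin K _ (Or.inr (Or.inl ?_))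
    rw [pow_mul, h, one_pow]
  · have he : 0 < e := by
      rcases Nat.eq_zero_or_pos e with h0 | h0
      · rw [h0, mul_zero] at hN'; omega
      · exact h0
    obtain ⟨y, hy⟩ := IsAlgClosed.exists_pow_nat_eq x he
    have h1 : y ∈ RF Ω b (n * c) (N * e) := by
      refine IntermediateField.subset_adjoin K _ (Or.inr (Or.inr ⟨i, ?_⟩))
      rw [mul_comm N e, pow_mul, hy, h]
    rw [← hy]
    exact pow_mem h1 e

theorem rf_le_lf (b : Fin r → K) (p k n N₀ : ℕ) (hp : p.Prime) (hN : ¬ p ∣ N₀) :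
    RF Ω b n (p ^ k * N₀) ≤ LF b (RF Ω b n N₀) (p ^ k) := by
  have hcop : Nat.Coprime (p ^ k) N₀ := Nat.Coprime.pow_left k ((Nat.Prime.coprime_iff_not_dvd hp).2 hN)
  have hsub : ∀ y ∈ RF Ω b n N₀, y ∈ LF b (RF Ω b n N₀) (p ^ k) := fun y hy =>
    IntermediateField.subset_adjoin K _ (Or.inl hy)
  -- Bezout
  have key : ∀ x : Ω, x ^ (p ^ k) ∈ RF Ω b n N₀ → x ^ N₀ ∈ LF b (RF Ω b n N₀) (p ^ k) →
      x ∈ LF b (RF Ω b n N₀) (p ^ k) := by
    intro x h1 h2
    by_cases hx0 : x = 0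
    · rw [hx0]; exact zero_mem _
    · have h3 := Nat.gcd_eq_gcd_ab (p ^ k) N₀
      rw [hcop.gcd_eq_one] at h3
      have h4 : x = (x ^ (p ^ k)) ^ (Nat.gcdA (p ^ k) N₀) * (x ^ N₀) ^ (Nat.gcdB (p ^ k) N₀) := by
        rw [← zpow_natCast x (p ^ k), ← zpow_natCast x N₀, ← zpow_mul, ← zpow_mul, ← zpow_add₀ hx0,
          ← h3, Nat.cast_one, zpow_one]
      rw [h4]
      exact mul_mem (zpow_mem (hsub _ h1) _) (zpow_mem h2 _)
  rw [RF, IntermediateField.adjoin_le_iff]
  rintro x (h | h | ⟨i, h⟩)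
  · exact hsub x (IntermediateField.subset_adjoin K _ (Or.inl h))
  · refine key x (IntermediateField.subset_adjoin K _ (Or.inr (Or.inl ?_)))
      (IntermediateField.subset_adjoin K _ (Or.inr (Or.inl ?_)))
    · rw [← pow_mul, h]
    · rw [← pow_mul, mul_comm, h]
  · refine key x (IntermediateField.subset_adjoin K _ (Or.inr (Or.inr ⟨i, ?_⟩)))
      (IntermediateField.subset_adjoin K _ (Or.inr (Or.inr ⟨i, ?_⟩)))
    · rw [← pow_mul, h]
    · rw [← pow_mul, mul_comm, h]

theorem lf_le_rf (b : Fin r → K) (p j n N₀ : ℕ) (hp : p.Prime) (hn : 1 ≤ n) (hN : 1 ≤ N₀) :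
    LF b (RF Ω b n N₀) (p ^ j) ≤ RF Ω b n (p ^ j * N₀) := by
  rw [LF, IntermediateField.adjoin_le_iff]
  rintro x (h | h | ⟨i, h⟩)
  · exact rf_mono b n N₀ n (p ^ j * N₀) (dvd_refl n) (dvd_mul_left _ _) hn
      (Nat.mul_pos (pow_pos hp.pos j) hN) h
  · refine IntermediateField.subset_adjoin K _ (Or.inr (Or.inl ?_))
    rw [pow_mul, h, one_pow]
  · obtain ⟨y, hy⟩ := IsAlgClosed.exists_pow_nat_eq x hN
    have h1 : y ∈ RF Ω b n (p ^ j * N₀) := by
      refine IntermediateField.subset_adjoin K _ (Or.inr (Or.inr ⟨i, ?_⟩))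
      rw [mul_comm, pow_mul, hy, h]
    rw [← hy]
    exact pow_mem h1 N₀

section

variable {p : ℕ} [Fact p.Prime] {C : Type} [NormedField C] [NormedAlgebra ℚ_[p] C]
  [IsUltrametricDist C] [IsAlgClosed C] [Algebra.IsAlgebraic ℚ_[p] C] [IsoEnv p C]
  {b : Fin r → K} {ι : Ω →+* C} {v : C}

theorem rf_W (D : PData K Ω p C b ι v) (n N : ℕ) (hn : ¬ p ∣ n) (hN : ¬ p ∣ N) (x : Ω)
    (hx : x ∈ RF Ω b n N) : ι x ∈ Wnr p C := by
  rw [RF] at hx
  induction hx using IntermediateField.adjoin_induction with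
  | mem y hy =>
    rcases hy with h | h | ⟨i, h⟩
    · exact tame_le_Wnr ⟨n, hn, by rw [← map_pow, h, map_one]⟩
    · exact tame_le_Wnr ⟨N, hN, by rw [← map_pow, h, map_one]⟩
    · exact nr_root _ (D.base (b i)) (D.b_unit i) N hN (ι y) (by rw [← map_pow, h])
  | algebraMap y => exact D.base y
  | add y z _ _ hy hz => rw [map_add]; exact add_mem hy hz
  | inv y _ hy => rw [map_inv₀]; exact inv_mem hy
  | mul y z _ _ hy hz => rw [map_mul]; exact mul_mem hy hz

end

end Pool.Agent.H72.RM
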