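import Pool.Agent.H72.RM.MStep
import Pool.Agent.H72.RM.Local
import Pool.Agent.H72.RM.Conj
import Pool.Agent.H72.RM.Desc
import Pool.Agent.H72.RM.FullG
import Pool.Agent.H72.RM.PRoot
import Pool.Agent.H72.RM.RFa

/-!
# Module PStep: lowering the `p`-level

Constants: `d = finrank ℚ K`; choose `s ≥ 2` with `(s - 2) log p ≥ 2 p^r d log 2` and
`c = log 2 / (2 p^s)`. Suppose `absLogHeight₁ (γ * y) < c`.
1. Let `ζ'` be a primitive `p^(k+1)`-th root of unity of `Ω`, `ζ = ζ'^p`. `vk : C`, `vk^(p^k) = v`.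
   For each `i`, `D.star i k` and `p_root` give `β'_i : C` with `β'_i^(p^k) = ι (b i)`,
   `β'_i ∈ ℚ_p(tame, vk)`, fixed by all `τ` fixing `tame` and `vk`. Let `β i : Ω` with `ι (β i) = β'_i`:
   take any `p^k`-th root `x` of `b i` in `Ω`; `β'_i / ι x` is a `p^k`-th root of unity, so it is
   `ι (ζ^j)`, `β i = ζ^j x`.
   `L := LF b F' (p^k) = adjoin K (F' ∪ ({ζ} ∪ range β))` (both inclusions on generators), and
   `adjoin K (F' ∪ ({ζ^p} ∪ range (β i ^ p))) ≤ LF b F' (p^(k-1))`.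
2. `full_W` (or `cyc`-version) gives `τ : C ≃ₐ[ℚ_[p]] C` fixing `tame`, with
   `τ (ι ζ) = (ι ζ)^(1+p^(k-1))`, `τ vk = vk` (`h = 1 + p^(k-1)`, `a = 0`). `local_lemma` (for `ι ζ`, `v`,
   `vk`) gives `hLL` for `F = L`: `ι(L) ⊂ ℚ_p(tame, ι ζ, vk)`: `ι(F') ⊂ Wnr p C` (`hFW`),
   `ι (β i) ∈ ℚ_p(tame, vk)`, `ι(K) ⊂ Wnr p C`.
3. `full_G` for `F''` (stable, `hF''W`), level `k` (and level `k + 1` with `p`-th roots of the `β i`
   for `θ₀`) gives automorphisms of `Ω` fixing `F''` (hence `F'`):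
   `g0`: `ζ ↦ ζ^(1+p^(k-1))`, `β i ↦ β i`; `z j`: `ζ ↦ ζ^(1+p^(k-1))`,
   `β i ↦ ζ^(p^(k-1) δ_ij) β i`; `ρ c` (`c : Fin r → Fin p`): `ζ ↦ ζ`, `β i ↦ ζ^(c i) β i`;
   `θ₀`: `ζ' ↦ ζ'^(1+p^k)`, `β i ↦ β i`.
4. Let `E = LF b (F'' ⊔ ..) ..`: any finite normal `E ⊂ Ω` over `K` containing `L` and `γ`, e.g. the
   normal closure of `L ⊔ K⟮γ⟯` (`normalClosure K .. Ω`, `IsGalois`), is fine.
   For `θ ∈ {g0, z j}`: `(θ γ)^(p^j) = θ (γ^(p^j)) = γ^(p^j)` as `γ^(p^j) ∈ F''`, so `hη` holds. `conj_good`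
   (with `F = F'`, `y_i = 0` or `δ_ij`, `τ` from 2) gives `hρ` with `J = Fin r → Fin p`
   (`Fintype.card = p^r`). If `(θ y)^(p^s) ≠ y^(p^s)`, `mstep` gives
   `(s-2) log p ≤ p^r d (2 p^s h + log 2)`, so `2 p^s h ≥ log 2`, `h ≥ c`, contradiction.
   So `(g0 y)^(p^s) = y^(p^s)` and `(z j y)^(p^s) = y^(p^s)`.
5. `desc` (with `F = F'`, `θ = θ₀`): `y ∏ (β i)^(n_i) ζ^e ∈ LF b F' (p^(k-1))`. Put
   `γ' = (∏ (β i)^(n_i) ζ^e)⁻¹`, `γ'^(p^k) = ∏ (b i)^(-n_i)`.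
-/

set_option autoImplicit false
set_option linter.unusedSectionVars false

open NumberField IntermediateField

namespace Pool.Agent.H72.RM

variable {p : ℕ} [Fact p.Prime] {C : Type} [NormedField C] [NormedAlgebra ℚ_[p] C]
  [IsUltrametricDist C] [IsAlgClosed C] [Algebra.IsAlgebraic ℚ_[p] C] [IsoEnv p C]
  {K Ω : Type} [Field K] [NumberField K] [Field Ω] [CharZero Ω] [IsAlgClosed Ω] [Algebra K Ω]
  [IsGalois K Ω] {r : ℕ} {b : Fin r → K} {ι : Ω →+* C} {v : C}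

omit [NumberField K] in
/-- good `p^k`-th roots of the `b i` -/
theorem pstep_roots (D : PData K Ω p C b ι v) (k : ℕ) (ζ : Ω) (hζ : IsPrimitiveRoot ζ (p ^ k))
    (vk : C) (hvk : vk ^ (p ^ k) = v) :
    ∃ β : Fin r → Ω, (∀ i, β i ^ (p ^ k) = algebraMap K Ω (b i)) ∧
      (∀ i, ι (β i) ∈ IntermediateField.adjoin ℚ_[p] (tame p C ∪ {vk})) ∧
      ∀ τ : C ≃ₐ[ℚ_[p]] C, (∀ ω ∈ tame p C, τ ω = ω) → τ vk = vk →
        ∀ i, τ (ι (β i)) = ι (β i) := by
  have hpp : p.Prime := Fact.out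
  have hpk : 0 < p ^ k := pow_pos hpp.pos k
  have hNZ : NeZero (p ^ k) := ⟨hpk.ne'⟩
  have hιζ : IsPrimitiveRoot (ι ζ) (p ^ k) := hζ.map_of_injective ι.injective
  have key : ∀ i, ∃ β : Ω, β ^ (p ^ k) = algebraMap K Ω (b i) ∧
      ι β ∈ IntermediateField.adjoin ℚ_[p] (tame p C ∪ {vk}) ∧
      ∀ τ : C ≃ₐ[ℚ_[p]] C, (∀ ω ∈ tame p C, τ ω = ω) → τ vk = vk → τ (ι β) = ι β := by
    intro i
    obtain ⟨ω, hω, l, t, ht, heq⟩ := D.star i k
    obtain ⟨β', h1, h2, h3⟩ := p_root v vk k hvk _ ω t l hω ht heq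
    obtain ⟨x, hx⟩ := IsAlgClosed.exists_pow_nat_eq (algebraMap K Ω (b i)) hpk
    have hx0 : x ≠ 0 := by
      rintro rfl
      rw [zero_pow hpk.ne'] at hx
      exact D.b_ne i ((map_eq_zero (algebraMap K Ω)).1 hx.symm)
    have hιx : ι x ≠ 0 := fun h => hx0 ((map_eq_zero ι).1 h)
    have h4 : (β' / ι x) ^ (p ^ k) = 1 := by
      rw [div_pow, ← map_pow, hx, h1, div_self]
      intro h
      exact D.b_ne i ((map_eq_zero (algebraMap K Ω)).1 ((map_eq_zero ι).1 h))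
    obtain ⟨j, -, hj⟩ := hιζ.eq_pow_of_pow_eq_one h4
    have h5 : ι (ζ ^ j * x) = β' := by
      rw [map_mul, map_pow, hj, div_mul_cancel₀ _ hιx]
    refine ⟨ζ ^ j * x, ?_, ?_, ?_⟩
    · rw [mul_pow, ← pow_mul, mul_comm j, pow_mul, hζ.pow_eq_one, one_pow, one_mul, hx]
    · rw [h5]
      exact h2
    · rw [h5]
      exact h3
  choose β h1 h2 h3 using key
  exact ⟨β, h1, h2, fun τ h4 h5 i => h3 i τ h4 h5⟩

omit [CharZero Ω] [IsAlgClosed Ω] [IsGalois K Ω] [NumberField K] in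
/-- the generators of `LF b F (p^k)` -/
theorem pstep_gen (F : IntermediateField K Ω) (hb : ∀ i, b i ≠ 0) (k : ℕ) (ζ : Ω)
    (hζ : IsPrimitiveRoot ζ (p ^ k)) (β : Fin r → Ω)
    (hβ : ∀ i, β i ^ (p ^ k) = algebraMap K Ω (b i)) :
    LF b F (p ^ k) =
      IntermediateField.adjoin K ((F : Set Ω) ∪ ({ζ} ∪ Set.range β)) := by
  have hpp : p.Prime := Fact.out
  have hNZ : NeZero (p ^ k) := ⟨(pow_pos hpp.pos k).ne'⟩
  have hζL : ζ ∈ IntermediateField.adjoin K ((F : Set Ω) ∪ ({ζ} ∪ Set.range β)) :=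
    IntermediateField.subset_adjoin K _ (Or.inr (Or.inl rfl))
  apply le_antisymm
  · rw [LF, IntermediateField.adjoin_le_iff]
    rintro x (h | h | ⟨i, h⟩)
    · exact IntermediateField.subset_adjoin K _ (Or.inl h)
    · obtain ⟨j, -, rfl⟩ := hζ.eq_pow_of_pow_eq_one h
      exact pow_mem hζL j
    · have hβ0 : β i ≠ 0 := by
        intro h0
        have h1 := hβ i
        rw [h0, zero_pow (pow_pos hpp.pos k).ne'] at h1
        exact hb i ((map_eq_zero (algebraMap K Ω)).1 h1.symm)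
      have h1 : (x / β i) ^ (p ^ k) = 1 := by
        rw [div_pow, h, hβ, div_self]
        intro h0
        exact hb i ((map_eq_zero (algebraMap K Ω)).1 h0)
      obtain ⟨j, -, hj⟩ := hζ.eq_pow_of_pow_eq_one h1
      have h2 : x = ζ ^ j * β i := by
        rw [hj, div_mul_cancel₀ _ hβ0]
      rw [h2]
      exact mul_mem (pow_mem hζL j)
        (IntermediateField.subset_adjoin K _ (Or.inr (Or.inr ⟨i, rfl⟩)))
  · rw [LF, IntermediateField.adjoin_le_iff]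
    rintro x (h | h | ⟨i, rfl⟩)
    · exact IntermediateField.subset_adjoin K _ (Or.inl h)
    · rw [Set.mem_singleton_iff] at h
      rw [h]
      exact IntermediateField.subset_adjoin K _ (Or.inr (Or.inl hζ.pow_eq_one))
    · exact IntermediateField.subset_adjoin K _ (Or.inr (Or.inr ⟨i, hβ i⟩))

omit [CharZero Ω] [IsAlgClosed Ω] [IsGalois K Ω] [NumberField K] in
/-- the elements produced by `desc` are in `LF b F (p^(k-1))` -/
theorem pstep_low (F : IntermediateField K Ω) (k : ℕ) (hk : 1 ≤ k) (ζ : Ω)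
    (hζ : IsPrimitiveRoot ζ (p ^ k)) (β : Fin r → Ω)
    (hβ : ∀ i, β i ^ (p ^ k) = algebraMap K Ω (b i)) :
    IntermediateField.adjoin K ((F : Set Ω) ∪ ({ζ ^ p} ∪ Set.range fun i => β i ^ p)) ≤
      LF b F (p ^ (k - 1)) := by
  have hpk : p * p ^ (k - 1) = p ^ k := by
    rw [← pow_succ']
    congr 1
    omega
  rw [IntermediateField.adjoin_le_iff]
  rintro x (h | h | ⟨i, rfl⟩)
  · exact IntermediateField.subset_adjoin K _ (Or.inl h)
  · rw [Set.mem_singleton_iff] at h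
    rw [h]
    refine IntermediateField.subset_adjoin K _ (Or.inr (Or.inl ?_))
    rw [← pow_mul, hpk]
    exact hζ.pow_eq_one
  · refine IntermediateField.subset_adjoin K _ (Or.inr (Or.inr ⟨i, ?_⟩))
    rw [← pow_mul, hpk]
    exact hβ i

omit [NumberField K] [IsAlgClosed Ω] in
/-- a finite stable field containing a finite field and an element -/
theorem pstep_field (M : IntermediateField K Ω) [FiniteDimensional K M] (γ : Ω) :
    ∃ E : IntermediateField K Ω, FiniteDimensional K E ∧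
      (∀ σ : Ω ≃ₐ[K] Ω, ∀ x ∈ E, σ x ∈ E) ∧ M ≤ E ∧ γ ∈ E := by
  have hint : IsIntegral K γ := Algebra.IsIntegral.isIntegral γ
  have h1 : FiniteDimensional K (IntermediateField.adjoin K {γ}) :=
    IntermediateField.adjoin.finiteDimensional hint
  have h2 : FiniteDimensional K (M ⊔ IntermediateField.adjoin K {γ} : IntermediateField K Ω) :=
    IntermediateField.finiteDimensional_sup _ _
  set M' : IntermediateField K Ω := M ⊔ IntermediateField.adjoin K {γ} with hM'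
  have h3 : M' ≤ normalClosure K M' Ω := M'.le_normalClosure
  refine ⟨normalClosure K M' Ω, inferInstance, ?_, le_trans le_sup_left h3, h3 ?_⟩
  · intro σ x hx
    have h4 : Normal K (normalClosure K M' Ω) := inferInstance
    rw [IntermediateField.normal_iff_forall_map_le'] at h4
    exact h4 σ ⟨x, hx, rfl⟩
  · exact (le_sup_right : _ ≤ M') (IntermediateField.mem_adjoin_simple_self K γ)

omit [NumberField K] [IsAlgClosed Ω] in
theorem pstep_finite (F : IntermediateField K Ω) [FiniteDimensional K F] (ζ : Ω)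
    (β : Fin r → Ω) :
    FiniteDimensional K
      (IntermediateField.adjoin K ((F : Set Ω) ∪ ({ζ} ∪ Set.range β))) := by
  have h1 : FiniteDimensional K (IntermediateField.adjoin K ({ζ} ∪ Set.range β)) := by
    have h2 : ({ζ} ∪ Set.range β : Set Ω).Finite :=
      (Set.finite_singleton ζ).union (Set.finite_range β)
    have := h2.to_subtype
    exact IntermediateField.finiteDimensional_adjoin fun x _ =>
      Algebra.IsIntegral.isIntegral x
  have h3 : IntermediateField.adjoin K ((F : Set Ω) ∪ ({ζ} ∪ Set.range β)) =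
      F ⊔ IntermediateField.adjoin K ({ζ} ∪ Set.range β) := by
    rw [IntermediateField.adjoin_union, IntermediateField.adjoin_self]
  rw [h3]
  exact IntermediateField.finiteDimensional_sup _ _

/-- the local estimate on the field `L` -/
theorem pstep_local (D : PData K Ω p C b ι v) (F : IntermediateField K Ω)
    (hFW : ∀ x ∈ F, ι x ∈ Wnr p C) (k : ℕ) (hk : 2 ≤ k) (ζ : Ω)
    (hζ : IsPrimitiveRoot ζ (p ^ k)) (vk : C) (hvk : vk ^ (p ^ k) = v) (β : Fin r → Ω)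
    (hβ : ∀ i, ι (β i) ∈ IntermediateField.adjoin ℚ_[p] (tame p C ∪ {vk}))
    (τ : C ≃ₐ[ℚ_[p]] C) (hτ : ∀ ω ∈ tame p C, τ ω = ω)
    (hτζ : τ (ι ζ) = (ι ζ) ^ (1 + p ^ (k - 1))) (hτv : τ vk = vk) (x : Ω)
    (hx : x ∈ IntermediateField.adjoin K ((F : Set Ω) ∪ ({ζ} ∪ Set.range β)))
    (hx1 : ‖ι x‖ ≤ 1) : ‖τ (ι x) - ι x‖ ^ (p * (p + 1)) ≤ 1 / (p : ℝ) := by
  have hsub1 : Wnr p C ≤ IntermediateField.adjoin ℚ_[p] (tame p C ∪ {ι ζ, vk}) :=
    IntermediateField.adjoin.mono ℚ_[p] _ _ Set.subset_union_left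
  have hsub2 : IntermediateField.adjoin ℚ_[p] (tame p C ∪ {vk}) ≤
      IntermediateField.adjoin ℚ_[p] (tame p C ∪ {ι ζ, vk}) := by
    refine IntermediateField.adjoin.mono ℚ_[p] _ _ ?_
    rintro z (h | h)
    · exact Or.inl h
    · exact Or.inr (Or.inr h)
  refine local_lemma D.p_odd k hk (ι ζ) v vk (hζ.map_of_injective ι.injective) D.v_mem D.v_norm
    hvk τ hτ hτζ hτv (ι x) ?_ hx1
  clear hx1
  induction hx using IntermediateField.adjoin_induction with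
  | mem z hz =>
    rcases hz with h | h | ⟨i, rfl⟩
    · exact hsub1 (hFW z h)
    · rw [Set.mem_singleton_iff] at h
      rw [h]
      exact IntermediateField.subset_adjoin _ _ (Or.inr (Or.inl rfl))
    · exact hsub2 (hβ i)
  | algebraMap z => exact hsub1 (D.base z)
  | add z w _ _ hz hw => rw [map_add]; exact add_mem hz hw
  | inv z _ hz => rw [map_inv₀]; exact inv_mem hz
  | mul z w _ _ hz hw => rw [map_mul]; exact mul_mem hz hw

theorem pstep (D : PData K Ω p C b ι v) :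
    ∃ c : ℝ, 0 < c ∧ ∀ (F' F'' : IntermediateField K Ω), F' ≤ F'' →
      FiniteDimensional K F'' → (∀ σ : Ω ≃ₐ[K] Ω, ∀ x ∈ F', σ x ∈ F') →
      (∀ σ : Ω ≃ₐ[K] Ω, ∀ x ∈ F'', σ x ∈ F'') → (∀ x ∈ F'', ι x ∈ Wnr p C) →
      ∀ (k : ℕ), 2 ≤ k → ∀ (γ y : Ω), γ ≠ 0 → y ≠ 0 → (∃ j : ℕ, γ ^ (p ^ j) ∈ F'') →
      (∀ σ : Ω ≃ₐ[K] Ω, ‖ι (σ γ)‖ = 1) → y ∈ LF b F' (p ^ k) →
      c ≤ absLogHeight₁ (γ * y) ∨
      ∃ γ' : Ω, γ' ≠ 0 ∧ (∃ m : Fin r → ℤ, γ' ^ (p ^ k) = ∏ i, (algebraMap K Ω (b i)) ^ (m i)) ∧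
        y / γ' ∈ LF b F' (p ^ (k - 1)) := by
  classical
  have hpp : p.Prime := Fact.out
  have hp1 : (1 : ℝ) < p := by exact_mod_cast hpp.one_lt
  have hlogp : 0 < Real.log p := Real.log_pos hp1
  have hlog2 : 0 < Real.log 2 := Real.log_pos one_lt_two
  have hd : 0 < Module.finrank ℚ K := Module.finrank_pos
  set A : ℝ := (p : ℝ) ^ r * (Module.finrank ℚ K : ℝ) with hA
  have hA0 : 0 < A := by positivity
  obtain ⟨s, hs, hsA⟩ : ∃ s : ℕ, 2 ≤ s ∧ A * (2 * Real.log 2) ≤ ((s : ℝ) - 2) * Real.log p := by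
    refine ⟨⌈A * (2 * Real.log 2) / Real.log p⌉₊ + 2, by omega, ?_⟩
    push_cast
    rw [add_sub_cancel_right, ← div_le_iff₀ hlogp]
    exact Nat.le_ceil _
  have hps : (0 : ℝ) < (p : ℝ) ^ s := by positivity
  refine ⟨Real.log 2 / (2 * (p : ℝ) ^ s), by positivity, ?_⟩
  intro F' F'' hFF hfin hF' hF'' hF''W k hk γ y hγ0 hy0 hj hγ1 hy
  by_cases hh : Real.log 2 / (2 * (p : ℝ) ^ s) ≤ absLogHeight₁ (γ * y)
  · exact Or.inl hh
  right
  rw [not_le, lt_div_iff₀ (by positivity)] at hh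
  -- roots of unity and good roots
  have hNZ1 : NeZero (p ^ (k + 1)) := ⟨(pow_pos hpp.pos _).ne'⟩
  obtain ⟨ζ', hζ'⟩ := HasEnoughRootsOfUnity.exists_primitiveRoot Ω (p ^ (k + 1))
  obtain ⟨ζ, hζζ⟩ : ∃ ζ, ζ' ^ p = ζ := ⟨_, rfl⟩
  have hζ : IsPrimitiveRoot ζ (p ^ k) := by
    rw [← hζζ]
    exact hζ'.pow (pow_pos hpp.pos _) (by rw [pow_succ'])
  obtain ⟨vk, hvk⟩ := IsAlgClosed.exists_pow_nat_eq v (pow_pos hpp.pos k)
  obtain ⟨β, hβ, hβ2, hβ3⟩ := pstep_roots D k ζ hζ vk hvk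
  have hβ0 : ∀ i, β i ≠ 0 := by
    intro i h0
    have h1 := hβ i
    rw [h0, zero_pow (pow_pos hpp.pos k).ne'] at h1
    exact D.b_ne i ((map_eq_zero (algebraMap K Ω)).1 h1.symm)
  have hLF := pstep_gen (p := p) F' D.b_ne k ζ hζ β hβ
  have hcop : ∀ j : ℕ, 1 ≤ j → Nat.Coprime (1 + p ^ j) p := by
    intro j hj
    rw [Nat.coprime_comm, hpp.coprime_iff_not_dvd]
    intro h
    have h1 : p ∣ 1 := (Nat.dvd_add_iff_left (dvd_pow_self p (by omega : j ≠ 0))).2 h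
    exact hpp.one_lt.ne' (Nat.dvd_one.1 h1)
  -- the local automorphism
  obtain ⟨τ, hτ, hτζ, hτv⟩ := full_W D.p_odd k (ι ζ) (hζ.map_of_injective ι.injective) v vk
    D.v_mem D.v_norm hvk (1 + p ^ (k - 1)) (hcop _ (by omega)) 0
  rw [pow_zero, one_mul] at hτv
  have hτW : ∀ x ∈ Wnr p C, τ x = x := fun x hx =>
    fixed_of_mem_adjoin (tame p C) (τ : C →ₐ[ℚ_[p]] C) (fun y hy => hτ y hy) x hx
  have hF'W : ∀ x ∈ F', ι x ∈ Wnr p C := fun x hx => hF''W x (hFF hx)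
  have hLL : ∀ x ∈ LF b F' (p ^ k), ‖ι x‖ ≤ 1 → ‖τ (ι x) - ι x‖ ^ (p * (p + 1)) ≤ 1 / (p : ℝ) := by
    intro x hx hx1
    rw [hLF] at hx
    exact pstep_local D F' hF'W k hk ζ hζ vk hvk β hβ2 τ hτ hτζ hτv x hx hx1
  -- the global automorphisms
  obtain ⟨g0, hgF, hgζ, hgβ⟩ := full_G D F'' hF'' hF''W k ζ hζ β hβ (1 + p ^ (k - 1))
    (hcop _ (by omega)) (fun _ => 0)
  have hz := fun j : Fin r => full_G D F'' hF'' hF''W k ζ hζ β hβ (1 + p ^ (k - 1))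
    (hcop _ (by omega)) (fun i => if i = j then p ^ (k - 1) else 0)
  choose z hzF hzζ hzβ using hz
  have hρ := fun c : Fin r → Fin p => full_G D F'' hF'' hF''W k ζ hζ β hβ 1
    (Nat.coprime_one_left p) (fun i => ((c i : Fin p) : ℕ))
  choose ρ hρF hρζ hρβ using hρ
  have hβ' : ∀ i, ∃ β' : Ω, β' ^ p = β i := fun i => IsAlgClosed.exists_pow_nat_eq _ hpp.pos
  choose β' hβ' using hβ'
  obtain ⟨θ, hθF, hθζ, hθβ'⟩ := full_G D F'' hF'' hF''W (k + 1) ζ' hζ' β'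
    (fun i => by rw [pow_succ', pow_mul, hβ', hβ]) (1 + p ^ k) (hcop _ (by omega)) (fun _ => 0)
  have hθβ : ∀ i, θ (β i) = β i := by
    intro i
    rw [← hβ' i, map_pow, hθβ', pow_zero, one_mul]
  have hgβ1 : ∀ i, g0 (β i) = β i := by
    intro i
    rw [hgβ, pow_zero, one_mul]
  have hzβ1 : ∀ j i, z j (β i) = (if i = j then ζ ^ (p ^ (k - 1)) else 1) * β i := by
    intro j i
    rw [hzβ]
    split_ifs
    · rfl
    · rw [pow_zero]
  -- the finite field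
  have hfin' : FiniteDimensional K F' :=
    FiniteDimensional.of_injective (IntermediateField.inclusion hFF).toLinearMap
      (IntermediateField.inclusion hFF).injective
  have hLfin : FiniteDimensional K (LF b F' (p ^ k)) := by
    rw [hLF]
    exact pstep_finite F' ζ β
  obtain ⟨E, hEfin, hE, hLE, hγE⟩ := pstep_field (LF b F' (p ^ k)) γ
  -- the metric step
  have main : ∀ (θ₁ : Ω ≃ₐ[K] Ω) (w : Fin r → ℕ), (∀ x ∈ F'', θ₁ x = x) →
      θ₁ ζ = ζ ^ (1 + p ^ (k - 1)) → (∀ i, θ₁ (β i) = ζ ^ (p ^ (k - 1) * w i) * β i) →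
      (θ₁ y) ^ (p ^ s) = y ^ (p ^ s) := by
    intro θ₁ w h1 h2 h3
    by_contra hne
    have hρ' : ∀ σ : Ω ≃ₐ[K] Ω, ∃ c : Fin r → Fin p, ∀ x ∈ LF b F' (p ^ k),
        ι ((ρ c * σ) (θ₁ ((ρ c * σ).symm x))) = τ (ι x) := by
      intro σ
      have h4 := conj_good p F' hF' k hk ζ hζ b D.b_ne β hβ θ₁ (fun x hx => h1 x (hFF hx)) h2 w h3
        ι (τ : C →+* C) (fun x hx => hτW _ (hF'W x hx)) hτζ (fun i => hβ3 τ hτ hτv i) ρ
        (fun c x hx => hρF c x (hFF hx)) (fun c => by rw [hρζ, pow_one]) hρβ σ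
      rw [← hLF] at h4
      exact h4
    have h5 := mstep D.p_odd ι E (LF b F' (p ^ k)) hE (lf_stable b F' hF' (p ^ k)) hLE θ₁ τ hLL
      (Fin r → Fin p) ρ hρ' γ y hγE hy hγ0 hy0 hγ1
      (by
        obtain ⟨j, hj⟩ := hj
        exact ⟨p ^ j, pow_pos hpp.pos j, by rw [← map_pow, h1 _ hj]⟩) s hs hne
    have h6 : (Fintype.card (Fin r → Fin p) : ℝ) = (p : ℝ) ^ r := by
      rw [Fintype.card_fun, Fintype.card_fin, Fintype.card_fin]
      push_cast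
      rfl
    rw [h6, ← hA] at h5
    have h7 : A * (2 * (p : ℝ) ^ s * absLogHeight₁ (γ * y) + Real.log 2) <
        A * (2 * Real.log 2) := by
      apply mul_lt_mul_of_pos_left _ hA0
      have h8 : absLogHeight₁ (γ * y) * (2 * (p : ℝ) ^ s) =
        2 * (p : ℝ) ^ s * absLogHeight₁ (γ * y) := by ring
      rw [h8] at hh
      linarith
    linarith
  have hg' : (g0 y) ^ (p ^ s) = y ^ (p ^ s) :=
    main g0 (fun _ => 0) hgF hgζ (fun i => by rw [hgβ1, mul_zero, pow_zero, one_mul])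
  have hz' : ∀ j, (z j y) ^ (p ^ s) = y ^ (p ^ s) := by
    intro j
    refine main (z j) (fun i => if i = j then 1 else 0) (hzF j) (hzζ j) (fun i => ?_)
    rw [hzβ1]
    split_ifs
    · rw [mul_one]
    · rw [mul_zero, pow_zero]
  -- descent
  rw [hLF] at hy
  obtain ⟨n, e, hne⟩ := desc p D.p_odd F' k hk ζ ζ' hζ hζ' hζζ β hβ0 g0
    (fun x hx => hgF x (hFF hx)) hgζ hgβ1 z (fun j x hx => hzF j x (hFF hx)) hzζ hzβ1 θ
    (fun x hx => hθF x (hFF hx)) hθζ hθβ y hy hy0 s hg' hz'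
  have hζ0 : ζ ≠ 0 := hζ.ne_zero (pow_pos hpp.pos k).ne'
  have hprod0 : (∏ i, (β i) ^ (n i)) * ζ ^ e ≠ 0 :=
    mul_ne_zero (Finset.prod_ne_zero_iff.2 fun i _ => zpow_ne_zero _ (hβ0 i))
      (zpow_ne_zero _ hζ0)
  refine ⟨((∏ i, (β i) ^ (n i)) * ζ ^ e)⁻¹, inv_ne_zero hprod0, ⟨fun i => - n i, ?_⟩, ?_⟩
  · have h1 : (ζ ^ e) ^ (p ^ k) = 1 := by
      rw [← zpow_natCast, ← zpow_mul, mul_comm, zpow_mul, zpow_natCast, hζ.pow_eq_one, one_zpow]
    rw [inv_pow, mul_pow, h1, mul_one, ← Finset.prod_pow, ← Finset.prod_inv_distrib]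
    refine Finset.prod_congr rfl fun i _ => ?_
    rw [← zpow_natCast (β i ^ n i), ← zpow_mul, mul_comm, zpow_mul, zpow_natCast, hβ, zpow_neg]
  · rw [div_inv_eq_mul, ← mul_assoc]
    exact pstep_low (b := b) F' k (by omega) ζ hζ β hβ hne

end Pool.Agent.H72.RM
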