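import Pool.Agent.H72.RM.RFa

/-!
# Module Gam: elementary facts on the group `GammaS`

`gam_mul`, `gam_inv`: take common multiples of the exponents (`N N'`, raise the equations to the powers
`N'`, `N`). `gam_ne_zero`: the right side is nonzero, `b i ≠ 0`. `gam_map`: apply `σ`. `gam_div`: raise the
equation to the order of `t`. `div_gam`-type facts: `gam_of_pow`: if `x^N = ∏ b^m` with `N` composed of
primes of `S` then `x ∈ GammaS` (`t = 1`).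
`gam_norm`: apply `ι` and the norm to `x^N t = ∏ b_i^(m_i)`; `‖ι t‖ = 1`, `‖ι (b i)‖ = 1`.
`gam_root` (`p` prime): write `γ^(N₁) t = ∏ b_i^(m_i)`, `N₁ = p^j N₂`, `t^M = 1`, `M = p^(j') M₂`,
`p ∤ N₂ M₂`. `g = γ^(p^(j+j'))` satisfies `g^(N₂) t' = ∏ b_i^(p^(j') m_i)`, `t' = t^(p^(j'))`,
`t'^(M₂) = 1`. Choose `x_i` with `x_i^(N₂) = b_i`; `g / ∏ x_i^(p^(j') m_i)` is an `N₂ M₂`-th root of
unity. So `g ∈ RF b (N₂ M₂) N₂ ≤ RF b (N₂ M₂ n) (N₂ N₀)` (`rf_mono`).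
`gam_cover`: `γ^(N₁) t = ∏ b_i^(m_i)`, `N₁` an `S`-number, `t^M = 1`; write `M = M₁ n₀` with `M₁` an
`S`-number and `n₀` prime to all `q ∈ S`. With `x_i^(N₁) = b_i`, `γ / ∏ x_i^(m_i)` is an
`N₁ M₁ n₀`-th root of unity, hence a product of an `N₁ M₁`-th root of unity and an `n₀`-th root of unity
(coprime exponents, Bezout). So `γ ∈ RF b n₀ (N₁ M₁)` (`x_i ∈ RF b n₀ (N₁ M₁)` by `rf_mono`).
(Here `S` is a finite or infinite set of primes; `M₁ = ∏_{q ∈ S} q^(v_q(M))`, e.g. the product over the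
prime factors of `M` in `S`, `Nat.factorization`.)
-/

set_option autoImplicit false
set_option linter.unusedSectionVars false

open IntermediateField

namespace Pool.Agent.H72.RM

variable {K Ω : Type} [Field K] [Field Ω] [CharZero Ω] [IsAlgClosed Ω] [Algebra K Ω]
  [IsGalois K Ω] {r : ℕ} {b : Fin r → K} {S : Set ℕ}

private theorem gam_zero_exp {B : Fin r → Ω} {m : Fin r → ℤ} (h : ∏ i, (B i) ^ (m i) ≠ 0)
    (i : Fin r) (hi : B i = 0) : m i = 0 := by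
  by_contra hm
  apply h
  refine Finset.prod_eq_zero (Finset.mem_univ i) ?_
  rw [hi, zero_zpow _ hm]

private theorem gam_prod_pow (B : Fin r → Ω) (m : Fin r → ℤ) (N : ℕ) :
    (∏ i, (B i) ^ (m i)) ^ N = ∏ i, (B i) ^ (m i * N) := by
  rw [← Finset.prod_pow]
  refine Finset.prod_congr rfl (fun i _ => ?_)
  rw [zpow_mul, zpow_natCast]

private theorem gam_prod_add (B : Fin r → Ω) (m m' : Fin r → ℤ) (N N' : ℕ)
    (h : ∏ i, (B i) ^ (m i) ≠ 0) (h' : ∏ i, (B i) ^ (m' i) ≠ 0) :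
    (∏ i, (B i) ^ (m i)) ^ N' * (∏ i, (B i) ^ (m' i)) ^ N =
      ∏ i, (B i) ^ (m i * N' + m' i * N) := by
  rw [gam_prod_pow, gam_prod_pow, ← Finset.prod_mul_distrib]
  refine Finset.prod_congr rfl (fun i _ => ?_)
  by_cases hi : B i = 0
  · rw [gam_zero_exp h i hi, gam_zero_exp h' i hi, hi]
    simp
  · rw [zpow_add₀ hi]

theorem gam_mul {x y : Ω} (hx : x ∈ GammaS Ω b S) (hy : y ∈ GammaS Ω b S) :
    x * y ∈ GammaS Ω b S := by
  by_cases hx0 : x = 0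
  · rw [hx0, zero_mul, ← hx0]
    exact hx
  by_cases hy0 : y = 0
  · rw [hy0, mul_zero, ← hy0]
    exact hy
  obtain ⟨N, hN, hNS, t, ⟨n, hn, htn⟩, m, hm⟩ := hx
  obtain ⟨N', hN', hNS', t', ⟨n', hn', htn'⟩, m', hm'⟩ := hy
  have ht0 : t ≠ 0 := by
    rintro rfl
    rw [zero_pow (by omega)] at htn
    exact zero_ne_one htn
  have ht0' : t' ≠ 0 := by
    rintro rfl
    rw [zero_pow (by omega)] at htn'
    exact zero_ne_one htn'
  have hp : ∏ i, (algebraMap K Ω (b i)) ^ (m i) ≠ 0 := by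
    rw [← hm]
    exact mul_ne_zero (pow_ne_zero _ hx0) ht0
  have hp' : ∏ i, (algebraMap K Ω (b i)) ^ (m' i) ≠ 0 := by
    rw [← hm']
    exact mul_ne_zero (pow_ne_zero _ hy0) ht0'
  refine ⟨N * N', Nat.mul_pos hN hN', ?_, t ^ N' * t' ^ N, ⟨n * n', Nat.mul_pos hn hn', ?_⟩,
    fun i => m i * N' + m' i * N, ?_⟩
  · intro q hq hqd
    rcases (hq.dvd_mul).1 hqd with h | h
    · exact hNS q hq h
    · exact hNS' q hq h
  · have e1 : (t ^ N' * t' ^ N) ^ (n * n') = (t ^ n) ^ (N' * n') * (t' ^ n') ^ (N * n) := by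
      rw [mul_pow, ← pow_mul, ← pow_mul, ← pow_mul, ← pow_mul]
      congr 2 <;> ring
    rw [e1, htn, htn', one_pow, one_pow, mul_one]
  · rw [← gam_prod_add _ m m' N N' hp hp', ← hm, ← hm']
    rw [mul_pow, mul_pow, mul_pow, ← pow_mul, ← pow_mul, mul_comm N' N]
    ring

theorem gam_ne_zero (hb : ∀ i, b i ≠ 0) {x : Ω} (hx : x ∈ GammaS Ω b S) : x ≠ 0 := by
  obtain ⟨N, hN, _, t, _, m, hm⟩ := hx
  rintro rfl
  rw [zero_pow (by omega), zero_mul] at hm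
  have h1 : ∏ i, (algebraMap K Ω (b i)) ^ (m i) ≠ 0 := by
    rw [Finset.prod_ne_zero_iff]
    intro i _
    exact zpow_ne_zero _ (by
      rw [Ne, map_eq_zero]
      exact hb i)
  exact h1 hm.symm

theorem gam_inv {x : Ω} (hx : x ∈ GammaS Ω b S) : x⁻¹ ∈ GammaS Ω b S := by
  obtain ⟨N, hN, hNS, t, ⟨n, hn, htn⟩, m, hm⟩ := hx
  refine ⟨N, hN, hNS, t⁻¹, ⟨n, hn, by rw [inv_pow, htn, inv_one]⟩, fun i => -m i, ?_⟩
  rw [inv_pow, ← mul_inv, hm, ← Finset.prod_inv_distrib]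
  refine Finset.prod_congr rfl (fun i _ => ?_)
  rw [zpow_neg]

theorem gam_map {x : Ω} (hx : x ∈ GammaS Ω b S) (σ : Ω ≃ₐ[K] Ω) : σ x ∈ GammaS Ω b S := by
  obtain ⟨N, hN, hNS, t, ⟨n, hn, htn⟩, m, hm⟩ := hx
  refine ⟨N, hN, hNS, σ t, ⟨n, hn, by rw [← map_pow, htn, map_one]⟩, m, ?_⟩
  rw [← map_pow, ← map_mul, hm, map_prod]
  refine Finset.prod_congr rfl (fun i _ => ?_)
  rw [map_zpow₀, AlgEquiv.commutes]

theorem gam_div {x : Ω} (hx : x ∈ GammaS Ω b S) : x ∈ DivG Ω b := by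
  obtain ⟨N, hN, hNS, t, ⟨n, hn, htn⟩, m, hm⟩ := hx
  refine ⟨N * n, Nat.mul_pos hN hn, fun i => m i * n, ?_⟩
  rw [← gam_prod_pow, ← hm, mul_pow, htn, mul_one, pow_mul]

theorem div_mul {x y : Ω} (hx : x ∈ DivG Ω b) (hy : y ∈ DivG Ω b) : x * y ∈ DivG Ω b := by
  by_cases hx0 : x = 0
  · rw [hx0, zero_mul, ← hx0]
    exact hx
  by_cases hy0 : y = 0
  · rw [hy0, mul_zero, ← hy0]
    exact hy
  obtain ⟨N, hN, m, hm⟩ := hx
  obtain ⟨N', hN', m', hm'⟩ := hy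
  have hp : ∏ i, (algebraMap K Ω (b i)) ^ (m i) ≠ 0 := by
    rw [← hm]
    exact pow_ne_zero _ hx0
  have hp' : ∏ i, (algebraMap K Ω (b i)) ^ (m' i) ≠ 0 := by
    rw [← hm']
    exact pow_ne_zero _ hy0
  refine ⟨N * N', Nat.mul_pos hN hN', fun i => m i * N' + m' i * N, ?_⟩
  rw [← gam_prod_add _ m m' N N' hp hp', ← hm, ← hm', mul_pow, ← pow_mul, ← pow_mul,
    mul_comm N' N]

theorem gam_of_pow {x : Ω} (N : ℕ) (hN : 1 ≤ N) (hNS : ∀ q : ℕ, q.Prime → q ∣ N → q ∈ S)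
    (m : Fin r → ℤ) (h : x ^ N = ∏ i, (algebraMap K Ω (b i)) ^ (m i)) : x ∈ GammaS Ω b S := by
  exact ⟨N, hN, hNS, 1, ⟨1, le_rfl, one_pow 1⟩, m, by rw [mul_one, h]⟩

theorem gam_root (hb : ∀ i, b i ≠ 0) (p : ℕ) (hp : p.Prime) (γ : Ω) (hγ : γ ∈ GammaS Ω b S)
    (n N₀ : ℕ) (hn1 : 1 ≤ n) (hN1 : 1 ≤ N₀) (hn : ¬ p ∣ n) (hN : ¬ p ∣ N₀) :
    ∃ (j n' N' : ℕ), ¬ p ∣ n' ∧ ¬ p ∣ N' ∧ 1 ≤ n' ∧ 1 ≤ N' ∧ n ∣ n' ∧ N₀ ∣ N' ∧
      γ ^ (p ^ j) ∈ RF Ω b n' N' := by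
  obtain ⟨N₁, hN₁, _, t, ⟨M, hM, htM⟩, m, hm⟩ := hγ
  obtain ⟨j, N₂, hN₂, hN₁e⟩ := Nat.exists_eq_pow_mul_and_not_dvd (n := N₁) (by omega) p hp.ne_one
  obtain ⟨j', M₂, hM₂, hMe⟩ := Nat.exists_eq_pow_mul_and_not_dvd (n := M) (by omega) p hp.ne_one
  have hN₂0 : 1 ≤ N₂ := Nat.one_le_iff_ne_zero.2 (by rintro rfl; exact hN₂ (dvd_zero p))
  have hM₂0 : 1 ≤ M₂ := Nat.one_le_iff_ne_zero.2 (by rintro rfl; exact hM₂ (dvd_zero p))
  have ht0 : t ≠ 0 := by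
    rintro rfl
    rw [zero_pow (by omega)] at htM
    exact zero_ne_one htM
  have hB : ∀ i, algebraMap K Ω (b i) ≠ 0 := fun i => by
    rw [Ne, map_eq_zero]
    exact hb i
  choose x hx using fun i => IsAlgClosed.exists_pow_nat_eq (algebraMap K Ω (b i))
    (show 0 < N₂ by omega)
  have hx0 : ∀ i, x i ≠ 0 := by
    intro i h0
    have := hx i
    rw [h0, zero_pow (by omega)] at this
    exact hB i this.symm
  set h : Ω := ∏ i, (x i) ^ (m i * ((p ^ j' : ℕ) : ℤ)) with hh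
  have hh0 : h ≠ 0 := by
    rw [hh, Finset.prod_ne_zero_iff]
    exact fun i _ => zpow_ne_zero _ (hx0 i)
  have hhN : h ^ N₂ = (∏ i, (algebraMap K Ω (b i)) ^ (m i)) ^ (p ^ j') := by
    rw [hh, gam_prod_pow, gam_prod_pow]
    refine Finset.prod_congr rfl (fun i _ => ?_)
    rw [← hx i, ← zpow_natCast (x i) N₂, ← zpow_mul]
    congr 1
    ring
  have hg : (γ ^ (p ^ (j + j'))) ^ N₂ * t ^ (p ^ j') = h ^ N₂ := by
    rw [hhN, ← hm, mul_pow, ← pow_mul, ← pow_mul, hN₁e]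
    congr 2
    rw [pow_add]
    ring
  have hz : (γ ^ (p ^ (j + j')) / h) ^ (N₂ * M₂) = 1 := by
    rw [pow_mul, div_pow]
    have e1 : (γ ^ (p ^ (j + j'))) ^ N₂ = h ^ N₂ * (t ^ (p ^ j'))⁻¹ := by
      rw [← hg, mul_assoc, mul_inv_cancel₀ (pow_ne_zero _ ht0), mul_one]
    rw [e1, mul_div_cancel_left₀ _ (pow_ne_zero _ hh0), inv_pow, ← pow_mul, ← hMe, htM, inv_one]
  refine ⟨j + j', N₂ * M₂ * n, N₂ * N₀, ?_, ?_, ?_, ?_, ?_, ?_, ?_⟩
  · intro h1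
    rcases (hp.dvd_mul).1 h1 with h1 | h1
    · rcases (hp.dvd_mul).1 h1 with h1 | h1
      · exact hN₂ h1
      · exact hM₂ h1
    · exact hn h1
  · intro h1
    rcases (hp.dvd_mul).1 h1 with h1 | h1
    · exact hN₂ h1
    · exact hN h1
  · exact Nat.mul_pos (Nat.mul_pos hN₂0 hM₂0) hn1
  · exact Nat.mul_pos hN₂0 hN1
  · exact Dvd.intro_left _ rfl
  · exact Dvd.intro_left _ rfl
  · have hle := rf_mono (Ω := Ω) b (N₂ * M₂) N₂ (N₂ * M₂ * n) (N₂ * N₀) (Dvd.intro _ rfl)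
      (Dvd.intro _ rfl) (Nat.mul_pos (Nat.mul_pos hN₂0 hM₂0) hn1) (Nat.mul_pos hN₂0 hN1)
    apply hle
    have e1 : γ ^ (p ^ (j + j')) = (γ ^ (p ^ (j + j')) / h) * h := by
      rw [div_mul_cancel₀ _ hh0]
    rw [e1]
    refine mul_mem ?_ ?_
    · exact IntermediateField.subset_adjoin K _ (Or.inl hz)
    · rw [hh]
      refine prod_mem (fun i _ => ?_)
      refine zpow_mem ?_ _
      exact IntermediateField.subset_adjoin K _ (Or.inr (Or.inr ⟨i, hx i⟩))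

private theorem gam_split (S : Set ℕ) (M : ℕ) (hM : M ≠ 0) : ∃ M₁ n₀ : ℕ, M = M₁ * n₀ ∧
    (∀ q : ℕ, q.Prime → q ∣ M₁ → q ∈ S) ∧ (∀ q ∈ S, q.Prime → ¬ q ∣ n₀) := by
  classical
  induction M using induction_on_primes with
  | zero => exact absurd rfl hM
  | one =>
    refine ⟨1, 1, rfl, ?_, ?_⟩
    · intro q hq h1
      exact absurd (Nat.dvd_one.1 h1) hq.ne_one
    · intro q _ hq h1
      exact hq.ne_one (Nat.dvd_one.1 h1)
  | prime_mul l a hl ih =>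
    obtain ⟨M₁, n₀, h1, h2, h3⟩ := ih (by
      rintro rfl
      exact hM (mul_zero l))
    by_cases hlS : l ∈ S
    · refine ⟨l * M₁, n₀, by rw [h1, mul_assoc], ?_, h3⟩
      intro q hq hqd
      rcases (hq.dvd_mul).1 hqd with h4 | h4
      · rw [(Nat.prime_dvd_prime_iff_eq hq hl).1 h4]
        exact hlS
      · exact h2 q hq h4
    · refine ⟨M₁, l * n₀, by rw [h1]; ring, h2, ?_⟩
      intro q hqS hq hqd
      rcases (hq.dvd_mul).1 hqd with h4 | h4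
      · rw [(Nat.prime_dvd_prime_iff_eq hq hl).1 h4] at hqS
        exact hlS hqS
      · exact h3 q hqS hq h4

theorem gam_cover (hb : ∀ i, b i ≠ 0) (γ : Ω) (hγ : γ ∈ GammaS Ω b S) :
    ∃ (n N : ℕ), 1 ≤ n ∧ 1 ≤ N ∧ (∀ q ∈ S, q.Prime → ¬ q ∣ n) ∧
      (∀ q : ℕ, q.Prime → q ∣ N → q ∈ S) ∧ γ ∈ RF Ω b n N := by
  obtain ⟨N₁, hN₁, hNS, t, ⟨M, hM, htM⟩, m, hm⟩ := hγ
  obtain ⟨M₁, n₀, hMe, hM₁S, hn₀S⟩ := gam_split S M (by omega)
  have hM₁0 : 1 ≤ M₁ := Nat.one_le_iff_ne_zero.2 (by rintro rfl; rw [zero_mul] at hMe; omega)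
  have hn₀0 : 1 ≤ n₀ := Nat.one_le_iff_ne_zero.2 (by rintro rfl; rw [mul_zero] at hMe; omega)
  have ht0 : t ≠ 0 := by
    rintro rfl
    rw [zero_pow (by omega)] at htM
    exact zero_ne_one htM
  have hB : ∀ i, algebraMap K Ω (b i) ≠ 0 := fun i => by
    rw [Ne, map_eq_zero]
    exact hb i
  choose x hx using fun i => IsAlgClosed.exists_pow_nat_eq (algebraMap K Ω (b i))
    (show 0 < N₁ by omega)
  have hx0 : ∀ i, x i ≠ 0 := by
    intro i h0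
    have := hx i
    rw [h0, zero_pow (by omega)] at this
    exact hB i this.symm
  set h : Ω := ∏ i, (x i) ^ (m i) with hh
  have hh0 : h ≠ 0 := by
    rw [hh, Finset.prod_ne_zero_iff]
    exact fun i _ => zpow_ne_zero _ (hx0 i)
  have hhN : h ^ N₁ = ∏ i, (algebraMap K Ω (b i)) ^ (m i) := by
    rw [hh, ← Finset.prod_pow]
    refine Finset.prod_congr rfl (fun i _ => ?_)
    rw [← hx i, ← zpow_natCast, ← zpow_natCast (x i) N₁, ← zpow_mul, ← zpow_mul]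
    congr 1
    ring
  have hz : (γ / h) ^ (N₁ * M₁ * n₀) = 1 := by
    rw [mul_assoc, ← hMe, pow_mul, div_pow, hhN, ← hm]
    have hγ0 : γ ^ N₁ ≠ 0 := by
      intro h1
      rw [h1, zero_mul, ← hhN] at hm
      exact pow_ne_zero _ hh0 hm.symm
    rw [div_mul_cancel_left₀ hγ0, inv_pow, htM, inv_one]
  have hcop : Nat.Coprime n₀ (N₁ * M₁) := by
    apply Nat.Coprime.symm
    refine Nat.coprime_of_dvd (fun q hq h1 h2 => ?_)
    have hqS : q ∈ S := by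
      rcases (hq.dvd_mul).1 h1 with h3 | h3
      · exact hNS q hq h3
      · exact hM₁S q hq h3
    exact hn₀S q hqS hq h2
  have hNM : 1 ≤ N₁ * M₁ := Nat.mul_pos hN₁ hM₁0
  refine ⟨n₀, N₁ * M₁, hn₀0, hNM, hn₀S, ?_, ?_⟩
  · intro q hq hqd
    rcases (hq.dvd_mul).1 hqd with h3 | h3
    · exact hNS q hq h3
    · exact hM₁S q hq h3
  · have hζ0 : γ / h ≠ 0 := by
      intro h0
      rw [h0, zero_pow (Nat.mul_ne_zero (by omega) (by omega))] at hz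
      exact zero_ne_one hz
    have e1 : γ = ((γ / h) ^ (n₀ : ℤ)) ^ (Nat.gcdA n₀ (N₁ * M₁)) *
        ((γ / h) ^ ((N₁ * M₁ : ℕ) : ℤ)) ^ (Nat.gcdB n₀ (N₁ * M₁)) * h := by
      rw [← zpow_mul, ← zpow_mul, ← zpow_add₀ hζ0, ← Nat.gcd_eq_gcd_ab, hcop.gcd_eq_one]
      rw [Nat.cast_one, zpow_one, div_mul_cancel₀ _ hh0]
    rw [e1]
    refine mul_mem (mul_mem (zpow_mem ?_ _) (zpow_mem ?_ _)) ?_
    · rw [zpow_natCast]
      refine IntermediateField.subset_adjoin K _ (Or.inr (Or.inl ?_))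
      rw [← pow_mul, mul_comm n₀]
      exact hz
    · rw [zpow_natCast]
      refine IntermediateField.subset_adjoin K _ (Or.inl ?_)
      rw [← pow_mul]
      exact hz
    · have hle := rf_mono (Ω := Ω) b n₀ N₁ n₀ (N₁ * M₁) dvd_rfl (Dvd.intro _ rfl) hn₀0 hNM
      apply hle
      rw [hh]
      refine prod_mem (fun i _ => zpow_mem ?_ _)
      exact IntermediateField.subset_adjoin K _ (Or.inr (Or.inr ⟨i, hx i⟩))

section

variable {p : ℕ} [Fact p.Prime] {C : Type} [NormedField C] [NormedAlgebra ℚ_[p] C]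
  [IsUltrametricDist C] [IsAlgClosed C] [Algebra.IsAlgebraic ℚ_[p] C] [IsoEnv p C]
  {ι : Ω →+* C} {v : C}

theorem gam_norm (D : PData K Ω p C b ι v) (γ : Ω) (hγ : γ ∈ GammaS Ω b S) : ‖ι γ‖ = 1 := by
  obtain ⟨N, hN, _, t, ⟨n, hn, htn⟩, m, hm⟩ := hγ
  have h1 : ‖ι t‖ = 1 := by
    have h2 := congrArg (fun x => ‖ι x‖) htn
    simp only [map_pow, map_one, norm_pow, norm_one] at h2
    exact (pow_eq_one_iff_of_nonneg (norm_nonneg _) (by omega)).1 h2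
  have h3 := congrArg (fun x => ‖ι x‖) hm
  simp only [map_mul, map_pow, norm_mul, norm_pow, h1, mul_one, map_prod, norm_prod,
    map_zpow₀, norm_zpow, D.b_unit, one_zpow, Finset.prod_const_one] at h3
  exact (pow_eq_one_iff_of_nonneg (norm_nonneg _) (by omega)).1 h3

end

end Pool.Agent.H72.RM
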