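import Mathlib

/-!
# Definitions (MP_187c26_nt, `p`-power radicals, modules H72 RM)

Paper proof: proofs 251 (table `proofs`), with the additions of the headers of the modules.

`C` is an algebraic closure of `ℚ_[p]` with its absolute value (in the end `C = PadicAlgCl p`); all
modules use it only through the instances
`[NormedField C] [NormedAlgebra ℚ_[p] C] [IsUltrametricDist C] [IsAlgClosed C]
[Algebra.IsAlgebraic ℚ_[p] C] [IsoEnv p C]`.
`tame p C` is the set of roots of unity of order prime to `p`, `Wnr p C = ℚ_p(tame)` is the maximal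
unramified extension of `ℚ_p`.
-/

set_option autoImplicit false
set_option linter.unusedSectionVars false

open IntermediateField

namespace Pool.Agent.H72.RM

/-- the automorphisms of `C` over `ℚ_[p]` are isometries -/
class IsoEnv (p : ℕ) [Fact p.Prime] (C : Type) [NormedField C] [NormedAlgebra ℚ_[p] C] : Prop where
  iso : ∀ (σ : C ≃ₐ[ℚ_[p]] C) (x : C), ‖σ x‖ = ‖x‖

/-- roots of unity of order prime to `p` -/
def tame (p : ℕ) (C : Type) [Field C] : Set C := {ω | ∃ n : ℕ, ¬ p ∣ n ∧ ω ^ n = 1}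

/-- the field generated over `ℚ_[p]` by the roots of unity of order prime to `p` -/
noncomputable def Wnr (p : ℕ) [Fact p.Prime] (C : Type) [NormedField C] [NormedAlgebra ℚ_[p] C] :
    IntermediateField ℚ_[p] C := IntermediateField.adjoin ℚ_[p] (tame p C)

section

variable {p : ℕ} [Fact p.Prime] {C : Type} [NormedField C] [NormedAlgebra ℚ_[p] C]

theorem tame_le_Wnr {ω : C} (h : ω ∈ tame p C) : ω ∈ Wnr p C :=
  IntermediateField.subset_adjoin ℚ_[p] _ h

theorem one_mem_tame : (1 : C) ∈ tame p C :=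
  ⟨1, fun h => (Fact.out : p.Prime).one_lt.ne' (Nat.dvd_one.1 h), one_pow 1⟩

theorem mul_mem_tame {a b : C} (ha : a ∈ tame p C) (hb : b ∈ tame p C) : a * b ∈ tame p C := by
  obtain ⟨n, hn, han⟩ := ha
  obtain ⟨m, hm, hbm⟩ := hb
  refine ⟨n * m, fun h => ?_, ?_⟩
  · rcases ((Fact.out : p.Prime).dvd_mul).1 h with h | h
    · exact hn h
    · exact hm h
  · rw [mul_pow, pow_mul, han, one_pow, mul_comm n m, pow_mul, hbm, one_pow, one_mul]

theorem ne_zero_of_mem_tame {a : C} (ha : a ∈ tame p C) : a ≠ 0 := by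
  rintro rfl
  obtain ⟨n, hn, han⟩ := ha
  have hn0 : n ≠ 0 := by
    rintro rfl
    exact hn (dvd_zero p)
  rw [zero_pow hn0] at han
  exact zero_ne_one han

theorem inv_mem_tame {a : C} (ha : a ∈ tame p C) : a⁻¹ ∈ tame p C := by
  obtain ⟨n, hn, han⟩ := ha
  exact ⟨n, hn, by rw [inv_pow, han, inv_one]⟩

theorem norm_of_mem_tame {a : C} (ha : a ∈ tame p C) : ‖a‖ = 1 := by
  obtain ⟨n, hn, han⟩ := ha
  have hn0 : n ≠ 0 := by
    rintro rfl
    exact hn (dvd_zero p)
  have h1 := congrArg norm han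
  rw [norm_pow, norm_one] at h1
  exact (pow_eq_one_iff_of_nonneg (norm_nonneg a) hn0).1 h1

theorem norm_p : ‖(p : C)‖ = 1 / (p : ℝ) := by
  have h1 : (p : C) = algebraMap ℚ_[p] C (p : ℚ_[p]) := by rw [map_natCast]
  rw [h1, norm_algebraMap', Padic.norm_p, one_div]

end

section Galois

variable {k Ω : Type} [Field k] [Field Ω] [Algebra k Ω]

/-- Galois theory: elements fixed by all automorphisms fixing `F` are in `F`. -/
theorem mem_of_fixed [IsGalois k Ω] (F : IntermediateField k Ω) (x : Ω)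
    (h : ∀ σ : Ω ≃ₐ[k] Ω, (∀ y ∈ F, σ y = y) → σ x = x) : x ∈ F := by
  have h1 := InfiniteGalois.fixedField_fixingSubgroup F
  rw [← h1]
  rw [IntermediateField.mem_fixedField_iff]
  intro σ hσ
  rw [IntermediateField.mem_fixingSubgroup_iff] at hσ
  exact h σ hσ

/-- Galois theory for `F = k(S)`. -/
theorem mem_adjoin_of_fixed [IsGalois k Ω] (S : Set Ω) (x : Ω)
    (h : ∀ σ : Ω ≃ₐ[k] Ω, (∀ y ∈ S, σ y = y) → σ x = x) : x ∈ IntermediateField.adjoin k S :=
  mem_of_fixed _ x fun σ hσ => h σ fun y hy => hσ y (IntermediateField.subset_adjoin k S hy)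

/-- automorphisms fixing `S` fix `k(S)` -/
theorem fixed_of_mem_adjoin (S : Set Ω) (σ : Ω →ₐ[k] Ω) (h : ∀ y ∈ S, σ y = y) (x : Ω)
    (hx : x ∈ IntermediateField.adjoin k S) : σ x = x := by
  induction hx using IntermediateField.adjoin_induction with
  | mem y hy => exact h y hy
  | algebraMap y => exact σ.commutes y
  | add y z _ _ hy hz => rw [map_add, hy, hz]
  | inv y _ hy => rw [map_inv₀, hy]
  | mul y z _ _ hy hz => rw [map_mul, hy, hz]

end Galois

section Local

variable (p : ℕ) [Fact p.Prime] (C : Type) [NormedField C] [NormedAlgebra ℚ_[p] C]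

include p in
theorem charZero_C : CharZero C :=
  (RingHom.charZero_iff (algebraMap ℚ_[p] C).injective).mp inferInstance

instance galC [IsAlgClosed C] [Algebra.IsAlgebraic ℚ_[p] C] : IsGalois ℚ_[p] C := by
  have h1 : IsAlgClosure ℚ_[p] C := ⟨inferInstance, inferInstance⟩
  have h2 : Normal ℚ_[p] C := IsAlgClosure.normal ℚ_[p] C
  exact ⟨⟩

instance algW [Algebra.IsAlgebraic ℚ_[p] C] (F : IntermediateField ℚ_[p] C) :
    Algebra.IsAlgebraic F C := Algebra.IsAlgebraic.tower_top (K := ℚ_[p]) F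

instance galW [IsAlgClosed C] [Algebra.IsAlgebraic ℚ_[p] C] (F : IntermediateField ℚ_[p] C) :
    IsGalois F C := inferInstance

/-- `PadicAlgCl p` is a local environment. -/
instance : IsoEnv p (PadicAlgCl p) := by
  constructor
  intro σ x
  rw [← PadicAlgCl.spectralNorm_eq, ← PadicAlgCl.spectralNorm_eq]
  exact (spectralNorm_eq_of_equiv σ x).symm

instance : Algebra.IsAlgebraic ℚ_[p] (PadicAlgCl p) := inferInstance

example : IsAlgClosed (PadicAlgCl p) := inferInstance

end Local

end Pool.Agent.H72.RM
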