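import Pool.Agent.H72.RM.Defs

/-!
# The data at one prime `p`, the radical fields and groups (definitions)
-/

set_option autoImplicit false
set_option linter.unusedSectionVars false

open IntermediateField

namespace Pool.Agent.H72.RM

/-- `ι : Ω → C` an embedding, `K` unramified at `ι`, `b i` units at `ι`, `p`-independent in `K`, whose
images in `C` lie in `tame * v^(ℤ_p)`. -/
structure PData (K Ω : Type) [Field K] [Field Ω] [Algebra K Ω] (p : ℕ) [Fact p.Prime] (C : Type)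
    [NormedField C] [NormedAlgebra ℚ_[p] C] {r : ℕ} (b : Fin r → K) (ι : Ω →+* C) (v : C) :
    Prop where
  p_odd : p ≠ 2
  base : ∀ x : K, ι (algebraMap K Ω x) ∈ Wnr p C
  b_ne : ∀ i, b i ≠ 0
  b_unit : ∀ i, ‖ι (algebraMap K Ω (b i))‖ = 1
  ind : ∀ (n : Fin r → ℤ) (y : K), y ^ p = ∏ i, (b i) ^ (n i) → ∀ i, (p : ℤ) ∣ n i
  v_mem : v ∈ Wnr p C
  v_norm : ‖v - 1‖ = 1 / (p : ℝ)
  star : ∀ (i : Fin r) (k : ℕ), ∃ ω ∈ tame p C, ∃ l : ℤ, ∃ t ∈ Wnr p C,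
    ι (algebraMap K Ω (b i)) = ω * v ^ l * t ^ (p ^ k)

section

variable {K Ω : Type} [Field K] [Field Ω] [Algebra K Ω] {r : ℕ}

/-- the field `F(μ_N, b_i^(1/N))` -/
noncomputable def LF (b : Fin r → K) (F : IntermediateField K Ω) (N : ℕ) :
    IntermediateField K Ω :=
  IntermediateField.adjoin K ((F : Set Ω) ∪ {x | x ^ N = 1 ∨ ∃ i, x ^ N = algebraMap K Ω (b i)})

variable (Ω) in
/-- the field `K(μ_n, μ_N, b_i^(1/N))` -/
noncomputable def RF (b : Fin r → K) (n N : ℕ) : IntermediateField K Ω :=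
  IntermediateField.adjoin K {x | x ^ n = 1 ∨ x ^ N = 1 ∨ ∃ i, x ^ N = algebraMap K Ω (b i)}

variable (Ω) in
/-- the elements `x` with `x^N t ∈ <b_i>`, `N` composed of primes in `S`, `t` a root of unity -/
def GammaS (b : Fin r → K) (S : Set ℕ) : Set Ω :=
  {x | ∃ N : ℕ, 1 ≤ N ∧ (∀ q : ℕ, q.Prime → q ∣ N → q ∈ S) ∧
    ∃ t : Ω, (∃ n : ℕ, 1 ≤ n ∧ t ^ n = 1) ∧
      ∃ m : Fin r → ℤ, x ^ N * t = ∏ i, (algebraMap K Ω (b i)) ^ (m i)}

variable (Ω) in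
/-- the division closure of `<b_i>` -/
def DivG (b : Fin r → K) : Set Ω :=
  {x | ∃ N : ℕ, 1 ≤ N ∧ ∃ m : Fin r → ℤ, x ^ N = ∏ i, (algebraMap K Ω (b i)) ^ (m i)}

end

end Pool.Agent.H72.RM
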