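import Mathlib

/-!
# Module Ram: ramification numbers of a finite group acting on a valued field, basic facts

`M` is a field with a nonarchimedean absolute value, `G` acts by isometries, every element of the unit
ball is congruent to a `G`-fixed element of the unit ball modulo elements of norm `< 1`, and `π` is a
uniformizer. The ramification number of `g` is `‖g • π - π‖`.

`ram_approx`, induction on `n`: `n = 0`: `P = 0`. Step: `δ = x - P(π)`, `‖δ‖ ≤ ‖π‖^n`, so
`‖δ / π^n‖ ≤ 1`; `res` gives a fixed `w` with `‖δ/π^n - w‖ < 1`, hence `≤ ‖π‖` by `unif`; take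
`P + C w * X^n`.
`ram_le`: with `P` from `ram_approx`, `g • P(π) = P(g • π)` (coefficients fixed),
`‖P(g • π) - P(π)‖ ≤ ‖g • π - π‖` (coefficients of norm `≤ 1`, `‖π‖, ‖g • π‖ ≤ 1`; e.g.
`Polynomial.sub_dvd_eval_sub` is not enough, expand as a finite sum and use
`a^i - b^i = (a - b) ∑ ..`), `‖g • x - g • P(π)‖ = ‖x - P(π)‖ ≤ ‖π‖^n`. So
`‖g • x - x‖ ≤ max (‖g • π - π‖) (‖π‖^n)` for all `n`; let `n → ∞` (`‖π‖ < 1`; if `g • π = π` the right
side tends to `0`).
`ram_mul`: `(g h) π - π = g (h π - π) + (g π - π)`.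
`ram_inv`: `g⁻¹ π - π = - g⁻¹ (g π - π)`.
`ram_conj`: `(h g h⁻¹) π - π = h (g y - y)`, `y = h⁻¹ π`, `‖y‖ ≤ 1`: `≤` by `ram_le`; the other
inequality by symmetry.
`ram_eq_zero`: if `g π = π` then by `ram_le` `g` fixes the unit ball, hence everything (scale by powers of
`π`, or write `x` with `‖x‖ > 1` as the inverse of `x⁻¹`), so `g = 1` as the action is faithful.
-/

set_option autoImplicit false

open Polynomial

namespace Pool.Agent.H72.RM

/-- a finite group acting by isometries on a field with nonarchimedean absolute value, totally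
ramified, with uniformizer `π` -/
structure RamData (M G : Type) [NormedField M] [Group G] [MulSemiringAction G M] (π : M) : Prop where
  nonarch : ∀ x y : M, ‖x + y‖ ≤ max ‖x‖ ‖y‖
  iso : ∀ (g : G) (x : M), ‖g • x‖ = ‖x‖
  faithful : ∀ g : G, (∀ x : M, g • x = x) → g = 1
  res : ∀ x : M, ‖x‖ ≤ 1 → ∃ w : M, ‖w‖ ≤ 1 ∧ (∀ g : G, g • w = w) ∧ ‖x - w‖ < 1
  pos : 0 < ‖π‖
  lt_one : ‖π‖ < 1
  unif : ∀ x : M, ‖x‖ < 1 → ‖x‖ ≤ ‖π‖

variable {M G : Type} [NormedField M] [Group G] [MulSemiringAction G M] {π : M}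

private theorem ram_norm_sum (D : RamData M G π) {ι : Type} (s : Finset ι) (f : ι → M) (B : ℝ)
    (hB : 0 ≤ B) (h : ∀ i ∈ s, ‖f i‖ ≤ B) : ‖∑ i ∈ s, f i‖ ≤ B := by
  classical
  induction s using Finset.induction_on with
  | empty => simpa using hB
  | insert a s ha ih =>
    rw [Finset.sum_insert ha]
    refine (D.nonarch _ _).trans (max_le (h a (Finset.mem_insert_self a s)) (ih ?_))
    intro i hi
    exact h i (Finset.mem_insert_of_mem hi)

private theorem ram_norm_sub (D : RamData M G π) (x y : M) : ‖x - y‖ ≤ max ‖x‖ ‖y‖ := by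
  have h := D.nonarch x (-y)
  rw [norm_neg, ← sub_eq_add_neg] at h
  exact h

private theorem ram_pow_sub (D : RamData M G π) (a b : M) (ha : ‖a‖ ≤ 1) (hb : ‖b‖ ≤ 1) (i : ℕ) :
    ‖a ^ i - b ^ i‖ ≤ ‖a - b‖ := by
  induction i with
  | zero => simp
  | succ i ih =>
    have h1 : a ^ (i + 1) - b ^ (i + 1) = a ^ i * (a - b) + (a ^ i - b ^ i) * b := by ring
    rw [h1]
    refine (D.nonarch _ _).trans (max_le ?_ ?_)
    · rw [norm_mul, norm_pow]
      have h2 : ‖a‖ ^ i ≤ 1 := pow_le_one₀ (norm_nonneg _) ha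
      calc ‖a‖ ^ i * ‖a - b‖ ≤ 1 * ‖a - b‖ := mul_le_mul_of_nonneg_right h2 (norm_nonneg _)
        _ = ‖a - b‖ := one_mul _
    · rw [norm_mul]
      calc ‖a ^ i - b ^ i‖ * ‖b‖ ≤ ‖a ^ i - b ^ i‖ * 1 :=
            mul_le_mul_of_nonneg_left hb (norm_nonneg _)
        _ = ‖a ^ i - b ^ i‖ := mul_one _
        _ ≤ ‖a - b‖ := ih

theorem RamData.ram_approx (D : RamData M G π) (n : ℕ) (x : M) (hx : ‖x‖ ≤ 1) :
    ∃ P : M[X], (∀ i, ‖P.coeff i‖ ≤ 1) ∧ (∀ (g : G) (i : ℕ), g • P.coeff i = P.coeff i) ∧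
      ‖x - P.eval π‖ ≤ ‖π‖ ^ n := by
  induction n with
  | zero =>
    refine ⟨0, ?_, ?_, ?_⟩
    · intro i
      simp
    · intro g i
      simp
    · simpa using hx
  | succ n ih =>
    obtain ⟨P, hP1, hP2, hP3⟩ := ih
    have hπ0 : π ≠ 0 := norm_pos_iff.mp D.pos
    have hπn : 0 < ‖π‖ ^ n := pow_pos D.pos n
    set δ := x - P.eval π with hδ
    have h1 : ‖δ / π ^ n‖ ≤ 1 := by
      rw [norm_div, norm_pow, div_le_one hπn]
      exact hP3
    obtain ⟨w, hw1, hw2, hw3⟩ := D.res _ h1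
    have hw4 := D.unif _ hw3
    refine ⟨P + C w * X ^ n, ?_, ?_, ?_⟩
    · intro i
      rw [coeff_add, coeff_C_mul, coeff_X_pow]
      refine (D.nonarch _ _).trans (max_le (hP1 i) ?_)
      split_ifs
      · simpa using hw1
      · simp
    · intro g i
      rw [coeff_add, coeff_C_mul, coeff_X_pow, smul_add, hP2 g i]
      congr 1
      split_ifs
      · rw [mul_one, hw2 g]
      · rw [mul_zero, smul_zero]
    · have h2 : x - (P + C w * X ^ n).eval π = π ^ n * (δ / π ^ n - w) := by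
        rw [eval_add, eval_mul, eval_C, eval_pow, eval_X, mul_sub, mul_div_cancel₀ _ (pow_ne_zero n hπ0),
          hδ]
        ring
      rw [h2, norm_mul, norm_pow, pow_succ]
      exact mul_le_mul_of_nonneg_left hw4 hπn.le

theorem RamData.ram_le (D : RamData M G π) (g : G) (x : M) (hx : ‖x‖ ≤ 1) :
    ‖g • x - x‖ ≤ ‖g • π - π‖ := by
  have hgπ : ‖g • π‖ ≤ 1 := by
    rw [D.iso]
    exact D.lt_one.le
  have key : ∀ n : ℕ, ‖g • x - x‖ ≤ max ‖g • π - π‖ (‖π‖ ^ n) := by
    intro n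
    obtain ⟨P, hP1, hP2, hP3⟩ := D.ram_approx n x hx
    have hgP : g • P.eval π = P.eval (g • π) := by
      rw [eval_eq_sum_range, eval_eq_sum_range, Finset.smul_sum]
      apply Finset.sum_congr rfl
      intro i _
      rw [smul_mul', hP2 g i, smul_pow']
    have hdiff : ‖P.eval (g • π) - P.eval π‖ ≤ ‖g • π - π‖ := by
      rw [eval_eq_sum_range, eval_eq_sum_range, ← Finset.sum_sub_distrib]
      apply ram_norm_sum D _ _ _ (norm_nonneg _)
      intro i _
      rw [← mul_sub, norm_mul]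
      calc ‖P.coeff i‖ * ‖(g • π) ^ i - π ^ i‖ ≤ 1 * ‖(g • π) ^ i - π ^ i‖ :=
            mul_le_mul_of_nonneg_right (hP1 i) (norm_nonneg _)
        _ = ‖(g • π) ^ i - π ^ i‖ := one_mul _
        _ ≤ ‖g • π - π‖ := ram_pow_sub D _ _ hgπ D.lt_one.le i
    have h1 : g • x - x = (g • (x - P.eval π) + (P.eval (g • π) - P.eval π)) - (x - P.eval π) := by
      rw [smul_sub, hgP]
      ring
    rw [h1]
    refine (ram_norm_sub D _ _).trans (max_le ((D.nonarch _ _).trans (max_le ?_ ?_)) ?_)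
    · rw [D.iso]
      exact hP3.trans (le_max_right _ _)
    · exact hdiff.trans (le_max_left _ _)
    · exact hP3.trans (le_max_right _ _)
  by_contra hcon
  push Not at hcon
  have h0 : 0 < ‖g • x - x‖ := lt_of_le_of_lt (norm_nonneg _) hcon
  obtain ⟨n, hn⟩ := exists_pow_lt_of_lt_one h0 D.lt_one
  have h2 := key n
  have h3 : max ‖g • π - π‖ (‖π‖ ^ n) < ‖g • x - x‖ := max_lt hcon hn
  linarith

theorem RamData.ram_mul (D : RamData M G π) (g h : G) :
    ‖(g * h) • π - π‖ ≤ max ‖g • π - π‖ ‖h • π - π‖ := by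
  have h1 : (g * h) • π - π = g • (h • π - π) + (g • π - π) := by
    rw [smul_sub, mul_smul]
    ring
  rw [h1]
  refine (D.nonarch _ _).trans (max_le ?_ (le_max_left _ _))
  rw [D.iso]
  exact le_max_right _ _

theorem RamData.ram_inv (D : RamData M G π) (g : G) : ‖g⁻¹ • π - π‖ = ‖g • π - π‖ := by
  have h1 : g⁻¹ • π - π = -(g⁻¹ • (g • π - π)) := by
    rw [smul_sub, inv_smul_smul]
    ring
  rw [h1, norm_neg, D.iso]

private theorem ram_conj_le (D : RamData M G π) (g h : G) :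
    ‖(h * g * h⁻¹) • π - π‖ ≤ ‖g • π - π‖ := by
  have h1 : (h * g * h⁻¹) • π - π = h • (g • (h⁻¹ • π) - h⁻¹ • π) := by
    rw [smul_sub, mul_smul, mul_smul, smul_inv_smul]
  rw [h1, D.iso]
  apply D.ram_le
  rw [D.iso]
  exact D.lt_one.le

theorem RamData.ram_conj (D : RamData M G π) (g h : G) :
    ‖(h * g * h⁻¹) • π - π‖ = ‖g • π - π‖ := by
  apply le_antisymm (ram_conj_le D g h)
  have h1 := ram_conj_le D (h * g * h⁻¹) h⁻¹
  have h2 : h⁻¹ * (h * g * h⁻¹) * h⁻¹⁻¹ = g := by group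
  rw [h2] at h1
  exact h1

theorem RamData.ram_eq_zero (D : RamData M G π) (g : G) (h : g • π = π) : g = 1 := by
  have hball : ∀ x : M, ‖x‖ ≤ 1 → g • x = x := by
    intro x hx
    have h1 := D.ram_le g x hx
    rw [h, sub_self, norm_zero] at h1
    have h2 : ‖g • x - x‖ = 0 := le_antisymm h1 (norm_nonneg _)
    rw [norm_eq_zero, sub_eq_zero] at h2
    exact h2
  apply D.faithful
  intro x
  by_cases hx : ‖x‖ ≤ 1
  · exact hball x hx
  · push Not at hx
    have hx0 : x ≠ 0 := by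
      intro h0
      rw [h0, norm_zero] at hx
      linarith
    have h1 : ‖x⁻¹‖ ≤ 1 := by
      rw [norm_inv]
      exact inv_le_one_of_one_le₀ hx.le
    have h2 := hball _ h1
    rw [smul_inv''] at h2
    exact inv_injective h2

theorem RamData.ram_le_one (D : RamData M G π) (g : G) : ‖g • π - π‖ ≤ 1 := by
  refine (ram_norm_sub D _ _).trans (max_le ?_ D.lt_one.le)
  rw [D.iso]
  exact D.lt_one.le

end Pool.Agent.H72.RM
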