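import Mathlib

/-!
# Module Comb2: the recursion for the ramification numbers

`j s = ((p-1) p^(2s) + 2)/(p+1)`, `k t = 2 (p^(2t+1) + 1)/(p+1)`. Claim, by induction on `t`
(`t + 1 < m`): `K t ≤ k t` and `j (t+1) ≤ J (t+1)` (assuming `K t' ≤ k t'` for `t' < t` and
`j s ≤ J s` for `1 ≤ s ≤ t`).
Identities (induction, or geometric sums):
 (I1) `p^(m+t) - p^(m-1) (p-2) - ∑_{1≤s≤t} (p-1) p^(m-s-1) j s = p^(m-t-1) k t`,
 (I2) `p^(m+t+1) - ∑_{t'≤t} (p-1) p^(m-t'-1) k t' = p^(m-t-1) j (t+1)`,
 (I3) `∑_{t < s < m} (p-1) p^(m-s-1) + 1 = p^(m-t-1)`.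
(In (I1), (I2) divide by `p^(m-1)`; it may be convenient to prove them by induction on `t` in the form
`(p+1) * ...`.)
Step. From `hB t`, `J s ≥ j s` for `1 ≤ s ≤ t` and (I1):
 `∑_{t<s<m} (p-1) p^(m-s-1) min (J s) (K t) + K t ≤ p^(m-t-1) k t`.  (*)
Case `K t ≤ J (t+1)`: by monotonicity `K t ≤ J s` for all `s > t`, so by (I3) `p^(m-t-1) K t ≤
p^(m-t-1) k t`, `K t ≤ k t`.
Case `K t > J (t+1)`: `min (J s) (K t) ≥ J (t+1)` for `s > t`, so (*) and (I3) give `J (t+1) ≤ k t`. But
`hA (t+1)`, with `min (J (t+1)) (K t') ≤ K t' ≤ k t'` for `t' < t` and `min (J (t+1)) (K t) ≤ J (t+1)`,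
gives `p^(m+t+1) ≤ ∑_{t'<t} (p-1) p^(m-t'-1) k t' + p^(m-t) J (t+1)`, i.e. (using (I2) for `t - 1`, or
directly for `t = 0`) `J (t+1) ≥ (p^(2t) (p+2)(p-1) + 2)/(p+1)`, which is `> k t` because
`(p+2)(p-1) - 2p = (p-2)(p+1) > 0`. Contradiction.
So `K t ≤ k t`, and `hA (t+1)` with `min (J (t+1)) (K t') ≤ k t'` and (I2) give `J (t+1) ≥ j (t+1)`.
(Check `t = 0`: (I1) `p^m - p^(m-1)(p-2) = 2 p^(m-1) = p^(m-1) k 0`.)
-/

set_option autoImplicit false

open Finset

namespace Pool.Agent.H72.RM

/-- the expected value of `J` -/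
private noncomputable def jj (q : ℝ) (s : ℕ) : ℝ := ((q - 1) * q ^ (2 * s) + 2) / (q + 1)

/-- the expected value of `K` -/
private noncomputable def kk (q : ℝ) (t : ℕ) : ℝ := 2 * (q ^ (2 * t + 1) + 1) / (q + 1)

private theorem I1 (q : ℝ) (hq : 0 < q) (m t : ℕ) (h : t < m) :
    ∑ s ∈ Ico 1 (t + 1), (q - 1) * q ^ (m - s - 1) * jj q s =
      q ^ (m + t) - q ^ (m - 1) * (q - 2) - q ^ (m - t - 1) * kk q t := by
  have hq1 : q + 1 ≠ 0 := by positivity
  induction t with
  | zero =>
    obtain ⟨e, rfl⟩ : ∃ e, m = e + 1 := ⟨m - 1, by omega⟩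
    simp only [kk]
    simp
    field_simp
    ring
  | succ t ih =>
    rw [Finset.sum_Ico_succ_top (by omega), ih (by omega)]
    obtain ⟨e, rfl⟩ : ∃ e, m = e + t + 2 := ⟨m - t - 2, by omega⟩
    rw [show e + t + 2 - t - 1 = e + 1 by omega, show e + t + 2 - (t + 1) - 1 = e by omega]
    simp only [kk, jj]
    field_simp
    ring

private theorem I2 (q : ℝ) (hq : 0 < q) (m t : ℕ) (h : t ≤ m) :
    ∑ t' ∈ range t, (q - 1) * q ^ (m - t' - 1) * kk q t' =
      q ^ (m + t) - q ^ (m - t) * jj q t := by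
  have hq1 : q + 1 ≠ 0 := by positivity
  induction t with
  | zero =>
    simp only [jj]
    simp
    field_simp
    ring
  | succ t ih =>
    rw [Finset.sum_range_succ, ih (by omega)]
    obtain ⟨e, rfl⟩ : ∃ e, m = e + t + 1 := ⟨m - t - 1, by omega⟩
    rw [show e + t + 1 - t - 1 = e by omega, show e + t + 1 - (t + 1) = e by omega,
      show e + t + 1 - t = e + 1 by omega]
    simp only [kk, jj]
    field_simp
    ring

private theorem I3 (q : ℝ) (m : ℕ) : ∀ d a : ℕ, a + d = m →
    ∑ s ∈ Ico a m, (q - 1) * q ^ (m - s - 1) = q ^ d - 1 := by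
  intro d
  induction d with
  | zero => intro a h; subst h; simp
  | succ d ih =>
    intro a h
    rw [Finset.sum_eq_sum_Ico_succ_bot (by omega), ih (a + 1) (by omega),
      show m - a - 1 = d by omega]
    ring

theorem comb2 (p m : ℕ) (hp : 3 ≤ p) (J K : ℕ → ℝ)
    (hJ : ∀ s, 1 ≤ s → s + 1 < m → J s ≤ J (s + 1))
    (hA : ∀ s, 1 ≤ s → s < m → (p : ℝ) ^ (m + s) ≤
      ∑ t ∈ range s, ((p : ℝ) - 1) * (p : ℝ) ^ (m - t - 1) * min (J s) (K t) +
        (p : ℝ) ^ (m - s) * J s)
    (hB : ∀ t, t + 1 < m → (p : ℝ) ^ (m - 1) * ((p : ℝ) - 2) +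
      ∑ s ∈ Ico 1 (t + 1), ((p : ℝ) - 1) * (p : ℝ) ^ (m - s - 1) * J s +
      ∑ s ∈ Ico (t + 1) m, ((p : ℝ) - 1) * (p : ℝ) ^ (m - s - 1) * min (J s) (K t) + K t ≤
        (p : ℝ) ^ (m + t))
    (s : ℕ) (hs : 1 ≤ s) (hsm : s < m) :
    (((p : ℝ) - 1) * (p : ℝ) ^ (2 * s) + 2) / ((p : ℝ) + 1) ≤ J s := by

  set q : ℝ := (p : ℝ) with hqdef
  have hq3 : (3 : ℝ) ≤ q := by rw [hqdef]; exact_mod_cast hp
  have hq : 0 < q := by linarith
  have hq1 : 0 < q + 1 := by linarith
  -- monotonicity of `J`
  have hmono : ∀ a b : ℕ, 1 ≤ a → a ≤ b → b < m → J a ≤ J b := by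
    intro a b ha hab
    induction b, hab using Nat.le_induction with
    | base => intro _; exact le_refl _
    | succ b hab ih =>
      intro hb
      exact (ih (by omega)).trans (hJ b (by omega) (by omega))
  have main : ∀ t, t + 1 < m → K t ≤ kk q t ∧ jj q (t + 1) ≤ J (t + 1) := by
    intro t
    induction t using Nat.strong_induction_on with
    | _ t ih =>
      intro ht
      have hKlt : ∀ t' < t, K t' ≤ kk q t' := fun t' h => (ih t' h (by omega)).1
      have hJle : ∀ s, 1 ≤ s → s ≤ t → jj q s ≤ J s := by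
        intro s h1 h2
        have := (ih (s - 1) (by omega) (by omega)).2
        rwa [show s - 1 + 1 = s by omega] at this
      have hcoef : ∀ e : ℕ, 0 ≤ (q - 1) * q ^ e := fun e =>
        mul_nonneg (by linarith) (by positivity)
      have hS1 : ∑ s ∈ Ico 1 (t + 1), (q - 1) * q ^ (m - s - 1) * jj q s ≤
          ∑ s ∈ Ico 1 (t + 1), (q - 1) * q ^ (m - s - 1) * J s := by
        apply Finset.sum_le_sum
        intro s hs
        rw [Finset.mem_Ico] at hs
        exact mul_le_mul_of_nonneg_left (hJle s hs.1 (by omega)) (hcoef _)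
      rw [I1 q hq m t (by omega)] at hS1
      have hBt := hB t ht
      have hstar : ∑ s ∈ Ico (t + 1) m, (q - 1) * q ^ (m - s - 1) * min (J s) (K t) + K t ≤
          q ^ (m - t - 1) * kk q t := by linarith
      have hE : (0 : ℝ) < q ^ (m - t - 1) := by positivity
      have hI3 := I3 q m (m - t - 1) (t + 1) (by omega)
      have hAt := hA (t + 1) (by omega) ht
      rw [Finset.sum_range_succ, show m - (t + 1) = m - t - 1 by omega] at hAt
      have hsumlow : ∑ t' ∈ range t, (q - 1) * q ^ (m - t' - 1) * min (J (t + 1)) (K t') ≤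
          q ^ (m + t) - q ^ (m - t) * jj q t := by
        rw [← I2 q hq m t (by omega)]
        apply Finset.sum_le_sum
        intro t' ht'
        rw [Finset.mem_range] at ht'
        exact mul_le_mul_of_nonneg_left ((min_le_right _ _).trans (hKlt t' ht')) (hcoef _)
      obtain ⟨e, he⟩ : ∃ e, m = e + t + 1 := ⟨m - t - 1, by omega⟩
      have e1 : m - t - 1 = e := by omega
      have e2 : m - t = e + 1 := by omega
      have e3 : m + t = e + (2 * t + 1) := by omega
      have e4 : m + (t + 1) = e + (2 * t + 2) := by omega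
      have hEe : (0 : ℝ) < q ^ e := by positivity
      have hK : K t ≤ kk q t := by
        rcases le_or_gt (K t) (J (t + 1)) with hc | hc
        · have h1 : ∑ s ∈ Ico (t + 1) m, (q - 1) * q ^ (m - s - 1) * min (J s) (K t) =
              (q ^ (m - t - 1) - 1) * K t := by
            rw [← hI3, Finset.sum_mul]
            apply Finset.sum_congr rfl
            intro s hs
            rw [Finset.mem_Ico] at hs
            rw [min_eq_right (hc.trans (hmono (t + 1) s (by omega) hs.1 hs.2))]
          rw [h1] at hstar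
          have h2 : q ^ (m - t - 1) * K t ≤ q ^ (m - t - 1) * kk q t := by linarith
          exact le_of_mul_le_mul_left h2 hE
        · exfalso
          have h1 : (q ^ (m - t - 1) - 1) * J (t + 1) ≤
              ∑ s ∈ Ico (t + 1) m, (q - 1) * q ^ (m - s - 1) * min (J s) (K t) := by
            rw [← hI3, Finset.sum_mul]
            apply Finset.sum_le_sum
            intro s hs
            rw [Finset.mem_Ico] at hs
            exact mul_le_mul_of_nonneg_left
              (le_min (hmono (t + 1) s (by omega) hs.1 hs.2) hc.le) (hcoef _)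
          have h2 : q ^ (m - t - 1) * J (t + 1) < q ^ (m - t - 1) * kk q t := by linarith
          have h3 : J (t + 1) < kk q t := lt_of_mul_lt_mul_left h2 hE.le
          have h4 : (q - 1) * q ^ (m - t - 1) * min (J (t + 1)) (K t) ≤
              (q - 1) * q ^ (m - t - 1) * J (t + 1) :=
            mul_le_mul_of_nonneg_left (min_le_left _ _) (hcoef _)
          have h5 : q ^ (m + (t + 1)) ≤ q ^ (m + t) - q ^ (m - t) * jj q t +
              q * q ^ (m - t - 1) * J (t + 1) := by linarith
          rw [e1, e2, e3, e4] at h5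
          have h6 : q ^ e * (q ^ (2 * t + 2) - q ^ (2 * t + 1) + q * jj q t) ≤
              q ^ e * (q * J (t + 1)) := by
            have r1 : q ^ (e + (2 * t + 2)) = q ^ e * q ^ (2 * t + 2) := pow_add _ _ _
            have r2 : q ^ (e + (2 * t + 1)) = q ^ e * q ^ (2 * t + 1) := pow_add _ _ _
            have r3 : q ^ (e + 1) = q ^ e * q := pow_succ _ _
            rw [r1, r2, r3] at h5
            linarith
          have h7 := le_of_mul_le_mul_left h6 hEe
          have h8 : (q + 1) * (q * jj q t) = q * ((q - 1) * q ^ (2 * t) + 2) := by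
            simp only [jj]; field_simp
          have h9 : (q + 1) * kk q t = 2 * (q ^ (2 * t + 1) + 1) := by
            simp only [kk]; field_simp
          have h10 : (q + 1) * (q * J (t + 1)) < q * ((q + 1) * kk q t) := by
            have := mul_lt_mul_of_pos_left h3 (mul_pos hq hq1)
            linarith
          have h11 := mul_le_mul_of_nonneg_left h7 hq1.le
          rw [h9] at h10
          have hP : 0 < q ^ (2 * t) := by positivity
          have p1 : q ^ (2 * t + 1) = q ^ (2 * t) * q := pow_succ _ _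
          have p2 : q ^ (2 * t + 2) = q ^ (2 * t) * q * q := by rw [pow_succ, pow_succ]
          rw [p1] at h10
          have h12 : (q + 1) * (q ^ (2 * t) * q * q - q ^ (2 * t) * q) +
              q * ((q - 1) * q ^ (2 * t) + 2) ≤ (q + 1) * (q * J (t + 1)) := by
            have : (q + 1) * (q ^ (2 * t + 2) - q ^ (2 * t + 1) + q * jj q t) =
                (q + 1) * (q ^ (2 * t) * q * q - q ^ (2 * t) * q) +
                (q + 1) * (q * jj q t) := by rw [p1, p2]; ring
            rw [this, h8] at h11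
            exact h11
          have h13 : q * (q ^ (2 * t) * ((q + 1) * (q - 1) + (q - 1) - 2 * q)) < 0 := by
            linarith
          have h14 : 0 < q * (q ^ (2 * t) * ((q + 1) * (q - 1) + (q - 1) - 2 * q)) := by
            have : 0 < (q + 1) * (q - 1) + (q - 1) - 2 * q := by nlinarith
            positivity
          linarith
      refine ⟨hK, ?_⟩
      have h1 : (q - 1) * q ^ (m - t - 1) * min (J (t + 1)) (K t) ≤
          (q - 1) * q ^ (m - t - 1) * kk q t :=
        mul_le_mul_of_nonneg_left ((min_le_right _ _).trans hK) (hcoef _)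
      have h2 := I2 q hq m (t + 1) (by omega)
      rw [Finset.sum_range_succ, I2 q hq m t (by omega), show m - (t + 1) = m - t - 1 by omega]
        at h2
      have h3 : q ^ (m - t - 1) * jj q (t + 1) ≤ q ^ (m - t - 1) * J (t + 1) := by linarith
      exact le_of_mul_le_mul_left h3 hE
  have := (main (s - 1) (by omega)).2
  rwa [show s - 1 + 1 = s by omega] at this

end Pool.Agent.H72.RM
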