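import Pool.Agent.H72.RM.Defs

/-!
# Module Cyc: absolute values of `ζ - 1`

1. `norm_natCast_of_not_dvd`: `‖(n : C)‖ = 1` for `p ∤ n` (from `ℚ_[p]`: `norm_algebraMap'`,
   `Padic.norm_natCast_eq_one_iff` or similar).
2. `tame_dist`: for `ω ^ n = 1`, `p ∤ n`, `ω ≠ 1`: the product of `(1 - μ)` over the `n`-th roots of unity
   `μ ≠ 1` is `n` (e.g. evaluate `∑_{i<n} X^i = ∏_{μ ≠ 1} (X - μ)` at `1`), every factor has norm `≤ 1`
   and the product has norm `1`, so `‖ω - 1‖ = 1`.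
3. `norm_zeta_sub_one`: `∏ (1 - μ) = p` over the primitive `p^j`-th roots of unity `μ`
   (`Polynomial.eval_one_cyclotomic_prime_pow` and `cyclotomic = ∏ (X - μ)`,
   `Polynomial.cyclotomic_eq_prod_X_sub_primitiveRoots` or similar), there are
   `φ(p^j) = p^(j-1)(p-1)` of them, and `‖1 - μ‖ = ‖1 - ζ‖` for all of them: `μ = ζ^i`, so
   `1 - μ = (1 - ζ)(1 + ζ + ... )`, `‖1 - μ‖ ≤ ‖1 - ζ‖`, and symmetrically.
4. `norm_pow_sub_one`: for `ξ ^ (p^j) = 1` one has `‖ξ - 1‖ < 1` (if `ξ` has order `p^i`, `i ≥ 1`, use 3).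
-/

set_option autoImplicit false
set_option linter.unusedSectionVars false

namespace Pool.Agent.H72.RM

variable {p : ℕ} [Fact p.Prime] {C : Type} [NormedField C] [NormedAlgebra ℚ_[p] C]
  [IsUltrametricDist C] [IsAlgClosed C] [Algebra.IsAlgebraic ℚ_[p] C] [IsoEnv p C]

theorem norm_natCast_of_not_dvd (n : ℕ) (hn : ¬ p ∣ n) : ‖(n : C)‖ = 1 := by
  have h1 : (n : C) = algebraMap ℚ_[p] C (n : ℚ_[p]) := by rw [map_natCast]
  rw [h1, norm_algebraMap', Padic.norm_natCast_eq_one_iff]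
  exact ((Nat.Prime.coprime_iff_not_dvd (Fact.out : p.Prime)).2 hn)

/-- powers of an element of norm one stay close to one -/
theorem norm_pow_sub_one_le {D : Type} [NormedField D] [IsUltrametricDist D] (ω : D)
    (h1 : ‖ω‖ ≤ 1) (i : ℕ) : ‖ω ^ i - 1‖ ≤ ‖ω - 1‖ := by
  induction i with
  | zero => simp
  | succ i ih =>
    have e : ω ^ (i + 1) - 1 = ω * (ω ^ i - 1) + (ω - 1) := by ring
    rw [e]
    refine (IsUltrametricDist.norm_add_le_max _ _).trans (max_le ?_ (le_refl _))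
    rw [norm_mul]
    calc ‖ω‖ * ‖ω ^ i - 1‖ ≤ 1 * ‖ω - 1‖ :=
          mul_le_mul h1 ih (norm_nonneg _) zero_le_one
      _ = ‖ω - 1‖ := one_mul _

/-- distinct roots of unity of order prime to `p` have distance `1` -/
theorem tame_dist (ω : C) (hω : ω ∈ tame p C) (h : ‖ω - 1‖ < 1) : ω = 1 := by
  by_contra hne
  have hn1 : ‖ω‖ = 1 := norm_of_mem_tame hω
  obtain ⟨n, hn, hωn⟩ := hω
  have h1 : (∑ i ∈ Finset.range n, ω ^ i) * (ω - 1) = 0 := by
    rw [geom_sum_mul, hωn, sub_self]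
  have h2 : ∑ i ∈ Finset.range n, ω ^ i = 0 := by
    rcases mul_eq_zero.1 h1 with h3 | h3
    · exact h3
    · exact absurd (sub_eq_zero.1 h3) hne
  have h3 : ∑ i ∈ Finset.range n, (ω ^ i - 1) = -(n : C) := by
    rw [Finset.sum_sub_distrib, h2]
    simp
  have h4 : ‖∑ i ∈ Finset.range n, (ω ^ i - 1)‖ ≤ ‖ω - 1‖ :=
    IsUltrametricDist.norm_sum_le_of_forall_le_of_nonneg (norm_nonneg _)
      (fun i _ => norm_pow_sub_one_le ω hn1.le i)
  rw [h3, norm_neg, norm_natCast_of_not_dvd (p := p) n hn] at h4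
  linarith

theorem norm_zeta_sub_one (j : ℕ) (hj : 1 ≤ j) (ζ : C) (hζ : IsPrimitiveRoot ζ (p ^ j)) :
    ‖ζ - 1‖ ^ (p ^ (j - 1) * (p - 1)) = 1 / (p : ℝ) := by
  have hp : p.Prime := Fact.out
  have hpos : 0 < p ^ j := pow_pos hp.pos j
  have hnorm : ∀ μ : C, IsPrimitiveRoot μ (p ^ j) → ‖μ‖ ≤ 1 := by
    intro μ hμ
    have h1 := congrArg norm hμ.pow_eq_one
    rw [norm_pow, norm_one] at h1
    exact ((pow_eq_one_iff_of_nonneg (norm_nonneg μ) hpos.ne').1 h1).le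
  have hle : ∀ μ ν : C, IsPrimitiveRoot μ (p ^ j) → IsPrimitiveRoot ν (p ^ j) →
      ‖μ - 1‖ ≤ ‖ν - 1‖ := by
    intro μ ν hμ hν
    obtain ⟨i, _, hi⟩ := hν.eq_pow_of_pow_eq_one hμ.pow_eq_one
    rw [← hi]
    exact norm_pow_sub_one_le ν (hnorm ν hν) i
  have heq : ∀ μ ∈ primitiveRoots (p ^ j) C, ‖(1 : C) - μ‖ = ‖ζ - 1‖ := by
    intro μ hμ
    rw [mem_primitiveRoots hpos] at hμ
    rw [norm_sub_rev]
    exact le_antisymm (hle μ ζ hμ hζ) (hle ζ μ hζ hμ)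
  obtain ⟨k, rfl⟩ : ∃ k, j = k + 1 := ⟨j - 1, by omega⟩
  have h1 := Polynomial.cyclotomic_eq_prod_X_sub_primitiveRoots hζ
  have h2 := congrArg (Polynomial.eval (1 : C)) h1
  rw [Polynomial.eval_one_cyclotomic_prime_pow, Polynomial.eval_prod] at h2
  simp only [Polynomial.eval_sub, Polynomial.eval_X, Polynomial.eval_C] at h2
  have h3 := congrArg norm h2
  rw [norm_p, norm_prod, Finset.prod_congr rfl heq, Finset.prod_const,
    IsPrimitiveRoot.card_primitiveRoots hζ, Nat.totient_prime_pow_succ hp] at h3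
  rw [Nat.add_sub_cancel]
  exact h3.symm

theorem norm_pow_sub_one (j : ℕ) (ξ : C) (hξ : ξ ^ (p ^ j) = 1) : ‖ξ - 1‖ < 1 := by
  have hp : p.Prime := Fact.out
  by_cases h1 : ξ = 1
  · rw [h1, sub_self, norm_zero]
    exact one_pos
  · have h2 : orderOf ξ ∣ p ^ j := orderOf_dvd_of_pow_eq_one hξ
    obtain ⟨i, _, hi⟩ := (Nat.dvd_prime_pow hp).1 h2
    have hi1 : 1 ≤ i := by
      rcases Nat.eq_zero_or_pos i with h | h
      · exfalso
        rw [h, pow_zero] at hi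
        exact h1 (orderOf_eq_one_iff.1 hi)
      · exact h
    have h3 : IsPrimitiveRoot ξ (p ^ i) := by
      rw [← hi]
      exact IsPrimitiveRoot.orderOf ξ
    have h4 := norm_zeta_sub_one (p := p) i hi1 ξ h3
    by_contra hge
    push Not at hge
    have h5 : 1 ≤ ‖ξ - 1‖ ^ (p ^ (i - 1) * (p - 1)) := one_le_pow₀ hge
    rw [h4] at h5
    have h6 : (1 : ℝ) / (p : ℝ) < 1 := by
      rw [div_lt_one (by exact_mod_cast hp.pos)]
      exact_mod_cast hp.one_lt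
    linarith

end Pool.Agent.H72.RM
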