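import Pool.Agent.H72.RM.Tower
import Pool.Agent.H72.RM.BaseA
import Pool.Agent.H72.RM.BaseB
import Pool.Agent.H72.RM.Sat
import Pool.Agent.H72.RM.Basis
import Pool.Agent.H72.RM.PD
import Pool.Agent.H72.RM.Cover
import Pool.Agent.H4.RR.Final

/-!
# Final assembly (MP_187c26_nt, radicals of exponents composed of a finite set of primes)
-/

set_option autoImplicit false

open NumberField IntermediateField

namespace Pool.Agent.H72.RM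

open Pool.Agent.H4.RR (sat fieldOf normTo from_norm)

/-- conditions at `p` -/
def AllowedAt (K : Type) [Field K] (Λ : Subgroup Kˣ) (p : ℕ) : Prop :=
  p ≠ 2 ∧ ∃ (_ : Fact p.Prime) (φ : K →+* PadicAlgCl p),
    (∀ x : K, φ x ∈ IntermediateField.adjoin ℚ_[p]
      {ω : PadicAlgCl p | ∃ n : ℕ, ¬ p ∣ n ∧ ω ^ n = 1}) ∧
    (∀ x ∈ Λ, ‖φ (x : K)‖ = 1) ∧
    ((∀ x ∈ Λ, ∃ n : ℕ, 1 ≤ n ∧ ∃ y : ℚ_[p],
        φ (x : K) ^ n = algebraMap ℚ_[p] (PadicAlgCl p) y) ∨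
      ∃ g ∈ Λ, ∀ x ∈ Λ, ∃ n : ℕ, 1 ≤ n ∧ ∃ k : ℤ, x ^ n = g ^ k)

theorem gam_of_mem (K : Type) [Field K] {r : ℕ} (Λ Λ' : Subgroup Kˣ)
    (hΛ' : ∀ x : Kˣ, x ∈ Λ' ↔ ∃ N : ℕ, 1 ≤ N ∧ x ^ N ∈ Λ) (b : Fin r → Kˣ)
    (hgen : ∀ x ∈ Λ', ∃ m : Fin r → ℤ, IsOfFinOrder (x * (∏ i, b i ^ (m i))⁻¹))
    (S : Finset ℕ) (γ : (AlgebraicClosure K)ˣ)
    (hγ : ∃ N : ℕ, 1 ≤ N ∧ (∀ q : ℕ, q.Prime → q ∣ N → q ∈ S) ∧
        ∃ t : (AlgebraicClosure K)ˣ, (∃ n : ℕ, 1 ≤ n ∧ t ^ n = 1) ∧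
          ∃ x ∈ Λ, γ ^ N * t = Units.map (algebraMap K (AlgebraicClosure K)).toMonoidHom x) :
    (γ : AlgebraicClosure K) ∈
      GammaS (AlgebraicClosure K) (fun i => ((b i : Kˣ) : K)) (S : Set ℕ) := by
  obtain ⟨N, hN, hNS, t, ⟨n, hn, htn⟩, x, hx, hγx⟩ := hγ
  have hx' : x ∈ Λ' := (hΛ' x).2 ⟨1, le_rfl, by rwa [pow_one]⟩
  obtain ⟨m, hm⟩ := hgen x hx'
  obtain ⟨k, hk, hk1⟩ := isOfFinOrder_iff_pow_eq_one.1 hm
  set u : Kˣ := x * (∏ i, b i ^ (m i))⁻¹ with hu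
  set U : (AlgebraicClosure K)ˣ :=
    Units.map (algebraMap K (AlgebraicClosure K)).toMonoidHom u with hU
  have hUk : U ^ k = 1 := by
    rw [hU, ← map_pow, hk1, map_one]
  have hxu : x = u * ∏ i, b i ^ (m i) := by
    rw [hu, inv_mul_cancel_right]
  refine ⟨N, hN, hNS, ((t * U⁻¹ : (AlgebraicClosure K)ˣ) : AlgebraicClosure K),
    ⟨n * k, Nat.mul_pos hn hk, ?_⟩, m, ?_⟩
  · rw [← Units.val_pow_eq_pow_val, mul_pow, pow_mul, htn, one_pow, one_mul, inv_pow,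
      mul_comm n k, pow_mul, hUk, one_pow, inv_one, Units.val_one]
  · have h1 : γ ^ N * (t * U⁻¹) =
        ∏ i, (Units.map (algebraMap K (AlgebraicClosure K)).toMonoidHom (b i)) ^ (m i) := by
      rw [← mul_assoc, hγx, hxu, map_mul, map_prod, mul_comm U, mul_inv_cancel_right]
      refine Finset.prod_congr rfl fun i _ => ?_
      rw [map_zpow]
    have h2 := congrArg (fun z : (AlgebraicClosure K)ˣ => (z : AlgebraicClosure K)) h1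
    simp only [Units.val_mul, Units.coe_prod, Units.val_pow_eq_pow_val,
      Units.val_zpow_eq_zpow_val] at h2
    simpa using h2

theorem not_div_of_not_sat (K : Type) [Field K] {r : ℕ} (Λ Λ' : Subgroup Kˣ)
    (hΛ' : ∀ x : Kˣ, x ∈ Λ' ↔ ∃ N : ℕ, 1 ≤ N ∧ x ^ N ∈ Λ) (b : Fin r → Kˣ)
    (hb : ∀ i, b i ∈ Λ') (Γ : Subgroup (AlgebraicClosure K)ˣ)
    (hΛΓ : ∀ x ∈ Λ, Units.map (algebraMap K (AlgebraicClosure K)).toMonoidHom x ∈ Γ)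
    (a : (AlgebraicClosure K)ˣ) (ha : a ∉ sat Γ) :
    (a : AlgebraicClosure K) ∉ DivG (AlgebraicClosure K) (fun i => ((b i : Kˣ) : K)) := by
  rintro ⟨N, hN, m, hm⟩
  apply ha
  have hx : ∏ i, b i ^ (m i) ∈ Λ' := Subgroup.prod_mem _ fun i _ => Subgroup.zpow_mem _ (hb i) _
  obtain ⟨M, hM, hxM⟩ := (hΛ' _).1 hx
  refine ⟨N * M, Nat.mul_pos hN hM, ?_⟩
  have h1 : a ^ N = Units.map (algebraMap K (AlgebraicClosure K)).toMonoidHom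
      (∏ i, b i ^ (m i)) := by
    apply Units.ext
    rw [Units.val_pow_eq_pow_val, hm, map_prod, Units.coe_prod]
    refine Finset.prod_congr rfl fun i _ => ?_
    rw [map_zpow, Units.val_zpow_eq_zpow_val]
    rfl
  rw [pow_mul, h1, ← map_pow]
  exact hΛΓ _ hxM

theorem final (K : Type) [Field K] [NumberField K] (Λ : Subgroup Kˣ) (hΛ : Λ.FG) (S : Finset ℕ)
    (hS : S.Nonempty) (hA : ∀ p ∈ S, AllowedAt K Λ p) :
    ∃ c : ℝ, 0 < c ∧ ∀ Γ : Subgroup (AlgebraicClosure K)ˣ,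
      (∀ x ∈ Λ, Units.map (algebraMap K (AlgebraicClosure K)).toMonoidHom x ∈ Γ) →
      (∀ γ ∈ Γ, ∃ N : ℕ, 1 ≤ N ∧ (∀ q : ℕ, q.Prime → q ∣ N → q ∈ S) ∧
        ∃ t : (AlgebraicClosure K)ˣ, (∃ n : ℕ, 1 ≤ n ∧ t ^ n = 1) ∧
          ∃ x ∈ Λ, γ ^ N * t = Units.map (algebraMap K (AlgebraicClosure K)).toMonoidHom x) →
      ∀ a : (AlgebraicClosure K)ˣ, (a : AlgebraicClosure K) ∈ fieldOf K Γ → a ∉ sat Γ →
        c ≤ absLogHeight₁ (a : AlgebraicClosure K) := by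
  classical
  obtain ⟨Λ', hΛ'fg, hΛ'⟩ := sat_fg K Λ hΛ
  obtain ⟨r, b, hb, hgen, hind⟩ := sat_basis Λ' hΛ'fg
  have hb0 : ∀ i, (fun i => ((b i : Kˣ) : K)) i ≠ 0 := fun i => (b i).ne_zero
  have hD : ∀ p ∈ S, ∃ (_ : Fact p.Prime) (ι : AlgebraicClosure K →+* PadicAlgCl p)
      (v : PadicAlgCl p), PData K (AlgebraicClosure K) p (PadicAlgCl p)
        (fun i => ((b i : Kˣ) : K)) ι v := by
    intro p hp
    obtain ⟨hp2, hF, φ, hφ, hunit, hcase⟩ := hA p hp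
    obtain ⟨ι, v, hD⟩ := pdata_of (Ω := AlgebraicClosure K) p hp2 Λ Λ' hΛ' b hb hgen hind φ hφ
      hunit hcase
    exact ⟨hF, ι, v, hD⟩
  have hprime : ∀ p ∈ S, p.Prime := by
    intro p hp
    obtain ⟨_, hF, _⟩ := hA p hp
    exact hF.out
  obtain ⟨c1, hc1, h1⟩ := rad_tower S hD
  obtain ⟨p0, hp0⟩ := hS
  have hR : 1 ≤ ∏ q ∈ S, q := Finset.prod_pos fun q hq => (hprime q hq).pos
  obtain ⟨κ, hκ, hκ'⟩ := base_bog (Ω := AlgebraicClosure K) (fun i => ((b i : Kˣ) : K))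
    (∏ q ∈ S, q) hR p0 (hprime p0 hp0)
  obtain ⟨c2, hc2, h2⟩ := base_final (Ω := AlgebraicClosure K) (fun i => ((b i : Kˣ) : K)) hb0 κ hκ
  refine ⟨min c1 c2, lt_min hc1 hc2, ?_⟩
  intro Γ hΛΓ hΓ a ha hasat
  by_contra hlt
  push Not at hlt
  obtain ⟨n, N, hn, hN, hnS, hNS, haRF⟩ := rad_cover (S := (S : Set ℕ)) hb0
    {y | ∃ γ ∈ Γ, y = (γ : AlgebraicClosure K)} (by
      rintro _ ⟨γ, hγ, rfl⟩
      exact gam_of_mem K Λ Λ' hΛ' b hgen S γ (hΓ γ hγ)) a ha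
  have hone : (1 : AlgebraicClosure K) ∈
      GammaS (AlgebraicClosure K) (fun i => ((b i : Kˣ) : K)) (S : Set ℕ) :=
    gam_of_pow 1 le_rfl (fun q hq hq1 => absurd (Nat.dvd_one.1 hq1) hq.one_lt.ne') 0 (by simp)
  obtain ⟨γ', hγ', y', hy', hy'0, hay⟩ := h1 n hn (fun q hq => hnS q hq (hprime q hq)) N hN hNS
    1 a hone haRF a.ne_zero (by rw [one_mul]; exact lt_of_lt_of_le hlt (min_le_left _ _))
  have hnd := not_div_of_not_sat K Λ Λ' hΛ' b hb Γ hΛΓ a hasat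
  have h3 := h2 (RF (AlgebraicClosure K) (fun i => ((b i : Kˣ) : K)) n (∏ q ∈ S, q))
    (fun x hx hx0 hxt => hκ' n hn (hnS p0 hp0 (hprime p0 hp0)) x hx hx0 hxt) γ' y'
    (gam_div hγ') hy' hy'0 (by rw [← hay, one_mul]; exact hnd)
  rw [← hay, one_mul] at h3
  exact absurd (lt_of_lt_of_le hlt (min_le_right _ _)) (not_lt.2 h3)

end Pool.Agent.H72.RM
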