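import Pool.Agent.H72.RM.Full
import Pool.Agent.H72.RM.CycW
import Pool.Agent.H72.RM.Um

/-!
# Module FullW: the Galois group of `W(ζ, v^(1/p^m))` over `W = Wnr p C`

Apply `full` with `k = Wnr p C`, `Ω = C`, `r = 1`, `b = fun _ => ⟨v, hv⟩`, `F = ⊥`,
`β = fun _ => vm`, `a = fun _ => a`.
`cyc`: from `cyc_W`; an automorphism `σ : C ≃ₐ[ℚ_[p]] C` fixing `tame p C` fixes `Wnr p C` pointwise
(`fixed_of_mem_adjoin`), so it is an automorphism over `Wnr p C` (`AlgEquiv.ofRingEquiv` or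
`{ σ with commutes' := _ }`); conversely restrict scalars.
`ind`: let `y ∈ W`, `y^p = v^n`, `n : ℤ`, `p ∤ n`. Bezout `i n + j p = 1`: `v = v^(i n) v^(j p) =
(y^i v^j)^p =: z^p`, `z ∈ W`. `norm_root_sub_one` with `m = 1`: `‖z - 1‖^p = 1/p`; `z ≠ 1` and
`‖z - 1‖ = p^k`, `k : ℤ`, by `unr_value`, so `p k = -1`, a contradiction.
-/

set_option autoImplicit false
set_option linter.unusedSectionVars false

open IntermediateField

namespace Pool.Agent.H72.RM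

variable {p : ℕ} [Fact p.Prime] {C : Type} [NormedField C] [NormedAlgebra ℚ_[p] C]
  [IsUltrametricDist C] [IsAlgClosed C] [Algebra.IsAlgebraic ℚ_[p] C] [IsoEnv p C]

theorem full_W (hp2 : p ≠ 2) (m : ℕ) (ζ : C) (hζ : IsPrimitiveRoot ζ (p ^ m)) (v vm : C)
    (hv : v ∈ Wnr p C) (hv1 : ‖v - 1‖ = 1 / (p : ℝ)) (hvm : vm ^ (p ^ m) = v) (h : ℕ)
    (hh : Nat.Coprime h p) (a : ℕ) :
    ∃ σ : C ≃ₐ[ℚ_[p]] C, (∀ ω ∈ tame p C, σ ω = ω) ∧ σ ζ = ζ ^ h ∧ σ vm = ζ ^ a * vm := by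
  have : CharZero C := charZero_C p C
  have hp : p.Prime := Fact.out
  have hpR : (1 : ℝ) < p := by exact_mod_cast hp.one_lt
  have hp0 : (0 : ℝ) < p := by linarith
  have hinv : (1 : ℝ) / p < 1 := by
    rw [div_lt_one hp0]
    exact hpR
  have hv0 : v ≠ 0 := by
    rintro rfl
    rw [zero_sub, norm_neg, norm_one] at hv1
    linarith
  have hbv : (⟨v, hv⟩ : Wnr p C) ≠ 0 := fun h0 => hv0 (congrArg Subtype.val h0)
  have hind : ∀ (n : Fin 1 → ℤ) (y : Wnr p C),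
      y ^ p = ∏ i, ((fun _ => ⟨v, hv⟩ : Fin 1 → Wnr p C) i) ^ (n i) → ∀ i, (p : ℤ) ∣ n i := by
    intro n y hy i
    have hi : i = 0 := Subsingleton.elim _ _
    subst hi
    rw [Fin.prod_univ_one] at hy
    by_contra hn
    have hyC : (y : C) ^ p = v ^ (n 0) := by
      have h1 := congrArg (algebraMap (Wnr p C) C) hy
      rw [map_pow, map_zpow₀] at h1
      exact h1
    -- Bezout
    have hcop : IsCoprime (n 0) (p : ℤ) := by
      rw [isCoprime_comm]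
      exact (Prime.coprime_iff_not_dvd (Nat.prime_iff_prime_int.1 hp)).2 hn
    obtain ⟨i, j, hij⟩ := hcop
    have hy0 : (y : C) ≠ 0 := by
      intro h0
      rw [h0, zero_pow hp.ne_zero] at hyC
      exact zpow_ne_zero _ hv0 hyC.symm
    set z : C := (y : C) ^ i * v ^ j with hz
    have hzW : z ∈ Wnr p C := mul_mem (zpow_mem y.2 i) (zpow_mem hv j)
    have hzp : z ^ (p ^ 1) = v := by
      rw [pow_one, hz, mul_pow, ← zpow_natCast ((y : C) ^ i) p, ← zpow_mul, mul_comm i,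
        zpow_mul, zpow_natCast, hyC, ← zpow_natCast (v ^ j) p, ← zpow_mul, ← zpow_mul,
        ← zpow_add₀ hv0]
      have h1 : n 0 * i + j * (p : ℤ) = 1 := by
        rw [← hij]
        ring
      rw [h1, zpow_one]
    have h1 := norm_root_sub_one v hv1 1 z hzp
    rw [pow_one] at h1
    have hz1 : z - 1 ≠ 0 := by
      intro h0
      rw [h0, norm_zero, zero_pow hp.ne_zero] at h1
      have h2 : (0 : ℝ) < 1 / p := by positivity
      linarith
    obtain ⟨k, hk⟩ := unr_value (z - 1) (sub_mem hzW (one_mem _)) hz1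
    rw [hk, ← zpow_natCast, ← zpow_mul, one_div, ← zpow_neg_one] at h1
    have h3 := zpow_right_injective₀ hp0 hpR.ne' h1
    have h4 : (p : ℤ) ∣ 1 := by
      refine ⟨-k, ?_⟩
      linarith
    exact (Nat.prime_iff_prime_int.1 hp).not_isUnit (isUnit_of_dvd_one h4)
  have hF : ∀ σ : C ≃ₐ[Wnr p C] C, ∀ x ∈ (⊥ : IntermediateField (Wnr p C) C),
      σ x ∈ (⊥ : IntermediateField (Wnr p C) C) := by
    intro σ x hx
    rw [IntermediateField.mem_bot] at hx ⊢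
    obtain ⟨w, hw⟩ := hx
    refine ⟨w, ?_⟩
    rw [← hw, AlgEquiv.commutes]
  have hcyc : ∀ (m : ℕ) (ζ : C), IsPrimitiveRoot ζ (p ^ m) → ∀ h : ℕ, Nat.Coprime h p →
      ∃ σ : C ≃ₐ[Wnr p C] C, (∀ x ∈ (⊥ : IntermediateField (Wnr p C) C), σ x = x) ∧
        σ ζ = ζ ^ h := by
    intro m' ζ' hζ' h' hh'
    obtain ⟨σ, hσ1, hσ2⟩ := cyc_W (p := p) (C := C) m' ζ' hζ' h' hh'
    have hfix : ∀ x ∈ Wnr p C, σ x = x := by
      intro x hx
      exact fixed_of_mem_adjoin (tame p C) (σ : C →ₐ[ℚ_[p]] C) (fun y hy => hσ1 y hy) x hx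
    refine ⟨{ σ.toRingEquiv with commutes' := fun w => hfix w w.2 }, fun x hx => ?_, hσ2⟩
    rw [IntermediateField.mem_bot] at hx
    obtain ⟨w, hw⟩ := hx
    rw [← hw]
    exact hfix w w.2
  obtain ⟨σ, -, hσ2, hσ3⟩ := full (k := Wnr p C) (Ω := C) p hp2 (r := 1)
    (fun _ => ⟨v, hv⟩) (fun _ => hbv) hind ⊥ hF hcyc m ζ hζ (fun _ => vm) (fun _ => hvm) h hh
    (fun _ => a)
  refine ⟨σ.restrictScalars ℚ_[p], fun ω hω => ?_, hσ2, hσ3 0⟩
  exact σ.commutes ⟨ω, tame_le_Wnr hω⟩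

end Pool.Agent.H72.RM
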