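import Pool.Agent.H72.RM.Defs

/-!
# Module Kum: descent of `p`-th powers along abelian extensions

Every `ρ : Ω ≃ₐ[k] Ω` maps `ξ` to a power `ξ ^ h`, `h` prime to `p` (`IsPrimitiveRoot.autToPow`-like, or
by hand: `ρ ξ` is again a primitive `p`-th root of unity), and `ρ x = ξ ^ c x` for some `c`, because
`(ρ x)^p = x^p` (`x ≠ 0`; if `x = 0` take `y = 0`). Write `h(ρ), c(ρ)` modulo `p`. Since `σ` and `ρ`
commute on `x ∈ F'`:  `σ (ρ x) = ξ^(h(σ) c(ρ) + c(σ)) x` and `ρ (σ x) = ξ^(h(ρ) c(σ) + c(ρ)) x`, so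
`(h(σ) - 1) c(ρ) = (h(ρ) - 1) c(σ)` in `ZMod p`. As `h(σ) ≠ 1`, put `κ = c(σ) / (h(σ) - 1)` in `ZMod p`:
`c(ρ) = (h(ρ) - 1) κ` for all `ρ`. Hence `y = x ξ^(-κ)` satisfies `ρ y = y` for all `ρ`, so `y ∈ k`
(`mem_of_fixed` with `F = ⊥`), and `y^p = x^p = b`.
-/

set_option autoImplicit false
set_option linter.unusedSectionVars false

open IntermediateField

namespace Pool.Agent.H72.RM

theorem kum_descend {k Ω : Type} [Field k] [Field Ω] [Algebra k Ω] [IsGalois k Ω] (p : ℕ)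
    [Fact p.Prime] (F' : IntermediateField k Ω) (ξ : Ω) (hξ : IsPrimitiveRoot ξ p)
    (σ : Ω ≃ₐ[k] Ω) (hσ : σ ξ ≠ ξ) (hcomm : ∀ ρ : Ω ≃ₐ[k] Ω, ∀ x ∈ F', σ (ρ x) = ρ (σ x))
    (x : Ω) (hx : x ∈ F') (b : k) (hb : x ^ p = algebraMap k Ω b) : ∃ y : k, y ^ p = b := by
  have hp : p.Prime := Fact.out
  have hp0 : p ≠ 0 := hp.ne_zero
  have : NeZero p := ⟨hp0⟩
  by_cases hx0 : x = 0
  · refine ⟨0, ?_⟩
    rw [hx0, zero_pow hp0] at hb
    rw [zero_pow hp0]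
    have := (map_eq_zero (algebraMap k Ω)).1 hb.symm
    exact this.symm
  -- powers of `ξ`
  have hpow : ∀ a b : ℕ, ξ ^ a = ξ ^ b ↔ (a : ZMod p) = (b : ZMod p) := by
    intro a b
    have hmod : ∀ n : ℕ, ξ ^ (n % p) = ξ ^ n := by
      intro n
      conv_rhs => rw [← Nat.mod_add_div n p, pow_add, pow_mul, hξ.pow_eq_one, one_pow, mul_one]
    rw [ZMod.natCast_eq_natCast_iff, Nat.ModEq, ← hmod a, ← hmod b]
    constructor
    · intro h1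
      exact hξ.pow_inj (Nat.mod_lt _ hp.pos) (Nat.mod_lt _ hp.pos) h1
    · intro h1
      rw [h1]
  have hh : ∀ ρ : Ω ≃ₐ[k] Ω, ∃ h : ℕ, ρ ξ = ξ ^ h := by
    intro ρ
    have h1 : (ρ ξ) ^ p = 1 := by rw [← map_pow, hξ.pow_eq_one, map_one]
    obtain ⟨i, -, hi⟩ := hξ.eq_pow_of_pow_eq_one h1
    exact ⟨i, hi.symm⟩
  have hc : ∀ ρ : Ω ≃ₐ[k] Ω, ∃ c : ℕ, ρ x = ξ ^ c * x := by
    intro ρ
    have h1 : (ρ x / x) ^ p = 1 := by
      rw [div_pow, ← map_pow, hb, ρ.commutes, ← hb]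
      exact div_self (pow_ne_zero p hx0)
    obtain ⟨i, -, hi⟩ := hξ.eq_pow_of_pow_eq_one h1
    exact ⟨i, by rw [hi, div_mul_cancel₀ _ hx0]⟩
  choose h hh using hh
  choose c hc using hc
  -- commutation
  have key : ∀ ρ : Ω ≃ₐ[k] Ω,
      ((h σ : ZMod p) - 1) * (c ρ : ZMod p) = ((h ρ : ZMod p) - 1) * (c σ : ZMod p) := by
    intro ρ
    have h1 := hcomm ρ x hx
    rw [hc ρ, hc σ, map_mul, map_mul, map_pow, map_pow, hh σ, hh ρ, hc ρ, hc σ] at h1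
    rw [← mul_assoc, ← mul_assoc] at h1
    have h2 := mul_right_cancel₀ hx0 h1
    rw [← pow_mul, ← pow_mul, ← pow_add, ← pow_add] at h2
    have h3 := (hpow _ _).1 h2
    push_cast at h3
    linear_combination h3
  have hσ1 : (h σ : ZMod p) - 1 ≠ 0 := by
    intro h0
    apply hσ
    rw [hh σ]
    have h1 : (h σ : ZMod p) = ((1 : ℕ) : ZMod p) := by
      rw [Nat.cast_one]
      exact sub_eq_zero.1 h0
    have h2 := (hpow _ _).2 h1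
    rw [pow_one] at h2
    exact h2
  -- the exponent
  set κ : ZMod p := (c σ : ZMod p) / ((h σ : ZMod p) - 1) with hκ
  have hcρ : ∀ ρ : Ω ≃ₐ[k] Ω, (c ρ : ZMod p) = ((h ρ : ZMod p) - 1) * κ := by
    intro ρ
    rw [hκ]
    field_simp
    linear_combination key ρ
  obtain ⟨m, hm⟩ : ∃ m : ℕ, (m : ZMod p) = -κ := ⟨(-κ).val, ZMod.natCast_zmod_val _⟩
  have hfix : ∀ ρ : Ω ≃ₐ[k] Ω, ρ (x * ξ ^ m) = x * ξ ^ m := by
    intro ρ
    rw [map_mul, map_pow, hh ρ, hc ρ, ← pow_mul]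
    have h1 : ξ ^ (c ρ + h ρ * m) = ξ ^ m := by
      rw [hpow]
      push_cast
      rw [hm, hcρ ρ]
      ring
    calc ξ ^ c ρ * x * ξ ^ (h ρ * m) = x * ξ ^ (c ρ + h ρ * m) := by rw [pow_add]; ring
      _ = x * ξ ^ m := by rw [h1]
  have hmem : x * ξ ^ m ∈ (⊥ : IntermediateField k Ω) := mem_of_fixed ⊥ _ fun ρ _ => hfix ρ
  rw [IntermediateField.mem_bot] at hmem
  obtain ⟨y, hy⟩ := hmem
  refine ⟨y, ?_⟩
  apply (algebraMap k Ω).injective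
  rw [map_pow, hy, mul_pow, ← pow_mul, mul_comm m p, pow_mul, hξ.pow_eq_one, one_pow, mul_one, hb]

end Pool.Agent.H72.RM
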