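import Mathlib

/-!
# Module Pow: `p`-th powers bring elements together

`step`: `‖u^p - w^p‖ ≤ max (‖u - w‖^p) (‖u - w‖ / p)` for `‖u‖, ‖w‖ ≤ 1`: write `u = w + d`,
`u^p - w^p = d^p + p d z`, `‖z‖ ≤ 1` (binomial theorem, `exists_add_pow_prime_eq`).
Let `e_i = ‖u^(p^i) - w^(p^i)‖`, so `e_(i+1) ≤ max (e_i^p) (e_i / p)` and `e_i ≤ 1`.
(a) `e_2 ^ (p-1) ≤ 1/p`: given `e_0^(p(p+1)) ≤ 1/p`. If at some stage `i ≤ 1` `e_i^(p-1) ≤ 1/p` then also
`e_(i+1) ≤ e_i / p` (as `e_i^p = e_i e_i^(p-1)`), and `e_2^(p-1) ≤ e_i^(p-1) ≤ 1/p`. Otherwise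
`e_1 ≤ e_0^p`, `e_2 ≤ e_1^p ≤ e_0^(p^2)`, and `e_0^(p^2 (p-1)) ≤ e_0^(p(p+1)) ≤ 1/p` because
`p (p-1) ≥ p + 1` (`p ≥ 3`) and `e_0 ≤ 1`.
(b) For `i ≥ 2`, `e_i^(p-1) ≤ 1/p` implies `e_(i+1) ≤ e_i / p` and again `e_(i+1)^(p-1) ≤ 1/p`. So
`e_s ≤ (1/p)^(s-2) e_2 ≤ (1/p)^(s-2)`.
-/

set_option autoImplicit false

namespace Pool.Agent.H72.RM

/-- the closed unit ball of an ultrametric normed field as a subring -/
private def ball (C : Type) [NormedField C] [IsUltrametricDist C] : Subring C where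
  carrier := {x | ‖x‖ ≤ 1}
  mul_mem' := by
    intro a b ha hb
    change ‖a * b‖ ≤ 1
    rw [norm_mul]
    exact mul_le_one₀ ha (norm_nonneg _) hb
  one_mem' := by change ‖(1 : C)‖ ≤ 1; rw [norm_one]
  add_mem' := by
    intro a b ha hb
    exact (IsUltrametricDist.norm_add_le_max a b).trans (max_le ha hb)
  zero_mem' := by change ‖(0 : C)‖ ≤ 1; rw [norm_zero]; exact zero_le_one
  neg_mem' := by
    intro a ha
    change ‖-a‖ ≤ 1
    rw [norm_neg]; exact ha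

private theorem step {C : Type} [NormedField C] [IsUltrametricDist C] (p : ℕ) [Fact p.Prime]
    (hpC : ‖(p : C)‖ = 1 / (p : ℝ)) (u w : C) (hu : ‖u‖ ≤ 1) (hw : ‖w‖ ≤ 1) :
    ‖u ^ p - w ^ p‖ ≤ max (‖u - w‖ ^ p) (‖u - w‖ * (1 / (p : ℝ))) := by
  have hp : p.Prime := Fact.out
  let U : ball C := ⟨u, hu⟩
  let W : ball C := ⟨w, hw⟩
  obtain ⟨r, hr⟩ := exists_add_pow_prime_eq hp W (U - W)
  have h1 := congrArg (fun x : ball C => (x : C)) hr
  simp only [add_sub_cancel] at h1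
  have h2 : u ^ p = w ^ p + (u - w) ^ p + (p : C) * w * (u - w) * (r : C) := by
    have := h1
    push_cast at this
    exact this
  have h3 : u ^ p - w ^ p = (u - w) ^ p + (p : C) * w * (u - w) * (r : C) := by
    rw [h2]; ring
  rw [h3]
  refine (IsUltrametricDist.norm_add_le_max _ _).trans (max_le_max ?_ ?_)
  · rw [norm_pow]
  · rw [norm_mul, norm_mul, norm_mul, hpC]
    have hr1 : ‖(r : C)‖ ≤ 1 := r.2
    have hp0 : (0 : ℝ) ≤ 1 / (p : ℝ) := by positivity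
    have hd : 0 ≤ ‖u - w‖ := norm_nonneg _
    calc 1 / (p : ℝ) * ‖w‖ * ‖u - w‖ * ‖(r : C)‖ ≤ 1 / (p : ℝ) * 1 * ‖u - w‖ * 1 := by
          gcongr
      _ = ‖u - w‖ * (1 / (p : ℝ)) := by ring

theorem pow_close {C : Type} [NormedField C] [IsUltrametricDist C] (p : ℕ) [Fact p.Prime]
    (hp2 : p ≠ 2) (hpC : ‖(p : C)‖ = 1 / (p : ℝ)) (u w : C) (hu : ‖u‖ ≤ 1) (hw : ‖w‖ ≤ 1)
    (h : ‖u - w‖ ^ (p * (p + 1)) ≤ 1 / (p : ℝ)) (s : ℕ) (hs : 2 ≤ s) :
    ‖u ^ (p ^ s) - w ^ (p ^ s)‖ ≤ (1 / (p : ℝ)) ^ (s - 2) := by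
  have hp : p.Prime := Fact.out
  have hp3 : 3 ≤ p := by
    have := hp.two_le
    omega
  set q : ℝ := 1 / (p : ℝ) with hq
  have hq0 : 0 ≤ q := by positivity
  have hq1 : q ≤ 1 := by
    rw [hq, div_le_one (by exact_mod_cast hp.pos)]
    exact_mod_cast hp.one_lt.le
  set E : ℕ → ℝ := fun i => ‖u ^ (p ^ i) - w ^ (p ^ i)‖ with hE
  have hE0 : ∀ i, 0 ≤ E i := fun i => norm_nonneg _
  have hE1 : ∀ i, E i ≤ 1 := by
    intro i
    rw [hE]; simp only; rw [sub_eq_add_neg]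
    refine (IsUltrametricDist.norm_add_le_max _ _).trans (max_le ?_ ?_)
    · rw [norm_pow]; exact pow_le_one₀ (norm_nonneg _) hu
    · rw [norm_neg, norm_pow]; exact pow_le_one₀ (norm_nonneg _) hw
  have hS : ∀ i, E (i + 1) ≤ max (E i ^ p) (E i * q) := by
    intro i
    have h1 := step p hpC (u ^ (p ^ i)) (w ^ (p ^ i))
      (by rw [norm_pow]; exact pow_le_one₀ (norm_nonneg _) hu)
      (by rw [norm_pow]; exact pow_le_one₀ (norm_nonneg _) hw)
    rw [← pow_mul, ← pow_mul, ← pow_succ] at h1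
    exact h1
  have hpp : p = (p - 1) + 1 := by omega
  have hL : ∀ i, E i ^ (p - 1) ≤ q → E (i + 1) ≤ E i * q := by
    intro i hi
    refine (hS i).trans (max_le ?_ (le_refl _))
    calc E i ^ p = E i * E i ^ (p - 1) := by
          conv_lhs => rw [hpp, pow_succ]
          ring
      _ ≤ E i * q := mul_le_mul_of_nonneg_left hi (hE0 i)
  have hdown : ∀ i, E i ^ (p - 1) ≤ q → E (i + 1) ^ (p - 1) ≤ q := by
    intro i hi
    have h1 : E (i + 1) ≤ E i := (hL i hi).trans (mul_le_of_le_one_right (hE0 i) hq1)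
    exact (pow_le_pow_left₀ (hE0 _) h1 _).trans hi
  have hup : ∀ i, ¬ E i ^ (p - 1) ≤ q → E (i + 1) ≤ E i ^ p := by
    intro i hi
    push Not at hi
    refine (hS i).trans (max_le (le_refl _) ?_)
    calc E i * q ≤ E i * E i ^ (p - 1) := mul_le_mul_of_nonneg_left hi.le (hE0 i)
      _ = E i ^ p := by
        conv_rhs => rw [hpp, pow_succ]
        ring
  have hE00 : E 0 ^ (p * (p + 1)) ≤ q := by
    have : E 0 = ‖u - w‖ := by simp [hE]
    rw [this]; exact h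
  have h2 : E 2 ^ (p - 1) ≤ q := by
    by_cases c0 : E 0 ^ (p - 1) ≤ q
    · exact hdown 1 (hdown 0 c0)
    · by_cases c1 : E 1 ^ (p - 1) ≤ q
      · exact hdown 1 c1
      · have e1 := hup 0 c0
        have e2 := hup 1 c1
        have e3 : E 2 ≤ E 0 ^ (p * p) := by
          refine e2.trans ?_
          rw [pow_mul]
          exact pow_le_pow_left₀ (hE0 1) e1 p
        calc E 2 ^ (p - 1) ≤ (E 0 ^ (p * p)) ^ (p - 1) := pow_le_pow_left₀ (hE0 2) e3 _
          _ = E 0 ^ (p * p * (p - 1)) := by rw [← pow_mul]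
          _ ≤ E 0 ^ (p * (p + 1)) := by
            apply pow_le_pow_of_le_one (hE0 0) (hE1 0)
            rw [mul_assoc]
            apply Nat.mul_le_mul_left
            obtain ⟨k, rfl⟩ : ∃ k, p = k + 3 := ⟨p - 3, by omega⟩
            rw [show k + 3 - 1 = k + 2 by omega]
            nlinarith
          _ ≤ q := hE00
  have main : ∀ s, 2 ≤ s → E s ^ (p - 1) ≤ q ∧ E s ≤ q ^ (s - 2) := by
    intro s hs
    induction s, hs using Nat.le_induction with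
    | base => exact ⟨h2, by simpa using hE1 2⟩
    | succ s hs ih =>
      refine ⟨hdown s ih.1, (hL s ih.1).trans ?_⟩
      rw [show s + 1 - 2 = (s - 2) + 1 by omega, pow_succ]
      exact mul_le_mul_of_nonneg_right ih.2 hq0
  exact (main s hs).2

end Pool.Agent.H72.RM
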