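import Pool.Agent.H72.RM.MetricB
import Pool.Agent.H72.RM.Pow
import Pool.Agent.H4.RR.AbsHeight

/-!
# Module MStep: the metric step for one automorphism

`E ⊂ Ω` is a finite normal extension of the number field `K`, `F ≤ E` normal, `θ` an automorphism of
`Ω / K`, `τ : C ≃ₐ[ℚ_[p]] C` close to the identity on `ι(F)`, `J` a finite index type and `ρ : J → Gal`
such that for every `σ` some `σ' = ρ c * σ` is *good*:
`ι (σ' (θ (σ'⁻¹ x))) = τ (ι x)` for all `x ∈ F`.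
`α = γ y`, `q = p^s`. Let `G = E ≃ₐ[K] E`, `|G| = [E : K]` (`IsGalois K E`; restrictions
`AlgEquiv.restrictNormalHom E`). Let `YG ⊂ G` be the set of the restrictions of the good `σ'`, and `Y` the
set of the embeddings `x ↦ ι (g x)`, `g ∈ YG`; `g ↦ ι ∘ g` is injective, so `|Y| = |YG|`. Every `g ∈ G` is
the restriction of some `σ`, and `(ρ c)|_E g ∈ YG` for some `c : J`; so `|G| ≤ |J| |YG|`.
For `g ∈ YG`, restriction of `σ'`: put `κ x = ι (σ' x)`, `x ∈ E`; `t = κ y = ι (σ' y)`, where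
`σ' y ∈ F`. Then `κ (θ y) = ι (σ' θ σ'⁻¹ (σ' y)) = τ (ι (σ' y)) = τ t`. Let `η = θ γ / γ`, a root of unity
(`hη`). `κ α = κ γ t`, `κ (θ α) = κ (η γ) τ t`, `κ (η α) = κ (η γ) t`, with `‖κ γ‖ = 1`, `‖κ η‖ = 1`,
`‖τ t‖ = ‖t‖` (`IsoEnv.iso`). If `‖κ α‖ = ‖t‖ ≤ 1` then
`(κ (θ α))^q - (κ (η α))^q = κ(ηγ)^q ((τ t)^q - t^q)` has norm `≤ (1/p)^(s-2)` by `hLL` (`x = σ' y`) and
`pow_close` (`norm_p`). If `‖κ α‖ ≥ 1` the same with `y⁻¹`, `t⁻¹`.
`metric` (in the number field `E`, `θ` restricted to `E`, `B = (1/p)^(s-2)`; `hne` gives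
`(θ α)^q ≠ (η α)^q`) gives
`0 ≤ n log 2 + 2 q logHeight₁ α - |Y| (s-2) log p`, `n = finrank ℚ E = finrank ℚ K * |G|`, and
`logHeight₁ α = n absLogHeight₁ α` (`absLogHeight_eq`, H4 RR AbsHeight). So
`|G|/|J| (s-2) log p ≤ n (log 2 + 2 q h)`; divide by `|G|` and multiply by `|J|`.
-/

set_option autoImplicit false
set_option linter.unusedSectionVars false

open NumberField IntermediateField

namespace Pool.Agent.H72.RM

variable {p : ℕ} [Fact p.Prime] {C : Type} [NormedField C] [NormedAlgebra ℚ_[p] C]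
  [IsUltrametricDist C] [IsAlgClosed C] [IsoEnv p C]
  {K Ω : Type} [Field K] [NumberField K] [Field Ω] [CharZero Ω] [Algebra K Ω] [IsGalois K Ω]

theorem mstep (hp2 : p ≠ 2) (ι : Ω →+* C) (E F : IntermediateField K Ω) [FiniteDimensional K E]
    (hE : ∀ σ : Ω ≃ₐ[K] Ω, ∀ x ∈ E, σ x ∈ E) (hF : ∀ σ : Ω ≃ₐ[K] Ω, ∀ x ∈ F, σ x ∈ F)
    (hFE : F ≤ E) (θ : Ω ≃ₐ[K] Ω) (τ : C ≃ₐ[ℚ_[p]] C)
    (hLL : ∀ x ∈ F, ‖ι x‖ ≤ 1 → ‖τ (ι x) - ι x‖ ^ (p * (p + 1)) ≤ 1 / (p : ℝ))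
    (J : Type) [Fintype J] (ρ : J → (Ω ≃ₐ[K] Ω))
    (hρ : ∀ σ : Ω ≃ₐ[K] Ω, ∃ c : J, ∀ x ∈ F, ι ((ρ c * σ) (θ ((ρ c * σ).symm x))) = τ (ι x))
    (γ y : Ω) (hγE : γ ∈ E) (hy : y ∈ F) (hγ0 : γ ≠ 0) (hy0 : y ≠ 0)
    (hγ1 : ∀ σ : Ω ≃ₐ[K] Ω, ‖ι (σ γ)‖ = 1) (hη : ∃ n : ℕ, 1 ≤ n ∧ (θ γ) ^ n = γ ^ n)
    (s : ℕ) (hs : 2 ≤ s) (hne : (θ y) ^ (p ^ s) ≠ y ^ (p ^ s)) :
    ((s : ℝ) - 2) * Real.log p ≤ (Fintype.card J : ℝ) * (Module.finrank ℚ K : ℝ) *
      (2 * (p : ℝ) ^ s * absLogHeight₁ (γ * y) + Real.log 2) := by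
  classical
  have hpp : p.Prime := Fact.out
  have hp1 : (1 : ℝ) < p := by exact_mod_cast hpp.one_lt
  have hN : Normal K E := by
    rw [IntermediateField.normal_iff_forall_map_le']
    intro σ x hx
    obtain ⟨z, hz, rfl⟩ := hx
    exact hE σ z hz
  have hNF : NumberField E := NumberField.of_module_finite K E
  have hGal : IsGalois K E := ⟨⟩
  -- the restriction of `θ`
  set θE : E ≃+* E := (θ.restrictNormal E).toRingEquiv with hθE
  have hθE' : ∀ x : E, ((θE x : E) : Ω) = θ (x : Ω) := fun x =>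
    AlgEquiv.restrictNormal_commutes θ E x
  let good : (E ≃ₐ[K] E) → Prop := fun g => ∃ σ' : Ω ≃ₐ[K] Ω,
    (∀ x ∈ F, ι (σ' (θ (σ'.symm x))) = τ (ι x)) ∧ ∀ x : E, ((g x : E) : Ω) = σ' (x : Ω)
  let YG : Finset (E ≃ₐ[K] E) := Finset.univ.filter good
  let mk : (E ≃ₐ[K] E) → (E →+* C) := fun g => (ι.comp (algebraMap E Ω)).comp (g : E →+* E)
  have hmk : ∀ g (x : E), mk g x = ι ((g x : E) : Ω) := fun g x => rfl
  have hmkinj : Function.Injective mk := by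
    intro g g' hgg
    apply AlgEquiv.ext
    intro x
    have h1 := congrArg (fun f : E →+* C => f x) hgg
    simp only [hmk] at h1
    exact Subtype.ext (ι.injective h1)
  let Y : Finset (E →+* C) := YG.image mk
  have hYcard : Y.card = YG.card := Finset.card_image_of_injective _ hmkinj
  -- counting
  have hcount : Fintype.card (E ≃ₐ[K] E) ≤ Fintype.card J * YG.card := by
    have hch : ∀ g : E ≃ₐ[K] E, ∃ c : J, ((ρ c).restrictNormal E * g) ∈ YG := by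
      intro g
      obtain ⟨c, hc⟩ := hρ (g.liftNormal Ω)
      refine ⟨c, ?_⟩
      rw [Finset.mem_filter]
      refine ⟨Finset.mem_univ _, ρ c * g.liftNormal Ω, hc, fun x => ?_⟩
      have h1 : ((((ρ c).restrictNormal E * g) x : E) : Ω) = ρ c ((g x : E) : Ω) :=
        AlgEquiv.restrictNormal_commutes (ρ c) E (g x)
      rw [h1]
      have h2 : (g.liftNormal Ω) (x : Ω) = ((g x : E) : Ω) := AlgEquiv.liftNormal_commutes g Ω x
      rw [AlgEquiv.mul_apply, h2]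
    choose c hc using hch
    have hinj : Function.Injective (fun g : E ≃ₐ[K] E =>
        ((c g, ⟨(ρ (c g)).restrictNormal E * g, hc g⟩) : J × YG)) := by
      intro g g' hgg
      simp only [Prod.mk.injEq, Subtype.mk.injEq] at hgg
      obtain ⟨h1, h2⟩ := hgg
      rw [h1] at h2
      exact mul_left_cancel h2
    have h3 := Fintype.card_le_of_injective _ hinj
    rwa [Fintype.card_prod, Fintype.card_coe] at h3
  -- the data of `metric`
  have hθγ0 : θ γ ≠ 0 := by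
    intro h
    exact hγ0 (by simpa using h)
  set α : E := ⟨γ * y, E.mul_mem hγE (hFE hy)⟩ with hα
  set η : E := ⟨θ γ / γ, E.div_mem (hE θ γ hγE) hγE⟩ with hηdef
  have hαΩ : ((α : E) : Ω) = γ * y := rfl
  have hηΩ : ((η : E) : Ω) = θ γ / γ := rfl
  have hα0 : α ≠ 0 := by
    intro h
    have h1 := congrArg (fun z : E => (z : Ω)) h
    simp only [hαΩ] at h1
    exact mul_ne_zero hγ0 hy0 h1
  have hηα : (((η * α : E)) : Ω) = θ γ * y := by
    rw [MulMemClass.coe_mul, hαΩ, hηΩ]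
    field_simp
  have hη1 : ∃ n : ℕ, 1 ≤ n ∧ η ^ n = 1 := by
    obtain ⟨n, hn, h⟩ := hη
    refine ⟨n, hn, ?_⟩
    apply Subtype.ext
    rw [SubmonoidClass.coe_pow, hηΩ, div_pow, h, div_self (pow_ne_zero _ hγ0)]
    rfl
  have hne' : (θE α) ^ (p ^ s) ≠ (η * α) ^ (p ^ s) := by
    intro h
    have h1 := congrArg (fun z : E => (z : Ω)) h
    simp only [SubmonoidClass.coe_pow] at h1
    rw [hθE', hηα, hαΩ, map_mul, mul_pow, mul_pow] at h1
    exact hne (mul_left_cancel₀ (pow_ne_zero _ hθγ0) h1)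
  have hgood : ∀ κ ∈ Y, ∃ (v : C) (w : Ω), w ∈ F ∧ w ≠ 0 ∧ ‖v‖ = 1 ∧ ‖κ α‖ = ‖ι w‖ ∧
      κ (θE α) = v * τ (ι w) ∧ κ (η * α) = v * ι w := by
    intro κ hκ
    obtain ⟨g, hg, rfl⟩ := Finset.mem_image.1 hκ
    obtain ⟨σ', h1, h2⟩ := (Finset.mem_filter.1 hg).2
    refine ⟨ι (σ' (θ γ)), σ' y, hF σ' y hy, ?_, hγ1 (σ' * θ), ?_, ?_, ?_⟩
    · intro h
      exact hy0 (by simpa using h)
    · rw [hmk, h2, hαΩ, map_mul, map_mul, norm_mul, hγ1 σ', one_mul]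
    · rw [hmk, h2, hθE', hαΩ, map_mul, map_mul, map_mul, ← h1 (σ' y) (hF σ' y hy),
        AlgEquiv.symm_apply_apply]
    · rw [hmk, h2, hηα, map_mul, map_mul]
  have hB0 : (0 : ℝ) < (1 / (p : ℝ)) ^ (s - 2) := by positivity
  have hmet := metric (p := p) E α hα0 θE η hη1 (p ^ s) hne' Y ((1 / (p : ℝ)) ^ (s - 2)) hB0
    (fun κ hκ => by
      obtain ⟨v, w, hw, hw0, hv, h1, h2, h3⟩ := hgood κ hκ
      rw [h2, h1, norm_mul, hv, one_mul, IsoEnv.iso])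
    (fun κ hκ hle => by
      obtain ⟨v, w, hw, hw0, hv, h1, h2, h3⟩ := hgood κ hκ
      rw [h1] at hle
      rw [h2, h3, mul_pow, mul_pow, ← mul_sub, norm_mul, norm_pow, hv, one_pow, one_mul]
      exact pow_close p hp2 norm_p _ _ (by rw [IsoEnv.iso]; exact hle) hle (hLL w hw hle) s hs)
    (fun κ hκ hle => by
      obtain ⟨v, w, hw, hw0, hv, h1, h2, h3⟩ := hgood κ hκ
      rw [h1] at hle
      have h4 : ‖ι w⁻¹‖ ≤ 1 := by
        rw [map_inv₀, norm_inv]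
        exact inv_le_one_of_one_le₀ hle
      have h5 : (v * τ (ι w))⁻¹ = v⁻¹ * τ (ι w⁻¹) := by rw [mul_inv, map_inv₀, map_inv₀]
      have h6 : (v * ι w)⁻¹ = v⁻¹ * ι w⁻¹ := by rw [mul_inv, map_inv₀]
      rw [h2, h3, h5, h6, mul_pow, mul_pow, ← mul_sub, norm_mul, norm_pow, norm_inv, hv, inv_one,
        one_pow, one_mul]
      exact pow_close p hp2 norm_p _ _ (by rw [IsoEnv.iso]; exact h4) h4
        (hLL _ (F.inv_mem hw) h4) s hs)
  -- conclusion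
  have hh := Pool.Agent.H4.RR.absLogHeight_eq E Ω (algebraMap E Ω) α
  have hh2 : algebraMap E Ω α = γ * y := rfl
  rw [hh2] at hh
  have hn0 : 0 < Module.finrank ℚ E := Module.finrank_pos
  have hn0' : (0 : ℝ) < Module.finrank ℚ E := by exact_mod_cast hn0
  have hh3 : Height.logHeight₁ α = (Module.finrank ℚ E : ℝ) * absLogHeight₁ (γ * y) := by
    rw [hh]
    field_simp
  have hD : Module.finrank ℚ K * Module.finrank K E = Module.finrank ℚ E :=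
    Module.finrank_mul_finrank ℚ K E
  have hG : Fintype.card (E ≃ₐ[K] E) = Module.finrank K E := by
    rw [← Nat.card_eq_fintype_card]
    exact IsGalois.card_aut_eq_finrank K E
  rw [hYcard, Real.log_pow, one_div, Real.log_inv, hh3] at hmet
  rw [← hG] at hD
  have hG0 : 0 < Fintype.card (E ≃ₐ[K] E) := Fintype.card_pos
  have hG0' : (0 : ℝ) < Fintype.card (E ≃ₐ[K] E) := by exact_mod_cast hG0
  have hcount' : (Fintype.card (E ≃ₐ[K] E) : ℝ) ≤ Fintype.card J * YG.card := by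
    exact_mod_cast hcount
  have hD' : (Module.finrank ℚ K : ℝ) * Fintype.card (E ≃ₐ[K] E) = Module.finrank ℚ E := by
    exact_mod_cast hD
  rw [← hD'] at hmet
  have hs2 : ((s - 2 : ℕ) : ℝ) = (s : ℝ) - 2 := by
    rw [Nat.cast_sub hs]
    norm_num
  rw [hs2] at hmet
  push_cast at hmet
  have hs3 : (0 : ℝ) ≤ (s : ℝ) - 2 := by
    rw [← hs2]
    exact Nat.cast_nonneg _
  have hlog : 0 ≤ ((s : ℝ) - 2) * Real.log p := mul_nonneg hs3 (Real.log_nonneg hp1.le)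
  have hJ0 : (0 : ℝ) ≤ Fintype.card J := Nat.cast_nonneg _
  have key : (Fintype.card (E ≃ₐ[K] E) : ℝ) * (((s : ℝ) - 2) * Real.log p) ≤
      (Fintype.card (E ≃ₐ[K] E) : ℝ) * ((Fintype.card J : ℝ) * (Module.finrank ℚ K : ℝ) *
      (2 * (p : ℝ) ^ s * absLogHeight₁ (γ * y) + Real.log 2)) := by
    have h1 : (YG.card : ℝ) * (((s : ℝ) - 2) * Real.log p) ≤
        (Module.finrank ℚ K : ℝ) * Fintype.card (E ≃ₐ[K] E) *
          (2 * (p : ℝ) ^ s * absLogHeight₁ (γ * y) + Real.log 2) := by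
      linarith
    calc (Fintype.card (E ≃ₐ[K] E) : ℝ) * (((s : ℝ) - 2) * Real.log p)
        ≤ (Fintype.card J * YG.card) * (((s : ℝ) - 2) * Real.log p) :=
          mul_le_mul_of_nonneg_right hcount' hlog
      _ = Fintype.card J * ((YG.card : ℝ) * (((s : ℝ) - 2) * Real.log p)) := by ring
      _ ≤ Fintype.card J * ((Module.finrank ℚ K : ℝ) * Fintype.card (E ≃ₐ[K] E) *
          (2 * (p : ℝ) ^ s * absLogHeight₁ (γ * y) + Real.log 2)) :=
          mul_le_mul_of_nonneg_left h1 hJ0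
      _ = _ := by ring
  exact le_of_mul_le_mul_left key hG0'

end Pool.Agent.H72.RM
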