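import Pool.Agent.H72.RM.Defs
import Pool.Agent.H4.RR.HeightIdeal

/-!
# Module MetricA: the product formula with `p`-adic gains

`norm_int_le`: `x` is a root of a monic polynomial over `ℤ`; integers have norm `≤ 1` in `C`
(`(n : C) = algebraMap ℚ_[p] C n`, `padicNormE.norm_int_le_one`), ultrametric inequality.
`norm_max_eq_one`: `IsCoprime (span {u, v}) (span {p})`: `1 = x u + y v + z p` in `𝓞 E`, apply `ι` and
`norm_int_le`: `1 ≤ max (‖ι u‖) (‖ι v‖) (1/p)`.
`padic_prod`: let `N = Algebra.norm ℤ δ : ℤ`, nonzero. (1) `|N| = ∏_τ ‖τ δ‖` (complex embeddings; as in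
`absNorm_le_prod` of `Pool.Agent.H4.RR.HeightIdeal`). (2) `‖(N : ℚ_[p])‖ = ∏_{ι : E →+* C} ‖ι δ‖`
(`Algebra.norm_eq_prod_embeddings ℚ C`, `norm_algebraMap'`, `[IsAlgClosed C]`), and all factors are `≤ 1`,
so `‖(N : ℚ_[p])‖ ≤ B^|Y|`. (3) Let `p^a` be the exact power of `p` dividing `N`
(`‖(N : ℚ_[p])‖ = p^(-a)`, `padicNormE`/`Padic.norm_eq_zpow_neg_valuation`, `padicValInt`).
`absNorm I ∣ N` (`Ideal.absNorm_dvd_norm_of_mem`) and `absNorm I` is prime to `p` (coprimality of `I` and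
`(p)`: if `p ∣ absNorm I` then `I` is contained in a prime above `p`; or: `I + (p) = 1`, so
`absNorm I` is a unit modulo `p`, e.g. via `Ideal.absNorm` and Chinese remainder, or
`Ideal.exists_isMaximal_dvd_of_dvd_absNorm`-like lemmas; or take the quotient ring `𝓞 E / I`: `p` acts
bijectively on this finite group, so its order is prime to `p` by Cauchy), so
`absNorm I * p^a ∣ N` and `absNorm I ≤ |N| p^(-a) ≤ |N| B^|Y|`.
-/

set_option autoImplicit false
set_option linter.unusedSectionVars false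

open NumberField

namespace Pool.Agent.H72.RM

variable {p : ℕ} [Fact p.Prime] {C : Type} [NormedField C] [NormedAlgebra ℚ_[p] C]
  [IsUltrametricDist C] [IsAlgClosed C]

theorem norm_int_le (E : Type) [Field E] [NumberField E] (ι : E →+* C) (x : 𝓞 E) :
    ‖ι (x : E)‖ ≤ 1 := by
  have h1 : IsIntegral ℤ (ι (x : E)) := by
    have h2 : IsIntegral ℤ (x : E) := RingOfIntegers.isIntegral_coe x
    exact h2.map (ι.toIntAlgHom)
  let v : Valuation C NNReal := NormedField.valuation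
  have h3 : IsIntegral v.integer (ι (x : E)) := h1.tower_top
  have h4 := Valuation.Integers.mem_of_integral (Valuation.integer.integers v) h3
  have h5 : v (ι (x : E)) ≤ 1 := h4
  have h6 : ‖ι (x : E)‖₊ ≤ 1 := h5
  exact_mod_cast h6

private theorem ma_p_lt : 1 / (p : ℝ) < 1 := by
  have h : (1 : ℝ) < p := by exact_mod_cast (Fact.out : p.Prime).one_lt
  rw [div_lt_one (by linarith)]
  exact h

theorem norm_max_eq_one (E : Type) [Field E] [NumberField E] (ι : E →+* C) (u v : 𝓞 E)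
    (hcop : IsCoprime (Ideal.span {u, v}) (Ideal.span {(p : 𝓞 E)})) :
    max ‖ι (u : E)‖ ‖ι (v : E)‖ = 1 := by
  apply le_antisymm (max_le (norm_int_le E ι u) (norm_int_le E ι v))
  obtain ⟨a, ha, b, hb, hab⟩ := Ideal.isCoprime_iff_exists.1 hcop
  obtain ⟨x, y, hxy⟩ := Ideal.mem_span_pair.1 ha
  obtain ⟨w, hw⟩ := Ideal.mem_span_singleton'.1 hb
  by_contra hlt
  push Not at hlt
  obtain ⟨hu, hv⟩ := max_lt_iff.1 hlt
  have e1 : (1 : C) = ι (x : E) * ι (u : E) + ι (y : E) * ι (v : E) + ι (w : E) * (p : C) := by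
    have e2 : (1 : 𝓞 E) = x * u + y * v + w * (p : 𝓞 E) := by rw [hxy, hw, hab]
    have e3 := congrArg (fun t : 𝓞 E => ι (t : E)) e2
    simpa using e3
  have f1 : ‖ι (x : E) * ι (u : E)‖ < 1 := by
    rw [norm_mul]
    exact mul_lt_one_of_nonneg_of_lt_one_right (norm_int_le E ι x) (norm_nonneg _) hu
  have f2 : ‖ι (y : E) * ι (v : E)‖ < 1 := by
    rw [norm_mul]
    exact mul_lt_one_of_nonneg_of_lt_one_right (norm_int_le E ι y) (norm_nonneg _) hv
  have f3 : ‖ι (w : E) * (p : C)‖ < 1 := by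
    rw [norm_mul, norm_p]
    exact mul_lt_one_of_nonneg_of_lt_one_right (norm_int_le E ι w) (by positivity) ma_p_lt
  have f4 : ‖(1 : C)‖ < 1 := by
    rw [e1]
    refine (IsUltrametricDist.norm_add_le_max _ _).trans_lt (max_lt ?_ f3)
    exact (IsUltrametricDist.norm_add_le_max _ _).trans_lt (max_lt f1 f2)
  rw [norm_one] at f4
  exact lt_irrefl _ f4

private theorem ma_coprime (E : Type) [Field E] [NumberField E] (I : Ideal (𝓞 E)) (hI : I ≠ ⊥)
    (hcop : IsCoprime I (Ideal.span {(p : 𝓞 E)})) : Nat.Coprime (Ideal.absNorm I) p := by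
  rw [Nat.coprime_comm, (Fact.out : p.Prime).coprime_iff_not_dvd]
  intro hdvd
  have : Finite (𝓞 E ⧸ I) := Ideal.finiteQuotientOfFreeOfNeBot I hI
  have h1 : p ∣ Nat.card (𝓞 E ⧸ I) := by
    rw [Ideal.absNorm_apply, Submodule.cardQuot_apply] at hdvd
    exact hdvd
  obtain ⟨x, hx⟩ := exists_prime_addOrderOf_dvd_card' p h1
  obtain ⟨a, ha, b, hb, hab⟩ := Ideal.isCoprime_iff_exists.1 hcop
  obtain ⟨w, hw⟩ := Ideal.mem_span_singleton'.1 hb
  have h2 : (p : 𝓞 E ⧸ I) * x = 0 := by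
    rw [← nsmul_eq_mul, ← hx]
    exact addOrderOf_nsmul_eq_zero x
  have h3 : x = 0 := by
    have e1 : (1 : 𝓞 E ⧸ I) = Ideal.Quotient.mk I w * (p : 𝓞 E ⧸ I) := by
      have e2 : (1 : 𝓞 E) = a + w * (p : 𝓞 E) := by rw [hw, hab]
      have e3 := congrArg (Ideal.Quotient.mk I) e2
      rw [map_add, Ideal.Quotient.eq_zero_iff_mem.2 ha, zero_add, map_mul, map_one,
        map_natCast] at e3
      exact e3
    calc x = 1 * x := (one_mul x).symm
      _ = Ideal.Quotient.mk I w * ((p : 𝓞 E ⧸ I) * x) := by rw [e1, mul_assoc]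
      _ = 0 := by rw [h2, mul_zero]
  rw [h3, addOrderOf_zero] at hx
  exact (Fact.out : p.Prime).one_lt.ne hx

private theorem ma_norm_nat (n : ℕ) (hn : n ≠ 0) :
    ‖(n : ℚ_[p])‖ = ((p : ℝ) ^ (padicValNat p n))⁻¹ := by
  have h1 : (n : ℚ_[p]) ≠ 0 := by exact_mod_cast hn
  rw [Padic.norm_eq_zpow_neg_valuation h1, Padic.valuation_natCast, zpow_neg, zpow_natCast]

theorem padic_prod (E : Type) [Field E] [NumberField E] (δ : 𝓞 E) (hδ : δ ≠ 0)
    (I : Ideal (𝓞 E)) (hI : δ ∈ I) (hcop : IsCoprime I (Ideal.span {(p : 𝓞 E)}))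
    (Y : Finset (E →+* C)) (B : ℝ) (hB0 : 0 ≤ B) (hB : ∀ ι ∈ Y, ‖ι (δ : E)‖ ≤ B) :
    (Ideal.absNorm I : ℝ) ≤ (∏ τ : E →+* ℂ, ‖τ (δ : E)‖) * B ^ Y.card := by
  classical
  have hIb : I ≠ ⊥ := by
    intro h
    rw [h, Ideal.mem_bot] at hI
    exact hδ hI
  have hN0 : Algebra.norm ℤ δ ≠ 0 := Algebra.norm_ne_zero_iff.2 hδ
  set n : ℕ := (Algebra.norm ℤ δ).natAbs with hn
  have hn0 : n ≠ 0 := Int.natAbs_ne_zero.2 hN0
  -- the archimedean product
  have harch : (n : ℝ) = ∏ τ : E →+* ℂ, ‖τ (δ : E)‖ := by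
    have h5 : (((Algebra.norm ℤ δ : ℤ) : ℚ) : ℂ) = ∏ τ : E →ₐ[ℚ] ℂ, τ (δ : E) := by
      rw [Algebra.coe_norm_int]
      exact Algebra.norm_eq_prod_embeddings ℚ ℂ (δ : E)
    have h6 : (n : ℝ) = ‖(((Algebra.norm ℤ δ : ℤ) : ℚ) : ℂ)‖ := by
      push_cast
      rw [Complex.norm_intCast, hn, Nat.cast_natAbs, Int.cast_abs]
    rw [h6, h5, norm_prod]
    exact (Fintype.prod_equiv (RingHom.equivRatAlgHom E ℂ) (fun τ : E →+* ℂ => ‖τ (δ : E)‖)
      (fun τ : E →ₐ[ℚ] ℂ => ‖τ (δ : E)‖) (fun τ => rfl)).symm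
  -- the p-adic product
  have hpad : ‖(n : ℚ_[p])‖ ≤ B ^ Y.card := by
    have : CharZero C := charZero_C p C
    have h5 : (((Algebra.norm ℤ δ : ℤ) : ℚ) : C) = ∏ τ : E →ₐ[ℚ] C, τ (δ : E) := by
      rw [Algebra.coe_norm_int]
      exact Algebra.norm_eq_prod_embeddings ℚ C (δ : E)
    have h6 : ‖(n : ℚ_[p])‖ = ‖(((Algebra.norm ℤ δ : ℤ) : ℚ) : C)‖ := by
      have e1 : (((Algebra.norm ℤ δ : ℤ) : ℚ) : C) = algebraMap ℚ_[p] C ((Algebra.norm ℤ δ : ℤ) : ℚ_[p]) := by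
        rw [map_intCast]
        push_cast
        rfl
      rw [e1, norm_algebraMap']
      rcases Int.natAbs_eq (Algebra.norm ℤ δ) with h | h
      · rw [h, ← hn]
        push_cast
        rfl
      · rw [h, ← hn]
        push_cast
        rw [norm_neg]
    rw [h6, h5, norm_prod]
    let e := RingHom.equivRatAlgHom E C
    have h7 : ∏ τ : E →ₐ[ℚ] C, ‖τ (δ : E)‖ ≤
        ∏ τ : E →ₐ[ℚ] C, (if e.symm τ ∈ Y then B else 1) := by
      apply Finset.prod_le_prod
      · intro τ _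
        exact norm_nonneg _
      · intro τ _
        split_ifs with h
        · exact hB _ h
        · exact norm_int_le E (e.symm τ) δ
    refine h7.trans (le_of_eq ?_)
    rw [Finset.prod_ite, Finset.prod_const_one, mul_one, Finset.prod_const]
    congr 1
    apply Finset.card_bij (fun τ _ => e.symm τ)
    · intro τ hτ
      exact (Finset.mem_filter.1 hτ).2
    · intro τ _ τ' _ h
      exact e.symm.injective h
    · intro ι hι
      refine ⟨e ι, ?_, e.symm_apply_apply ι⟩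
      rw [Finset.mem_filter, e.symm_apply_apply]
      exact ⟨Finset.mem_univ _, hι⟩
  -- divisibility
  have hd1 : Ideal.absNorm I ∣ n := by
    have := Ideal.absNorm_dvd_norm_of_mem hI
    exact Int.natCast_dvd.1 this
  have hd2 : p ^ padicValNat p n ∣ n := pow_padicValNat_dvd
  have hco : Nat.Coprime (Ideal.absNorm I) (p ^ padicValNat p n) :=
    (ma_coprime E I hIb hcop).pow_right _
  have hd3 : Ideal.absNorm I * p ^ padicValNat p n ≤ n :=
    Nat.le_of_dvd (Nat.pos_of_ne_zero hn0) (hco.mul_dvd_of_dvd_of_dvd hd1 hd2)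
  have hp0 : (0 : ℝ) < (p : ℝ) ^ padicValNat p n := by
    have : (0 : ℝ) < p := by exact_mod_cast (Fact.out : p.Prime).pos
    positivity
  have hd4 : (Ideal.absNorm I : ℝ) ≤ n * ‖(n : ℚ_[p])‖ := by
    rw [ma_norm_nat n hn0, ← div_eq_mul_inv, le_div_iff₀ hp0]
    exact_mod_cast hd3
  rw [← harch]
  exact hd4.trans (mul_le_mul_of_nonneg_left hpad (Nat.cast_nonneg n))

end Pool.Agent.H72.RM
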