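import Pool.Agent.H72.RM.MetricA
import Pool.Agent.H4.RR.BogCyc

/-!
# Module MetricB: the metric inequality

`bogCyc_rep` (H4 RR BogCyc): `α = v/u`, `u, v ∈ 𝓞 E` nonzero, `I = (u, v)` prime to `p`. `η` is a root of
unity, so `η ∈ 𝓞 E` and `‖τ η‖ = 1` for all complex embeddings, `‖ι η‖ = 1` for all `ι : E →+* C`.
`δ = (θ v)^q u^q - (η v)^q (θ u)^q ∈ 𝓞 E` is nonzero by `hne` (divide by `u^q (θ u)^q`). It lies in
`J = (I.map θ)^q * I^q`, `absNorm J = (absNorm I)^(2q)` (`bogCyc_absNorm_map`), prime to `p`.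
Complex side, as in `bogCyc_main`: with `m τ = max ‖τ u‖ ‖τ v‖`,
`∏_τ ‖τ δ‖ ≤ ∏_τ 2 (m (τ ∘ θ))^q (m τ)^q = 2^n (∏_τ m τ)^(2q)` and `∏_τ m τ = mulHeight₁ α * absNorm I`
(`height_mul_absNorm`), `n = finrank ℚ E`.
`p`-adic side: for `ι ∈ Y`: `‖ι δ‖ ≤ B`. Case `‖ι α‖ ≤ 1`: `max ‖ι u‖ ‖ι v‖ = 1` (`norm_max_eq_one`) and
`‖ι v‖ = ‖ι α‖ ‖ι u‖ ≤ ‖ι u‖`, so `‖ι u‖ = 1`; by `h1` `‖ι (θ α)‖ ≤ 1` and (applied to `ι ∘ θ`)
`‖ι (θ u)‖ = 1`; `ι δ = (ι u)^q (ι (θ u))^q ((ι (θ α))^q - (ι (η α))^q)`. Case `1 ≤ ‖ι α‖`: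
`‖ι v‖ = ‖ι (θ v)‖ = 1` and
`ι δ = (ι (η v))^q (ι (θ v))^q ((ι (η α))⁻¹^q - (ι (θ α))⁻¹^q)`.
`padic_prod`: `(absNorm I)^(2q) ≤ 2^n (mulHeight₁ α * absNorm I)^(2q) B^|Y|`; cancel, take logarithms
(`Height.logHeight₁_eq_log_mulHeight₁`, `mulHeight₁_pos`).
-/

set_option autoImplicit false
set_option linter.unusedSectionVars false

open NumberField

namespace Pool.Agent.H72.RM

variable {p : ℕ} [Fact p.Prime] {C : Type} [NormedField C] [NormedAlgebra ℚ_[p] C]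
  [IsUltrametricDist C] [IsAlgClosed C]

include p in
theorem metric (E : Type) [Field E] [NumberField E] (α : E) (hα : α ≠ 0) (θ : E ≃+* E) (η : E)
    (hη : ∃ n : ℕ, 1 ≤ n ∧ η ^ n = 1) (q : ℕ) (hne : (θ α) ^ q ≠ (η * α) ^ q)
    (Y : Finset (E →+* C)) (B : ℝ) (hB0 : 0 < B)
    (h1 : ∀ ι ∈ Y, ‖ι (θ α)‖ = ‖ι α‖)
    (h2 : ∀ ι ∈ Y, ‖ι α‖ ≤ 1 → ‖(ι (θ α)) ^ q - (ι (η * α)) ^ q‖ ≤ B)
    (h3 : ∀ ι ∈ Y, 1 ≤ ‖ι α‖ → ‖((ι (θ α))⁻¹) ^ q - ((ι (η * α))⁻¹) ^ q‖ ≤ B) :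
    0 ≤ (Module.finrank ℚ E : ℝ) * Real.log 2 + 2 * q * Height.logHeight₁ α +
      (Y.card : ℝ) * Real.log B := by
  have hpp : p.Prime := Fact.out
  obtain ⟨u, v, hu, hv, hav, hcop⟩ := Pool.Agent.H4.RR.bogCyc_rep E p hpp α hα
  obtain ⟨k, hk1, hηk⟩ := hη
  have hηint : IsIntegral ℤ η := by
    refine ⟨Polynomial.X ^ k - 1, Polynomial.monic_X_pow_sub_C 1 (by omega), ?_⟩
    simp [hηk]
  set ηO : 𝓞 E := ⟨η, hηint⟩ with hηO
  have hηOcoe : (ηO : E) = η := rfl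
  set σ : 𝓞 E ≃+* 𝓞 E := RingOfIntegers.mapRingEquiv θ with hσ
  have hσcoe : ∀ x : 𝓞 E, ((σ x : 𝓞 E) : E) = θ (x : E) := fun x => rfl
  set n := Module.finrank ℚ E with hn
  set I : Ideal (𝓞 E) := Ideal.span {u, v} with hI
  have huI : u ∈ I := Ideal.subset_span (by simp)
  have hvI : v ∈ I := Ideal.subset_span (by simp)
  have hue : (u : E) ≠ 0 := by exact_mod_cast hu
  have hve : (v : E) ≠ 0 := by exact_mod_cast hv
  have hθue : θ (u : E) ≠ 0 := by simpa using hue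
  have hθve : θ (v : E) ≠ 0 := by simpa using hve
  have hI0 : I ≠ ⊥ := by
    intro h0
    rw [h0] at huI
    exact hu (by simpa using huI)
  set δ : 𝓞 E := (σ v) ^ q * u ^ q - (ηO * v) ^ q * (σ u) ^ q with hδdef
  have hδcoe : (δ : E) = (θ (v : E)) ^ q * (u : E) ^ q - (η * (v : E)) ^ q * (θ (u : E)) ^ q := by
    rw [hδdef, ← hσcoe, ← hσcoe, ← hηOcoe]
    push_cast
    rfl
  have hθα : θ α = θ (v : E) / θ (u : E) := by rw [hav, map_div₀]
  have hθα0 : θ α ≠ 0 := by simpa using hα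
  have hη0 : η ≠ 0 := by
    rintro rfl
    rw [zero_pow (by omega)] at hηk
    exact zero_ne_one hηk
  have hδ0 : δ ≠ 0 := by
    intro h0
    apply hne
    have h1 : (θ (v : E)) ^ q * (u : E) ^ q - (η * (v : E)) ^ q * (θ (u : E)) ^ q = 0 := by
      rw [← hδcoe, h0]
      simp
    have h2 : (θ (v : E)) ^ q * (u : E) ^ q = (η * (v : E)) ^ q * (θ (u : E)) ^ q :=
      sub_eq_zero.mp h1
    have h3 : η * α = (η * (v : E)) / (u : E) := by rw [hav, mul_div_assoc]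
    rw [hθα, h3, div_pow, div_pow, div_eq_div_iff (pow_ne_zero _ hθue) (pow_ne_zero _ hue)]
    exact h2
  -- the ideal
  set I' : Ideal (𝓞 E) := (I.map σ) ^ q * I ^ q with hI'
  have hδI : δ ∈ I' := by
    rw [hδdef]
    refine Ideal.sub_mem _ ?_ ?_
    · exact Ideal.mul_mem_mul (Ideal.pow_mem_pow (Ideal.mem_map_of_mem σ hvI) _)
        (Ideal.pow_mem_pow huI _)
    · rw [mul_comm]
      exact Ideal.mul_mem_mul (Ideal.pow_mem_pow (Ideal.mem_map_of_mem σ huI) _)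
        (Ideal.pow_mem_pow (I.mul_mem_left _ hvI) _)
  have hcopσ : IsCoprime (I.map σ) (Ideal.span {(p : 𝓞 E)}) := by
    rw [Ideal.isCoprime_iff_sup_eq] at hcop ⊢
    have h1 := congrArg (Ideal.map σ) hcop
    have h2 : (Ideal.span {(p : 𝓞 E)}).map σ = Ideal.span {(p : 𝓞 E)} := by
      rw [Ideal.map_span, Set.image_singleton, map_natCast]
    rw [Ideal.map_sup, h2, Ideal.map_top] at h1
    exact h1
  have hcop' : IsCoprime I' (Ideal.span {(p : 𝓞 E)}) := by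
    rw [hI']
    exact IsCoprime.mul_left hcopσ.pow_left hcop.pow_left
  -- the p-adic side
  have hιη : ∀ ι : E →+* C, ‖ι η‖ = 1 := by
    intro ι
    have h1 : (ι η) ^ k = 1 := by rw [← map_pow, hηk, map_one]
    have h2 := congrArg norm h1
    rw [norm_pow, norm_one] at h2
    exact (pow_eq_one_iff_of_nonneg (norm_nonneg _) (by omega)).1 h2
  have hmax : ∀ ι : E →+* C, max ‖ι (u : E)‖ ‖ι (v : E)‖ = 1 := fun ι =>
    norm_max_eq_one E ι u v hcop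
  have hmaxθ : ∀ ι : E →+* C, max ‖ι (θ (u : E))‖ ‖ι (θ (v : E))‖ = 1 := fun ι =>
    norm_max_eq_one E (ι.comp (θ : E →+* E)) u v hcop
  have hvα : (v : E) = α * (u : E) := by
    rw [hav]
    field_simp
  have hθvα : θ (v : E) = θ α * θ (u : E) := by
    rw [← map_mul, ← hvα]
  have hY : ∀ ι ∈ Y, ‖ι (δ : E)‖ ≤ B := by
    intro ι hι
    rcases le_total ‖ι α‖ 1 with hle | hge
    · have hu1 : ‖ι (u : E)‖ = 1 := by
        have h4 := hmax ι
        have h5 : ‖ι (v : E)‖ ≤ ‖ι (u : E)‖ := by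
          rw [hvα, map_mul, norm_mul]
          calc ‖ι α‖ * ‖ι (u : E)‖ ≤ 1 * ‖ι (u : E)‖ :=
                mul_le_mul_of_nonneg_right hle (norm_nonneg _)
            _ = ‖ι (u : E)‖ := one_mul _
        rwa [max_eq_left h5] at h4
      have hθu1 : ‖ι (θ (u : E))‖ = 1 := by
        have h4 := hmaxθ ι
        have h5 : ‖ι (θ (v : E))‖ ≤ ‖ι (θ (u : E))‖ := by
          rw [hθvα, map_mul, norm_mul, h1 ι hι]
          calc ‖ι α‖ * ‖ι (θ (u : E))‖ ≤ 1 * ‖ι (θ (u : E))‖ :=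
                mul_le_mul_of_nonneg_right hle (norm_nonneg _)
            _ = ‖ι (θ (u : E))‖ := one_mul _
        rwa [max_eq_left h5] at h4
      have h6 : ι (δ : E) = (ι (u : E)) ^ q * (ι (θ (u : E))) ^ q *
          ((ι (θ α)) ^ q - (ι (η * α)) ^ q) := by
        rw [hδcoe, hθvα, hvα]
        simp only [map_sub, map_mul, map_pow, mul_pow]
        ring
      rw [h6, norm_mul, norm_mul, norm_pow, norm_pow, hu1, hθu1, one_pow, one_mul, one_mul]
      exact h2 ι hι hle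
    · have hια0 : ι α ≠ 0 := by simpa using hα
      have hv1 : ‖ι (v : E)‖ = 1 := by
        have h4 := hmax ι
        have h5 : ‖ι (u : E)‖ ≤ ‖ι (v : E)‖ := by
          rw [hvα, map_mul, norm_mul]
          calc ‖ι (u : E)‖ = 1 * ‖ι (u : E)‖ := (one_mul _).symm
            _ ≤ ‖ι α‖ * ‖ι (u : E)‖ := mul_le_mul_of_nonneg_right hge (norm_nonneg _)
        rwa [max_eq_right h5] at h4
      have hθv1 : ‖ι (θ (v : E))‖ = 1 := by
        have h4 := hmaxθ ι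
        have h5 : ‖ι (θ (u : E))‖ ≤ ‖ι (θ (v : E))‖ := by
          rw [hθvα, map_mul, norm_mul, h1 ι hι]
          calc ‖ι (θ (u : E))‖ = 1 * ‖ι (θ (u : E))‖ := (one_mul _).symm
            _ ≤ ‖ι α‖ * ‖ι (θ (u : E))‖ := mul_le_mul_of_nonneg_right hge (norm_nonneg _)
        rwa [max_eq_right h5] at h4
      have hιη0 : ι η ≠ 0 := by simpa using hη0
      have hιθα0 : ι (θ α) ≠ 0 := by simpa using hα
      have h6 : ι (δ : E) = (ι η * ι (v : E)) ^ q * (ι (θ (v : E))) ^ q *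
          (((ι (η * α))⁻¹) ^ q - ((ι (θ α))⁻¹) ^ q) := by
        rw [hδcoe]
        have h7 : ι (v : E) = ι α * ι (u : E) := by rw [← map_mul, ← hvα]
        have h8 : ι (θ (v : E)) = ι (θ α) * ι (θ (u : E)) := by rw [← map_mul, ← hθvα]
        have h9 : (ι η * ι (v : E)) ^ q * ((ι (η * α))⁻¹) ^ q = (ι (u : E)) ^ q := by
          rw [← mul_pow, h7, map_mul]
          congr 1
          field_simp
        have h10 : (ι (θ (v : E))) ^ q * ((ι (θ α))⁻¹) ^ q = (ι (θ (u : E))) ^ q := by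
          rw [← mul_pow, h8]
          congr 1
          field_simp
        rw [mul_sub, map_sub, map_mul, map_mul, map_pow, map_pow, map_pow, map_pow, map_mul,
          ← h9, ← h10]
        ring
      rw [h6, norm_mul, norm_mul, norm_pow, norm_pow, norm_mul, hιη ι, hv1, hθv1, one_mul,
        one_pow, one_mul, one_mul, norm_sub_rev]
      exact h3 ι hι hge
  have hlow := padic_prod E δ hδ0 I' hδI hcop' Y B hB0.le hY
  have hN : (Ideal.absNorm I' : ℝ) = (Ideal.absNorm I : ℝ) ^ (q + q) := by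
    rw [hI', map_mul, map_pow, map_pow, Pool.Agent.H4.RR.bogCyc_absNorm_map]
    push_cast
    rw [pow_add]
  rw [hN] at hlow
  -- the complex side
  set m : (E →+* ℂ) → ℝ := fun τ => max ‖τ (u : E)‖ ‖τ (v : E)‖ with hm
  have hH : Height.mulHeight₁ ((v : E) / (u : E)) * (Ideal.absNorm I : ℝ) = ∏ τ, m τ :=
    Pool.Agent.H4.RR.height_mul_absNorm E u v hu
  rw [← hav] at hH
  have hm0 : ∀ τ, 0 ≤ m τ := fun τ => le_max_of_le_left (norm_nonneg _)
  have hτη : ∀ τ : E →+* ℂ, ‖τ η‖ = 1 := by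
    intro τ
    have h4 : (τ η) ^ k = 1 := by rw [← map_pow, hηk, map_one]
    have h5 := congrArg norm h4
    rw [norm_pow, norm_one] at h5
    exact (pow_eq_one_iff_of_nonneg (norm_nonneg _) (by omega)).1 h5
  have hup : ∏ τ : E →+* ℂ, ‖τ (δ : E)‖ ≤
      ∏ τ : E →+* ℂ, (2 * (m τ ^ q * m (τ.comp (θ : E →+* E)) ^ q)) := by
    refine Finset.prod_le_prod (fun τ _ => norm_nonneg _) (fun τ _ => ?_)
    have e1 : τ (δ : E) = (τ.comp (θ : E →+* E)) v ^ q * τ u ^ q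
        - (τ η * τ v) ^ q * (τ.comp (θ : E →+* E)) u ^ q := by
      rw [hδcoe]
      simp
    rw [e1]
    have b1 : ‖τ (v : E)‖ ≤ m τ := le_max_right _ _
    have b2 : ‖τ (u : E)‖ ≤ m τ := le_max_left _ _
    have b3 : ‖(τ.comp (θ : E →+* E)) (v : E)‖ ≤ m (τ.comp (θ : E →+* E)) := le_max_right _ _
    have b4 : ‖(τ.comp (θ : E →+* E)) (u : E)‖ ≤ m (τ.comp (θ : E →+* E)) := le_max_left _ _
    have c0 := hm0 τ
    have c1 := hm0 (τ.comp (θ : E →+* E))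
    calc ‖(τ.comp (θ : E →+* E)) v ^ q * τ u ^ q
        - (τ η * τ v) ^ q * (τ.comp (θ : E →+* E)) u ^ q‖
        ≤ ‖(τ.comp (θ : E →+* E)) v‖ ^ q * ‖τ u‖ ^ q
          + ‖τ v‖ ^ q * ‖(τ.comp (θ : E →+* E)) u‖ ^ q := by
          refine (norm_sub_le _ _).trans (le_of_eq ?_)
          rw [norm_mul, norm_mul, norm_pow, norm_pow, norm_pow, norm_pow, norm_mul, hτη, one_mul]
      _ ≤ m (τ.comp (θ : E →+* E)) ^ q * m τ ^ q
          + m τ ^ q * m (τ.comp (θ : E →+* E)) ^ q := by gcongr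
      _ = 2 * (m τ ^ q * m (τ.comp (θ : E →+* E)) ^ q) := by ring
  have hprod : ∏ τ : E →+* ℂ, (2 * (m τ ^ q * m (τ.comp (θ : E →+* E)) ^ q)) =
      2 ^ n * (∏ τ, m τ) ^ (q + q) := by
    rw [Finset.prod_mul_distrib, Finset.prod_mul_distrib, Finset.prod_pow, Finset.prod_pow,
      Pool.Agent.H4.RR.bogCyc_prod_comp E θ m, Finset.prod_const, Finset.card_univ,
      NumberField.Embeddings.card, pow_add]
  rw [hprod, ← hH] at hup
  have hNpos : (0 : ℝ) < (Ideal.absNorm I : ℝ) := by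
    have : Ideal.absNorm I ≠ 0 := fun h0 => hI0 (Ideal.absNorm_eq_zero_iff.1 h0)
    exact_mod_cast Nat.pos_of_ne_zero this
  have hBY : 0 < B ^ Y.card := pow_pos hB0 _
  have hH1 : 0 < Height.mulHeight₁ α := Height.mulHeight₁_pos α
  have h7 := hlow.trans (mul_le_mul_of_nonneg_right hup hBY.le)
  have h8 : 1 * (Ideal.absNorm I : ℝ) ^ (q + q) ≤
      (2 ^ n * Height.mulHeight₁ α ^ (q + q) * B ^ Y.card) * (Ideal.absNorm I : ℝ) ^ (q + q) := by
    calc 1 * (Ideal.absNorm I : ℝ) ^ (q + q) = (Ideal.absNorm I : ℝ) ^ (q + q) := one_mul _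
      _ ≤ _ := h7
      _ = _ := by
        rw [mul_pow]
        ring
  have h9 := le_of_mul_le_mul_right h8 (by positivity)
  have h10 := Real.log_le_log one_pos h9
  rw [Real.log_one, Real.log_mul (by positivity) hBY.ne', Real.log_mul (by positivity)
    (by positivity), Real.log_pow, Real.log_pow, Real.log_pow] at h10
  rw [Height.logHeight₁_eq_log_mulHeight₁]
  push_cast at h10
  linarith

end Pool.Agent.H72.RM
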