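import Mathlib

/-!
# Module QpRoots: roots of principal units of `ℚ_p`

`z : ℚ_[p]`, `‖z - 1‖ ≤ 1/p` (so `z` is a `p`-adic integer, `z ≡ 1 mod p`). Work with `ℤ_[p]`.
`qp_root`: `p ∤ n`: Hensel (`hensels_lemma` for `F = X^n - C z`, `a = 1`: `‖F(1)‖ = ‖1 - z‖ < 1 =
‖n‖^2 = ‖F'(1)‖^2`), root `t` with `‖t - 1‖ < ‖F'(1)‖ = 1`, so `‖t - 1‖ ≤ 1/p`.
`qp_proot`: `p` odd, `‖z - 1‖ ≤ 1/p^2`: `z = t^p`. Write `z = 1 + p^2 c`; `a = 1 + p c`: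
`a^p ≡ 1 + p^2 c mod p^3` (binomial theorem; the term `C(p,2) p^2 c^2` is divisible by `p^3` as `p` is
odd), so for `F = X^p - C z`: `‖F(a)‖ ≤ p^(-3) < p^(-2) = ‖p a^(p-1)‖^2 = ‖F'(a)‖^2`; the root `t` has
`‖t - a‖ < ‖F'(a)‖ = 1/p`, so `‖t - 1‖ ≤ 1/p`.
`qp_struct`: induction on `k`. `k = 0`: `l = 0`, `t = z`. Step: `z = 1 + p c`; choose `l₀ < p` with
`l₀ ≡ c mod p`; `(1+p)^(l₀) ≡ 1 + p l₀ mod p^2`, so `‖z / (1+p)^(l₀) - 1‖ ≤ 1/p^2`, and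
`z = (1+p)^(l₀) t₁^p` with `‖t₁ - 1‖ ≤ 1/p` (`qp_proot`); by induction `t₁ = (1+p)^(l₁) t^(p^k)`, so
`z = (1+p)^(l₀ + p l₁) t^(p^(k+1))`.
-/

set_option autoImplicit false

namespace Pool.Agent.H72.RM

variable {p : ℕ} [Fact p.Prime]

theorem qpr_exists (z : ℚ_[p]) (k : ℕ) (hz : ‖z - 1‖ ≤ 1 / (p : ℝ) ^ k) :
    ∃ c : ℤ_[p], z = 1 + (p : ℚ_[p]) ^ k * (c : ℚ_[p]) := by
  have hp : (0 : ℝ) < p := by exact_mod_cast (Fact.out : p.Prime).pos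
  have hp0 : (p : ℚ_[p]) ≠ 0 := by exact_mod_cast (Fact.out : p.Prime).ne_zero
  have h1 : ‖(z - 1) / (p : ℚ_[p]) ^ k‖ ≤ 1 := by
    rw [norm_div, norm_pow, Padic.norm_p, div_le_one (by positivity)]
    rwa [inv_pow, ← one_div]
  refine ⟨⟨(z - 1) / (p : ℚ_[p]) ^ k, h1⟩, ?_⟩
  change z = 1 + (p : ℚ_[p]) ^ k * ((z - 1) / (p : ℚ_[p]) ^ k)
  field_simp
  ring

theorem qpr_norm (c : ℤ_[p]) (k : ℕ) : ‖(p : ℤ_[p]) ^ k * c‖ ≤ 1 / (p : ℝ) ^ k := by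
  have hp : (0 : ℝ) < p := by exact_mod_cast (Fact.out : p.Prime).pos
  rw [norm_mul, norm_pow, PadicInt.norm_p, inv_pow, ← one_div]
  exact mul_le_of_le_one_right (by positivity) (PadicInt.norm_le_one c)

theorem qpr_unit (c : ℤ_[p]) : ‖1 + (p : ℤ_[p]) * c‖ = 1 := by
  have hp1 : (1 : ℝ) < p := by exact_mod_cast (Fact.out : p.Prime).one_lt
  have h1 : ‖(p : ℤ_[p]) * c‖ < 1 := by
    have := qpr_norm (p := p) c 1
    rw [pow_one, pow_one] at this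
    refine this.trans_lt ?_
    rw [div_lt_one (by linarith)]
    exact hp1
  have h2 : ‖(1 : ℤ_[p])‖ = 1 := norm_one
  rw [IsUltrametricDist.norm_add_eq_max_of_norm_ne_norm, h2, max_eq_left h1.le]
  rw [h2]
  exact h1.ne'

theorem qpr_one_add_pow {R : Type} [CommRing R] (x : R) (n : ℕ) :
    ∃ r : R, (1 + x) ^ n = 1 + n * x + (n.choose 2 : ℕ) * x ^ 2 + r * x ^ 3 := by
  induction n with
  | zero => exact ⟨0, by simp⟩
  | succ n ih =>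
    obtain ⟨r, hr⟩ := ih
    refine ⟨r + (n.choose 2 : ℕ) + r * x, ?_⟩
    have h1 : (n + 1).choose 2 = n + n.choose 2 := by
      rw [Nat.choose_succ_succ' n 1, Nat.choose_one_right]
    rw [pow_succ, hr, h1]
    push_cast
    ring

theorem qpr_coe_norm (t : ℤ_[p]) (k : ℕ) (c : ℤ_[p]) (ht : t - 1 = (p : ℤ_[p]) ^ k * c) :
    ‖((t : ℚ_[p])) - 1‖ ≤ 1 / (p : ℝ) ^ k := by
  have h1 : ((t : ℚ_[p])) - 1 = (((t - 1 : ℤ_[p])) : ℚ_[p]) := by push_cast; rfl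
  rw [h1, ← PadicInt.norm_def, ht]
  exact qpr_norm c k

theorem qp_root (z : ℚ_[p]) (hz : ‖z - 1‖ ≤ 1 / (p : ℝ)) (n : ℕ) (hn : ¬ p ∣ n) :
    ∃ t : ℚ_[p], ‖t - 1‖ ≤ 1 / (p : ℝ) ∧ t ^ n = z := by
  have hp1 : (1 : ℝ) < p := by exact_mod_cast (Fact.out : p.Prime).one_lt
  obtain ⟨c, hc⟩ := qpr_exists z 1 (by rwa [pow_one])
  rw [pow_one] at hc
  set F : Polynomial ℤ_[p] := Polynomial.X ^ n - Polynomial.C (1 + (p : ℤ_[p]) * c) with hF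
  have h1 : Polynomial.aeval (1 : ℤ_[p]) F = -((p : ℤ_[p]) * c) := by
    rw [hF]; simp
  have h2 : Polynomial.aeval (1 : ℤ_[p]) (Polynomial.derivative F) = n := by
    rw [hF, Polynomial.derivative_sub, Polynomial.derivative_X_pow, Polynomial.derivative_C, sub_zero]
    simp
  have h3 : ‖((n : ℕ) : ℤ_[p])‖ = 1 := by
    rw [PadicInt.norm_natCast_eq_one_iff]
    exact ((Fact.out : p.Prime).coprime_iff_not_dvd).2 hn
  have h4 : ‖(p : ℤ_[p]) * c‖ < 1 := by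
    have := qpr_norm (p := p) c 1
    rw [pow_one, pow_one] at this
    refine this.trans_lt ?_
    rw [div_lt_one (by linarith)]
    exact hp1
  obtain ⟨t, ht1, ht2, -, -⟩ := hensels_lemma (p := p) (F := F) (a := 1) (by
    rw [h1, h2, h3, norm_neg, one_pow]; exact h4)
  rw [h2, h3] at ht2
  obtain ⟨e, he⟩ := (PadicInt.norm_lt_one_iff_dvd (t - 1)).1 ht2
  refine ⟨t, ?_, ?_⟩
  · have := qpr_coe_norm t 1 e (by rw [pow_one]; exact he)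
    rwa [pow_one] at this
  · have h5 : t ^ n = 1 + (p : ℤ_[p]) * c := by
      rw [hF] at ht1
      simp only [map_sub, map_pow, Polynomial.aeval_X, Polynomial.aeval_C, Algebra.algebraMap_self,
        RingHom.id_apply] at ht1
      exact sub_eq_zero.1 ht1
    have h6 : ((t ^ n : ℤ_[p]) : ℚ_[p]) = ((1 + (p : ℤ_[p]) * c : ℤ_[p]) : ℚ_[p]) := by rw [h5]
    rw [hc]
    push_cast at h6
    exact h6

theorem qp_proot (hp2 : p ≠ 2) (z : ℚ_[p]) (hz : ‖z - 1‖ ≤ 1 / (p : ℝ) ^ 2) :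
    ∃ t : ℚ_[p], ‖t - 1‖ ≤ 1 / (p : ℝ) ∧ t ^ p = z := by
  have hpp : p.Prime := Fact.out
  have hp1 : (1 : ℝ) < p := by exact_mod_cast hpp.one_lt
  obtain ⟨c, hc⟩ := qpr_exists z 2 hz
  set a : ℤ_[p] := 1 + (p : ℤ_[p]) * c with ha
  set F : Polynomial ℤ_[p] := Polynomial.X ^ p - Polynomial.C (1 + (p : ℤ_[p]) ^ 2 * c) with hF
  have h1 : Polynomial.aeval a F = a ^ p - (1 + (p : ℤ_[p]) ^ 2 * c) := by
    rw [hF]; simp
  have h2 : Polynomial.aeval a (Polynomial.derivative F) = p * a ^ (p - 1) := by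
    rw [hF, Polynomial.derivative_sub, Polynomial.derivative_X_pow, Polynomial.derivative_C, sub_zero]
    simp
  have h3 : ‖(p : ℤ_[p]) * a ^ (p - 1)‖ = (p : ℝ)⁻¹ := by
    rw [norm_mul, norm_pow, ha, qpr_unit, one_pow, mul_one, PadicInt.norm_p]
  obtain ⟨m, hm⟩ : p ∣ p.choose 2 := hpp.dvd_choose_self (by norm_num)
    (lt_of_le_of_ne hpp.two_le (Ne.symm hp2))
  obtain ⟨r, hr⟩ := qpr_one_add_pow ((p : ℤ_[p]) * c) p
  have h4 : a ^ p - (1 + (p : ℤ_[p]) ^ 2 * c) =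
      (p : ℤ_[p]) ^ 3 * ((m : ℤ_[p]) * c ^ 2 + r * c ^ 3) := by
    rw [ha, hr, hm]
    push_cast
    ring
  have h5 : ‖a ^ p - (1 + (p : ℤ_[p]) ^ 2 * c)‖ < ((p : ℝ)⁻¹) ^ 2 := by
    rw [h4]
    refine (qpr_norm _ 3).trans_lt ?_
    rw [inv_pow, ← one_div]
    apply one_div_lt_one_div_of_lt (by positivity)
    exact pow_lt_pow_right₀ hp1 (by norm_num)
  obtain ⟨t, ht1, ht2, -, -⟩ := hensels_lemma (p := p) (F := F) (a := a) (by
    rw [h1, h2, h3]; exact h5)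
  rw [h2, h3] at ht2
  have h6 : ‖t - a‖ < 1 := ht2.trans (inv_lt_one_of_one_lt₀ hp1)
  obtain ⟨e, he⟩ := (PadicInt.norm_lt_one_iff_dvd (t - a)).1 h6
  refine ⟨t, ?_, ?_⟩
  · have := qpr_coe_norm t 1 (e + c) (by
      rw [pow_one]
      have : t = a + (p : ℤ_[p]) * e := by rw [← he]; ring
      rw [this, ha]
      ring)
    rwa [pow_one] at this
  · have h5 : t ^ p = 1 + (p : ℤ_[p]) ^ 2 * c := by
      rw [hF] at ht1
      simp only [map_sub, map_pow, Polynomial.aeval_X, Polynomial.aeval_C, Algebra.algebraMap_self,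
        RingHom.id_apply] at ht1
      exact sub_eq_zero.1 ht1
    have h6 : ((t ^ p : ℤ_[p]) : ℚ_[p]) = ((1 + (p : ℤ_[p]) ^ 2 * c : ℤ_[p]) : ℚ_[p]) := by
      rw [h5]
    rw [hc]
    push_cast at h6
    exact h6

theorem qp_struct (hp2 : p ≠ 2) (k : ℕ) (z : ℚ_[p]) (hz : ‖z - 1‖ ≤ 1 / (p : ℝ)) :
    ∃ (l : ℕ) (t : ℚ_[p]), ‖t - 1‖ ≤ 1 / (p : ℝ) ∧ z = (1 + (p : ℚ_[p])) ^ l * t ^ (p ^ k) := by
  induction k generalizing z with
  | zero => exact ⟨0, z, hz, by simp⟩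
  | succ k ih =>
    have hp0 : (0 : ℝ) < p := by exact_mod_cast (Fact.out : p.Prime).pos
    obtain ⟨c, hc⟩ := qpr_exists z 1 (by rwa [pow_one])
    rw [pow_one] at hc
    obtain ⟨e, he⟩ : ∃ e : ℤ_[p], c - (c.appr 1 : ℕ) = (p : ℤ_[p]) * e := by
      have h := PadicInt.appr_spec 1 c
      rw [pow_one, Ideal.mem_span_singleton] at h
      exact h
    set l₀ := c.appr 1 with hl₀
    obtain ⟨r, hr⟩ := qpr_one_add_pow (p : ℤ_[p]) l₀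
    have hu : ‖(1 + (p : ℚ_[p])) ^ l₀‖ = 1 := by
      have h1 := qpr_unit (p := p) 1
      rw [mul_one] at h1
      have h2 : (1 + (p : ℚ_[p])) = (((1 + (p : ℤ_[p]) : ℤ_[p])) : ℚ_[p]) := by push_cast; rfl
      rw [norm_pow, h2, ← PadicInt.norm_def, h1, one_pow]
    have hu0 : (1 + (p : ℚ_[p])) ^ l₀ ≠ 0 := by
      intro h
      rw [h, norm_zero] at hu
      exact zero_ne_one hu
    have hz2 : ‖z / (1 + (p : ℚ_[p])) ^ l₀ - 1‖ ≤ 1 / (p : ℝ) ^ 2 := by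
      rw [div_sub_one hu0, norm_div, hu, div_one]
      have h3 : z - (1 + (p : ℚ_[p])) ^ l₀ =
          (((p : ℤ_[p]) ^ 2 * (e - ((l₀.choose 2 : ℕ) + r * p)) : ℤ_[p]) : ℚ_[p]) := by
        have h4 : (1 + (p : ℚ_[p])) ^ l₀ = (((1 + (p : ℤ_[p])) ^ l₀ : ℤ_[p]) : ℚ_[p]) := by
          push_cast; rfl
        have h5 : z = (((1 + (p : ℤ_[p]) * c) : ℤ_[p]) : ℚ_[p]) := by
          rw [hc]; push_cast; rfl
        have h6 : c = (l₀ : ℤ_[p]) + (p : ℤ_[p]) * e := by rw [← he]; ring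
        have h9 : (1 + (p : ℤ_[p]) * c) - (1 + (p : ℤ_[p])) ^ l₀ =
            (p : ℤ_[p]) ^ 2 * (e - ((l₀.choose 2 : ℕ) + r * p)) := by
          rw [hr]
          have h10 : (p : ℤ_[p]) * c = p * l₀ + (p : ℤ_[p]) ^ 2 * e := by
            calc (p : ℤ_[p]) * c = p * ((l₀ : ℤ_[p]) + (p : ℤ_[p]) * e) := by rw [← h6]
              _ = _ := by ring
          rw [h10]
          ring
        rw [h4, h5, ← PadicInt.coe_sub, h9]
      rw [h3, ← PadicInt.norm_def]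
      exact qpr_norm _ 2
    obtain ⟨t₁, ht₁, ht₂⟩ := qp_proot hp2 _ hz2
    obtain ⟨l₁, t, ht3, ht4⟩ := ih t₁ ht₁
    refine ⟨l₀ + p * l₁, t, ht3, ?_⟩
    have h7 : z = (1 + (p : ℚ_[p])) ^ l₀ * t₁ ^ p := by
      rw [ht₂]; field_simp
    rw [h7, ht4, mul_pow, ← pow_mul, ← pow_mul, pow_add, pow_succ, mul_comm l₁ p, mul_assoc]

end Pool.Agent.H72.RM
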