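import Pool.Agent.H72.RM.PStep
import Pool.Agent.H72.RM.Gam

/-!
# Module Tower: descent to the level `∏ S`

`R = ∏_{q ∈ S} q`. For `p ∈ S` let `c_p` be the constant of `pstep`, `c = min (1, min_p c_p)`.
Strong induction on `N`. If `N ∣ R` then `y ∈ RF n R` (`rf_mono`), take `γ' = γ`, `y' = y`. Otherwise there is
`p ∈ S` with `p^2 ∣ N` (all prime factors of `N` are in `S`, so if `N` is squarefree it divides `R`).
Write `N = p^k N₀`, `p ∤ N₀`, `k ≥ 2`. `F' = RF n N₀`. By `gam_root` there are `n'`, `N'` prime to `p`,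
`n ∣ n'`, `N₀ ∣ N'`, and `j` with `γ^(p^j) ∈ F'' = RF n' N'`. `F' ≤ F''` (`rf_mono`), `rf_finite`,
`rf_stable`, `rf_W`; `‖ι (σ γ)‖ = 1` by `gam_map`, `gam_norm`; `y ∈ LF b F' (p^k)` by `rf_le_lf`. If
`absLogHeight₁ (γ y) < c ≤ c_p` then `pstep` gives `γ₁` with `γ₁^(p^k) = ∏ (b i)^(m i)`, so
`γ₁ ∈ GammaS` (`gam_of_pow`), and `y₁ = y / γ₁ ∈ LF b F' (p^(k-1)) ≤ RF n (p^(k-1) N₀)` (`lf_le_rf`).
`γ y = (γ γ₁) y₁`, `γ γ₁ ∈ GammaS` (`gam_mul`), and `p^(k-1) N₀ = N / p < N`: induction hypothesis.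
-/

set_option autoImplicit false
set_option linter.unusedSectionVars false

open NumberField IntermediateField

namespace Pool.Agent.H72.RM

variable {K Ω : Type} [Field K] [NumberField K] [Field Ω] [CharZero Ω] [IsAlgClosed Ω]
  [Algebra K Ω] [IsGalois K Ω] {r : ℕ} {b : Fin r → K}

private theorem tower_step {S : Set ℕ} (p : ℕ) [Fact p.Prime] (ι : Ω →+* PadicAlgCl p)
    (v : PadicAlgCl p) (D : PData K Ω p (PadicAlgCl p) b ι v) :
    ∃ c : ℝ, 0 < c ∧ ∀ n N₀ k : ℕ, 1 ≤ n → ¬ p ∣ n → 1 ≤ N₀ → ¬ p ∣ N₀ → 2 ≤ k →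
      ∀ γ y : Ω, γ ∈ GammaS Ω b S → y ∈ RF Ω b n (p ^ k * N₀) → y ≠ 0 →
      absLogHeight₁ (γ * y) < c →
      ∃ γ₁ : Ω, γ₁ ≠ 0 ∧ (∃ m : Fin r → ℤ, γ₁ ^ (p ^ k) = ∏ i, (algebraMap K Ω (b i)) ^ (m i)) ∧
        y / γ₁ ∈ RF Ω b n (p ^ (k - 1) * N₀) := by
  have hp : p.Prime := Fact.out
  obtain ⟨c, hc, h⟩ := pstep D
  refine ⟨c, hc, fun n N₀ k hn1 hn hN1 hN hk γ y hγ hy hy0 hlt => ?_⟩
  obtain ⟨j, n', N', hn', hN', hn1', hN1', hnn, hNN, hroot⟩ :=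
    gam_root D.b_ne p hp γ hγ n N₀ hn1 hN1 hn hN
  have h1 := h (RF Ω b n N₀) (RF Ω b n' N') (rf_mono b n N₀ n' N' hnn hNN hn1' hN1')
    (rf_finite b n' N' hn1' hN1') (fun σ x hx => rf_stable b n N₀ σ x hx)
    (fun σ x hx => rf_stable b n' N' σ x hx) (fun x hx => rf_W D n' N' hn' hN' x hx) k hk γ y
    (gam_ne_zero D.b_ne hγ) hy0 ⟨j, hroot⟩ (fun σ => gam_norm D (σ γ) (gam_map hγ σ))
    (rf_le_lf b p k n N₀ hp hN hy)
  rcases h1 with h1 | ⟨γ₁, h2, h3, h4⟩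
  · exact absurd hlt (not_lt.mpr h1)
  · exact ⟨γ₁, h2, h3, lf_le_rf b p (k - 1) n N₀ hp hn1 hN1 h4⟩

private theorem tower_common (S : Finset ℕ) (Q : ℕ → ℝ → Prop)
    (hmono : ∀ p c c', Q p c → c' ≤ c → Q p c') (h : ∀ p ∈ S, ∃ c : ℝ, 0 < c ∧ Q p c) :
    ∃ c : ℝ, 0 < c ∧ ∀ p ∈ S, Q p c := by
  classical
  induction S using Finset.induction_on with
  | empty => exact ⟨1, one_pos, fun p hp => absurd hp (Finset.notMem_empty p)⟩
  | insert a S _ ih =>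
    obtain ⟨c, hc, h1⟩ := ih (fun p hp => h p (Finset.mem_insert_of_mem hp))
    obtain ⟨c', hc', h2⟩ := h a (Finset.mem_insert_self a S)
    refine ⟨min c c', lt_min hc hc', fun p hp => ?_⟩
    rcases Finset.mem_insert.1 hp with rfl | hp
    · exact hmono _ _ _ h2 (min_le_right _ _)
    · exact hmono _ _ _ (h1 p hp) (min_le_left _ _)

theorem rad_tower (S : Finset ℕ)
    (hD : ∀ p ∈ S, ∃ (_ : Fact p.Prime) (ι : Ω →+* PadicAlgCl p) (v : PadicAlgCl p),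
      PData K Ω p (PadicAlgCl p) b ι v) :
    ∃ c : ℝ, 0 < c ∧ ∀ n : ℕ, 1 ≤ n → (∀ q ∈ S, ¬ q ∣ n) → ∀ N : ℕ, 1 ≤ N →
      (∀ q : ℕ, q.Prime → q ∣ N → q ∈ S) → ∀ γ y : Ω, γ ∈ GammaS Ω b (S : Set ℕ) →
      y ∈ RF Ω b n N → y ≠ 0 → absLogHeight₁ (γ * y) < c →
      ∃ γ' ∈ GammaS Ω b (S : Set ℕ), ∃ y' ∈ RF Ω b n (∏ q ∈ S, q), y' ≠ 0 ∧ γ * y = γ' * y' := by
  have hSp : ∀ p ∈ S, p.Prime := by
    intro p hp
    obtain ⟨h, _⟩ := hD p hp
    exact h.out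
  obtain ⟨c, hc, hstep⟩ := tower_common S (fun p c => ∀ n N₀ k : ℕ, 1 ≤ n → ¬ p ∣ n → 1 ≤ N₀ →
      ¬ p ∣ N₀ → 2 ≤ k →
      ∀ γ y : Ω, γ ∈ GammaS Ω b (S : Set ℕ) → y ∈ RF Ω b n (p ^ k * N₀) → y ≠ 0 →
      absLogHeight₁ (γ * y) < c →
      ∃ γ₁ : Ω, γ₁ ≠ 0 ∧ (∃ m : Fin r → ℤ, γ₁ ^ (p ^ k) = ∏ i, (algebraMap K Ω (b i)) ^ (m i)) ∧
        y / γ₁ ∈ RF Ω b n (p ^ (k - 1) * N₀))
    (fun p c c' h hcc n N₀ k h1 h2 h3 h4 h5 γ y h6 h7 h8 h9 =>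
      h n N₀ k h1 h2 h3 h4 h5 γ y h6 h7 h8 (lt_of_lt_of_le h9 hcc))
    (fun p hp => by
      obtain ⟨hfact, ι, v, D⟩ := hD p hp
      exact tower_step p ι v D)
  have hR1 : 1 ≤ ∏ q ∈ S, q := Finset.prod_pos fun q hq => (hSp q hq).pos
  refine ⟨c, hc, fun n hn1 hn N => ?_⟩
  induction N using Nat.strong_induction_on with
  | _ N ih =>
    intro hN1 hNS γ y hγ hy hy0 hlt
    by_cases hdvd : N ∣ ∏ q ∈ S, q
    · exact ⟨γ, hγ, y, rf_mono b n N n _ dvd_rfl hdvd hn1 hR1 hy, hy0, rfl⟩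
    · obtain ⟨p, hpS, hp2⟩ : ∃ p ∈ S, p * p ∣ N := by
        by_contra hcon
        push Not at hcon
        apply hdvd
        have hsq : Squarefree N := by
          rw [Nat.squarefree_iff_prime_squarefree]
          intro q hq hqq
          exact hcon q (hNS q hq (dvd_of_mul_left_dvd hqq)) hqq
        rw [← Nat.prod_primeFactors_of_squarefree hsq]
        apply Finset.prod_dvd_prod_of_subset
        intro q hq
        rw [Nat.mem_primeFactors] at hq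
        exact hNS q hq.1 hq.2.1
      have hp := hSp p hpS
      obtain ⟨k, N₀, hN₀, hNeq⟩ := Nat.exists_eq_pow_mul_and_not_dvd
        (Nat.one_le_iff_ne_zero.1 hN1) p hp.ne_one
      have hN₀1 : 1 ≤ N₀ := by
        rcases Nat.eq_zero_or_pos N₀ with h | h
        · rw [h] at hN₀
          exact absurd (dvd_zero p) hN₀
        · exact h
      have hk : 2 ≤ k := by
        by_contra hcon
        have hk' : k = 0 ∨ k = 1 := by omega
        rcases hk' with h | h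
        · rw [h, pow_zero, one_mul] at hNeq
          rw [hNeq] at hp2
          exact hN₀ (dvd_of_mul_left_dvd hp2)
        · rw [h, pow_one] at hNeq
          rw [hNeq] at hp2
          exact hN₀ ((Nat.mul_dvd_mul_iff_left hp.pos).1 hp2)
      rw [hNeq] at hy
      obtain ⟨γ₁, h1, ⟨m, h2⟩, h3⟩ := hstep p hpS n N₀ k hn1 (hn p hpS) hN₀1 hN₀ hk γ y hγ hy hy0
        hlt
      have hγ₁ : γ₁ ∈ GammaS Ω b (S : Set ℕ) := by
        refine gam_of_pow (p ^ k) (Nat.one_le_pow _ _ hp.pos) ?_ m h2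
        intro q hq hqp
        have h4 : q = p := (Nat.prime_dvd_prime_iff_eq hq hp).1 (hq.dvd_of_dvd_pow hqp)
        rw [h4]
        exact Finset.mem_coe.2 hpS
      have hlt' : p ^ (k - 1) * N₀ < N := by
        rw [hNeq]
        exact Nat.mul_lt_mul_of_pos_right (Nat.pow_lt_pow_right hp.one_lt (by omega)) hN₀1
      have heq : (γ * γ₁) * (y / γ₁) = γ * y := by
        field_simp
      have h5 := ih (p ^ (k - 1) * N₀) hlt'
        (Nat.mul_pos (Nat.pow_pos hp.pos) hN₀1)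
        (fun q hq hqd => hNS q hq (by
          rw [hNeq]
          refine hqd.trans (Nat.mul_dvd_mul_right (pow_dvd_pow p (by omega)) N₀)))
        (γ * γ₁) (y / γ₁) (gam_mul hγ hγ₁) h3 (div_ne_zero hy0 h1) (by rw [heq]; exact hlt)
      obtain ⟨γ', hγ', y', hy', hy0', h6⟩ := h5
      exact ⟨γ', hγ', y', hy', hy0', by rw [← heq]; exact h6⟩

end Pool.Agent.H72.RM
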